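import Mathlib
import Pool.Agent.W69.MH.Stm
import Pool.Agent.W333.MH.FL
import Pool.Agent.W933.MH.Sum
import Pool.Agent.W505.MH.Diff
import Pool.Agent.W505.MH.BT
import Pool.Agent.W74.MH.B0
import Pool.Agent.W440.MH.B2
import Pool.Agent.W639.MH.Alg
import Pool.Agent.W215.MH.Eul
import Pool.Agent.W193.MH.Cls
import Pool.Agent.W701.MH.Abs
import Pool.Agent.W215.MH.Lin
import Pool.Agent.W803.MH.Tail
import Pool.Agent.W803.MH.Real
import Pool.Agent.W928.MH.PR

/-!
# Many primes in progressions modulo powers of two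

This is `Pool.Agent.W69.MH.St_PR` of the starting files, whose proof is assembled inside
`Pool.Agent.W69.MH.main`.
-/

set_option autoImplicit false

namespace Pool.Agent.K9h69.Menon

open Pool.Agent.W69.MH

theorem st_pr : St_PR := by
  have hSUM := Pool.Agent.W933.MHSum.sum_
  have hFL := Pool.Agent.W333.MH.fl
  have hDIFF := Pool.Agent.W505.MH.diff hFL hSUM
  have hA0 := Pool.Agent.W505.MH.a0 hFL hSUM
  have hCLS := Pool.Agent.W193.MH.Cls.cls hSUM
  have hB0 := Pool.Agent.H262R3.Lk.b0 Pool.Agent.W505.MH.bt hSUM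
  have hB2 := Pool.Agent.W440.MH.b2 hSUM
  have hALG := Pool.Agent.H262R3.Lk.alg hSUM
  have hLIN := Pool.Agent.W215.MH.lin hSUM hDIFF hA0 hB0 hB2 hALG Pool.Agent.W215.MH.eul hCLS
    Pool.Agent.W701.MH.abs_
  have hTAIL := Pool.Agent.W803.MH.tail Pool.Agent.W505.MH.bt hSUM
  exact Pool.Agent.W928.MH.pr hLIN hTAIL Pool.Agent.W803.MH.real_

end Pool.Agent.K9h69.Menon
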