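import Pool.Agent.K9h69.Menon.Main
import Pool.Agent.K9h69.Menon.Pr

/-!
# Menon designs for many primes `u ≡ -1 (mod 2 ^ s)`
-/

set_option autoImplicit false

namespace Pool.Agent.K9h69.Menon

open Finset
open Pool.Agent.W851.Had (tow main_had tow_succ tow_pos tow_zero)
open Pool.Agent.H108R3.Had (HasHad)
open Pool.Agent.H114R2 (IsSymDesign)
open Pool.Agent.W69.MH (St_PR)

/-- there is a symmetric design with the Menon parameters of `u` -/
def HasMenon (u : ℕ) : Prop := ∃ B : Fin (4 * u ^ 2) → Finset (Fin (4 * u ^ 2)),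
  IsSymDesign (4 * u ^ 2) (2 * u ^ 2 - u) (u ^ 2 - u) B

theorem menon_of_tow : ∃ C : ℕ, 2 ≤ C ∧ ∀ n u t : ℕ, IsPrimePow u → u ^ 2 ≤ tow n →
    C ^ (n + 1) ≤ t → 2 ^ t ∣ u + 1 → HasMenon u := by
  obtain ⟨C, hC2, hC⟩ := main_had
  refine ⟨C, hC2, fun n u t hu hn ht hd => ?_⟩
  have ht2 : 2 ≤ t := by
    refine le_trans ?_ ht
    calc 2 ≤ C := hC2
      _ = C ^ 1 := (pow_one C).symm
      _ ≤ C ^ (n + 1) := Nat.pow_le_pow_right (by omega) (by omega)
  have h4 : u % 4 = 3 := by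
    have h5 : 2 ^ 2 ∣ u + 1 := (pow_dvd_pow 2 ht2).trans hd
    omega
  apply menon_prime_pow hu h4
  have h6 : 2 ^ t ∣ u ^ 2 - 1 := by
    have h7 : u ^ 2 - 1 = (u + 1) * (u - 1) := by
      rw [← Nat.sq_sub_sq, one_pow]
    rw [h7]
    exact hd.mul_right _
  obtain ⟨m, hm⟩ := h6
  have h8 : m ≤ tow n := by
    have h9 : m ≤ u ^ 2 - 1 := by
      rw [hm]
      exact Nat.le_mul_of_pos_left m (by positivity)
    omega
  have h10 := hC n m t h8 ht
  rw [← hm] at h10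
  exact h10

theorem tow_ge (m : ℕ) : m + 1 ≤ tow m := by
  induction m with
  | zero => rw [tow_zero]
  | succ m ih =>
    rw [tow_succ]
    have h1 : m + 1 < 2 ^ (m + 1) := Nat.lt_two_pow_self
    have h2 : 2 ^ (m + 1) ≤ 2 ^ tow m := Nat.pow_le_pow_right (by norm_num) ih
    omega

theorem two_pow_growth (a : ℕ) : ∀ m, 2 * a + 10 ≤ m → a * (m + 8) ≤ 2 ^ (m + 1) := by
  intro m hm
  induction m, hm using Nat.le_induction with
  | base =>
    have h1 : a + 1 ≤ 2 ^ a := Nat.lt_two_pow_self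
    have h2 : 2 ^ (2 * a + 10 + 1) = 2048 * (2 ^ a * 2 ^ a) := by
      rw [show 2 * a + 10 + 1 = a + a + 11 by ring, pow_add, pow_add]
      ring
    rw [h2]
    have h3 := Nat.mul_le_mul h1 h1
    nlinarith
  | succ m hm ih =>
    have h1 : 2 ^ (m + 1 + 1) = 2 * 2 ^ (m + 1) := by rw [pow_succ]; ring
    rw [h1]
    nlinarith

theorem tow_growth (a : ℕ) : ∃ m0, ∀ m, m0 ≤ m → a ^ (m + 6) ≤ tow m := by
  refine ⟨2 * a + 12, fun m hm => ?_⟩
  obtain ⟨k, rfl⟩ : ∃ k, m = k + 2 := ⟨m - 2, by omega⟩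
  have h1 := two_pow_growth a k (by omega)
  rw [tow_succ]
  have h2 : 2 ^ (k + 1) ≤ tow (k + 1) := by
    rw [tow_succ]
    exact Nat.pow_le_pow_right (by norm_num) (tow_ge k)
  calc a ^ (k + 2 + 6) ≤ (2 ^ a) ^ (k + 2 + 6) := Nat.pow_le_pow_left Nat.lt_two_pow_self.le _
    _ = 2 ^ (a * (k + 8)) := by rw [← pow_mul]
    _ ≤ 2 ^ (2 ^ (k + 1)) := Nat.pow_le_pow_right (by norm_num) h1
    _ ≤ 2 ^ tow (k + 1) := Nat.pow_le_pow_right (by norm_num) h2

/-- lower bound for `log log x` -/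
theorem loglog_ge {x T : ℕ} (hT : 3 ≤ T) (hx : 2 ^ 2 ^ 2 ^ T < x ^ 2) :
    (2 : ℝ) ^ T / 4 ≤ Real.log (Real.log x) := by
  have hx0 : 0 < x := by
    rcases Nat.eq_zero_or_pos x with h | h
    · subst h; simp at hx
    · exact h
  have hl2 : (0.6931471803 : ℝ) < Real.log 2 := Real.log_two_gt_d9
  have h1 : ((2 : ℝ) ^ (2 ^ 2 ^ T)) < (x : ℝ) ^ 2 := by exact_mod_cast hx
  have h2 : ((2 ^ 2 ^ T : ℕ) : ℝ) * Real.log 2 < 2 * Real.log x := by
    have h3 := Real.log_lt_log (by positivity) h1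
    rw [Real.log_pow, Real.log_pow] at h3
    exact_mod_cast h3
  have h4 : ((2 : ℝ) ^ (2 ^ T)) / 4 ≤ Real.log x := by
    have h5 : (0 : ℝ) < (2 : ℝ) ^ (2 ^ T) := by positivity
    push_cast at h2
    nlinarith
  have h6 : Real.log ((2 : ℝ) ^ (2 ^ T) / 4) ≤ Real.log (Real.log x) :=
    Real.log_le_log (by positivity) h4
  rw [Real.log_div (by positivity) (by norm_num), Real.log_pow] at h6
  have h7 : Real.log 4 = 2 * Real.log 2 := by
    rw [show (4 : ℝ) = 2 ^ 2 by norm_num, Real.log_pow]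
    norm_num
  rw [h7] at h6
  push_cast at h6
  have h8 : (8 : ℝ) ≤ 2 ^ T := by
    calc (8 : ℝ) = 2 ^ 3 := by norm_num
      _ ≤ 2 ^ T := pow_le_pow_right₀ (by norm_num) hT
  have hl3 : Real.log 2 < 0.6931471808 := Real.log_two_lt_d9
  nlinarith

/-- choice of the parameters -/
theorem choose_nt (C s : ℕ) (hC : 2 ≤ C) (ε c : ℝ) (hε : 0 < ε) (hc : 0 < c) :
    ∃ x0 : ℕ, ∀ x : ℕ, x0 ≤ x → ∃ n t : ℕ, x ^ 2 ≤ tow n ∧ C ^ (n + 1) ≤ t ∧ s ≤ t ∧
      (2 : ℝ) ^ t ≤ c * (Real.log (Real.log x)) ^ ε := by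
  obtain ⟨E, hE⟩ := exists_nat_ge (1 / ε)
  obtain ⟨k0, hk0⟩ := exists_nat_ge (1 / c)
  obtain ⟨m0, hm0⟩ := tow_growth (C + (2 + E + E * k0))
  refine ⟨tow (m0 + s + 10), fun x hx => ?_⟩
  have hex : ∃ n, x ^ 2 ≤ tow n := ⟨x ^ 2, (Nat.le_succ _).trans (tow_ge _)⟩
  classical
  set n := Nat.find hex with hn
  have hn1 : x ^ 2 ≤ tow n := Nat.find_spec hex
  have hmono : Monotone tow := by
    refine monotone_nat_of_le_succ fun k => ?_
    rw [tow_succ]
    exact Nat.lt_two_pow_self.le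
  have hx1 : 1 ≤ x := le_trans (tow_pos _) hx
  have hn2 : m0 + s + 10 ≤ n := by
    by_contra h
    have h1 : tow n < tow (m0 + s + 10) := by
      have h2 : tow (m0 + s + 9) < tow (m0 + s + 9 + 1) := by
        rw [tow_succ (m0 + s + 9)]
        exact Nat.lt_two_pow_self
      exact lt_of_le_of_lt (hmono (by omega)) h2
    have h3 : x ≤ x ^ 2 := Nat.le_self_pow (by norm_num) x
    omega
  obtain ⟨m, hm⟩ : ∃ m, n = m + 4 := ⟨n - 4, by omega⟩
  have hn3 : tow (m + 3) < x ^ 2 := by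
    have h1 := Nat.find_min hex (m := m + 3) (by omega)
    omega
  rw [tow_succ, tow_succ, tow_succ] at hn3
  set T := tow m with hT
  have hT3 : 3 ≤ T := by
    have := tow_ge m
    omega
  have hL := loglog_ge hT3 hn3
  refine ⟨n, C ^ (n + 1), hn1, le_rfl, ?_, ?_⟩
  · have h1 : n + 1 < C ^ (n + 1) := Nat.lt_pow_self (by omega)
    omega
  have hg := hm0 m (by omega)
  -- the exponent
  have h1 : (2 + E + E * k0) * C ^ (n + 1) ≤ T := by
    refine le_trans ?_ hg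
    calc (2 + E + E * k0) * C ^ (n + 1) = C ^ (m + 5) * (2 + E + E * k0) := by
          rw [hm, mul_comm]
      _ ≤ (C + (2 + E + E * k0)) ^ (m + 5) * (C + (2 + E + E * k0)) :=
          Nat.mul_le_mul (Nat.pow_le_pow_left (by omega) _) (by omega)
      _ = (C + (2 + E + E * k0)) ^ (m + 6) := by rw [← pow_succ]
  set t := C ^ (n + 1) with ht
  have ht1 : 1 ≤ t := Nat.one_le_pow _ _ (by omega)
  have h2 : 2 + E * (t + k0) ≤ T := by
    refine le_trans ?_ h1
    have h3 : E * k0 ≤ E * k0 * t := Nat.le_mul_of_pos_right _ (by omega)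
    nlinarith
  have hLpos : (0 : ℝ) < (2 : ℝ) ^ T / 4 := by positivity
  have h3 : ((2 : ℝ) ^ (E * (t + k0))) ^ ε ≤ (Real.log (Real.log x)) ^ ε := by
    apply Real.rpow_le_rpow (by positivity) _ hε.le
    refine le_trans ?_ hL
    have h4 : (2 : ℝ) ^ T = 2 ^ (T - 2) * 4 := by
      have : T = (T - 2) + 2 := by omega
      conv_lhs => rw [this, pow_add]
      norm_num
    rw [h4, mul_div_assoc, div_self (by norm_num), mul_one]
    exact pow_le_pow_right₀ (by norm_num) (by omega)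
  have h5 : (2 : ℝ) ^ (t + k0) ≤ ((2 : ℝ) ^ (E * (t + k0))) ^ ε := by
    have e1 : ((2 : ℝ) ^ (E * (t + k0))) ^ ε = 2 ^ (((E * (t + k0) : ℕ) : ℝ) * ε) := by
      rw [← Real.rpow_natCast, ← Real.rpow_mul (by norm_num)]
    have e2 : (2 : ℝ) ^ (t + k0) = 2 ^ ((t + k0 : ℕ) : ℝ) := (Real.rpow_natCast _ _).symm
    rw [e1, e2]
    apply Real.rpow_le_rpow_of_exponent_le (by norm_num)
    rw [Nat.cast_mul]
    have h6 : 1 ≤ (E : ℝ) * ε := by
      rw [div_le_iff₀ hε] at hE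
      exact hE
    have h7 : (0 : ℝ) ≤ ((t + k0 : ℕ) : ℝ) := by positivity
    nlinarith
  have h8 : (1 : ℝ) ≤ c * 2 ^ k0 := by
    have h9 : (k0 : ℝ) ≤ 2 ^ k0 := by
      exact_mod_cast Nat.lt_two_pow_self.le
    rw [div_le_iff₀ hc] at hk0
    nlinarith
  calc (2 : ℝ) ^ t ≤ 2 ^ t * (c * 2 ^ k0) := le_mul_of_one_le_right (by positivity) h8
    _ = c * 2 ^ (t + k0) := by rw [pow_add]; ring
    _ ≤ c * (Real.log (Real.log x)) ^ ε := mul_le_mul_of_nonneg_left (h5.trans h3) hc.le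

/-- primes in the class of `-1`, over several scales -/
theorem scales : ∃ (K : ℕ) (c : ℝ), 2 ≤ K ∧ 0 < c ∧ ∃ z0 : ℕ, ∀ z t : ℕ, z0 ≤ z → 1 ≤ t →
    (2 ^ t) ^ 8 ≤ z → ∀ J : ℕ, J * (c / 2 ^ t) ≤
      ∑ p ∈ (Ioc z (z ^ K ^ J)).filter (fun p => p.Prime ∧ 2 ^ t ∣ p + 1), (1 : ℝ) / p := by
  obtain ⟨K, c, hK, hc, h⟩ := st_pr
  obtain ⟨z0, hz0⟩ := h 0
  refine ⟨K + 1, c, by omega, hc, max z0 1, fun z t hz ht hz8 J => ?_⟩
  have hz1 : 1 ≤ z := le_trans (le_max_right _ _) hz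
  have hz0' : z0 ≤ z := le_trans (le_max_left _ _) hz
  induction J with
  | zero => simp
  | succ J ih =>
    set w := z ^ (K + 1) ^ J with hw
    have hzw : z ≤ w := Nat.le_self_pow (by positivity) z
    have hw1 : 1 ≤ w := hz1.trans hzw
    have h1 := hz0 w (hz0'.trans hzw) t 1 (2 ^ t - 1) odd_one (by simp) (by
      rw [mul_one]; exact hz8.trans hzw) (by
      rw [mul_one]
      have h2 : (2 ^ t - 1).Coprime ((2 ^ t - 1) + 1) := by simp
      rwa [Nat.sub_add_cancel Nat.one_le_two_pow] at h2)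
    rw [mul_one] at h1
    have h4 : c / 2 ^ t ≤ c / ((2 ^ t).totient : ℝ) := by
      apply div_le_div_of_nonneg_left hc.le
      · exact_mod_cast Nat.totient_pos.2 (by positivity)
      · exact_mod_cast Nat.totient_le _
    have h5 : z ^ (K + 1) ^ (J + 1) = w ^ (K + 1) := by
      rw [hw, ← pow_mul, ← pow_succ]
    rw [h5]
    have h6 : ∑ p ∈ (Ioc w (w ^ K)).filter (fun p => p.Prime ∧ p ≡ 2 ^ t - 1 [MOD 2 ^ t]),
        (1 : ℝ) / p ≤
        ∑ p ∈ (Ioc w (w ^ (K + 1))).filter (fun p => p.Prime ∧ 2 ^ t ∣ p + 1), (1 : ℝ) / p := by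
      apply sum_le_sum_of_subset_of_nonneg
      · intro p hp
        rw [mem_filter, mem_Ioc] at hp ⊢
        refine ⟨⟨hp.1.1, hp.1.2.trans (Nat.pow_le_pow_right hw1 (by omega))⟩, hp.2.1, ?_⟩
        have h7 : p + 1 ≡ 2 ^ t - 1 + 1 [MOD 2 ^ t] := hp.2.2.add_right 1
        have h8 : 2 ^ t - 1 + 1 = 2 ^ t := by
          have : 1 ≤ 2 ^ t := Nat.one_le_two_pow
          omega
        rw [h8] at h7
        have h9 : p + 1 ≡ 0 [MOD 2 ^ t] := h7.trans (by
          unfold Nat.ModEq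
          simp)
        exact (Nat.modEq_zero_iff_dvd).1 h9
      · intros; positivity
    have h10 : ∑ p ∈ (Ioc z (w ^ (K + 1))).filter (fun p => p.Prime ∧ 2 ^ t ∣ p + 1), (1 : ℝ) / p =
        ∑ p ∈ (Ioc z w).filter (fun p => p.Prime ∧ 2 ^ t ∣ p + 1), (1 : ℝ) / p +
        ∑ p ∈ (Ioc w (w ^ (K + 1))).filter (fun p => p.Prime ∧ 2 ^ t ∣ p + 1), (1 : ℝ) / p := by
      rw [← sum_union]
      · congr 1
        rw [← filter_union, Ioc_union_Ioc_eq_Ioc hzw (Nat.le_self_pow (by omega) w)]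
      · exact disjoint_filter_filter (Ioc_disjoint_Ioc_of_le le_rfl)
    rw [h10]
    push_cast
    nlinarith [h1, h4, h6, ih]

open scoped Classical in
/-- **Menon designs for many primes.** -/
theorem many (s : ℕ) (ε : ℝ) (hε : 0 < ε) (hε1 : ε < 1) : ∃ x0 : ℕ, ∀ x : ℕ, x0 ≤ x →
    (Real.log (Real.log x)) ^ (1 - ε) ≤
      ∑ u ∈ (Finset.range (x + 1)).filter (fun u => u.Prime ∧ 2 ^ s ∣ u + 1 ∧ HasMenon u),
        (1 : ℝ) / u := by
  obtain ⟨C, hC2, hC⟩ := menon_of_tow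
  obtain ⟨K, c, hK, hc, z0, hsc⟩ := scales
  have hκ : 0 < Real.log K := Real.log_pos (by exact_mod_cast (by omega : 1 < K))
  set κ := Real.log K with hκd
  set c' := min 1 (c / (4 * κ)) with hc'd
  have hc' : 0 < c' := lt_min one_pos (by positivity)
  obtain ⟨x1, hx1⟩ := choose_nt C (max s 1) hC2 ε c' hε hc'
  have htend : Filter.Tendsto (fun x : ℕ => Real.log (Real.log x)) Filter.atTop Filter.atTop :=
    Real.tendsto_log_atTop.comp (Real.tendsto_log_atTop.comp tendsto_natCast_atTop_atTop)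
  obtain ⟨x2, hx2⟩ := Filter.eventually_atTop.1
    (htend.eventually_ge_atTop (max (z0 + 72 : ℝ) (4 * κ)))
  refine ⟨max x1 (max x2 3), fun x hx => ?_⟩
  have hxx1 : x1 ≤ x := le_trans (le_max_left _ _) hx
  have hxx2 : x2 ≤ x := le_trans (le_trans (le_max_left _ _) (le_max_right _ _)) hx
  have hxx3 : 3 ≤ x := le_trans (le_trans (le_max_right _ _) (le_max_right _ _)) hx
  obtain ⟨n, t, hn, ht, hst, h2t⟩ := hx1 x hxx1
  have hL1 := hx2 x hxx2
  set L := Real.log (Real.log x) with hLd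
  have hL72 : (z0 : ℝ) + 72 ≤ L := le_trans (le_max_left _ _) hL1
  have hLκ : 4 * κ ≤ L := le_trans (le_max_right _ _) hL1
  have hz0 : (0 : ℝ) ≤ z0 := Nat.cast_nonneg _
  have hL0 : 0 < L := by linarith
  have hlx : 0 < Real.log x := Real.log_pos (by exact_mod_cast (by omega : 1 < x))
  have hexpL : Real.exp L = Real.log x := Real.exp_log hlx
  have hLe : L ^ ε ≤ L := by
    calc L ^ ε ≤ L ^ (1 : ℝ) := Real.rpow_le_rpow_of_exponent_le (by linarith) hε1.le
      _ = L := Real.rpow_one L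
  have hLepos : 0 < L ^ ε := Real.rpow_pos_of_pos hL0 ε
  have htL : (t : ℝ) ≤ L := by
    have h1 : (t : ℝ) ≤ 2 ^ t := by exact_mod_cast Nat.lt_two_pow_self.le
    have h2 : c' * L ^ ε ≤ 1 * L ^ ε := mul_le_mul_of_nonneg_right (min_le_left _ _) hLepos.le
    linarith
  set z := 2 ^ (8 * t + z0) with hz
  have hzz0 : z0 ≤ z := by
    calc z0 ≤ 2 ^ z0 := Nat.lt_two_pow_self.le
      _ ≤ 2 ^ (8 * t + z0) := Nat.pow_le_pow_right (by norm_num) (by omega)
  have hz8 : (2 ^ t) ^ 8 ≤ z := by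
    rw [← pow_mul]
    exact Nat.pow_le_pow_right (by norm_num) (by omega)
  have hlogz : Real.log z ≤ 9 * L := by
    rw [hz]
    push_cast
    rw [Real.log_pow]
    push_cast
    have h1 : Real.log 2 ≤ 1 := by
      have := Real.log_two_lt_d9
      linarith
    have h2 : (0 : ℝ) ≤ 8 * t + z0 := by positivity
    nlinarith
  set J := ⌊L / (2 * κ)⌋₊ with hJ
  have hJ1 : (J : ℝ) ≤ L / (2 * κ) := Nat.floor_le (by positivity)
  have hJ2 : L / (2 * κ) < J + 1 := Nat.lt_floor_add_one _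
  have hKJ : (K : ℝ) ^ J ≤ Real.exp (L / 2) := by
    have h1 : (K : ℝ) ^ J = Real.exp (J * κ) := by
      rw [mul_comm, Real.exp_mul, Real.exp_log (by exact_mod_cast (by omega : 0 < K)),
        Real.rpow_natCast]
    rw [h1]
    apply Real.exp_le_exp.2
    have h2 : (J : ℝ) * κ ≤ L / (2 * κ) * κ := mul_le_mul_of_nonneg_right hJ1 hκ.le
    have h3 : L / (2 * κ) * κ = L / 2 := by field_simp
    linarith
  have hzx : z ^ K ^ J ≤ x := by
    have h1 : Real.log ((z : ℝ) ^ K ^ J) ≤ Real.log x := by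
      rw [Real.log_pow, ← hexpL]
      push_cast
      have h2 : Real.exp L = Real.exp (L / 2) * Real.exp (L / 2) := by
        rw [← Real.exp_add]
        congr 1
        ring
      have h3 : 9 * L ≤ Real.exp (L / 2) := by
        have h4 := Real.quadratic_le_exp_of_nonneg (by positivity : 0 ≤ L / 2)
        nlinarith
      rw [h2]
      have h5 : 0 ≤ Real.log z := Real.log_natCast_nonneg _
      exact mul_le_mul hKJ (hlogz.trans h3) h5 (Real.exp_pos _).le
    have hz1 : (0 : ℝ) < (z : ℝ) ^ K ^ J := by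
      have : 0 < z := by rw [hz]; positivity
      positivity
    have h6 := (Real.log_le_log_iff hz1 (by exact_mod_cast (by omega : 0 < x))).1 h1
    exact_mod_cast h6
  have ht1 : 1 ≤ t := le_trans (le_max_right _ _) hst
  have hmain := hsc z t hzz0 ht1 hz8 J
  have hsub : ∑ p ∈ (Ioc z (z ^ K ^ J)).filter (fun p => p.Prime ∧ 2 ^ t ∣ p + 1), (1 : ℝ) / p ≤
      ∑ u ∈ (Finset.range (x + 1)).filter (fun u => u.Prime ∧ 2 ^ s ∣ u + 1 ∧ HasMenon u),
        (1 : ℝ) / u := by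
    apply sum_le_sum_of_subset_of_nonneg
    · intro p hp
      rw [mem_filter, mem_Ioc] at hp
      rw [mem_filter, mem_range]
      obtain ⟨⟨hp1, hp2⟩, hp3, hp4⟩ := hp
      have hpx : p ≤ x := hp2.trans hzx
      refine ⟨by omega, hp3, ?_, ?_⟩
      · exact (pow_dvd_pow 2 (le_trans (le_max_left _ _) hst)).trans hp4
      · exact hC n p t hp3.isPrimePow ((Nat.pow_le_pow_left hpx 2).trans hn) ht hp4
    · intros; positivity
  refine le_trans ?_ (hmain.trans hsub)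
  have hJ3 : L / (4 * κ) ≤ J := by
    have h1 : L / (2 * κ) = L / (4 * κ) + L / (4 * κ) := by field_simp; ring
    have h2 : 1 ≤ L / (4 * κ) := by
      rw [le_div_iff₀ (by positivity)]
      linarith
    linarith
  have h2t' : (0 : ℝ) < 2 ^ t := by positivity
  calc L ^ (1 - ε) = L / L ^ ε := by
        rw [Real.rpow_sub hL0, Real.rpow_one]
    _ = L / (4 * κ) * ((4 * κ) / L ^ ε) := by field_simp
    _ ≤ J * (c / 2 ^ t) := by
        apply mul_le_mul hJ3 _ (by positivity) (Nat.cast_nonneg _)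
        rw [div_le_div_iff₀ hLepos h2t']
        have h3 : c' * L ^ ε ≤ c / (4 * κ) * L ^ ε :=
          mul_le_mul_of_nonneg_right (min_le_right _ _) hLepos.le
        have h4 : (2 : ℝ) ^ t ≤ c / (4 * κ) * L ^ ε := h2t.trans h3
        calc 4 * κ * 2 ^ t ≤ 4 * κ * (c / (4 * κ) * L ^ ε) :=
              mul_le_mul_of_nonneg_left h4 (by positivity)
          _ = c * L ^ ε := by field_simp

end Pool.Agent.K9h69.Menon
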