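import Pool.Agent.K9h69.Menon.Skew
import Pool.Agent.K9h69.Menon.Family

/-!
# Menon designs for all `u` with `u + 1` divisible by a large power of two
-/

set_option autoImplicit false

namespace Pool.Agent.K9h69.Menon

open Finset
open Pool.Agent.W851.Had (tow main_had tow_succ tow_pos tow_zero)
open Pool.Agent.H108R3.Had (HasHad)
open Pool.Agent.H114R2 (IsSymDesign)
open Pool.Agent.Y342.SK (SkewC main_skew)

theorem sq_le_tow {v n : ℕ} (h : v ≤ tow n) : v ^ 2 ≤ tow (n + 2) := by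
  rw [tow_succ, tow_succ]
  have h1 : v ^ 2 ≤ 2 ^ (2 * v) := by
    rw [mul_comm, pow_mul]
    exact Nat.pow_le_pow_left Nat.lt_two_pow_self.le 2
  refine h1.trans (Nat.pow_le_pow_right (by norm_num) ?_)
  have h2 : 2 * v ≤ 2 ^ v := by
    rcases Nat.eq_zero_or_pos v with h | h
    · subst h; norm_num
    · have h3 : v ≤ 2 ^ (v - 1) := by
        have : v - 1 < 2 ^ (v - 1) := Nat.lt_two_pow_self
        omega
      have h4 : 2 ^ v = 2 * 2 ^ (v - 1) := by
        conv_lhs => rw [show v = (v - 1) + 1 by omega, pow_succ]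
        ring
      omega
  exact h2.trans (Nat.pow_le_pow_right (by norm_num) h)

theorem skew_of_tow : ∃ C : ℕ, 2 ≤ C ∧ ∀ n v : ℕ, v ≤ tow n → 2 ^ 2 ^ C ^ (n + 1) ∣ v + 1 →
    1 < v ∧ v % 4 = 3 ∧ SkewC (v + 1) ∧ HasHad (v ^ 2 - 1) := by
  obtain ⟨C₁, hC₁, h1⟩ := main_skew
  obtain ⟨C₂, hC₂, h2⟩ := main_had
  refine ⟨(C₁ + C₂) ^ 3, ?_, fun n v hv hd => ?_⟩
  · calc 2 ≤ (C₁ + C₂) ^ 1 := by rw [pow_one]; omega
      _ ≤ (C₁ + C₂) ^ 3 := Nat.pow_le_pow_right (by omega) (by norm_num)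
  set T := 2 ^ ((C₁ + C₂) ^ 3) ^ (n + 1) with hT
  have hT2 : 2 ≤ T := by
    rw [hT]
    calc 2 = 2 ^ 1 := by norm_num
      _ ≤ _ := Nat.pow_le_pow_right (by norm_num) (Nat.one_le_pow _ _ (by positivity))
  have h4 : 2 ^ 2 ∣ v + 1 := (pow_dvd_pow 2 hT2).trans hd
  have h43 : v % 4 = 3 := by omega
  obtain ⟨q, hq⟩ := hd
  have hq0 : 0 < q := by
    rcases Nat.eq_zero_or_pos q with h | h
    · subst h; omega
    · exact h
  have h2T : 2 ≤ 2 ^ T := by
    calc 2 = 2 ^ 1 := by norm_num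
      _ ≤ 2 ^ T := Nat.pow_le_pow_right (by norm_num) (by omega)
  have hqv : q ≤ v := by
    have : 2 * q ≤ 2 ^ T * q := Nat.mul_le_mul_right q h2T
    omega
  refine ⟨by omega, h43, ?_, ?_⟩
  · rw [hq]
    refine h1 n q T hq0 (hqv.trans hv) ?_
    rw [hT, ← pow_mul]
    refine Nat.pow_le_pow_right (by norm_num) ?_
    exact (Nat.pow_le_pow_left (by omega : C₁ ≤ C₁ + C₂) _).trans
      (Nat.pow_le_pow_right (by omega) (by omega))
  · have h5 : v ^ 2 - 1 = 2 ^ T * (q * (v - 1)) := by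
      rw [← mul_assoc, ← hq]
      have := Nat.sq_sub_sq v 1
      rw [one_pow] at this
      exact this
    rw [h5]
    refine h2 (n + 2) _ T ?_ ?_
    · refine le_trans ?_ (sq_le_tow hv)
      rw [sq]
      exact Nat.mul_le_mul hqv (by omega)
    · rw [hT, ← pow_mul]
      have h6 : C₂ ^ (n + 2 + 1) ≤ (C₁ + C₂) ^ (3 * (n + 1)) :=
        (Nat.pow_le_pow_left (by omega : C₂ ≤ C₁ + C₂) _).trans
          (Nat.pow_le_pow_right (by omega) (by omega))
      exact h6.trans Nat.lt_two_pow_self.le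

/-- **Menon designs without primality** -/
theorem menon_all : ∃ C : ℕ, 2 ≤ C ∧ ∀ n b t v u : ℕ, t % 2 = 1 → v ≤ tow n →
    2 ^ 2 ^ C ^ (n + 1) ∣ v + 1 → u = 3 ^ b * t ^ 2 * v → HasMenon u := by
  obtain ⟨C, hC2, hC⟩ := skew_of_tow
  refine ⟨C, hC2, fun n b t v u ht hv hd hu => ?_⟩
  obtain ⟨h1, -, h3, h4⟩ := hC n v hv hd
  subst hu
  have ht0 : 0 < t := by omega
  exact menon_skew (by positivity) (hasX_main b t ht) h1 h3 h4

theorem tow_mono {m n : ℕ} (h : m ≤ n) : tow m ≤ tow n := by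
  induction n with
  | zero => rw [Nat.le_zero.1 h]
  | succ n ih =>
    rcases Nat.lt_or_ge n m with h1 | h1
    · have : m = n + 1 := by omega
      rw [this]
    · refine (ih h1).trans ?_
      rw [tow_succ]
      exact Nat.lt_two_pow_self.le

theorem tow_big (C : ℕ) (q : ℕ) : ∀ k : ℕ, 2 * C + 13 + q ≤ k → 2 ≤ C →
    2 ^ C ^ (k + 3) + q ≤ tow k := by
  intro k hk hC
  obtain ⟨m, rfl⟩ : ∃ m, k = m + 3 := ⟨k - 3, by omega⟩
  have h1 := two_pow_growth C m (by omega)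
  have h2 : 2 ^ (m + 1) ≤ tow (m + 1) := by
    rw [tow_succ]
    exact Nat.pow_le_pow_right (by norm_num) (tow_ge m)
  have h3 : C ^ (m + 8) ≤ tow (m + 2) := by
    rw [tow_succ]
    calc C ^ (m + 8) ≤ (2 ^ C) ^ (m + 8) := Nat.pow_le_pow_left Nat.lt_two_pow_self.le _
      _ = 2 ^ (C * (m + 8)) := by rw [pow_mul]
      _ ≤ 2 ^ tow (m + 1) := Nat.pow_le_pow_right (by norm_num) (h1.trans h2)
  have h4 : 2 ^ C ^ (m + 8) ≤ tow (m + 3) := by
    rw [tow_succ]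
    exact Nat.pow_le_pow_right (by norm_num) h3
  refine le_trans ?_ h4
  have h5 : C ^ (m + 6) + 1 ≤ C ^ (m + 8) := by
    have e : C ^ (m + 8) = C ^ (m + 6) * (C * C) := by ring
    have h6 : 4 ≤ C * C := Nat.mul_le_mul hC hC
    have h7 : 1 ≤ C ^ (m + 6) := Nat.one_le_pow _ _ (by omega)
    rw [e]
    nlinarith
  have h6 : q ≤ 2 ^ C ^ (m + 6) := by
    have h7 : m + 6 < C ^ (m + 6) := Nat.lt_pow_self (by omega)
    have h8 : C ^ (m + 6) < 2 ^ C ^ (m + 6) := Nat.lt_two_pow_self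
    omega
  calc 2 ^ C ^ (m + 3 + 3) + q ≤ 2 ^ C ^ (m + 6) + 2 ^ C ^ (m + 6) := by
        rw [show m + 3 + 3 = m + 6 by ring]
        omega
    _ = 2 ^ (C ^ (m + 6) + 1) := by rw [pow_succ]; ring
    _ ≤ 2 ^ C ^ (m + 8) := Nat.pow_le_pow_right (by norm_num) h5

/-- for every `q` all large `s` -/
theorem menon_eventually (q : ℕ) (hq : 0 < q) : ∃ s₀ : ℕ, ∀ s b t u : ℕ, s₀ ≤ s → t % 2 = 1 →
    u = 3 ^ b * t ^ 2 * (2 ^ s * q - 1) → HasMenon u := by
  obtain ⟨C, hC2, hC⟩ := menon_all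
  refine ⟨tow (2 * C + 13 + q + 2), fun s b t u hs ht hu => ?_⟩
  -- the level
  have hex : ∃ n, 2 ^ s * q ≤ tow n := by
    refine ⟨2 ^ s * q, ?_⟩
    have := tow_ge (2 ^ s * q)
    omega
  classical
  have hn := Nat.find_spec hex
  set n := Nat.find hex with hndef
  have hn2 : 2 * C + 13 + q + 3 ≤ n := by
    by_contra h
    have h1 : tow n ≤ tow (2 * C + 13 + q + 2) := tow_mono (by omega)
    have h2 : s < 2 ^ s * q := by
      calc s < 2 ^ s := Nat.lt_two_pow_self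
        _ ≤ 2 ^ s * q := Nat.le_mul_of_pos_right _ hq
    omega
  have hn1 : ¬ 2 ^ s * q ≤ tow (n - 1) := Nat.find_min hex (by omega)
  obtain ⟨k, hk⟩ : ∃ k, n = k + 2 := ⟨n - 2, by omega⟩
  have hk1 : tow (n - 1) = 2 ^ tow k := by
    rw [hk, show k + 2 - 1 = k + 1 by omega, tow_succ]
  have h3 : tow k < s + q := by
    by_contra h4
    apply hn1
    rw [hk1]
    calc 2 ^ s * q ≤ 2 ^ s * 2 ^ q := Nat.mul_le_mul_left _ Nat.lt_two_pow_self.le
      _ = 2 ^ (s + q) := by rw [pow_add]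
      _ ≤ 2 ^ tow k := Nat.pow_le_pow_right (by norm_num) (by omega)
  have h4 := tow_big C q k (by omega) hC2
  have h5 : 2 ^ C ^ (n + 1) ≤ s := by
    rw [hk]
    have : k + 2 + 1 = k + 3 := by ring
    rw [this]
    omega
  have h6 : 1 ≤ 2 ^ s * q := Nat.mul_pos (by positivity) hq
  refine hC n b t (2 ^ s * q - 1) u ht (by omega) ?_ hu
  rw [Nat.sub_add_cancel h6]
  exact (pow_dvd_pow 2 h5).mul_right q

open scoped Classical in
/-- the number of such `u` -/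
theorem menon_count : ∃ C : ℕ, ∀ n x : ℕ, x ≤ tow n →
    (x + 1) / 2 ^ 2 ^ C ^ (n + 1) ≤
      ((Finset.range (x + 1)).filter (fun u => u % 4 = 3 ∧ HasMenon u)).card := by
  obtain ⟨C, hC2, hC⟩ := menon_all
  obtain ⟨C', hC2', hC'⟩ := skew_of_tow
  refine ⟨C + C', fun n x hx => ?_⟩
  set T := 2 ^ 2 ^ (C + C') ^ (n + 1) with hT
  have hT0 : 0 < T := by positivity
  have hd1 : 2 ^ 2 ^ C ^ (n + 1) ∣ T := pow_dvd_pow 2 (Nat.pow_le_pow_right (by norm_num)
    (Nat.pow_le_pow_left (by omega) _))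
  have hd2 : 2 ^ 2 ^ C' ^ (n + 1) ∣ T := pow_dvd_pow 2 (Nat.pow_le_pow_right (by norm_num)
    (Nat.pow_le_pow_left (by omega) _))
  have h1 : ((Finset.range ((x + 1) / T)).image (fun k => T * (k + 1) - 1)).card =
      (x + 1) / T := by
    rw [Finset.card_image_of_injective, Finset.card_range]
    intro a b hab
    simp only at hab
    have ha : 1 ≤ T * (a + 1) := Nat.mul_pos hT0 (by omega)
    have hb : 1 ≤ T * (b + 1) := Nat.mul_pos hT0 (by omega)
    have h2 : T * (a + 1) = T * (b + 1) := by omega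
    have h3 := Nat.eq_of_mul_eq_mul_left hT0 h2
    omega
  rw [← h1]
  apply Finset.card_le_card
  intro u hu
  rw [Finset.mem_image] at hu
  obtain ⟨k, hk, rfl⟩ := hu
  rw [Finset.mem_range] at hk
  have h2 : T * (k + 1) ≤ x + 1 := by
    calc T * (k + 1) ≤ T * ((x + 1) / T) := Nat.mul_le_mul_left _ (by omega)
      _ ≤ x + 1 := Nat.mul_div_le _ _
  have h3 : 1 ≤ T * (k + 1) := Nat.mul_pos hT0 (by omega)
  have h4 : T ∣ T * (k + 1) - 1 + 1 := by
    rw [Nat.sub_add_cancel h3]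
    exact Dvd.intro _ rfl
  rw [Finset.mem_filter, Finset.mem_range]
  obtain ⟨-, h5, -, -⟩ := hC' n (T * (k + 1) - 1) (by omega) (hd2.trans h4)
  exact ⟨by omega, h5, hC n 0 1 _ _ (by norm_num) (by omega) (hd1.trans h4) (by ring)⟩

end Pool.Agent.K9h69.Menon
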