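import Pool.Agent.Y342.SK.Main
import Pool.Agent.Q123.CB.Paley

/-!
# Products of skew conference matrices

A skew conference matrix `K` and a symmetric Hadamard matrix `N` of order `m` which anticommute (so
`1 + K`, `N` are amicable) turn a skew conference matrix of order `h` into one of order `m h`. Such pairs
exist for `m = 2` and for `m = q + 1`, `q ≡ 3 (mod 4)` a prime power.
-/

set_option autoImplicit false

namespace Pool.Agent.K9h69.Menon

open Matrix Finset
open scoped Kronecker
open Pool.Agent.Y342.SK

/-- an amicable pair -/
structure Amic {ι : Type} [Fintype ι] [DecidableEq ι] (K N : Matrix ι ι ℤ) : Prop where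
  skew : IsSkew K
  sign : ∀ i j, Sg (N i j)
  sq : N * N = (Fintype.card ι : ℤ) • (1 : Matrix ι ι ℤ)
  symm : Nᵀ = N
  anti : Rel (-1) K N

/-- there is an amicable pair of order `m` -/
def HasAmic (m : ℕ) : Prop := ∃ (ι : Type) (_ : Fintype ι) (_ : DecidableEq ι) (K N : Matrix ι ι ℤ),
  Fintype.card ι = m ∧ Amic K N

theorem skewC_mul {m h : ℕ} (hm : HasAmic m) (hh : SkewC h) : SkewC (m * h) := by
  obtain ⟨ι, i1, i2, K, N, hc, hA⟩ := hm
  obtain ⟨T, hT⟩ := hh
  have key : IsSkew (N ⊗ₖ T + K ⊗ₖ (1 : Matrix (Fin h) (Fin h) ℤ)) := by
    refine ⟨?_, ?_, ?_, ?_⟩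
    · rintro ⟨i, x⟩
      simp only [Matrix.add_apply, kroneckerMap_apply]
      rw [hT.diag, hA.skew.diag]; ring
    · rintro ⟨i, x⟩ ⟨j, y⟩ hne
      simp only [Matrix.add_apply, kroneckerMap_apply]
      by_cases hxy : x = y
      · subst hxy
        rw [hT.diag, mul_zero, zero_add, one_apply_eq, mul_one]
        exact hA.skew.sign _ _ fun h' => hne (by rw [h'])
      · rw [one_apply_ne hxy, mul_zero, add_zero]
        exact (hA.sign _ _).mul (hT.sign _ _ hxy)
    · rw [transpose_add, ← kroneckerMap_transpose, ← kroneckerMap_transpose, transpose_one, hA.symm,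
        hA.skew.skew, hT.skew]
      ext i j
      simp only [Matrix.add_apply, Matrix.neg_apply, kroneckerMap_apply]
      ring
    · have h0 : Rel (-1) N K := hA.anti.symm (by norm_num)
      have h1 : Rel (-1) (N ⊗ₖ T) (K ⊗ₖ (1 : Matrix (Fin h) (Fin h) ℤ)) := by
        simpa using h0.kron (Rel.one_right T)
      rw [sq_add h1, ← mul_kronecker_mul, ← mul_kronecker_mul, hT.sq, hA.sq, hA.skew.sq, one_mul]
      rw [smul_one_kron, smul_kronecker, one_kronecker_one, ← add_smul, Fintype.card_prod,
        Fintype.card_fin]
      congr 1
      push_cast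
      ring
  exact key.skewC (by rw [Fintype.card_prod, Fintype.card_fin, hc])

theorem hasAmic_two : HasAmic 2 := by
  refine ⟨Fin 2, inferInstance, inferInstance, ep, hh, by simp, ?_⟩
  refine ⟨⟨ep_self, fun x y h => ep_ne x y h, epT, ?_⟩, hh_sg, ?_, hhT, ep_hh⟩
  · rw [ep_ep]
    simp
  · rw [hh_hh]
    simp

section paley

variable {F : Type} [Field F] [Fintype F] [DecidableEq F]

/-- the skew conference matrix of Paley -/
def pK (F : Type) [Field F] [Fintype F] [DecidableEq F] : Matrix (Option F) (Option F) ℤ :=
  Matrix.of fun i j => match i, j with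
    | none, none => 0
    | none, some _ => 1
    | some _, none => -1
    | some x, some y => quadraticChar F (x - y)

/-- the symmetric partner -/
def pN (F : Type) [Field F] [Fintype F] [DecidableEq F] : Matrix (Option F) (Option F) ℤ :=
  Matrix.of fun i j => match i, j with
    | none, none => 1
    | none, some _ => 1
    | some _, none => 1
    | some x, some y => -(quadraticChar F (x + y) + if x = -y then 1 else 0)

theorem char_ne_two3 (h4 : Fintype.card F % 4 = 3) : ringChar F ≠ 2 := by
  intro h
  have h1 := FiniteField.even_card_of_char_two h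
  omega

theorem chi_neg3 (h4 : Fintype.card F % 4 = 3) (x : F) :
    quadraticChar F (-x) = -quadraticChar F x := by
  have h1 : quadraticChar F (-1) = -1 := by
    rcases quadraticChar_dichotomy (neg_ne_zero.2 (one_ne_zero (α := F))) with h2 | h2
    · exfalso
      rw [quadraticChar_one_iff_isSquare (neg_ne_zero.2 one_ne_zero),
        FiniteField.isSquare_neg_one_iff] at h2
      exact h2 h4
    · exact h2
  rw [← neg_one_mul, map_mul, h1]
  ring

theorem sum_chi_sub (h4 : Fintype.card F % 4 = 3) (x : F) : ∑ y, quadraticChar F (x - y) = 0 := by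
  have h1 := Equiv.sum_comp (Equiv.subLeft x) (fun y => quadraticChar F y)
  simp only [Equiv.subLeft_apply] at h1
  rw [h1]
  exact quadraticChar_sum_zero (char_ne_two3 h4)

theorem sum_chi_add (h4 : Fintype.card F % 4 = 3) (x : F) : ∑ y, quadraticChar F (x + y) = 0 := by
  have h1 := Equiv.sum_comp (Equiv.addLeft x) (fun y => quadraticChar F y)
  simp only [Equiv.coe_addLeft] at h1
  rw [h1]
  exact quadraticChar_sum_zero (char_ne_two3 h4)

theorem sum_chi_chi (h4 : Fintype.card F % 4 = 3) (x y : F) :
    ∑ z, quadraticChar F (x - z) * quadraticChar F (y - z) =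
      (if x = y then (Fintype.card F : ℤ) else 0) - 1 := by
  by_cases h : x = y
  · subst h
    rw [if_pos rfl]
    have h2 : ∀ z : F, quadraticChar F (x - z) * quadraticChar F (x - z) =
        1 - if z = x then 1 else 0 := by
      intro z
      by_cases hz : z = x
      · subst hz; simp
      · rw [if_neg hz, ← sq, quadraticChar_sq_one (sub_ne_zero.2 (Ne.symm hz))]
        ring
    rw [sum_congr rfl fun z _ => h2 z, sum_sub_distrib, sum_const, card_univ]
    simp
  · rw [if_neg h, Pool.Agent.Q123.CB.qc_sum (char_ne_two3 h4) h]
    ring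

theorem pK_skew (h4 : Fintype.card F % 4 = 3) : IsSkew (pK F) := by
  refine ⟨?_, ?_, ?_, ?_⟩
  · rintro (_ | x)
    · rfl
    · simp [pK]
  · rintro (_ | x) (_ | y) h
    · exact absurd rfl h
    · left; rfl
    · right; rfl
    · have h1 : x ≠ y := fun e => h (by rw [e])
      exact quadraticChar_dichotomy (sub_ne_zero.2 h1)
  · ext i j
    rcases i with _ | x <;> rcases j with _ | y
    · rfl
    · rfl
    · simp [pK]
    · simp only [pK, transpose_apply, Matrix.of_apply, Matrix.neg_apply]
      rw [← chi_neg3 h4, neg_sub]
  · ext i j
    rw [Matrix.mul_apply, Fintype.sum_option, Matrix.smul_apply, Matrix.one_apply,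
      Fintype.card_option]
    rcases i with _ | x <;> rcases j with _ | y
    · simp [pK]
    · simp only [pK, Matrix.of_apply]
      have h1 : ∀ z : F, (1 : ℤ) * quadraticChar F (z - y) = - quadraticChar F (y - z) := by
        intro z; rw [← chi_neg3 h4, neg_sub, one_mul]
      rw [sum_congr rfl fun z _ => h1 z, sum_neg_distrib, sum_chi_sub h4]
      simp
    · simp only [pK, Matrix.of_apply]
      rw [← sum_mul, sum_chi_sub h4]
      simp
    · simp only [pK, Matrix.of_apply]
      have h1 : ∀ z : F, quadraticChar F (x - z) * quadraticChar F (z - y) =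
          - (quadraticChar F (x - z) * quadraticChar F (y - z)) := by
        intro z
        rw [← neg_sub y z, chi_neg3 h4]
        ring
      rw [sum_congr rfl fun z _ => h1 z, sum_neg_distrib, sum_chi_chi h4]
      by_cases h : x = y
      · simp [h]
        ring
      · simp [h]

theorem amic_paley (h4 : Fintype.card F % 4 = 3) : Amic (pK F) (pN F) := by
  have hadd : ∀ x y : F, quadraticChar F (x + y) = - quadraticChar F (-x - y) := by
    intro x y
    rw [← chi_neg3 h4]
    congr 1
    ring
  refine ⟨pK_skew h4, ?_, ?_, ?_, ?_⟩
  · rintro (_ | x) (_ | y)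
    · left; rfl
    · left; rfl
    · left; rfl
    · simp only [pN, Matrix.of_apply]
      by_cases h : x = -y
      · subst h
        right
        simp
      · rw [if_neg h, add_zero]
        have h1 : x + y ≠ 0 := fun e => h (eq_neg_of_add_eq_zero_left e)
        exact Sg.neg (quadraticChar_dichotomy h1)
  · ext i j
    rw [Matrix.mul_apply, Fintype.sum_option, Matrix.smul_apply, Matrix.one_apply,
      Fintype.card_option]
    rcases i with _ | x <;> rcases j with _ | y
    · simp [pN]
      ring
    · simp only [pN, Matrix.of_apply]
      have h1 : ∀ z : F, (1 : ℤ) * -(quadraticChar F (z + y) + if z = -y then 1 else 0) =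
          -(quadraticChar F (y + z)) - (if z = -y then 1 else 0) := by
        intro z
        rw [add_comm z y]
        ring
      rw [sum_congr rfl fun z _ => h1 z, sum_sub_distrib, sum_neg_distrib, sum_chi_add h4]
      simp
    · simp only [pN, Matrix.of_apply]
      have h1 : ∀ z : F, -(quadraticChar F (x + z) + if x = -z then 1 else 0) * (1 : ℤ) =
          -(quadraticChar F (x + z)) - (if z = -x then 1 else 0) := by
        intro z
        have e : (x = -z) ↔ (z = -x) := ⟨fun e => by rw [e, neg_neg], fun e => by rw [e, neg_neg]⟩
        simp only [e]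
        ring
      rw [sum_congr rfl fun z _ => h1 z, sum_sub_distrib, sum_neg_distrib, sum_chi_add h4]
      simp
    · simp only [pN, Matrix.of_apply]
      have h1 : ∀ z : F, -(quadraticChar F (x + z) + if x = -z then 1 else 0) *
          -(quadraticChar F (z + y) + if z = -y then 1 else 0) =
          quadraticChar F (-x - z) * quadraticChar F (-y - z) +
          (if z = -x then quadraticChar F (z + y) else 0) +
          (if z = -y then quadraticChar F (x + z) else 0) +
          (if z = -y then (if x = y then 1 else 0) else 0) := by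
        intro z
        have e : (x = -z) ↔ (z = -x) := ⟨fun e => by rw [e, neg_neg], fun e => by rw [e, neg_neg]⟩
        have e2 : quadraticChar F (x + z) * quadraticChar F (z + y) =
            quadraticChar F (-x - z) * quadraticChar F (-y - z) := by
          rw [hadd x z, add_comm z y, hadd y z]
          ring
        by_cases h3 : z = -x
        · by_cases h5 : z = -y
          · have h6 : x = y := by rw [h3] at h5; exact neg_injective h5
            rw [if_pos (e.2 h3), if_pos h5, if_pos h3, if_pos h5, if_pos h5, if_pos h6, ← e2]
            ring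
          · rw [if_pos (e.2 h3), if_neg h5, if_pos h3, if_neg h5, if_neg h5, ← e2]
            ring
        · rw [if_neg (fun h => h3 (e.1 h)), if_neg h3]
          by_cases h5 : z = -y
          · have h6 : ¬ x = y := fun h => h3 (by rw [h5, h])
            rw [if_pos h5, if_pos h5, if_pos h5, if_neg h6, ← e2]
            ring
          · rw [if_neg h5, if_neg h5, if_neg h5, ← e2]
            ring
      rw [sum_congr rfl fun z _ => h1 z, sum_add_distrib, sum_add_distrib, sum_add_distrib,
        sum_chi_chi h4, sum_ite_eq', sum_ite_eq', sum_ite_eq', if_pos (mem_univ _),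
        if_pos (mem_univ _), if_pos (mem_univ _)]
      have e3 : quadraticChar F (-x + y) = - quadraticChar F (x + -y) := by
        rw [← chi_neg3 h4]; congr 1; ring
      rw [e3]
      by_cases h : x = y
      · subst h
        simp
        ring
      · have h' : ¬ (-x = -y) := fun e => h (neg_injective e)
        simp [h]
  · ext i j
    rcases i with _ | x <;> rcases j with _ | y
    · rfl
    · rfl
    · rfl
    · simp only [pN, transpose_apply, Matrix.of_apply]
      have e : (y = -x) ↔ (x = -y) := ⟨fun e => by rw [e, neg_neg], fun e => by rw [e, neg_neg]⟩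
      simp only [e, add_comm y x]
  · unfold Pool.Agent.Y342.SK.Rel
    ext i j
    rw [Matrix.smul_apply, Matrix.mul_apply, Matrix.mul_apply, Fintype.sum_option,
      Fintype.sum_option]
    rcases i with _ | x <;> rcases j with _ | y
    · simp [pK, pN]
    · simp only [pK, pN, Matrix.of_apply]
      have h1 : ∀ z : F, (1 : ℤ) * -(quadraticChar F (z + y) + if z = -y then 1 else 0) =
          -(quadraticChar F (y + z)) - (if z = -y then 1 else 0) := by
        intro z
        rw [add_comm z y]
        ring
      have h2 : ∀ z : F, (1 : ℤ) * quadraticChar F (z - y) = - quadraticChar F (y - z) := by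
        intro z; rw [← chi_neg3 h4, neg_sub, one_mul]
      rw [sum_congr rfl fun z _ => h1 z, sum_congr rfl fun z _ => h2 z, sum_sub_distrib,
        sum_neg_distrib, sum_neg_distrib, sum_chi_add h4, sum_chi_sub h4]
      simp
    · simp only [pK, pN, Matrix.of_apply]
      have h1 : ∀ z : F, -(quadraticChar F (x + z) + if x = -z then 1 else 0) * (-1 : ℤ) =
          (quadraticChar F (x + z)) + (if z = -x then 1 else 0) := by
        intro z
        have e : (x = -z) ↔ (z = -x) := ⟨fun e => by rw [e, neg_neg], fun e => by rw [e, neg_neg]⟩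
        simp only [e]
        ring
      rw [sum_congr rfl fun z _ => h1 z, ← sum_mul, sum_add_distrib, sum_chi_add h4,
        sum_chi_sub h4]
      simp
    · simp only [pK, pN, Matrix.of_apply]
      have h1 : ∀ z : F, quadraticChar F (x - z) *
          -(quadraticChar F (z + y) + if z = -y then 1 else 0) =
          -(quadraticChar F (x - z) * quadraticChar F (z + y)) -
            (if z = -y then quadraticChar F (x - z) else 0) := by
        intro z
        by_cases h : z = -y
        · rw [if_pos h, if_pos h]; ring
        · rw [if_neg h, if_neg h]; ring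
      have h2 : ∀ z : F, -(quadraticChar F (x + z) + if x = -z then 1 else 0) *
          quadraticChar F (z - y) = -(quadraticChar F (x + z) * quadraticChar F (z - y)) -
            (if z = -x then quadraticChar F (z - y) else 0) := by
        intro z
        have e : (x = -z) ↔ (z = -x) := ⟨fun e => by rw [e, neg_neg], fun e => by rw [e, neg_neg]⟩
        simp only [e]
        by_cases h : z = -x
        · rw [if_pos h, if_pos h]; ring
        · rw [if_neg h, if_neg h]; ring
      have h3 : ∑ z : F, quadraticChar F (x + z) * quadraticChar F (z - y) =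
          - ∑ z : F, quadraticChar F (x - z) * quadraticChar F (z + y) := by
        rw [← Equiv.sum_comp (Equiv.neg F), ← sum_neg_distrib]
        refine sum_congr rfl fun z _ => ?_
        rw [Equiv.neg_apply, ← sub_eq_add_neg, hadd z y]
        ring
      rw [sum_congr rfl fun z _ => h1 z, sum_congr rfl fun z _ => h2 z, sum_sub_distrib,
        sum_sub_distrib, sum_neg_distrib, sum_neg_distrib, h3, sum_ite_eq', sum_ite_eq',
        if_pos (mem_univ _), if_pos (mem_univ _)]
      have e4 : quadraticChar F (-x - y) = - quadraticChar F (x - -y) := by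
        rw [← chi_neg3 h4]; congr 1; ring
      rw [e4]
      simp
      ring

end paley

theorem hasAmic_paley {q : ℕ} (hq : IsPrimePow q) (h4 : q % 4 = 3) : HasAmic (q + 1) := by
  obtain ⟨p, k, hp, hk, rfl⟩ := hq
  have hp' : p.Prime := hp.nat_prime
  have : Fact p.Prime := ⟨hp'⟩
  have : Fintype (GaloisField p k) := Fintype.ofFinite _
  have hcard : Fintype.card (GaloisField p k) = p ^ k := by
    rw [← Nat.card_eq_fintype_card, GaloisField.card p k (by omega)]
  classical
  exact ⟨Option (GaloisField p k), inferInstance, inferInstance, _, _,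
    by rw [Fintype.card_option, hcard], amic_paley (by rw [hcard]; exact h4)⟩

theorem skewC_two : SkewC 2 := by
  obtain ⟨ι, i1, i2, K, N, hc, hA⟩ := hasAmic_two
  exact hA.skew.skewC hc

theorem skewC_one : SkewC 1 := ⟨0, ⟨fun _ => rfl, fun x y h => absurd (Subsingleton.elim x y) h,
  by simp, by simp⟩⟩

theorem skewC_paley {q : ℕ} (hq : IsPrimePow q) (h4 : q % 4 = 3) : SkewC (q + 1) := by
  obtain ⟨ι, i1, i2, K, N, hc, hA⟩ := hasAmic_paley hq h4
  exact hA.skew.skewC hc

/-- **skew conference matrices of product type** -/
theorem skewC_prod (s : ℕ) (L : List ℕ) (h : ∀ q ∈ L, IsPrimePow q ∧ q % 4 = 3) :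
    SkewC (2 ^ s * (L.map (· + 1)).prod) := by
  refine SkewC.pow ?_ s
  induction L with
  | nil => simpa using skewC_one
  | cons q L ih =>
    rw [List.map_cons, List.prod_cons]
    obtain ⟨h1, h2⟩ := h q (by simp)
    exact skewC_mul (hasAmic_paley h1 h2) (ih fun q' hq' => h q' (by simp [hq']))

end Pool.Agent.K9h69.Menon
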