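import Pool.Agent.K9h69.Menon.Main

/-!
# Certificates for the existence of Hadamard matrices of a given order
-/

set_option autoImplicit false

namespace Pool.Agent.K9h69.Menon

open Pool.Agent.H108R3.Had (HasHad)

/-- `∀ k < m, p k` -/
def allN (m : ℕ) (p : ℕ → Bool) : Bool :=
  Nat.rec (motive := fun _ => Bool) true (fun k ih => cond (p k) ih false) m

theorem allN_spec (m : ℕ) (p : ℕ → Bool) (h : allN m p = true) : ∀ k < m, p k = true := by
  induction m with
  | zero => intro k hk; omega
  | succ m ih =>
    have h' : cond (p m) (allN m p) false = true := h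
    intro k hk
    cases hp : p m with
    | false => rw [hp] at h'; exact absurd h' Bool.false_ne_true
    | true =>
      rw [hp] at h'
      rcases Nat.lt_succ_iff_lt_or_eq.1 hk with hk | hk
      · exact ih h' k hk
      · rw [hk]; exact hp

/-- a test of primality of odd numbers by trial division by `3, 5, ..., 2 r + 1` -/
def primeB (n r : ℕ) : Bool :=
  Nat.ble 3 n && (Nat.beq (n % 2) 1 && (Nat.ble (n + 1) ((2 * r + 3) * (2 * r + 3)) &&
    allN r (fun k => !(Nat.beq (n % (2 * k + 3)) 0))))

theorem primeB_spec {n r : ℕ} (h : primeB n r = true) : n.Prime := by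
  unfold primeB at h
  simp only [Bool.and_eq_true, Nat.ble_eq, Nat.beq_eq] at h
  obtain ⟨h3, h2, hr, hall⟩ := h
  by_contra hn
  have h0 : 0 < n := by omega
  have h5 := Nat.minFac_sq_le_self h0 hn
  have h6 : n.minFac ∣ n := Nat.minFac_dvd n
  have h7 : n.minFac.Prime := Nat.minFac_prime (by omega)
  have h8 : n.minFac % 2 = 1 := by
    by_contra h9
    have : 2 ∣ n.minFac := by omega
    have := this.trans h6
    omega
  have h9 : 3 ≤ n.minFac := by
    have := h7.two_le
    omega
  have h10 : (n.minFac - 3) / 2 < r := by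
    by_contra h11
    have h12 : 2 * r + 3 ≤ n.minFac := by omega
    have h13 := Nat.mul_le_mul h12 h12
    rw [sq] at h5
    omega
  have h11 := allN_spec _ _ hall _ h10
  have h12 : 2 * ((n.minFac - 3) / 2) + 3 = n.minFac := by omega
  rw [h12] at h11
  rw [Nat.mod_eq_zero_of_dvd h6] at h11
  simp at h11

/-- derivations of Hadamard orders: orders `1`, `2`, Paley's constructions for the prime power
`p ^ (k + 1)`, Miyamoto's construction and Agayan's product; `r` is a bound for trial division -/
inductive Cert : Type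
  | one : Cert
  | two : Cert
  | p1 (p k r : ℕ) : Cert
  | p2 (p k r : ℕ) : Cert
  | mi (p k r : ℕ) (c : Cert) : Cert
  | ag (a b : Cert) : Cert

namespace Cert

/-- the order -/
def ord : Cert → ℕ
  | one => 1
  | two => 2
  | p1 p k _ => p ^ (k + 1) + 1
  | p2 p k _ => 2 * (p ^ (k + 1) + 1)
  | mi p k _ _ => 4 * p ^ (k + 1)
  | ag a b => a.ord * b.ord / 2

/-- the check -/
def ok : Cert → Bool
  | one => true
  | two => true
  | p1 p k r => primeB p r && Nat.beq (p ^ (k + 1) % 4) 3
  | p2 p k r => primeB p r && Nat.beq (p ^ (k + 1) % 4) 1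
  | mi p k r c => primeB p r && (Nat.beq (p ^ (k + 1) % 4) 1 && (Nat.beq (c.ord + 1) (p ^ (k + 1)) &&
      c.ok))
  | ag a b => Nat.beq (a.ord % 2) 0 && (Nat.beq (b.ord % 2) 0 && (a.ok && b.ok))

theorem had_one : HasHad 1 := by
  refine ⟨1, ?_, ?_⟩
  · intro i j
    have : i = j := Subsingleton.elim i j
    subst this
    simp
  · simp

theorem had_two' : HasHad 2 := by
  refine ⟨!![1, 1; 1, -1], ?_, ?_⟩
  · intro i j
    fin_cases i <;> fin_cases j <;> simp
  · ext i j
    fin_cases i <;> fin_cases j <;>
      simp [Matrix.mul_apply, Fin.sum_univ_two]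

theorem sound (c : Cert) (h : c.ok = true) : HasHad c.ord := by
  induction c with
  | one => exact had_one
  | two => exact had_two'
  | p1 p k r =>
    simp only [ok, Bool.and_eq_true, Nat.beq_eq] at h
    exact had_paley_one' ((primeB_spec h.1).isPrimePow.pow (by omega)) h.2
  | p2 p k r =>
    simp only [ok, Bool.and_eq_true, Nat.beq_eq] at h
    exact Pool.Agent.Y341.Had.had_paley_two ((primeB_spec h.1).isPrimePow.pow (by omega)) h.2
  | mi p k r c ih =>
    simp only [ok, Bool.and_eq_true, Nat.beq_eq] at h
    obtain ⟨h1, h2, h3, h4⟩ := h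
    have h5 := ih h4
    have hp : p.Prime := primeB_spec h1
    have : Fact p.Prime := ⟨hp⟩
    have : Fintype (GaloisField p (k + 1)) := Fintype.ofFinite _
    have hcard : Fintype.card (GaloisField p (k + 1)) = p ^ (k + 1) := by
      rw [← Nat.card_eq_fintype_card, GaloisField.card p (k + 1) (by omega)]
    classical
    have h6 := Pool.Agent.TH432.Had.miyamoto (F := GaloisField p (k + 1))
      (by rw [hcard]; exact h2) (by
        rw [hcard, ← h3, Nat.add_sub_cancel]
        exact h5)
    rw [hcard] at h6
    exact h6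
  | ag a b iha ihb =>
    simp only [ok, Bool.and_eq_true, Nat.beq_eq] at h
    obtain ⟨h1, h2, h3, h4⟩ := h
    have ha := iha h3
    have hb := ihb h4
    have ea : a.ord = 2 * (a.ord / 2) := by omega
    have eb : b.ord = 2 * (b.ord / 2) := by omega
    rw [ea] at ha
    rw [eb] at hb
    have h5 := Pool.Agent.Y341.Had.agayan ha hb
    have h6 : 2 * (a.ord / 2 * (b.ord / 2)) = a.ord * b.ord / 2 := by
      set x := a.ord / 2 with hx
      set y := b.ord / 2 with hy
      rw [ea, eb]
      have : 2 * x * (2 * y) = 2 * (2 * (x * y)) := by ring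
      rw [this, Nat.mul_div_cancel_left _ (by norm_num)]
    rw [h6] at h5
    exact h5

end Cert

/-- the eight prime powers `v < 20000`, `v ≡ 3 (mod 4)`, for which the table gives no derivation -/
def exc : List ℕ := [2063, 4567, 5843, 7927, 10343, 10631, 12107, 19507]

/-- membership in `exc` -/
def isExc (v : ℕ) : Bool := exc.any (fun w => Nat.beq v w)

theorem isExc_spec {v : ℕ} (h : isExc v = true) : v ∈ exc := by
  simp only [isExc, List.any_eq_true, Nat.beq_eq] at h
  obtain ⟨w, hw, h⟩ := h
  rw [h]
  exact hw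

/-- an entry of the table: a derivation of the order `v ^ 2 - 1`, or a factor `a` of `v` with
`v / a` coprime to `a`, or `0` for an exception -/
def entry (v : ℕ) : Cert ⊕ ℕ → Bool
  | Sum.inl c => Nat.beq (c.ord + 1) (v ^ 2) && c.ok
  | Sum.inr a => (Nat.beq a 0 && isExc v) || (Nat.ble 2 a && (Nat.ble 2 (v / a) &&
      (Nat.beq (a * (v / a)) v && Nat.beq (Nat.gcd a (v / a)) 1)))

theorem entry_spec {v : ℕ} (e : Cert ⊕ ℕ) (h : entry v e = true) (hv : IsPrimePow v)
    (hx : v ∉ exc) : HasHad (v ^ 2 - 1) := by
  cases e with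
  | inl c =>
    simp only [entry, Bool.and_eq_true, Nat.beq_eq] at h
    have h1 := c.sound h.2
    rw [← h.1, Nat.add_sub_cancel]
    exact h1
  | inr a =>
    exfalso
    simp only [entry, Bool.or_eq_true, Bool.and_eq_true, Nat.beq_eq, Nat.ble_eq] at h
    rcases h with ⟨_, h⟩ | ⟨h1, h2, h3, h4⟩
    · exact hx (isExc_spec h)
    set b := v / a with hb
    have hcop : Nat.Coprime a b := h4
    have h5 : v ∣ a * b := by rw [h3]
    rw [hcop.isPrimePow_dvd_mul hv] at h5
    rcases h5 with h5 | h5
    · have h6 := Nat.le_of_dvd (by omega) h5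
      have h7 := Nat.mul_le_mul_left a h2
      omega
    · have h6 := Nat.le_of_dvd (by omega) h5
      have h7 := Nat.mul_le_mul_right b h1
      omega

/-- all entries of a table, for `v = 4 i + 3`, starting with `i` -/
def table : ℕ → List (Cert ⊕ ℕ) → Bool
  | _, [] => true
  | i, e :: l => entry (4 * i + 3) e && table (i + 1) l

theorem table_spec (l : List (Cert ⊕ ℕ)) : ∀ i : ℕ, table i l = true → ∀ v : ℕ, v % 4 = 3 →
    4 * i ≤ v → v < 4 * (i + l.length) → IsPrimePow v → v ∉ exc → HasHad (v ^ 2 - 1) := by
  induction l with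
  | nil =>
    intro i _ v h4 h1 h2
    simp only [List.length_nil, add_zero] at h2
    omega
  | cons e l ih =>
    intro i h v h4 h1 h2 hv hx
    simp only [table, Bool.and_eq_true] at h
    by_cases h3 : v = 4 * i + 3
    · subst h3
      exact entry_spec e h.1 hv hx
    · refine ih (i + 1) h.2 v h4 (by omega) ?_ hv hx
      simp only [List.length_cons] at h2
      omega

end Pool.Agent.K9h69.Menon
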