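import Pool.Agent.K9h69.Menon.Cert

/-!
# Certificates, prime powers `v ≡ 1 (mod 4)`
-/

set_option autoImplicit false

namespace Pool.Agent.K9h69.Menon

open Pool.Agent.H108R3.Had (HasHad)

/-- the prime powers `v < 20000`, `v ≡ 1 (mod 4)`, for which the table gives no derivation -/
def exc1 : List ℕ := [2677, 2777, 3733, 3917, 5701, 6053, 6653, 8573, 9497, 11897, 12569, 14173,
  14437, 15493, 16333, 16573, 18301, 19037, 19373]

/-- membership in `exc1` -/
def isExc1 (v : ℕ) : Bool := exc1.any (fun w => Nat.beq v w)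

theorem isExc1_spec {v : ℕ} (h : isExc1 v = true) : v ∈ exc1 := by
  simp only [isExc1, List.any_eq_true, Nat.beq_eq] at h
  obtain ⟨w, hw, h⟩ := h
  rw [h]
  exact hw

/-- an entry of the table: a derivation of the order `v ^ 2 - 1`, or a factor `a` of `v` with
`v / a` coprime to `a`, or `0` for an exception -/
def entry1 (v : ℕ) : Cert ⊕ ℕ → Bool
  | Sum.inl c => Nat.beq (c.ord + 1) (v ^ 2) && c.ok
  | Sum.inr a => (Nat.beq a 0 && isExc1 v) || (Nat.beq v 1) || (Nat.ble 2 a && (Nat.ble 2 (v / a) &&
      (Nat.beq (a * (v / a)) v && Nat.beq (Nat.gcd a (v / a)) 1)))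

theorem entry1_spec {v : ℕ} (e : Cert ⊕ ℕ) (h : entry1 v e = true) (hv : IsPrimePow v)
    (hx : v ∉ exc1) : HasHad (v ^ 2 - 1) := by
  cases e with
  | inl c =>
    simp only [entry1, Bool.and_eq_true, Nat.beq_eq] at h
    have h1 := c.sound h.2
    rw [← h.1, Nat.add_sub_cancel]
    exact h1
  | inr a =>
    exfalso
    simp only [entry1, Bool.or_eq_true, Bool.and_eq_true, Nat.beq_eq, Nat.ble_eq] at h
    rcases h with (⟨_, h⟩ | h) | ⟨h1, h2, h3, h4⟩
    · exact hx (isExc1_spec h)
    · subst h
      exact not_isPrimePow_one hv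
    set b := v / a with hb
    have hcop : Nat.Coprime a b := h4
    have h5 : v ∣ a * b := by rw [h3]
    rw [hcop.isPrimePow_dvd_mul hv] at h5
    rcases h5 with h5 | h5
    · have h6 := Nat.le_of_dvd (by omega) h5
      have h7 := Nat.mul_le_mul_left a h2
      omega
    · have h6 := Nat.le_of_dvd (by omega) h5
      have h7 := Nat.mul_le_mul_right b h1
      omega

/-- all entries of a table, for `v = 4 i + 1`, starting with `i` -/
def table1 : ℕ → List (Cert ⊕ ℕ) → Bool
  | _, [] => true
  | i, e :: l => entry1 (4 * i + 1) e && table1 (i + 1) l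

theorem table1_spec (l : List (Cert ⊕ ℕ)) : ∀ i : ℕ, table1 i l = true → ∀ v : ℕ, v % 4 = 1 →
    4 * i ≤ v → v < 4 * (i + l.length) → IsPrimePow v → v ∉ exc1 → HasHad (v ^ 2 - 1) := by
  induction l with
  | nil =>
    intro i _ v h4 h1 h2
    simp only [List.length_nil, add_zero] at h2
    omega
  | cons e l ih =>
    intro i h v h4 h1 h2 hv hx
    simp only [table1, Bool.and_eq_true] at h
    by_cases h3 : v = 4 * i + 1
    · subst h3
      exact entry1_spec e h.1 hv hx
    · refine ih (i + 1) h.2 v h4 (by omega) ?_ hv hx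
      simp only [List.length_cons] at h2
      omega

end Pool.Agent.K9h69.Menon
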