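import Pool.Agent.K9h69.Menon.Comp

/-!
# Families of four sign matrices of order `q ^ 4`

`E` is a finite field with `n = q ^ 2` elements, `n ≡ 1 (mod 4)`. The lines through the origin of the plane
`E × E` are indexed by `Option E`. From sign vectors `e`, `e'` with complementary supports which are
interchanged by Paley's conference matrix up to the factor `q` we get four sign functions on `E × E` all
of whose cross correlations are `1` and whose autocorrelations add up to `4 q ^ 4` times the delta
function (difference sets of Xia, van Eupen and Tonchev, Wilson and Xiang, and Chen).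
-/

set_option autoImplicit false

namespace Pool.Agent.K9h69.Menon

open Finset
open Pool.Agent.TH432.Had

namespace Chen

variable {E : Type} [Field E] [Fintype E] [DecidableEq E]

/-- directions -/
def dir : Option E → E × E
  | some z => (1, z)
  | none => (0, 1)

/-- the determinant with a direction, up to sign -/
def det (v : E × E) : Option E → E
  | some z => v.1 * z - v.2
  | none => v.1

/-- the coordinate of a point on the line with a given direction -/
def cc (v : E × E) : Option E → E
  | some _ => v.1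
  | none => v.2

/-- indicator of a line -/
def lam (z : Option E) (v : E × E) : ℤ := if det v z = 0 then 1 else 0

/-- character of a line -/
def eta (z : Option E) (v : E × E) : ℤ := if det v z = 0 then quadraticChar E (cc v z) else 0

/-- character of the determinant -/
def hh (z : Option E) (v : E × E) : ℤ := quadraticChar E (det v z)

/-- Paley's conference matrix -/
def S (z w : Option E) : ℤ := quadraticChar E (det (dir z) w)

omit [Fintype E] [DecidableEq E] in
theorem det_sub_smul (u : E × E) (t : E) (z w : Option E) :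
    det (u - t • dir z) w = det u w - t * det (dir z) w := by
  cases z <;> cases w <;> simp [det, dir] <;> ring

omit [Fintype E] [DecidableEq E] in
theorem det_smul (c : E) (v : E × E) (w : Option E) : det (c • v) w = c * det v w := by
  cases w <;> simp [det] <;> ring

omit [Fintype E] [DecidableEq E] in
theorem det_dir_ne (z w : Option E) : det (dir z) w = 0 ↔ z = w := by
  cases z <;> cases w <;> simp [det, dir, sub_eq_zero, eq_comm]

omit [Fintype E] [DecidableEq E] in
theorem det_swap (z w : Option E) : det (dir z) w = det (dir w) z ∨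
    det (dir z) w = - det (dir w) z := by
  cases z <;> cases w <;> simp [det, dir]

omit [Fintype E] [DecidableEq E] in
theorem eq_smul (v : E × E) (z : Option E) (h : det v z = 0) : v = cc v z • dir z := by
  cases z
  · simp only [det] at h
    ext <;> simp [cc, dir, h]
  · simp only [det, sub_eq_zero] at h
    ext <;> simp [cc, dir, h]

omit [Fintype E] [DecidableEq E] in
theorem cc_smul_dir (c : E) (z : Option E) : cc (c • dir z) z = c := by
  cases z <;> simp [cc, dir]

omit [Fintype E] [DecidableEq E] in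
theorem cc_sub_smul (u : E × E) (t : E) (z : Option E) : cc (u - t • dir z) z = cc u z - t := by
  cases z <;> simp [cc, dir]

omit [Fintype E] [DecidableEq E] in
theorem eq_zero_iff (u : E × E) (z : Option E) : u = 0 ↔ det u z = 0 ∧ cc u z = 0 := by
  constructor
  · rintro rfl
    cases z <;> simp [det, cc]
  · rintro ⟨h1, h2⟩
    rw [eq_smul u z h1, h2, zero_smul]

omit [Fintype E] [DecidableEq E] in
theorem exists_dir (u : E × E) (hu : u ≠ 0) : ∃ z : Option E, det u z = 0 := by
  by_cases h : u.1 = 0
  · exact ⟨none, h⟩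
  · exact ⟨some (u.2 / u.1), by simp only [det]; field_simp; ring⟩

theorem S_symm (h4 : Fintype.card E % 4 = 1) (z w : Option E) : S z w = S w z := by
  unfold S
  rcases det_swap z w with h | h
  · rw [h]
  · rw [h, chi_neg h4]

theorem S_sq (z w : Option E) : S z w * S z w = if z = w then 0 else 1 := by
  unfold S
  by_cases h : z = w
  · rw [if_pos h, (det_dir_ne z w).2 h]; simp
  · rw [if_neg h]
    exact chi_sq (fun e => h ((det_dir_ne z w).1 e))

theorem hh_sq (z : Option E) (v : E × E) : hh z v * hh z v = 1 - lam z v := by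
  unfold hh lam
  by_cases h : det v z = 0
  · rw [if_pos h, h]; simp
  · rw [if_neg h, chi_sq h]; ring

/-- sums over a line -/
theorem sum_lam (z : Option E) (g : E × E → ℤ) : ∑ v, lam z v * g v = ∑ t : E, g (t • dir z) := by
  cases z with
  | none =>
    rw [Fintype.sum_prod_type]
    have h1 : ∀ a : E, ∑ b : E, lam none (a, b) * g (a, b) = if a = 0 then ∑ b : E, g (0, b) else 0 := by
      intro a
      by_cases ha : a = 0
      · subst ha
        rw [if_pos rfl]
        exact sum_congr rfl fun b _ => by simp [lam, det]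
      · rw [if_neg ha]
        exact sum_eq_zero fun b _ => by simp [lam, det, ha]
    rw [sum_congr rfl fun a _ => h1 a, sum_ite_eq', if_pos (mem_univ _)]
    exact sum_congr rfl fun b _ => by simp [dir]
  | some z =>
    rw [Fintype.sum_prod_type]
    refine sum_congr rfl fun a _ => ?_
    have h1 : ∀ b : E, lam (some z) (a, b) * g (a, b) = if b = a * z then g (a, b) else 0 := by
      intro b
      by_cases hb : b = a * z
      · rw [if_pos hb]; simp [lam, det, hb]
      · rw [if_neg hb]
        have : ¬ (a * z - b = 0) := fun h => hb (sub_eq_zero.1 h).symm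
        simp [lam, det, this]
    rw [sum_congr rfl fun b _ => h1 b, sum_ite_eq', if_pos (mem_univ _)]
    simp [dir]

theorem sum_eta (z : Option E) (g : E × E → ℤ) :
    ∑ v, eta z v * g v = ∑ t : E, quadraticChar E t * g (t • dir z) := by
  have h1 : ∀ v, eta z v * g v = lam z v * (quadraticChar E (cc v z) * g v) := by
    intro v
    unfold eta lam
    split_ifs <;> simp
  rw [sum_congr rfl fun v _ => h1 v, sum_lam]
  exact sum_congr rfl fun t _ => by rw [cc_smul_dir]

theorem chi_sum (h4 : Fintype.card E % 4 = 1) :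
    ∑ t : E, quadraticChar E t = 0 := quadraticChar_sum_zero (char_ne_two h4)

/-- convolution of two lines -/
theorem lam_lam (z w : Option E) (u : E × E) :
    ∑ v, lam z v * lam w (u - v) = if z = w then (Fintype.card E : ℤ) * lam z u else 1 := by
  rw [sum_lam]
  by_cases h : z = w
  · subst h
    rw [if_pos rfl]
    have h1 : ∀ t : E, lam z (u - t • dir z) = lam z u := by
      intro t
      unfold lam
      rw [det_sub_smul, (det_dir_ne z z).2 rfl, mul_zero, sub_zero]
    rw [sum_congr rfl fun t _ => h1 t, sum_const, card_univ, nsmul_eq_mul]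
  · rw [if_neg h]
    have hD : det (dir z) w ≠ 0 := fun e => h ((det_dir_ne z w).1 e)
    have h1 : ∀ t : E, lam w (u - t • dir z) = if t = det u w / det (dir z) w then 1 else 0 := by
      intro t
      unfold lam
      rw [det_sub_smul]
      have h2 : det u w - t * det (dir z) w = 0 ↔ t = det u w / det (dir z) w := by
        rw [eq_div_iff hD, sub_eq_zero, eq_comm]
      simp only [h2]
    rw [sum_congr rfl fun t _ => h1 t, sum_ite_eq', if_pos (mem_univ _)]

theorem eta_lam (h4 : Fintype.card E % 4 = 1) (z w : Option E) (u : E × E) :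
    ∑ v, eta z v * lam w (u - v) = S z w * hh w u := by
  rw [sum_eta]
  by_cases h : z = w
  · subst h
    have h1 : ∀ t : E, quadraticChar E t * lam z (u - t • dir z) = quadraticChar E t * lam z u := by
      intro t
      unfold lam
      rw [det_sub_smul, (det_dir_ne z z).2 rfl, mul_zero, sub_zero]
    rw [sum_congr rfl fun t _ => h1 t, ← sum_mul, chi_sum h4, zero_mul]
    unfold S
    rw [(det_dir_ne z z).2 rfl]
    simp
  · have hD : det (dir z) w ≠ 0 := fun e => h ((det_dir_ne z w).1 e)
    have h1 : ∀ t : E, quadraticChar E t * lam w (u - t • dir z) =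
        if t = det u w / det (dir z) w then quadraticChar E t else 0 := by
      intro t
      unfold lam
      rw [det_sub_smul]
      have h2 : det u w - t * det (dir z) w = 0 ↔ t = det u w / det (dir z) w := by
        rw [eq_div_iff hD, sub_eq_zero, eq_comm]
      by_cases h3 : t = det u w / det (dir z) w
      · rw [if_pos (h2.2 h3), if_pos h3, mul_one]
      · rw [if_neg (fun e => h3 (h2.1 e)), if_neg h3, mul_zero]
    rw [sum_congr rfl fun t _ => h1 t, sum_ite_eq', if_pos (mem_univ _)]
    unfold S hh
    rw [← map_mul]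
    have h5 : det (dir z) w * det u w =
        (det (dir z) w * det (dir z) w) * (det u w / det (dir z) w) := by field_simp
    rw [h5, map_mul, map_mul, chi_sq hD, one_mul]

/-- convolutions commute -/
theorem conv_comm (f g : E × E → ℤ) (u : E × E) : ∑ v, f v * g (u - v) = ∑ v, g v * f (u - v) := by
  rw [← Equiv.sum_comp (Equiv.subLeft u)]
  refine sum_congr rfl fun v _ => ?_
  rw [Equiv.subLeft_apply, sub_sub_cancel, mul_comm]

theorem lam_eta (h4 : Fintype.card E % 4 = 1) (z w : Option E) (u : E × E) :
    ∑ v, lam z v * eta w (u - v) = S w z * hh z u := by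
  rw [conv_comm, eta_lam h4]

theorem eta_eta (h4 : Fintype.card E % 4 = 1) (z w : Option E) (u : E × E) :
    ∑ v, eta z v * eta w (u - v) = hh w u * hh z u +
      if z = w then (if u = 0 then (Fintype.card E : ℤ) else 0) - 1 else 0 := by
  rw [sum_eta]
  by_cases h : z = w
  · subst h
    rw [if_pos rfl]
    have hd : ∀ t : E, det (u - t • dir z) z = det u z := by
      intro t
      rw [det_sub_smul, (det_dir_ne z z).2 rfl, mul_zero, sub_zero]
    by_cases h0 : det u z = 0
    · have h1 : ∀ t : E, quadraticChar E t * eta z (u - t • dir z) =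
          quadraticChar E (0 - t) * quadraticChar E (cc u z - t) := by
        intro t
        unfold eta
        rw [hd, if_pos h0, cc_sub_smul, zero_sub, chi_neg h4]
      rw [sum_congr rfl fun t _ => h1 t, sum_chi h4]
      unfold hh
      rw [h0]
      simp only [MulChar.map_zero, zero_mul, zero_add]
      congr 1
      by_cases hu : u = 0
      · rw [if_pos hu, if_pos ((eq_zero_iff u z).1 hu).2.symm]
      · rw [if_neg hu, if_neg (fun e => hu ((eq_zero_iff u z).2 ⟨h0, e.symm⟩))]
    · have h1 : ∀ t : E, quadraticChar E t * eta z (u - t • dir z) = 0 := by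
        intro t
        unfold eta
        rw [hd, if_neg h0, mul_zero]
      rw [sum_congr rfl fun t _ => h1 t, sum_const_zero, hh_sq]
      unfold lam
      have hu : u ≠ 0 := fun e => h0 ((eq_zero_iff u z).1 e).1
      rw [if_neg h0, if_neg hu]
      ring
  · rw [if_neg h, add_zero]
    have hD : det (dir z) w ≠ 0 := fun e => h ((det_dir_ne z w).1 e)
    have hD' : det (dir w) z ≠ 0 := fun e => h ((det_dir_ne w z).1 e).symm
    set t0 := det u w / det (dir z) w with ht0
    have h2 : ∀ t : E, det (u - t • dir z) w = 0 ↔ t = t0 := by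
      intro t
      rw [det_sub_smul, ht0, eq_div_iff hD, sub_eq_zero, eq_comm]
    have h1 : ∀ t : E, quadraticChar E t * eta w (u - t • dir z) =
        if t = t0 then quadraticChar E t * quadraticChar E (cc (u - t • dir z) w) else 0 := by
      intro t
      unfold eta
      by_cases h3 : t = t0
      · rw [if_pos ((h2 t).2 h3), if_pos h3]
      · rw [if_neg (fun e => h3 ((h2 t).1 e)), if_neg h3, mul_zero]
    rw [sum_congr rfl fun t _ => h1 t, sum_ite_eq', if_pos (mem_univ _)]
    set c := cc (u - t0 • dir z) w with hc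
    have h3 : u - t0 • dir z = c • dir w := eq_smul _ w ((h2 t0).2 rfl)
    have h5 : det u z = c * det (dir w) z := by
      have h6 : det (u - t0 • dir z) z = det u z := by
        rw [det_sub_smul, (det_dir_ne z z).2 rfl, mul_zero, sub_zero]
      rw [← h6, h3, det_smul]
    have h7 : det u w = t0 * det (dir z) w := by rw [ht0]; field_simp
    unfold hh
    rw [h5, h7, map_mul, map_mul]
    have h8 : quadraticChar E (det (dir z) w) = quadraticChar E (det (dir w) z) := S_symm h4 z w
    rw [h8]
    linear_combination (-(quadraticChar E t0 * quadraticChar E c)) * chi_sq hD'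

/-- the function of a pair of vectors -/
def fn (σ e : Option E → ℤ) (v : E × E) : ℤ := ∑ z, (σ z * lam z v + e z * eta z v)

/-- the correlation formula -/
theorem corr (h4 : Fintype.card E % 4 = 1) (σ e τ ε : Option E → ℤ) (u : E × E) :
    ∑ v, fn σ e v * fn τ ε (u - v) =
      (∑ z, σ z) * (∑ z, τ z) + ∑ z, σ z * τ z * ((Fintype.card E : ℤ) * lam z u - 1) +
      ∑ z, σ z * hh z u * (∑ w, S z w * ε w) + ∑ w, τ w * hh w u * (∑ z, S w z * e z) +
      (∑ z, e z * hh z u) * (∑ w, ε w * hh w u) +
      ((if u = 0 then (Fintype.card E : ℤ) else 0) - 1) * ∑ z, e z * ε z := by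
  have h1 : ∑ v, fn σ e v * fn τ ε (u - v) = ∑ z, ∑ w,
      (σ z * τ w * (∑ v, lam z v * lam w (u - v)) + σ z * ε w * (∑ v, lam z v * eta w (u - v)) +
        e z * τ w * (∑ v, eta z v * lam w (u - v)) + e z * ε w * (∑ v, eta z v * eta w (u - v))) := by
    have h2 : ∀ v, fn σ e v * fn τ ε (u - v) = ∑ z, ∑ w,
        (σ z * τ w * (lam z v * lam w (u - v)) + σ z * ε w * (lam z v * eta w (u - v)) +
          e z * τ w * (eta z v * lam w (u - v)) + e z * ε w * (eta z v * eta w (u - v))) := by
      intro v
      unfold fn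
      rw [sum_mul_sum]
      refine sum_congr rfl fun z _ => sum_congr rfl fun w _ => ?_
      ring
    rw [sum_congr rfl fun v _ => h2 v, sum_comm]
    refine sum_congr rfl fun z _ => ?_
    rw [sum_comm]
    refine sum_congr rfl fun w _ => ?_
    simp only [sum_add_distrib, mul_sum]
  rw [h1]
  have h3 : ∀ z w : Option E, σ z * τ w * (∑ v, lam z v * lam w (u - v)) =
      σ z * τ w + if z = w then σ z * τ z * ((Fintype.card E : ℤ) * lam z u - 1) else 0 := by
    intro z w
    rw [lam_lam]
    by_cases h : z = w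
    · subst h
      rw [if_pos rfl, if_pos rfl]; ring
    · rw [if_neg h, if_neg h]; ring
  have h5 : ∀ z w : Option E, e z * ε w * (∑ v, eta z v * eta w (u - v)) =
      (e z * hh z u) * (ε w * hh w u) + if z = w then
        ((if u = 0 then (Fintype.card E : ℤ) else 0) - 1) * (e z * ε z) else 0 := by
    intro z w
    rw [eta_eta h4]
    by_cases h : z = w
    · subst h
      rw [if_pos rfl, if_pos rfl]; ring
    · rw [if_neg h, if_neg h]; ring
  simp only [h3, h5, lam_eta h4, eta_lam h4]
  simp only [sum_add_distrib]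
  have e1 : ∑ z, ∑ w, σ z * τ w = (∑ z, σ z) * ∑ z, τ z := (sum_mul_sum _ _ _ _).symm
  have e2 : ∑ z, ∑ w, (if z = w then σ z * τ z * ((Fintype.card E : ℤ) * lam z u - 1) else 0) =
      ∑ z, σ z * τ z * ((Fintype.card E : ℤ) * lam z u - 1) := by
    refine sum_congr rfl fun z _ => ?_
    rw [sum_ite_eq, if_pos (mem_univ _)]
  have e3 : ∑ z, ∑ w, σ z * ε w * (S w z * hh z u) = ∑ z, σ z * hh z u * (∑ w, S z w * ε w) := by
    refine sum_congr rfl fun z _ => ?_
    rw [mul_sum]
    refine sum_congr rfl fun w _ => ?_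
    rw [S_symm h4 w z]
    ring
  have e4 : ∑ z, ∑ w, e z * τ w * (S z w * hh w u) = ∑ w, τ w * hh w u * (∑ z, S w z * e z) := by
    rw [sum_comm]
    refine sum_congr rfl fun w _ => ?_
    rw [mul_sum]
    refine sum_congr rfl fun z _ => ?_
    rw [S_symm h4 z w]
    ring
  have e5 : ∑ z, ∑ w, (e z * hh z u) * (ε w * hh w u) =
      (∑ z, e z * hh z u) * (∑ w, ε w * hh w u) := (sum_mul_sum _ _ _ _).symm
  have e6 : ∑ z, ∑ w, (if z = w then
      ((if u = 0 then (Fintype.card E : ℤ) else 0) - 1) * (e z * ε z) else 0) =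
      ((if u = 0 then (Fintype.card E : ℤ) else 0) - 1) * ∑ z, e z * ε z := by
    rw [mul_sum]
    refine sum_congr rfl fun z _ => ?_
    rw [sum_ite_eq, if_pos (mem_univ _)]
  rw [e1, e2, e3, e4, e5, e6]
  ring

/-! ### The four functions -/

/-- the data: `e`, `e'` have complementary supports and are interchanged by Paley's matrix -/
structure Pair (E : Type) [Field E] [Fintype E] [DecidableEq E] (q : ℤ) where
  e : Option E → ℤ
  e' : Option E → ℤ
  σ : Option E → ℤ
  τ : Option E → ℤ
  h : ∀ z, ((e z = 1 ∨ e z = -1) ∧ e' z = 0 ∧ σ z = 0 ∧ (τ z = 1 ∨ τ z = -1)) ∨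
    (e z = 0 ∧ (e' z = 1 ∨ e' z = -1) ∧ (σ z = 1 ∨ σ z = -1) ∧ τ z = 0)
  Se : ∀ z, ∑ w, S z w * e w = q * e' z
  Se' : ∀ z, ∑ w, S z w * e' w = q * e z
  hσ : ∑ z, σ z = 1
  hτ : ∑ z, τ z = 1
  card : (Fintype.card E : ℤ) = q ^ 2
  q0 : 0 < q

namespace Pair

variable {q : ℤ} (P : Pair E q)

/-- interchange of the two halves -/
def swap : Pair E q where
  e := P.e'
  e' := P.e
  σ := P.τ
  τ := P.σ
  h z := by
    rcases P.h z with ⟨h1, h2, h3, h5⟩ | ⟨h1, h2, h3, h5⟩
    · exact Or.inr ⟨h2, h1, h5, h3⟩
    · exact Or.inl ⟨h2, h1, h5, h3⟩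
  Se := P.Se'
  Se' := P.Se
  hσ := P.hτ
  hτ := P.hσ
  card := P.card
  q0 := P.q0

theorem sum_sq_eq (h4 : Fintype.card E % 4 = 1) :
    ∑ z, P.e' z * P.e' z = ∑ z, P.e z * P.e z := by
  have h1 : ∑ z, P.e' z * (q * P.e' z) = ∑ z, P.e z * (q * P.e z) := by
    have h2 : ∑ z, P.e' z * (q * P.e' z) = ∑ z, ∑ w, S z w * P.e w * P.e' z := by
      refine sum_congr rfl fun z _ => ?_
      rw [← P.Se, mul_sum]
      exact sum_congr rfl fun w _ => by ring
    have h3 : ∑ z, P.e z * (q * P.e z) = ∑ z, ∑ w, S z w * P.e' w * P.e z := by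
      refine sum_congr rfl fun z _ => ?_
      rw [← P.Se', mul_sum]
      exact sum_congr rfl fun w _ => by ring
    rw [h2, h3, sum_comm]
    refine sum_congr rfl fun z _ => sum_congr rfl fun w _ => ?_
    rw [S_symm h4 z w]
    ring
  have h3 : q * ∑ z, P.e' z * P.e' z = q * ∑ z, P.e z * P.e z := by
    rw [mul_sum, mul_sum]
    calc ∑ z, q * (P.e' z * P.e' z) = ∑ z, P.e' z * (q * P.e' z) :=
          sum_congr rfl fun z _ => by ring
      _ = ∑ z, P.e z * (q * P.e z) := h1
      _ = ∑ z, q * (P.e z * P.e z) := sum_congr rfl fun z _ => by ring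
  exact mul_left_cancel₀ P.q0.ne' h3

end Pair

theorem lam_zero (z : Option E) : lam z (0 : E × E) = 1 := by
  unfold lam
  rw [if_pos ((eq_zero_iff 0 z).1 rfl).1]

theorem hh_zero (z : Option E) : hh z (0 : E × E) = 0 := by
  unfold hh
  rw [((eq_zero_iff 0 z).1 rfl).1]
  simp

theorem eta_zero (z : Option E) : eta z (0 : E × E) = 0 := by
  unfold eta
  rw [((eq_zero_iff 0 z).1 rfl).1, ((eq_zero_iff 0 z).1 rfl).2]
  simp

/-- a nonzero point is on exactly one line -/
theorem slope (u : E × E) (hu : u ≠ 0) : ∃ (z0 : Option E) (c : ℤ), (c = 1 ∨ c = -1) ∧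
    (∀ z, lam z u = if z = z0 then 1 else 0) ∧ (∀ z, eta z u = if z = z0 then c else 0) ∧
    ∀ z, hh z u = c * S z0 z := by
  obtain ⟨z0, hz0⟩ := exists_dir u hu
  have h1 : u = cc u z0 • dir z0 := eq_smul u z0 hz0
  have hc0 : cc u z0 ≠ 0 := by
    intro h
    apply hu
    rw [h1, h, zero_smul]
  have h2 : ∀ z, det u z = cc u z0 * det (dir z0) z := by
    intro z
    conv_lhs => rw [h1]
    rw [det_smul]
  have h3 : ∀ z, det u z = 0 ↔ z = z0 := by
    intro z
    rw [h2, mul_eq_zero, or_iff_right hc0, det_dir_ne, eq_comm]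
  refine ⟨z0, quadraticChar E (cc u z0), quadraticChar_dichotomy hc0, ?_, ?_, ?_⟩
  · intro z
    unfold lam
    simp only [h3]
  · intro z
    unfold eta
    by_cases h : z = z0
    · rw [if_pos ((h3 z).2 h), if_pos h, h]
    · rw [if_neg (fun e => h ((h3 z).1 e)), if_neg h]
  · intro z
    unfold hh S
    rw [h2, map_mul]

theorem fn_zero (σ e : Option E → ℤ) : fn σ e (0 : E × E) = ∑ z, σ z := by
  unfold fn
  exact sum_congr rfl fun z _ => by rw [lam_zero, eta_zero]; ring

theorem fn_neg (h4 : Fintype.card E % 4 = 1) (σ e : Option E → ℤ) (v : E × E) :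
    fn σ e (-v) = fn σ e v := by
  unfold fn
  refine sum_congr rfl fun z _ => ?_
  have h1 : det (-v) z = - det v z := by cases z <;> simp [det]; ring
  have h2 : cc (-v) z = - cc v z := by cases z <;> simp [cc]
  unfold lam eta
  rw [h1, h2, chi_neg h4]
  simp only [neg_eq_zero]

theorem sum_fn (h4 : Fintype.card E % 4 = 1) (σ e : Option E → ℤ) :
    ∑ v, fn σ e v = (Fintype.card E : ℤ) * ∑ z, σ z := by
  unfold fn
  rw [sum_comm, mul_sum]
  refine sum_congr rfl fun z _ => ?_
  rw [sum_add_distrib, ← mul_sum, ← mul_sum]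
  have h1 : ∑ v : E × E, lam z v = Fintype.card E := by
    have := sum_lam z (fun _ => (1 : ℤ))
    simp only [mul_one, sum_const, card_univ, nsmul_eq_mul] at this
    exact this
  have h2 : ∑ v : E × E, eta z v = 0 := by
    have := sum_eta z (fun _ => (1 : ℤ))
    simp only [mul_one] at this
    rw [this, chi_sum h4]
  rw [h1, h2]
  ring

namespace Pair

variable {q : ℤ} (P : Pair E q)

theorem sum_σ_sq (h4 : Fintype.card E % 4 = 1) : ∑ z, P.σ z * P.σ z = ∑ z, P.e z * P.e z := by
  rw [← P.sum_sq_eq h4]
  refine sum_congr rfl fun z _ => ?_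
  rcases P.h z with ⟨_, h2, h3, _⟩ | ⟨_, h2 | h2, h3 | h3, _⟩ <;> rw [h2, h3] <;> norm_num

/-- the two quadratic expressions agree -/
theorem AB (h4 : Fintype.card E % 4 = 1) (u : E × E) :
    ∑ z, P.σ z * P.σ z * ((Fintype.card E : ℤ) * lam z u - 1) =
      (∑ z, P.e z * hh z u) * (∑ z, P.e z * hh z u) +
        ((if u = 0 then (Fintype.card E : ℤ) else 0) - 1) * ∑ z, P.e z * P.e z := by
  by_cases hu : u = 0
  · subst hu
    rw [if_pos rfl]
    simp only [lam_zero, hh_zero, mul_zero, sum_const_zero, mul_one, zero_add]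
    rw [← sum_mul, P.sum_σ_sq h4]
    ring
  · rw [if_neg hu]
    obtain ⟨z0, c, hc, hl, -, hh'⟩ := slope u hu
    have hc2 : c * c = 1 := by rcases hc with h | h <;> rw [h] <;> norm_num
    have h1 : ∑ z, P.e z * hh z u = c * (q * P.e' z0) := by
      rw [← P.Se, mul_sum]
      exact sum_congr rfl fun z _ => by rw [hh']; ring
    have h2 : ∑ z, P.σ z * P.σ z * ((Fintype.card E : ℤ) * lam z u - 1) =
        (Fintype.card E : ℤ) * (P.σ z0 * P.σ z0) - ∑ z, P.σ z * P.σ z := by
      have h3 : ∀ z, P.σ z * P.σ z * ((Fintype.card E : ℤ) * lam z u - 1) =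
          (if z = z0 then (Fintype.card E : ℤ) * (P.σ z * P.σ z) else 0) - P.σ z * P.σ z := by
        intro z
        rw [hl]
        by_cases h : z = z0
        · rw [if_pos h, if_pos h]; ring
        · rw [if_neg h, if_neg h]; ring
      rw [sum_congr rfl fun z _ => h3 z, sum_sub_distrib, sum_ite_eq', if_pos (mem_univ _)]
    have h5 : P.σ z0 * P.σ z0 = P.e' z0 * P.e' z0 := by
      rcases P.h z0 with ⟨_, h2, h3, _⟩ | ⟨_, h2 | h2, h3 | h3, _⟩ <;> rw [h2, h3] <;> norm_num
    rw [h1, h2, P.sum_σ_sq h4, P.card, h5]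
    linear_combination (-(q ^ 2 * (P.e' z0 * P.e' z0))) * hc2

theorem corr_same (h4 : Fintype.card E % 4 = 1) (κ κ' : ℤ) (u : E × E) :
    ∑ v, fn P.σ (fun z => κ * P.e z) v * fn P.σ (fun z => κ' * P.e z) (u - v) =
      1 + (1 + κ * κ') * (∑ z, P.σ z * P.σ z * ((Fintype.card E : ℤ) * lam z u - 1)) +
        (κ + κ') * ∑ z, P.σ z * hh z u * (q * P.e' z) := by
  rw [corr h4, P.hσ]
  have h1 : ∀ (κ : ℤ) (z : Option E), ∑ w, S z w * (κ * P.e w) = κ * (q * P.e' z) := by
    intro κ z
    rw [← P.Se, mul_sum]
    exact sum_congr rfl fun w _ => by ring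
  have h2 : ∀ κ : ℤ, ∑ z, κ * P.e z * hh z u = κ * ∑ z, P.e z * hh z u := by
    intro κ
    rw [mul_sum]
    exact sum_congr rfl fun w _ => by ring
  have h3 : ∑ z, κ * P.e z * (κ' * P.e z) = κ * κ' * ∑ z, P.e z * P.e z := by
    rw [mul_sum]
    exact sum_congr rfl fun w _ => by ring
  have h5 : ∀ κ : ℤ, ∑ z, P.σ z * hh z u * (κ * (q * P.e' z)) =
      κ * ∑ z, P.σ z * hh z u * (q * P.e' z) := by
    intro κ
    rw [mul_sum]
    exact sum_congr rfl fun w _ => by ring
  simp only [h1, h2, h3, h5]
  have h6 := P.AB h4 u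
  linear_combination (-(κ * κ')) * h6

theorem corr_cross (h4 : Fintype.card E % 4 = 1) (κ κ' : ℤ) (u : E × E) :
    ∑ v, fn P.σ (fun z => κ * P.e z) v * fn P.τ (fun z => κ' * P.e' z) (u - v) = 1 := by
  rw [corr h4, P.hσ, P.hτ]
  have hz : ∀ z, P.σ z * P.τ z = 0 ∧ P.e z * P.e' z = 0 ∧ P.σ z * P.e z = 0 ∧ P.τ z * P.e' z = 0 := by
    intro z
    rcases P.h z with ⟨_, h2, h3, _⟩ | ⟨h1, _, _, h5⟩
    · rw [h2, h3]; simp
    · rw [h1, h5]; simp
  have e1 : ∑ z, P.σ z * P.τ z * ((Fintype.card E : ℤ) * lam z u - 1) = 0 :=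
    sum_eq_zero fun z _ => by rw [(hz z).1, zero_mul]
  have e2 : ∑ z, P.σ z * hh z u * (∑ w, S z w * (κ' * P.e' w)) = 0 := by
    refine sum_eq_zero fun z _ => ?_
    have : ∑ w, S z w * (κ' * P.e' w) = κ' * (q * P.e z) := by
      rw [← P.Se', mul_sum]
      exact sum_congr rfl fun w _ => by ring
    rw [this]
    linear_combination (hh z u * κ' * q) * (hz z).2.2.1
  have e3 : ∑ w, P.τ w * hh w u * (∑ z, S w z * (κ * P.e z)) = 0 := by
    refine sum_eq_zero fun z _ => ?_
    have : ∑ w, S z w * (κ * P.e w) = κ * (q * P.e' z) := by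
      rw [← P.Se, mul_sum]
      exact sum_congr rfl fun w _ => by ring
    rw [this]
    linear_combination (hh z u * κ * q) * (hz z).2.2.2
  have e4 : ∑ z, κ * P.e z * (κ' * P.e' z) = 0 :=
    sum_eq_zero fun z _ => by linear_combination (κ * κ') * (hz z).2.1
  have e5 : (∑ z, κ * P.e z * hh z u) * (∑ w, κ' * P.e' w * hh w u) = 0 := by
    by_cases hu : u = 0
    · subst hu
      simp [hh_zero]
    · obtain ⟨z0, c, hc, -, -, hh'⟩ := slope u hu
      have h1 : ∑ z, κ * P.e z * hh z u = κ * c * (q * P.e' z0) := by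
        rw [← P.Se, mul_sum]
        exact sum_congr rfl fun z _ => by rw [hh']; ring
      have h2 : ∑ z, κ' * P.e' z * hh z u = κ' * c * (q * P.e z0) := by
        rw [← P.Se', mul_sum]
        exact sum_congr rfl fun z _ => by rw [hh']; ring
      rw [h1, h2]
      linear_combination (κ * c * q * κ' * c * q) * (hz z0).2.1
  rw [e1, e2, e3, e4, e5]
  ring

/-- sign -/
def kp (b : Bool) : ℤ := if b then 1 else -1

/-- the four functions -/
def f (a b : Bool) : E × E → ℤ :=
  if a then fn P.τ (fun z => kp b * P.e' z) else fn P.σ (fun z => kp b * P.e z)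

theorem fn_sign (b : Bool) (v : E × E) :
    fn P.σ (fun z => kp b * P.e z) v = 1 ∨ fn P.σ (fun z => kp b * P.e z) v = -1 := by
  by_cases hv : v = 0
  · subst hv
    rw [fn_zero, P.hσ]
    left; rfl
  · obtain ⟨z0, c, hc, hl, he, -⟩ := slope v hv
    have h1 : fn P.σ (fun z => kp b * P.e z) v = P.σ z0 + kp b * P.e z0 * c := by
      unfold fn
      have h2 : ∀ z, P.σ z * lam z v + kp b * P.e z * eta z v =
          if z = z0 then P.σ z + kp b * P.e z * c else 0 := by
        intro z
        rw [hl, he]
        by_cases h : z = z0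
        · rw [if_pos h, if_pos h, if_pos h]; ring
        · rw [if_neg h, if_neg h, if_neg h]; ring
      rw [sum_congr rfl fun z _ => h2 z, sum_ite_eq', if_pos (mem_univ _)]
    rw [h1]
    cases b <;> rcases hc with hc | hc <;>
      rcases P.h z0 with ⟨h1 | h1, _, h3, _⟩ | ⟨h1, _, h3 | h3, _⟩ <;>
      rw [h1, h3, hc] <;> simp [kp]

/-- the family of four matrices of order `q ^ 4` -/
def xfam (h4 : Fintype.card E % 4 = 1) : XFam (E × E) (q ^ 2) where
  F a b x y := P.f a b (x - y)
  sign a b x y := by
    cases a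
    · exact P.fn_sign b _
    · exact P.swap.fn_sign b _
  diag x y := by
    have hconv : ∀ a b, ∑ z, P.f a b (x - z) * P.f a b (y - z) =
        ∑ v, P.f a b v * P.f a b (x - y - v) := by
      intro a b
      rw [← Equiv.sum_comp (Equiv.subLeft x)]
      refine sum_congr rfl fun v _ => ?_
      rw [Equiv.subLeft_apply, sub_sub_cancel]
      congr 1
      have : y - (x - v) = -(x - y - v) := by abel
      rw [this]
      cases a
      · exact fn_neg h4 _ _ _
      · exact fn_neg h4 _ _ _
    simp only [hconv, Fintype.sum_bool]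
    have e1 := P.corr_same h4 (kp true) (kp true) (x - y)
    have e2 := P.corr_same h4 (kp false) (kp false) (x - y)
    have e3 := P.swap.corr_same h4 (kp true) (kp true) (x - y)
    have e4 := P.swap.corr_same h4 (kp false) (kp false) (x - y)
    have e5 : ∑ z, P.σ z * P.σ z * ((Fintype.card E : ℤ) * lam z (x - y) - 1) +
        ∑ z, P.swap.σ z * P.swap.σ z * ((Fintype.card E : ℤ) * lam z (x - y) - 1) =
        if x = y then q ^ 4 - 1 else -1 := by
      rw [← sum_add_distrib]
      have h1 : ∀ z, P.σ z * P.σ z * ((Fintype.card E : ℤ) * lam z (x - y) - 1) +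
          P.swap.σ z * P.swap.σ z * ((Fintype.card E : ℤ) * lam z (x - y) - 1) =
          (Fintype.card E : ℤ) * lam z (x - y) - 1 := by
        intro z
        have h2 : P.σ z * P.σ z + P.τ z * P.τ z = 1 := by
          rcases P.h z with ⟨_, _, h3, h5 | h5⟩ | ⟨_, _, h3 | h3, h5⟩ <;> rw [h3, h5] <;> norm_num
        show _ + P.τ z * P.τ z * _ = _
        linear_combination ((Fintype.card E : ℤ) * lam z (x - y) - 1) * h2
      rw [sum_congr rfl fun z _ => h1 z, sum_sub_distrib, ← mul_sum, sum_const, card_univ,
        Fintype.card_option, nsmul_eq_mul]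
      by_cases hxy : x = y
      · subst hxy
        rw [if_pos rfl, sub_self]
        simp only [lam_zero, sum_const, card_univ, Fintype.card_option, nsmul_eq_mul]
        push_cast
        rw [P.card]
        ring
      · rw [if_neg hxy]
        obtain ⟨z0, c, -, hl, -, -⟩ := slope (x - y) (sub_ne_zero.2 hxy)
        simp only [hl, sum_ite_eq', mem_univ, if_true]
        push_cast
        ring
    have e6 : (∑ v, P.f true true v * P.f true true (x - y - v) +
        ∑ v, P.f true false v * P.f true false (x - y - v)) +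
        (∑ v, P.f false true v * P.f false true (x - y - v) +
        ∑ v, P.f false false v * P.f false false (x - y - v)) =
        4 + 4 * (if x = y then q ^ 4 - 1 else -1) := by
      rw [← e5]
      have d1 : ∑ v, P.f true true v * P.f true true (x - y - v) = _ := e3
      have d2 : ∑ v, P.f true false v * P.f true false (x - y - v) = _ := e4
      have d3 : ∑ v, P.f false true v * P.f false true (x - y - v) = _ := e1
      have d4 : ∑ v, P.f false false v * P.f false false (x - y - v) = _ := e2
      rw [d1, d2, d3, d4]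
      simp only [kp]
      simp
      ring
    rw [e6]
    split_ifs <;> ring
  off a b c d hne x y := by
    have hconv : ∑ z, P.f a b (x - z) * P.f c d (y - z) =
        ∑ v, P.f a b v * P.f c d (x - y - v) := by
      rw [← Equiv.sum_comp (Equiv.subLeft x)]
      refine sum_congr rfl fun v _ => ?_
      rw [Equiv.subLeft_apply, sub_sub_cancel]
      congr 1
      have : y - (x - v) = -(x - y - v) := by abel
      rw [this]
      cases c
      · exact fn_neg h4 _ _ _
      · exact fn_neg h4 _ _ _
    rw [hconv]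
    cases a <;> cases c
    · have e1 := P.corr_same h4 (kp b) (kp d) (x - y)
      have d1 : ∑ v, P.f false b v * P.f false d (x - y - v) = _ := e1
      rw [d1]
      cases b <;> cases d <;> simp [kp] at hne ⊢
    · exact P.corr_cross h4 (kp b) (kp d) (x - y)
    · exact P.swap.corr_cross h4 (kp b) (kp d) (x - y)
    · have e1 := P.swap.corr_same h4 (kp b) (kp d) (x - y)
      have d1 : ∑ v, P.f true b v * P.f true d (x - y - v) = _ := e1
      rw [d1]
      cases b <;> cases d <;> simp [kp] at hne ⊢
  row a b x := by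
    have h1 : ∑ z, P.f a b (x - z) = ∑ v, P.f a b v := by
      rw [← Equiv.sum_comp (Equiv.subLeft x)]
      refine sum_congr rfl fun v _ => ?_
      rw [Equiv.subLeft_apply, sub_sub_cancel]
    rw [h1]
    cases a
    · have := sum_fn h4 P.σ (fun z => kp b * P.e z)
      rw [P.hσ, P.card, mul_one] at this
      exact this
    · have := sum_fn h4 P.τ (fun z => kp b * P.e' z)
      rw [P.hτ, P.card, mul_one] at this
      exact this
  card := by
    rw [Fintype.card_prod]
    push_cast
    rw [P.card]
    ring

end Pair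

end Chen

end Pool.Agent.K9h69.Menon
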