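import Pool.Agent.K9h69.Menon.Chen1

/-!
# Existence of the families of four sign matrices

`HasX w` holds for `w = 1`, `w = 3`, for `w = q ^ 2` with `q` an odd prime power, and for products. So it
holds for all `w = 3 ^ b * t ^ 2`, `t` odd.
-/

set_option autoImplicit false

namespace Pool.Agent.K9h69.Menon

open Finset
open Pool.Agent.TH432.Had

/-- signs with sum `1` on a set of odd size -/
theorem exists_signs {ι : Type} [Fintype ι] [DecidableEq ι] (A : Finset ι) (hA : A.card % 2 = 1) :
    ∃ σ : ι → ℤ, (∀ z ∈ A, σ z = 1 ∨ σ z = -1) ∧ (∀ z, z ∉ A → σ z = 0) ∧ ∑ z, σ z = 1 := by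
  obtain ⟨B, hB, hBc⟩ := Finset.exists_subset_card_eq (s := A) (n := A.card / 2) (by omega)
  refine ⟨fun z => (if z ∈ A then 1 else 0) - 2 * (if z ∈ B then 1 else 0), ?_, ?_, ?_⟩
  · intro z hz
    simp only [if_pos hz]
    by_cases h : z ∈ B
    · right; rw [if_pos h]; norm_num
    · left; rw [if_neg h]; norm_num
  · intro z hz
    have h : z ∉ B := fun h => hz (hB h)
    simp only [if_neg hz, if_neg h]
    norm_num
  · rw [sum_sub_distrib, ← mul_sum]
    simp only [sum_ite_mem, univ_inter, sum_const, nsmul_eq_mul, mul_one]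
    rw [hBc]
    omega

namespace Chen

section ext

variable {K : Type} [Field K] [Fintype K] [DecidableEq K] {d : K}
  [hf : Fact (∀ r : K, r ^ 2 ≠ d + 0 * r)]

/-- finiteness of the quadratic extension -/
@[reducible] noncomputable def fintypeQ (d : K) : Fintype (QuadraticAlgebra K d 0) :=
  Fintype.ofEquiv (K × K) (QuadraticAlgebra.equivProd d 0).symm

/-- decidable equality of the quadratic extension -/
@[reducible] noncomputable def decQ (d : K) : DecidableEq (QuadraticAlgebra K d 0) := Classical.decEq _

attribute [local instance] fintypeQ decQ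

omit [DecidableEq K] hf in
theorem card_E : Fintype.card (QuadraticAlgebra K d 0) = Fintype.card K ^ 2 := by
  have h := Fintype.ofEquiv_card (QuadraticAlgebra.equivProd (R := K) d 0).symm
  rw [Fintype.card_prod, ← sq] at h
  exact h

omit [Fintype K] [DecidableEq K] hf in
theorem re_one : (1 : QuadraticAlgebra K d 0).re = 1 := rfl

omit [Fintype K] [DecidableEq K] hf in
theorem im_one : (1 : QuadraticAlgebra K d 0).im = 0 := rfl

omit [DecidableEq K] hf in
theorem card_E_mod (h2 : Fintype.card K % 2 = 1) :
    Fintype.card (QuadraticAlgebra K d 0) % 4 = 1 := by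
  rw [card_E, Nat.pow_mod]
  have : Fintype.card K % 4 = 1 ∨ Fintype.card K % 4 = 3 := by omega
  rcases this with h | h <;> rw [h]

theorem chi_alg' (h2 : Fintype.card K % 2 = 1) (t : K) (ht : t ≠ 0) :
    quadraticChar (QuadraticAlgebra K d 0) (algebraMap K (QuadraticAlgebra K d 0) t) = 1 := by
  have hinj := QuadraticAlgebra.algebraMap_injective (R := K) (a := d) (b := 0)
  have hne : algebraMap K (QuadraticAlgebra K d 0) t ≠ 0 := by
    intro h
    apply ht
    apply hinj
    rw [h, map_zero]
  rw [quadraticChar_one_iff_isSquare hne,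
    FiniteField.isSquare_iff (char_ne_two (card_E_mod h2)) hne, ← map_pow, card_E]
  have h3 : Fintype.card K ^ 2 / 2 = (Fintype.card K - 1) * ((Fintype.card K + 1) / 2) := by
    obtain ⟨m, hm⟩ : ∃ m, Fintype.card K = 2 * m + 1 := ⟨Fintype.card K / 2, by omega⟩
    rw [hm]
    have e1 : (2 * m + 1) ^ 2 = 2 * (2 * m * (m + 1)) + 1 := by ring
    have e2 : (2 * m + 1 + 1) / 2 = m + 1 := by omega
    rw [e1, e2, Nat.add_sub_cancel]
    omega
  rw [h3, pow_mul, FiniteField.pow_card_sub_one_eq_one t ht, one_pow, map_one]

theorem chi_smul' (h2 : Fintype.card K % 2 = 1) (t : K) (ht : t ≠ 0)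
    (x : QuadraticAlgebra K d 0) :
    quadraticChar (QuadraticAlgebra K d 0) (t • x) = quadraticChar (QuadraticAlgebra K d 0) x := by
  rw [Algebra.smul_def, map_mul, chi_alg' h2 t ht, one_mul]

/-- the sum over a line in the direction `1` -/
theorem line_sum' (h2 : Fintype.card K % 2 = 1) (x : QuadraticAlgebra K d 0) :
    ∑ t : K, quadraticChar (QuadraticAlgebra K d 0) (x - t • (1 : QuadraticAlgebra K d 0)) =
      if x.im = 0 then (Fintype.card K : ℤ) - 1 else -1 := by
  have hq := card_E_mod (d := d) h2
  have h0 : ∑ t : K, quadraticChar (QuadraticAlgebra K d 0) (t • (1 : QuadraticAlgebra K d 0)) =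
      (Fintype.card K : ℤ) - 1 := by
    have h1 : ∀ t : K, quadraticChar (QuadraticAlgebra K d 0) (t • (1 : QuadraticAlgebra K d 0)) =
        1 - if t = 0 then 1 else 0 := by
      intro t
      by_cases ht : t = 0
      · subst ht; simp
      · rw [chi_smul' h2 t ht, if_neg ht, sub_zero, map_one]
    rw [sum_congr rfl fun t _ => h1 t, sum_sub_distrib, sum_const, card_univ, nsmul_eq_mul]
    simp
  have him : ∀ t : K, (t • (1 : QuadraticAlgebra K d 0)).im = 0 := by
    intro t
    simp [im_one]
  by_cases hx : x.im = 0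
  · rw [if_pos hx]
    have hx' : x = x.re • (1 : QuadraticAlgebra K d 0) := by
      ext <;> simp [hx, re_one, im_one]
    rw [← h0, ← Equiv.sum_comp (Equiv.subLeft x.re)]
    refine sum_congr rfl fun t _ => ?_
    rw [Equiv.subLeft_apply, sub_smul, ← hx', sub_sub_cancel]
  · rw [if_neg hx]
    have hinj : Function.Injective (fun p : K × K => p.1 • x - p.2 • (1 : QuadraticAlgebra K d 0)) := by
      rintro ⟨s, t⟩ ⟨s', t'⟩ h
      simp only at h
      have h1 := congrArg QuadraticAlgebra.im h
      simp only [QuadraticAlgebra.im_sub, QuadraticAlgebra.im_smul, him, sub_zero] at h1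
      have h3 : s = s' := mul_right_cancel₀ hx h1
      subst h3
      have h5 := congrArg QuadraticAlgebra.re h
      simp [re_one] at h5
      rw [h5]
    have hbij : Function.Bijective
        (fun p : K × K => p.1 • x - p.2 • (1 : QuadraticAlgebra K d 0)) := by
      rw [Fintype.bijective_iff_injective_and_card]
      refine ⟨hinj, ?_⟩
      rw [card_E, Fintype.card_prod, sq]
    have h1 : ∑ z : QuadraticAlgebra K d 0, quadraticChar (QuadraticAlgebra K d 0) z = 0 :=
      chi_sum hq
    rw [← hbij.sum_comp (fun z => quadraticChar (QuadraticAlgebra K d 0) z),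
      Fintype.sum_prod_type] at h1
    have h3 : ∀ s : K, ∑ t : K, quadraticChar (QuadraticAlgebra K d 0)
        (s • x - t • (1 : QuadraticAlgebra K d 0)) =
        ∑ t : K, quadraticChar (QuadraticAlgebra K d 0) (x - t • (1 : QuadraticAlgebra K d 0)) +
        if s = 0 then ((Fintype.card K : ℤ) - 1) - ∑ t : K, quadraticChar (QuadraticAlgebra K d 0)
          (x - t • (1 : QuadraticAlgebra K d 0)) else 0 := by
      intro s
      by_cases hs : s = 0
      · subst hs
        rw [if_pos rfl]
        have h5 : ∑ t : K, quadraticChar (QuadraticAlgebra K d 0)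
            ((0 : K) • x - t • (1 : QuadraticAlgebra K d 0)) = (Fintype.card K : ℤ) - 1 := by
          rw [← h0]
          refine sum_congr rfl fun t _ => ?_
          rw [zero_smul, zero_sub, chi_neg hq]
        rw [h5]
        ring
      · rw [if_neg hs, add_zero, ← Equiv.sum_comp (Equiv.mulLeft₀ s hs)]
        refine sum_congr rfl fun t _ => ?_
        rw [Equiv.mulLeft₀_apply, mul_smul, ← smul_sub, chi_smul' h2 s hs]
    simp only at h1
    rw [sum_congr rfl fun s _ => h3 s, sum_add_distrib, sum_const, card_univ,
      nsmul_eq_mul, sum_ite_eq'] at h1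
    simp only [mem_univ, if_true] at h1
    have hc : (2 : ℤ) ≤ Fintype.card K := by
      have h5 : 1 < Fintype.card K := Fintype.one_lt_card
      exact_mod_cast h5
    have h5 : ((Fintype.card K : ℤ) - 1) *
        (∑ t : K, quadraticChar (QuadraticAlgebra K d 0)
          (x - t • (1 : QuadraticAlgebra K d 0)) + 1) = 0 := by
      linear_combination h1
    rcases mul_eq_zero.1 h5 with h6 | h6
    · omega
    · linarith

/-- functions of the imaginary part -/
theorem sum_im' (h2 : Fintype.card K % 2 = 1) (b : K → ℤ) (x : QuadraticAlgebra K d 0) :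
    ∑ y : QuadraticAlgebra K d 0, quadraticChar (QuadraticAlgebra K d 0) (x - y) * b y.im =
      Fintype.card K * b x.im - ∑ t, b t := by
  have h1 : ∑ y : QuadraticAlgebra K d 0,
      quadraticChar (QuadraticAlgebra K d 0) (x - y) * b y.im =
      ∑ s : K, b s * ∑ t : K, quadraticChar (QuadraticAlgebra K d 0)
        ((x - ⟨0, s⟩) - t • (1 : QuadraticAlgebra K d 0)) := by
    rw [← Equiv.sum_comp (QuadraticAlgebra.equivProd (R := K) d 0).symm, Fintype.sum_prod_type,
      sum_comm]
    refine sum_congr rfl fun s _ => ?_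
    rw [mul_sum]
    refine sum_congr rfl fun t _ => ?_
    rw [mul_comm]
    congr 2
    ext <;> simp [re_one, im_one]
  rw [h1]
  have h3 : ∀ s : K, b s * ∑ t : K, quadraticChar (QuadraticAlgebra K d 0)
      ((x - ⟨0, s⟩) - t • (1 : QuadraticAlgebra K d 0)) =
      (if s = x.im then Fintype.card K * b x.im else 0) - b s := by
    intro s
    rw [line_sum' h2]
    have h5 : (x - ⟨0, s⟩ : QuadraticAlgebra K d 0).im = x.im - s := by simp
    rw [h5]
    by_cases h : s = x.im
    · rw [if_pos h, if_pos (by rw [h, sub_self]), h]; ring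
    · rw [if_neg h, if_neg (fun e => h (sub_eq_zero.1 e).symm)]; ring
  rw [sum_congr rfl fun s _ => h3 s, sum_sub_distrib, sum_ite_eq']
  simp

theorem sum_im_const (b : K → ℤ) :
    ∑ y : QuadraticAlgebra K d 0, b y.im = Fintype.card K * ∑ t, b t := by
  rw [← Equiv.sum_comp (QuadraticAlgebra.equivProd (R := K) d 0).symm, Fintype.sum_prod_type]
  simp

/-- the two eigenvectors of Paley's conference matrix -/
theorem exists_eigen (h2 : Fintype.card K % 2 = 1) :
    ∃ f g : Option (QuadraticAlgebra K d 0) → ℤ, (∀ z, f z = 1 ∨ f z = -1) ∧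
      (∀ z, g z = 1 ∨ g z = -1) ∧ (∀ z, ∑ w, S z w * f w = Fintype.card K * f z) ∧
      ∀ z, ∑ w, S z w * g w = -(Fintype.card K * g z) := by
  have hq := card_E_mod (d := d) h2
  obtain ⟨b, hb1, -, hb3⟩ := exists_signs (univ : Finset K) (by rw [card_univ]; exact h2)
  obtain ⟨θ, hθ⟩ := quadraticChar_exists_neg_one (char_ne_two hq)
  have hθ0 : θ ≠ 0 := by
    rintro rfl
    simp at hθ
  have hS1 : ∀ z w : QuadraticAlgebra K d 0, S (some z) (some w) =
      quadraticChar (QuadraticAlgebra K d 0) (z - w) := by
    intro z w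
    unfold S
    rw [← chi_neg hq]
    congr 1
    simp [det, dir]
  have hS2 : ∀ z : QuadraticAlgebra K d 0, S (some z) none = 1 := by
    intro z
    simp [S, det, dir]
  have hS3 : ∀ w : QuadraticAlgebra K d 0, S none (some w) = 1 := by
    intro z
    rw [S_symm hq, hS2]
  have hS4 : S (none : Option (QuadraticAlgebra K d 0)) none = 0 := by
    simp [S, det, dir]
  refine ⟨fun z => match z with | some z => b z.im | none => 1,
    fun z => match z with | some z => b (z / θ).im | none => -1, ?_, ?_, ?_, ?_⟩
  · intro z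
    cases z
    · left; rfl
    · exact hb1 _ (mem_univ _)
  · intro z
    cases z
    · right; rfl
    · exact hb1 _ (mem_univ _)
  · intro z
    rw [Fintype.sum_option]
    cases z with
    | none =>
      simp only [hS3, hS4, zero_mul, one_mul, zero_add, mul_one]
      rw [sum_im_const, hb3, mul_one]
    | some z =>
      simp only [hS1, hS2]
      rw [sum_im' h2, hb3]
      ring
  · intro z
    rw [Fintype.sum_option]
    have hdiv : ∀ (F : QuadraticAlgebra K d 0 → ℤ), ∑ w, F w = ∑ w, F (θ * w) := by
      intro F
      rw [← Equiv.sum_comp (Equiv.mulLeft₀ θ hθ0)]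
      rfl
    have hc : ∀ w : QuadraticAlgebra K d 0, θ * w / θ = w := fun w => mul_div_cancel_left₀ w hθ0
    cases z with
    | none =>
      simp only [hS3, hS4, zero_mul, one_mul, zero_add]
      rw [hdiv (fun w => b (w / θ).im)]
      simp only [hc]
      rw [sum_im_const, hb3]
      ring
    | some z =>
      simp only [hS1, hS2]
      rw [hdiv (fun w => quadraticChar (QuadraticAlgebra K d 0) (z - w) * b (w / θ).im)]
      simp only [hc]
      have h5 : ∀ w : QuadraticAlgebra K d 0, quadraticChar (QuadraticAlgebra K d 0) (z - θ * w) =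
          - quadraticChar (QuadraticAlgebra K d 0) (z / θ - w) := by
        intro w
        have : z - θ * w = θ * (z / θ - w) := by field_simp
        rw [this, map_mul, hθ]
        ring
      simp only [h5, neg_mul, sum_neg_distrib]
      rw [sum_im' h2, hb3]
      ring

/-- the data for a quadratic extension -/
theorem exists_pair (h2 : Fintype.card K % 2 = 1) :
    Nonempty (Pair (QuadraticAlgebra K d 0) (Fintype.card K : ℤ)) := by
  have hq := card_E_mod (d := d) h2
  obtain ⟨f, g, hf1, hg1, hf2, hg2⟩ := exists_eigen (d := d) h2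
  have hc0 : (0 : ℤ) < Fintype.card K := by exact_mod_cast Fintype.card_pos
  -- orthogonality
  have horth : ∑ z, f z * g z = 0 := by
    have h1 : ∑ z, (Fintype.card K * f z) * g z = ∑ z, f z * (-(Fintype.card K * g z)) := by
      have e1 : ∑ z, (Fintype.card K * f z) * g z = ∑ z, ∑ w, S z w * f w * g z := by
        refine sum_congr rfl fun z _ => ?_
        rw [← hf2, sum_mul]
      have e2 : ∑ z, f z * (-(Fintype.card K * g z)) = ∑ z, ∑ w, S z w * g w * f z := by
        refine sum_congr rfl fun z _ => ?_
        rw [← hg2, mul_comm, sum_mul]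
      rw [e1, e2, sum_comm]
      refine sum_congr rfl fun z _ => sum_congr rfl fun w _ => ?_
      rw [S_symm hq z w]
      ring
    have h3 : (2 * (Fintype.card K : ℤ)) * ∑ z, f z * g z = 0 := by
      have e1 : ∑ z, (Fintype.card K * f z) * g z = Fintype.card K * ∑ z, f z * g z := by
        rw [mul_sum]
        exact sum_congr rfl fun z _ => by ring
      have e2 : ∑ z, f z * (-(Fintype.card K * g z)) = -(Fintype.card K * ∑ z, f z * g z) := by
        rw [mul_sum, ← sum_neg_distrib]
        exact sum_congr rfl fun z _ => by ring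
      rw [e1, e2] at h1
      linarith
    rcases mul_eq_zero.1 h3 with h5 | h5
    · omega
    · exact h5
  -- sizes
  set A : Finset (Option (QuadraticAlgebra K d 0)) := univ.filter (fun z => f z = g z) with hA
  have hfg : ∀ z, f z * g z = 2 * (if z ∈ A then 1 else 0) - 1 := by
    intro z
    simp only [hA, mem_filter, mem_univ, true_and]
    rcases hf1 z with h | h <;> rcases hg1 z with h' | h' <;> rw [h, h'] <;> norm_num
  have hsum : 2 * (A.card : ℤ) = Fintype.card K ^ 2 + 1 := by
    have h1 := horth
    rw [sum_congr rfl fun z _ => hfg z, sum_sub_distrib, ← mul_sum] at h1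
    simp only [sum_ite_mem, univ_inter, sum_const, nsmul_eq_mul, mul_one, card_univ,
      Fintype.card_option, card_E] at h1
    push_cast at h1
    linarith
  have hmod : Fintype.card K ^ 2 % 4 = 1 := by
    have := card_E_mod (d := d) h2
    rwa [card_E] at this
  have hAc : A.card % 2 = 1 := by
    have h1 : 2 * A.card = Fintype.card K ^ 2 + 1 := by exact_mod_cast hsum
    have h8 : Fintype.card K ^ 2 % 8 = 1 := by
      have : Fintype.card K % 8 = 1 ∨ Fintype.card K % 8 = 3 ∨ Fintype.card K % 8 = 5 ∨
        Fintype.card K % 8 = 7 := by omega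
      rcases this with h | h | h | h <;> rw [Nat.pow_mod, h]
    omega
  have hAc' : (Aᶜ).card % 2 = 1 := by
    have h1 : 2 * A.card = Fintype.card K ^ 2 + 1 := by exact_mod_cast hsum
    have h3 : (Aᶜ).card = Fintype.card K ^ 2 + 1 - A.card := by
      rw [card_compl, Fintype.card_option, card_E]
    rw [h3]
    omega
  obtain ⟨τ, ht1, ht2, ht3⟩ := exists_signs A hAc
  obtain ⟨σ, hs1, hs2, hs3⟩ := exists_signs Aᶜ hAc'
  have he : ∀ z, 2 * (if z ∈ A then f z else 0) = f z + g z := by
    intro z
    by_cases h : z ∈ A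
    · rw [if_pos h]
      have : f z = g z := by simpa [hA] using h
      rw [← this]; ring
    · rw [if_neg h]
      have : f z ≠ g z := by simpa [hA] using h
      rcases hf1 z with h | h <;> rcases hg1 z with h' | h' <;> simp [h, h'] at this ⊢
  have he' : ∀ z, 2 * (if z ∈ A then 0 else f z) = f z - g z := by
    intro z
    by_cases h : z ∈ A
    · rw [if_pos h]
      have : f z = g z := by simpa [hA] using h
      rw [← this]; ring
    · rw [if_neg h]
      have : f z ≠ g z := by simpa [hA] using h
      rcases hf1 z with h | h <;> rcases hg1 z with h' | h' <;> simp [h, h'] at this ⊢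
  refine ⟨{ e := fun z => if z ∈ A then f z else 0
            e' := fun z => if z ∈ A then 0 else f z
            σ := σ
            τ := τ
            h := ?_
            Se := ?_
            Se' := ?_
            hσ := hs3
            hτ := ht3
            card := by rw [card_E]; push_cast; ring
            q0 := hc0 }⟩
  · intro z
    by_cases h : z ∈ A
    · left
      rw [if_pos h, if_pos h]
      exact ⟨hf1 z, rfl, hs2 z (by simpa using h), ht1 z h⟩
    · right
      rw [if_neg h, if_neg h]
      exact ⟨rfl, hf1 z, hs1 z (by simpa using h), ht2 z h⟩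
  · intro z
    have h1 : 2 * ∑ w, S z w * (if w ∈ A then f w else 0) =
        2 * (Fintype.card K * (if z ∈ A then 0 else f z)) := by
      calc 2 * ∑ w, S z w * (if w ∈ A then f w else 0) = ∑ w, S z w * (f w + g w) := by
            rw [mul_sum]
            exact sum_congr rfl fun w _ => by rw [← he]; ring
        _ = ∑ w, S z w * f w + ∑ w, S z w * g w := by
            rw [← sum_add_distrib]
            exact sum_congr rfl fun w _ => by ring
        _ = Fintype.card K * (f z - g z) := by rw [hf2, hg2]; ring
        _ = _ := by rw [← he']; ring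
    linarith
  · intro z
    have h1 : 2 * ∑ w, S z w * (if w ∈ A then 0 else f w) =
        2 * (Fintype.card K * (if z ∈ A then f z else 0)) := by
      calc 2 * ∑ w, S z w * (if w ∈ A then 0 else f w) = ∑ w, S z w * (f w - g w) := by
            rw [mul_sum]
            exact sum_congr rfl fun w _ => by rw [← he']; ring
        _ = ∑ w, S z w * f w - ∑ w, S z w * g w := by
            rw [← sum_sub_distrib]
            exact sum_congr rfl fun w _ => by ring
        _ = Fintype.card K * (f z + g z) := by rw [hf2, hg2]; ring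
        _ = _ := by rw [← he]; ring
    linarith

end ext

end Chen

/-- there is a family of four sign matrices of order `w ^ 2` -/
def HasX (w : ℕ) : Prop := ∃ (β : Type) (_ : Fintype β) (_ : DecidableEq β), Nonempty (XFam β (w : ℤ))

theorem hasX_one : HasX 1 := ⟨Unit, inferInstance, inferInstance, ⟨by simpa using XFam.one⟩⟩

theorem hasX_three : HasX 3 :=
  ⟨ZMod 3 × ZMod 3, inferInstance, inferInstance, ⟨by exact_mod_cast XFam.three⟩⟩

theorem HasX.mul {w w' : ℕ} (h : HasX w) (h' : HasX w') : HasX (w * w') := by
  obtain ⟨β, i1, i2, ⟨P⟩⟩ := h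
  obtain ⟨γ, j1, j2, ⟨Q⟩⟩ := h'
  refine ⟨β × γ, inferInstance, inferInstance, ⟨?_⟩⟩
  rw [Nat.cast_mul]
  exact XFam.prod P Q

theorem HasX.pow {w : ℕ} (h : HasX w) (b : ℕ) : HasX (w ^ b) := by
  induction b with
  | zero => exact hasX_one
  | succ b ih => rw [pow_succ]; exact ih.mul h

attribute [local instance] Chen.fintypeQ Chen.decQ in
theorem hasX_field {K : Type} [Field K] [Fintype K] [DecidableEq K]
    (h2 : Fintype.card K % 2 = 1) : HasX (Fintype.card K ^ 2) := by
  have hchar : ringChar K ≠ 2 := by
    intro h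
    have h1 := FiniteField.even_card_of_char_two h
    omega
  obtain ⟨d, hd⟩ := FiniteField.exists_nonsquare hchar
  have hf : Fact (∀ r : K, r ^ 2 ≠ d + 0 * r) := by
    refine ⟨fun r hr => hd ⟨r, ?_⟩⟩
    rw [← sq, hr]
    ring
  obtain ⟨P⟩ := Chen.exists_pair (d := d) h2
  refine ⟨QuadraticAlgebra K d 0 × QuadraticAlgebra K d 0, inferInstance, inferInstance, ⟨?_⟩⟩
  rw [Nat.cast_pow]
  exact P.xfam (Chen.card_E_mod h2)

theorem hasX_prime_pow {q : ℕ} (hq : IsPrimePow q) (h2 : q % 2 = 1) : HasX (q ^ 2) := by
  obtain ⟨p, k, hp, hk, rfl⟩ := hq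
  have hp' : p.Prime := hp.nat_prime
  have : Fact p.Prime := ⟨hp'⟩
  have : Fintype (GaloisField p k) := Fintype.ofFinite _
  have hcard : Fintype.card (GaloisField p k) = p ^ k := by
    rw [← Nat.card_eq_fintype_card, GaloisField.card p k (by omega)]
  classical
  have h6 := hasX_field (K := GaloisField p k) (by rw [hcard]; exact h2)
  rwa [hcard] at h6

/-- the squares of odd numbers -/
theorem hasX_sq (t : ℕ) (ht : t % 2 = 1) : HasX (t ^ 2) := by
  induction t using Nat.recOnPosPrimePosCoprime with
  | prime_pow p n hp hn =>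
    exact hasX_prime_pow (hp.isPrimePow.pow (by omega)) ht
  | zero => omega
  | one => exact hasX_one
  | coprime a b ha hb hab iha ihb =>
    rw [mul_pow]
    have h1 : a % 2 = 1 := by
      rcases Nat.mod_two_eq_zero_or_one a with h | h
      · rw [Nat.mul_mod, h] at ht; simp at ht
      · exact h
    have h2 : b % 2 = 1 := by
      rcases Nat.mod_two_eq_zero_or_one b with h | h
      · rw [Nat.mul_mod, h] at ht; simp at ht
      · exact h
    exact (iha h1).mul (ihb h2)

theorem hasX_main (b t : ℕ) (ht : t % 2 = 1) : HasX (3 ^ b * t ^ 2) :=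
  (hasX_three.pow b).mul (hasX_sq t ht)

end Pool.Agent.K9h69.Menon
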