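import Pool.Agent.H114R2.Design

/-!
# Menon designs from matrices which map a sign vector to a multiple of a sign vector
-/

set_option autoImplicit false

namespace Pool.Agent.K9h69.Menon

open Finset Matrix
open Pool.Agent.H114R2 (IsSymDesign design_of_matrix)

/-- A Hadamard matrix of order `4 u ^ 2` which maps a vector of signs to `2 u` times a vector of
signs gives a symmetric design with Menon parameters. -/
theorem menon_of_reg {ι : Type} [Fintype ι] [DecidableEq ι] {u : ℕ} (hu : 1 < u)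
    (hcard : Fintype.card ι = 4 * u ^ 2) (M : ι → ι → ℤ) (hM : ∀ p q, M p q = 1 ∨ M p q = -1)
    (hrow : ∀ p q, ∑ z, M p z * M q z = if p = q then 4 * (u : ℤ) ^ 2 else 0)
    (X Y : ι → ℤ) (hX : ∀ p, X p = 1 ∨ X p = -1) (hY : ∀ p, Y p = 1 ∨ Y p = -1)
    (hXY : ∀ p, ∑ z, M p z * X z = 2 * u * Y p) :
    ∃ B : Fin (4 * u ^ 2) → Finset (Fin (4 * u ^ 2)),
      IsSymDesign (4 * u ^ 2) (2 * u ^ 2 - u) (u ^ 2 - u) B := by
  let e : ι ≃ Fin (4 * u ^ 2) := Fintype.equivFinOfCardEq hcard
  let H : Matrix (Fin (4 * u ^ 2)) (Fin (4 * u ^ 2)) ℤ :=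
    Matrix.of fun i j => M (e.symm i) (e.symm j)
  have hH : H * H.transpose = ((4 * u ^ 2 : ℕ) : ℤ) • (1 : Matrix _ _ ℤ) := by
    ext i j
    rw [Matrix.mul_apply]
    simp only [H, Matrix.transpose_apply, Matrix.of_apply, Matrix.smul_apply]
    rw [Equiv.sum_comp e.symm (fun k => M (e.symm i) k * M (e.symm j) k), hrow]
    by_cases hij : i = j
    · subst hij
      simp
    · have : e.symm i ≠ e.symm j := fun h => hij (e.symm.injective h)
      simp [hij, this]
  have hN : 0 < 4 * u ^ 2 := by positivity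
  obtain ⟨h1, h2⟩ := Pool.Agent.H114R2.had_rows hN hH
  let N : Fin (4 * u ^ 2) → Fin (4 * u ^ 2) → ℤ := fun i j =>
    -(Y (e.symm i) * H i j * X (e.symm j))
  have hX2 : ∀ p, X p * X p = 1 := fun p => by
    rcases hX p with h | h <;> rw [h] <;> norm_num
  have hY2 : ∀ p, Y p * Y p = 1 := fun p => by
    rcases hY p with h | h <;> rw [h] <;> norm_num
  have hNr : ∀ i, ∑ j, N i j = -(2 * (u : ℤ)) := by
    intro i
    have h3 : ∑ j, N i j = -(Y (e.symm i) * ∑ j, M (e.symm i) (e.symm j) * X (e.symm j)) := by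
      rw [mul_sum, ← sum_neg_distrib]
      refine sum_congr rfl fun j _ => ?_
      simp only [N, H, Matrix.of_apply]
      ring
    rw [h3, Equiv.sum_comp e.symm (fun k => M (e.symm i) k * X k), hXY]
    linear_combination (-(2 * (u : ℤ))) * hY2 (e.symm i)
  have hNrr : ∀ i i', ∑ j, N i j * N i' j = if i = i' then ((4 * u ^ 2 : ℕ) : ℤ) else 0 := by
    intro i i'
    have h3 : ∑ j, N i j * N i' j = Y (e.symm i) * Y (e.symm i') * ∑ j, H i j * H i' j := by
      rw [mul_sum]
      refine sum_congr rfl fun j _ => ?_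
      simp only [N]
      linear_combination (Y (e.symm i) * Y (e.symm i') * H i j * H i' j) * hX2 (e.symm j)
    rw [h3, h1]
    by_cases h : i = i'
    · subst h
      rw [if_pos rfl, hY2, one_mul]
    · rw [if_neg h, mul_zero]
  have hNcc : ∀ j j', ∑ i, N i j * N i j' = if j = j' then ((4 * u ^ 2 : ℕ) : ℤ) else 0 := by
    intro j j'
    have h3 : ∑ i, N i j * N i j' = X (e.symm j) * X (e.symm j') * ∑ i, H i j * H i j' := by
      rw [mul_sum]
      refine sum_congr rfl fun i _ => ?_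
      simp only [N]
      linear_combination (X (e.symm j) * X (e.symm j') * H i j * H i j') * hY2 (e.symm i)
    rw [h3, h2]
    by_cases h : j = j'
    · subst h
      rw [if_pos rfl, hX2, one_mul]
    · rw [if_neg h, mul_zero]
  have hu0 : (0 : ℤ) < u := by exact_mod_cast (by omega : 0 < u)
  have hNc : ∀ j, ∑ i, N i j = -(2 * (u : ℤ)) := by
    intro j
    have h3 : -(2 * (u : ℤ)) * ∑ i, N i j = ∑ l, ∑ i, N i j * N i l := by
      rw [sum_comm, mul_sum]
      refine sum_congr rfl fun i _ => ?_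
      rw [← mul_sum, hNr]
      ring
    have h4 : ∑ l, ∑ i, N i j * N i l = 4 * (u : ℤ) ^ 2 := by
      rw [sum_congr rfl fun l _ => hNcc j l]
      simp
    rw [h4] at h3
    have h5 : -(2 * (u : ℤ)) ≠ 0 := by linarith [hu0]
    apply mul_left_cancel₀ h5
    rw [h3]
    ring
  have hu2 : u ≤ u ^ 2 := Nat.le_self_pow (by norm_num) u
  have hu3 : u < u ^ 2 := by nlinarith
  refine ⟨_, design_of_matrix N ?_ (-(2 * (u : ℤ))) 0 hNr hNc ?_ ?_ ?_ ?_ ?_ ?_⟩
  · intro i j
    simp only [N]
    have h5 : H i j = 1 ∨ H i j = -1 := hM _ _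
    rcases h5 with h5 | h5 <;> rcases hX (e.symm j) with h6 | h6 <;>
      rcases hY (e.symm i) with h7 | h7 <;> rw [h5, h6, h7] <;> norm_num
  · intro i i' h
    rw [hNrr, if_neg h]
  · intro j j' h
    rw [hNcc, if_neg h]
  · push_cast [Nat.cast_sub (by omega : u ≤ 2 * u ^ 2)]
    ring
  · push_cast [Nat.cast_sub hu2]
    ring
  · omega
  · omega

end Pool.Agent.K9h69.Menon
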