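import Pool.Agent.TH432.Had.Miya
import Pool.Agent.H114R2.Design

/-!
# Regular Hadamard matrices from Miyamoto's construction

`D : Data α` are the data of the starting files for Miyamoto's Hadamard matrix `D.M` of order `4 k`.
If `k = v ^ 2` and there are two sign vectors `a`, `b` as in `RegVec`, then `D.M` maps a sign vector
to `2 v` times a sign vector, so that there is a regular Hadamard matrix of order `4 v ^ 2`, that is, a
symmetric `(4 v ^ 2, 2 v ^ 2 - v, v ^ 2 - v)`-design.
-/

set_option autoImplicit false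

namespace Pool.Agent.K9h69.Menon

open Finset Matrix
open Pool.Agent.TH432.Had
open Pool.Agent.H114R2 (IsSymDesign design_of_matrix)

variable {α : Type} [Fintype α] [DecidableEq α]

/-- the two sign vectors which make Miyamoto's matrix regular -/
structure RegVec (D : Data α) (v : ℤ) where
  a : α → ℤ
  b : α → ℤ
  w : α → ℤ
  ha : ∀ x, a x = 1 ∨ a x = -1
  hb : ∀ x, b x = 1 ∨ b x = -1
  hw : ∀ x, w x = 1 ∨ w x = -1
  hPa : ∀ x, ∑ y, D.P x y * a y = v * a x - 1 - D.c x
  hPb : ∀ x, ∑ y, D.P x y * b y = v * w x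
  sa : ∑ y, a y = v - 1
  sca : ∑ y, D.c y * a y = v - 1
  sb : ∑ y, b y = 0
  scb : ∑ y, D.c y * b y = 0

namespace RegVec

variable {D : Data α} {v : ℤ} (R : RegVec D v)

/-- signs of the columns -/
def X : (Bool × Bool) ⊕ (Bool × Bool × α) → ℤ
  | Sum.inl _ => 1
  | Sum.inr (ε, _, x) => if ε then R.b x else R.a x

/-- signs of the rows -/
def Y : (Bool × Bool) ⊕ (Bool × Bool × α) → ℤ
  | Sum.inl (i, j) => if i then -1 else sg j
  | Sum.inr (ε, _, x) => if ε then R.w x else R.a x

theorem X_sign (p : (Bool × Bool) ⊕ (Bool × Bool × α)) : R.X p = 1 ∨ R.X p = -1 := by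
  rcases p with i | ⟨ε, s, x⟩
  · left; rfl
  · cases ε
    · exact R.ha x
    · exact R.hb x

theorem Y_sign (p : (Bool × Bool) ⊕ (Bool × Bool × α)) : R.Y p = 1 ∨ R.Y p = -1 := by
  rcases p with ⟨i, j⟩ | ⟨ε, s, x⟩
  · cases i
    · exact sg_cases j
    · right; rfl
  · cases ε
    · exact R.ha x
    · exact R.hw x

/-- a function of the sign `c` -/
theorem sum_g (D : Data α) (i : Bool × Bool) (ε : Bool) (f : α → ℤ) :
    ∑ y, Data.g i ε (D.c y) * f y =
      if i.1 = ε then sg i.2 * ∑ y, f y else - ∑ y, D.c y * f y := by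
  by_cases h : i.1 = ε
  · rw [if_pos h, mul_sum]
    refine sum_congr rfl fun y _ => ?_
    have h1 : Data.g i ε (D.c y) = sg i.2 := by
      unfold Data.g
      rcases D.hc y with hc | hc <;> rcases sg_cases i.2 with h2 | h2 <;> rw [hc, h2] <;>
        simp [h]
    rw [h1]
  · rw [if_neg h, ← sum_neg_distrib]
    refine sum_congr rfl fun y _ => ?_
    unfold Data.g
    rw [if_neg (by tauto)]
    ring

theorem mul_X (p : (Bool × Bool) ⊕ (Bool × Bool × α)) :
    ∑ z, D.M p z * R.X z = 2 * v * R.Y p := by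
  rw [Fintype.sum_sum_type]
  rcases p with i | r
  · -- border
    have h1 : ∑ z : Bool × Bool × α, D.M (Sum.inl i) (Sum.inr z) * R.X (Sum.inr z) =
        2 * ∑ y, Data.g i false (D.c y) * R.a y + 2 * ∑ y, Data.g i true (D.c y) * R.b y := by
      rw [Fintype.sum_prod_type]
      simp only [Fintype.sum_prod_type, Fintype.sum_bool, Data.M, Data.G, X, if_true,
        Bool.false_eq_true, if_false]
      ring
    have h2 : ∑ l : Bool × Bool, D.M (Sum.inl i) (Sum.inl l) * R.X (Sum.inl l) =
        (1 + sg i.1) * (1 + sg i.2) - 2 := by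
      rw [Fintype.sum_prod_type]
      simp only [Fintype.sum_bool, Data.M, Data.F, X]
      simp
      ring
    rw [h1, h2, sum_g, sum_g, R.sa, R.sb, R.sca, R.scb]
    obtain ⟨i1, i2⟩ := i
    cases i1 <;> cases i2 <;> simp [sg, Y] <;> ring
  · -- inner
    obtain ⟨ε, s, x⟩ := r
    have h1 : ∑ z : Bool × Bool × α, D.M (Sum.inr (ε, s, x)) (Sum.inr z) * R.X (Sum.inr z) =
        2 * ∑ y, D.P x y * (if ε then R.b y else R.a y) := by
      rw [Fintype.sum_prod_type]
      simp only [Fintype.sum_prod_type, Fintype.sum_bool, Data.M, Data.X, X, sg, if_true,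
        Bool.false_eq_true, if_false, Data.U]
      rw [← sum_add_distrib, ← sum_add_distrib, ← sum_add_distrib, mul_sum]
      refine sum_congr rfl fun y _ => ?_
      cases ε <;> simp <;> ring
    have h2 : ∑ l : Bool × Bool, D.M (Sum.inr (ε, s, x)) (Sum.inl l) * R.X (Sum.inl l) =
        (1 + sg ε) * (1 + D.c x) := by
      rw [Fintype.sum_prod_type]
      simp only [Fintype.sum_bool, Data.M, Data.G', X]
      simp
      ring
    rw [h1, h2]
    cases ε
    · simp only [Bool.false_eq_true, if_false, sg, Y]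
      rw [R.hPa]
      ring
    · simp only [if_true, sg, Y]
      rw [R.hPb]
      ring

/-- the Menon design -/
theorem menon {u : ℕ} (hu : 1 < u) (hk : D.k = (u : ℤ) ^ 2) (R : RegVec D (u : ℤ)) :
    ∃ B : Fin (4 * u ^ 2) → Finset (Fin (4 * u ^ 2)),
      IsSymDesign (4 * u ^ 2) (2 * u ^ 2 - u) (u ^ 2 - u) B := by
  have hcard : Fintype.card ((Bool × Bool) ⊕ (Bool × Bool × α)) = 4 * u ^ 2 := by
    have h := D.hcard
    rw [hk] at h
    simp only [Fintype.card_sum, Fintype.card_prod, Fintype.card_bool]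
    zify
    linarith
  let e : (Bool × Bool) ⊕ (Bool × Bool × α) ≃ Fin (4 * u ^ 2) := Fintype.equivFinOfCardEq hcard
  -- rows of the matrix are orthogonal, so the columns are
  have hrow := D.main_row
  let H : Matrix (Fin (4 * u ^ 2)) (Fin (4 * u ^ 2)) ℤ :=
    Matrix.of fun i j => D.M (e.symm i) (e.symm j)
  have hH : H * H.transpose = ((4 * u ^ 2 : ℕ) : ℤ) • (1 : Matrix _ _ ℤ) := by
    ext i j
    rw [Matrix.mul_apply]
    simp only [H, Matrix.transpose_apply, Matrix.of_apply, Matrix.smul_apply]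
    rw [Equiv.sum_comp e.symm (fun k => D.M (e.symm i) k * D.M (e.symm j) k), hrow, hk]
    by_cases hij : i = j
    · subst hij
      simp
    · have : e.symm i ≠ e.symm j := fun h => hij (e.symm.injective h)
      simp [hij, this]
  have hN : 0 < 4 * u ^ 2 := by positivity
  obtain ⟨h1, h2⟩ := Pool.Agent.H114R2.had_rows hN hH
  let N : Fin (4 * u ^ 2) → Fin (4 * u ^ 2) → ℤ := fun i j =>
    -(R.Y (e.symm i) * H i j * R.X (e.symm j))
  have hX2 : ∀ p, R.X p * R.X p = 1 := fun p => by
    rcases R.X_sign p with h | h <;> rw [h] <;> norm_num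
  have hY2 : ∀ p, R.Y p * R.Y p = 1 := fun p => by
    rcases R.Y_sign p with h | h <;> rw [h] <;> norm_num
  have hNr : ∀ i, ∑ j, N i j = -(2 * (u : ℤ)) := by
    intro i
    have h3 : ∑ j, N i j = -(R.Y (e.symm i) * ∑ j, D.M (e.symm i) (e.symm j) * R.X (e.symm j)) := by
      rw [mul_sum, ← sum_neg_distrib]
      refine sum_congr rfl fun j _ => ?_
      simp only [N, H, Matrix.of_apply]
      ring
    rw [h3, Equiv.sum_comp e.symm (fun k => D.M (e.symm i) k * R.X k), R.mul_X]
    linear_combination (-(2 * (u : ℤ))) * hY2 (e.symm i)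
  have hNrr : ∀ i i', ∑ j, N i j * N i' j = if i = i' then ((4 * u ^ 2 : ℕ) : ℤ) else 0 := by
    intro i i'
    have h3 : ∑ j, N i j * N i' j = R.Y (e.symm i) * R.Y (e.symm i') * ∑ j, H i j * H i' j := by
      rw [mul_sum]
      refine sum_congr rfl fun j _ => ?_
      simp only [N]
      linear_combination (R.Y (e.symm i) * R.Y (e.symm i') * H i j * H i' j) * hX2 (e.symm j)
    rw [h3, h1]
    by_cases h : i = i'
    · subst h
      rw [if_pos rfl, hY2, one_mul]
    · rw [if_neg h, mul_zero]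
  have hNcc : ∀ j j', ∑ i, N i j * N i j' = if j = j' then ((4 * u ^ 2 : ℕ) : ℤ) else 0 := by
    intro j j'
    have h3 : ∑ i, N i j * N i j' = R.X (e.symm j) * R.X (e.symm j') * ∑ i, H i j * H i j' := by
      rw [mul_sum]
      refine sum_congr rfl fun i _ => ?_
      simp only [N]
      linear_combination (R.X (e.symm j) * R.X (e.symm j') * H i j * H i j') * hY2 (e.symm i)
    rw [h3, h2]
    by_cases h : j = j'
    · subst h
      rw [if_pos rfl, hX2, one_mul]
    · rw [if_neg h, mul_zero]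
  have hu0 : (0 : ℤ) < u := by exact_mod_cast (by omega : 0 < u)
  have hNc : ∀ j, ∑ i, N i j = -(2 * (u : ℤ)) := by
    intro j
    have h3 : -(2 * (u : ℤ)) * ∑ i, N i j = ∑ l, ∑ i, N i j * N i l := by
      rw [sum_comm, mul_sum]
      refine sum_congr rfl fun i _ => ?_
      rw [← mul_sum, hNr]
      ring
    have h4 : ∑ l, ∑ i, N i j * N i l = 4 * (u : ℤ) ^ 2 := by
      rw [sum_congr rfl fun l _ => hNcc j l]
      simp
    rw [h4] at h3
    have h5 : -(2 * (u : ℤ)) ≠ 0 := by linarith [hu0]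
    apply mul_left_cancel₀ h5
    rw [h3]
    ring
  have hu2 : u ≤ u ^ 2 := Nat.le_self_pow (by norm_num) u
  have hu3 : u < u ^ 2 := by nlinarith
  refine ⟨_, design_of_matrix N ?_ (-(2 * (u : ℤ))) 0 hNr hNc ?_ ?_ ?_ ?_ ?_ ?_⟩
  · intro i j
    simp only [N]
    have h5 : H i j = 1 ∨ H i j = -1 := D.M_sign _ _
    rcases h5 with h5 | h5 <;> rcases R.X_sign (e.symm j) with h6 | h6 <;>
      rcases R.Y_sign (e.symm i) with h7 | h7 <;> rw [h5, h6, h7] <;> norm_num
  · intro i i' h
    rw [hNrr, if_neg h]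
  · intro j j' h
    rw [hNcc, if_neg h]
  · push_cast [Nat.cast_sub (by omega : u ≤ 2 * u ^ 2)]
    ring
  · push_cast [Nat.cast_sub hu2]
    ring
  · omega
  · omega

end RegVec

end Pool.Agent.K9h69.Menon
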