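import Pool.Agent.K9h69.Menon.Dec
import Pool.Agent.K9h69.Menon.Gen
import Pool.Agent.K9h69.Menon.Reg

/-!
# Families of four sign matrices and the composition with Miyamoto's matrix

`XFam β w`: four sign matrices `F k` of order `w ^ 2` with row sums `w`, `∑ F k (F k)ᵀ = 4 w² I` and
`F k (F l)ᵀ = J` for `k ≠ l`. They are closed under products, and exist for `w = 3`. With the
decomposition of Miyamoto's Hadamard matrix `M` of order `4 q` as a sum of four disjoint weighing
matrices `X k` of weight `q`, the matrix `∑ F k ⊗ X k` is a Hadamard matrix of order `4 q w²`.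
-/

set_option autoImplicit false

namespace Pool.Agent.K9h69.Menon

open Finset
open Pool.Agent.TH432.Had
open Pool.Agent.H114R2 (IsSymDesign)

/-- four sign matrices of order `w ^ 2` -/
structure XFam (β : Type) [Fintype β] [DecidableEq β] (w : ℤ) where
  F : Bool → Bool → β → β → ℤ
  sign : ∀ a b x y, F a b x y = 1 ∨ F a b x y = -1
  diag : ∀ x y, ∑ a, ∑ b, ∑ z, F a b x z * F a b y z = if x = y then 4 * w ^ 2 else 0
  off : ∀ a b c d, ¬(a = c ∧ b = d) → ∀ x y, ∑ z, F a b x z * F c d y z = 1
  row : ∀ a b x, ∑ z, F a b x z = w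
  card : (Fintype.card β : ℤ) = w ^ 2

/-- the twisted product of signs `((A + B) C + (A - B) E) / 2` -/
def tw (A B C E : ℤ) : ℤ := if A = B then A * C else A * E

theorem two_tw {A B C E : ℤ} (hA : A = 1 ∨ A = -1) (hB : B = 1 ∨ B = -1) :
    2 * tw A B C E = (A + B) * C + (A - B) * E := by
  unfold tw
  rcases hA with h | h <;> rcases hB with h' | h' <;> rw [h, h'] <;> norm_num <;> ring

theorem tw_sign {A B C E : ℤ} (hA : A = 1 ∨ A = -1) (hC : C = 1 ∨ C = -1) (hE : E = 1 ∨ E = -1) :
    tw A B C E = 1 ∨ tw A B C E = -1 := by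
  unfold tw
  split_ifs
  · rcases hA with h | h <;> rcases hC with h' | h' <;> rw [h, h'] <;> norm_num
  · rcases hA with h | h <;> rcases hE with h' | h' <;> rw [h, h'] <;> norm_num

section prod

variable {β γ : Type} [Fintype β] [DecidableEq β] [Fintype γ] [DecidableEq γ] {w w' : ℤ}
  (P : XFam β w) (Q : XFam γ w')

/-- the matrices of the product -/
def prodF : Bool → Bool → β × γ → β × γ → ℤ
  | false, false, x, y => tw (P.F false false x.1 y.1) (P.F false true x.1 y.1)
      (Q.F false false x.2 y.2) (Q.F false true x.2 y.2)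
  | false, true, x, y => tw (P.F false true x.1 y.1) (P.F false false x.1 y.1)
      (Q.F true false x.2 y.2) (Q.F true true x.2 y.2)
  | true, false, x, y => tw (P.F true false x.1 y.1) (P.F true true x.1 y.1)
      (Q.F false true x.2 y.2) (Q.F false false x.2 y.2)
  | true, true, x, y => tw (P.F true true x.1 y.1) (P.F true false x.1 y.1)
      (Q.F true true x.2 y.2) (Q.F true false x.2 y.2)

theorem sum_mul_sum' (f : β → ℤ) (g : γ → ℤ) :
    ∑ z : β × γ, f z.1 * g z.2 = (∑ z, f z) * ∑ z, g z := by
  rw [Fintype.sum_prod_type, sum_mul_sum]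

/-- sums of products of twisted products -/
theorem sum_tw (A B A' B' : β → ℤ) (C E C' E' : γ → ℤ) (hA : ∀ z, A z = 1 ∨ A z = -1)
    (hB : ∀ z, B z = 1 ∨ B z = -1) (hA' : ∀ z, A' z = 1 ∨ A' z = -1)
    (hB' : ∀ z, B' z = 1 ∨ B' z = -1) :
    4 * ∑ z : β × γ, tw (A z.1) (B z.1) (C z.2) (E z.2) * tw (A' z.1) (B' z.1) (C' z.2) (E' z.2) =
      (∑ z, A z * A' z + ∑ z, A z * B' z + ∑ z, B z * A' z + ∑ z, B z * B' z) * ∑ z, C z * C' z +
      (∑ z, A z * A' z - ∑ z, A z * B' z + ∑ z, B z * A' z - ∑ z, B z * B' z) * ∑ z, C z * E' z +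
      (∑ z, A z * A' z + ∑ z, A z * B' z - ∑ z, B z * A' z - ∑ z, B z * B' z) * ∑ z, E z * C' z +
      (∑ z, A z * A' z - ∑ z, A z * B' z - ∑ z, B z * A' z + ∑ z, B z * B' z) * ∑ z, E z * E' z := by
  have h1 : ∀ z : β × γ, 4 * (tw (A z.1) (B z.1) (C z.2) (E z.2) *
      tw (A' z.1) (B' z.1) (C' z.2) (E' z.2)) =
      (A z.1 * A' z.1 + A z.1 * B' z.1 + B z.1 * A' z.1 + B z.1 * B' z.1) * (C z.2 * C' z.2) +
      (A z.1 * A' z.1 - A z.1 * B' z.1 + B z.1 * A' z.1 - B z.1 * B' z.1) * (C z.2 * E' z.2) +
      (A z.1 * A' z.1 + A z.1 * B' z.1 - B z.1 * A' z.1 - B z.1 * B' z.1) * (E z.2 * C' z.2) +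
      (A z.1 * A' z.1 - A z.1 * B' z.1 - B z.1 * A' z.1 + B z.1 * B' z.1) * (E z.2 * E' z.2) := by
    intro z
    have e1 := two_tw (C := C z.2) (E := E z.2) (hA z.1) (hB z.1)
    have e2 := two_tw (C := C' z.2) (E := E' z.2) (hA' z.1) (hB' z.1)
    calc 4 * (tw (A z.1) (B z.1) (C z.2) (E z.2) * tw (A' z.1) (B' z.1) (C' z.2) (E' z.2)) =
        (2 * tw (A z.1) (B z.1) (C z.2) (E z.2)) *
          (2 * tw (A' z.1) (B' z.1) (C' z.2) (E' z.2)) := by ring
      _ = _ := by rw [e1, e2]; ring
  rw [mul_sum, sum_congr rfl fun z _ => h1 z]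
  rw [sum_add_distrib, sum_add_distrib, sum_add_distrib,
    sum_mul_sum' (fun z => A z * A' z + A z * B' z + B z * A' z + B z * B' z) (fun z => C z * C' z),
    sum_mul_sum' (fun z => A z * A' z - A z * B' z + B z * A' z - B z * B' z) (fun z => C z * E' z),
    sum_mul_sum' (fun z => A z * A' z + A z * B' z - B z * A' z - B z * B' z) (fun z => E z * C' z),
    sum_mul_sum' (fun z => A z * A' z - A z * B' z - B z * A' z + B z * B' z) (fun z => E z * E' z)]
  simp only [sum_add_distrib, sum_sub_distrib]

theorem sum_tw_one (A B : β → ℤ) (C E : γ → ℤ) (hA : ∀ z, A z = 1 ∨ A z = -1)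
    (hB : ∀ z, B z = 1 ∨ B z = -1) :
    2 * ∑ z : β × γ, tw (A z.1) (B z.1) (C z.2) (E z.2) =
      (∑ z, A z + ∑ z, B z) * ∑ z, C z + (∑ z, A z - ∑ z, B z) * ∑ z, E z := by
  rw [mul_sum, sum_congr rfl fun z _ => two_tw (hA z.1) (hB z.1), sum_add_distrib,
    sum_mul_sum' (fun z => A z + B z) C, sum_mul_sum' (fun z => A z - B z) E, sum_add_distrib,
    sum_sub_distrib]

/-- products of families -/
def XFam.prod : XFam (β × γ) (w * w') where
  F := prodF P Q
  sign := by
    intro a b x y
    cases a <;> cases b <;> exact tw_sign (P.sign _ _ _ _) (Q.sign _ _ _ _) (Q.sign _ _ _ _)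
  diag := by
    intro x y
    have hp := P.diag x.1 y.1
    have hq := Q.diag x.2 y.2
    simp only [Fintype.sum_bool] at hp hq ⊢
    have hs := P.sign
    have po := P.off
    have qo := Q.off
    have e1 := sum_tw (P.F true true x.1) (P.F true false x.1) (P.F true true y.1)
      (P.F true false y.1) (Q.F true true x.2) (Q.F true false x.2) (Q.F true true y.2)
      (Q.F true false y.2) (hs _ _ _) (hs _ _ _) (hs _ _ _) (hs _ _ _)
    have e2 := sum_tw (P.F true false x.1) (P.F true true x.1) (P.F true false y.1)
      (P.F true true y.1) (Q.F false true x.2) (Q.F false false x.2) (Q.F false true y.2)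
      (Q.F false false y.2) (hs _ _ _) (hs _ _ _) (hs _ _ _) (hs _ _ _)
    have e3 := sum_tw (P.F false true x.1) (P.F false false x.1) (P.F false true y.1)
      (P.F false false y.1) (Q.F true false x.2) (Q.F true true x.2) (Q.F true false y.2)
      (Q.F true true y.2) (hs _ _ _) (hs _ _ _) (hs _ _ _) (hs _ _ _)
    have e4 := sum_tw (P.F false false x.1) (P.F false true x.1) (P.F false false y.1)
      (P.F false true y.1) (Q.F false false x.2) (Q.F false true x.2) (Q.F false false y.2)
      (Q.F false true y.2) (hs _ _ _) (hs _ _ _) (hs _ _ _) (hs _ _ _)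
    rw [po true false true true (by simp), po true true true false (by simp),
      qo true true true false (by simp), qo true false true true (by simp)] at e1
    rw [po true false true true (by simp), po true true true false (by simp),
      qo false true false false (by simp), qo false false false true (by simp)] at e2
    rw [po false false false true (by simp), po false true false false (by simp),
      qo true true true false (by simp), qo true false true true (by simp)] at e3
    rw [po false false false true (by simp), po false true false false (by simp),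
      qo false true false false (by simp), qo false false false true (by simp)] at e4
    have key : 4 * (∑ z, prodF P Q true true x z * prodF P Q true true y z +
        ∑ z, prodF P Q true false x z * prodF P Q true false y z +
        (∑ z, prodF P Q false true x z * prodF P Q false true y z +
        ∑ z, prodF P Q false false x z * prodF P Q false false y z)) =
        (if x.1 = y.1 then 4 * w ^ 2 else 0) * (if x.2 = y.2 then 4 * w' ^ 2 else 0) := by
      rw [← hp, ← hq]
      simp only [prodF]
      linear_combination e1 + e2 + e3 + e4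
    have h4 : ∀ s t : ℤ, 4 * s = 4 * t → s = t := fun s t h => by omega
    apply h4
    rw [key]
    by_cases h : x.1 = y.1 <;> by_cases h' : x.2 = y.2
    · rw [if_pos h, if_pos h', if_pos (Prod.ext h h')]; ring
    · rw [if_neg h', if_neg (fun e => h' (congrArg Prod.snd e))]; ring
    · rw [if_neg h, if_neg (fun e => h (congrArg Prod.fst e))]; ring
    · rw [if_neg h, if_neg (fun e => h (congrArg Prod.fst e))]; ring
  off := by
    intro a b c d hne x y
    have hs := P.sign
    have po := P.off
    have qo := Q.off
    have h4 : ∀ s : ℤ, 4 * s = 4 → s = 1 := fun s h => by omega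
    apply h4
    cases a <;> cases b <;> cases c <;> cases d <;> (try exact absurd ⟨rfl, rfl⟩ hne) <;>
      simp only [prodF] <;>
      rw [sum_tw _ _ _ _ _ _ _ _ (hs _ _ _) (hs _ _ _) (hs _ _ _) (hs _ _ _)] <;>
      simp only [po _ _ _ _ (by simp : ¬(false = false ∧ false = true)),
        po _ _ _ _ (by simp : ¬(false = false ∧ true = false)),
        po _ _ _ _ (by simp : ¬(true = true ∧ false = true)),
        po _ _ _ _ (by simp : ¬(true = true ∧ true = false)),
        po _ _ _ _ (by simp : ¬(false = true ∧ false = false)),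
        po _ _ _ _ (by simp : ¬(false = true ∧ false = true)),
        po _ _ _ _ (by simp : ¬(false = true ∧ true = false)),
        po _ _ _ _ (by simp : ¬(false = true ∧ true = true)),
        po _ _ _ _ (by simp : ¬(true = false ∧ false = false)),
        po _ _ _ _ (by simp : ¬(true = false ∧ false = true)),
        po _ _ _ _ (by simp : ¬(true = false ∧ true = false)),
        po _ _ _ _ (by simp : ¬(true = false ∧ true = true)),
        qo _ _ _ _ (by simp : ¬(false = false ∧ false = true)),
        qo _ _ _ _ (by simp : ¬(false = false ∧ true = false)),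
        qo _ _ _ _ (by simp : ¬(true = true ∧ false = true)),
        qo _ _ _ _ (by simp : ¬(true = true ∧ true = false)),
        qo _ _ _ _ (by simp : ¬(false = true ∧ false = false)),
        qo _ _ _ _ (by simp : ¬(false = true ∧ false = true)),
        qo _ _ _ _ (by simp : ¬(false = true ∧ true = false)),
        qo _ _ _ _ (by simp : ¬(false = true ∧ true = true)),
        qo _ _ _ _ (by simp : ¬(true = false ∧ false = false)),
        qo _ _ _ _ (by simp : ¬(true = false ∧ false = true)),
        qo _ _ _ _ (by simp : ¬(true = false ∧ true = false)),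
        qo _ _ _ _ (by simp : ¬(true = false ∧ true = true))] <;> ring
  row := by
    intro a b x
    have hs := P.sign
    have h2 : ∀ s t : ℤ, 2 * s = 2 * t → s = t := fun s t h => by omega
    apply h2
    cases a <;> cases b <;> simp only [prodF] <;>
      rw [sum_tw_one _ _ _ _ (hs _ _ _) (hs _ _ _)] <;> simp only [P.row, Q.row] <;> ring
  card := by
    rw [Fintype.card_prod]
    push_cast
    rw [P.card, Q.card]
    ring

end prod

/-- the trivial family -/
def XFam.one : XFam Unit 1 where
  F _ _ _ _ := 1
  sign _ _ _ _ := Or.inl rfl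
  diag _ _ := by simp
  off _ _ _ _ _ _ _ := by simp
  row _ _ _ := by simp
  card := by simp

/-- the matrices for `w = 3`: the sign function `-1, 1, 1` on the lines of the four parallel classes of
the affine plane of order `3` -/
def F3 (a b : Bool) (x y : ZMod 3 × ZMod 3) : ℤ :=
  if (cond a (cond b (x.1 - y.1 - (x.2 - y.2)) (x.1 - y.1 + (x.2 - y.2)))
    (cond b (x.2 - y.2) (x.1 - y.1)) : ZMod 3) = 0 then -1 else 1

/-- the family for `w = 3` -/
def XFam.three : XFam (ZMod 3 × ZMod 3) 3 where
  F := F3
  sign a b x y := by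
    unfold F3
    split_ifs
    · right; rfl
    · left; rfl
  diag := by decide +kernel
  off := by decide +kernel
  row := by decide +kernel
  card := by decide +kernel

end Pool.Agent.K9h69.Menon
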