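import Mathlib
import Pool.Agent.K9h69.Menon.Reg

/-!
# The quadratic extension of a finite field with `v = 3` modulo `4` elements
-/

set_option autoImplicit false

namespace Pool.Agent.K9h69.Menon

open Finset Matrix
open Pool.Agent.TH432.Had
open Pool.Agent.H108R3.Had (HasHad)
open Pool.Agent.H114R2 (IsSymDesign)

variable {K : Type} [Field K] [Fintype K] [DecidableEq K]

omit [DecidableEq K] in
theorem neg_one_not_sq (h4 : Fintype.card K % 4 = 3) : Fact (∀ r : K, r ^ 2 ≠ (-1) + 0 * r) := by
  refine ⟨fun r hr => ?_⟩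
  have h1 : IsSquare (-1 : K) := ⟨r, by rw [← sq, hr]; ring⟩
  rw [FiniteField.isSquare_neg_one_iff] at h1
  exact h1 h4

/-- the quadratic extension -/
abbrev Q (K : Type) [Field K] : Type := QuadraticAlgebra K (-1) 0

variable [hf : Fact (∀ r : K, r ^ 2 ≠ (-1) + 0 * r)]

noncomputable instance : Fintype (Q K) := Fintype.ofEquiv (K × K) (QuadraticAlgebra.equivProd (-1) 0).symm

noncomputable instance : DecidableEq (Q K) := Classical.decEq _

omit [DecidableEq K] hf in
theorem card_Q : Fintype.card (Q K) = Fintype.card K ^ 2 := by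
  rw [Fintype.ofEquiv_card, Fintype.card_prod, sq]

omit [DecidableEq K] hf in
theorem card_Q_mod (h4 : Fintype.card K % 4 = 3) : Fintype.card (Q K) % 4 = 1 := by
  rw [card_Q, Nat.pow_mod, h4]

omit [Fintype K] [DecidableEq K] hf in
theorem re_one' : (1 : Q K).re = 1 := rfl

omit [Fintype K] [DecidableEq K] hf in
theorem im_one' : (1 : Q K).im = 0 := rfl

/-- the square root of `-1` -/
def om : Q K := ⟨0, 1⟩

omit [Fintype K] [DecidableEq K] hf in
theorem om_sq : (om : Q K) * om = -1 := by
  ext <;> simp [om, re_one', im_one']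

omit [DecidableEq K] in
theorem chi_om (h4 : Fintype.card K % 4 = 3) : quadraticChar (Q K) om = 1 := by
  have hne : (om : Q K) ≠ 0 := by
    intro h
    have := congrArg QuadraticAlgebra.im h
    simp [om] at this
  rw [quadraticChar_one_iff_isSquare hne,
    FiniteField.isSquare_iff (char_ne_two (card_Q_mod h4)) hne]
  have h8 : Fintype.card K ^ 2 % 8 = 1 := by
    have : Fintype.card K % 8 = 3 ∨ Fintype.card K % 8 = 7 := by omega
    rcases this with h | h <;> rw [Nat.pow_mod, h]
  rw [card_Q]
  have h5 : Fintype.card K ^ 2 / 2 = 4 * (Fintype.card K ^ 2 / 8) := by omega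
  rw [h5, pow_mul]
  have h6 : (om : Q K) ^ 4 = 1 := by
    have : (om : Q K) ^ 4 = (om * om) * (om * om) := by ring
    rw [this, om_sq]
    ring
  rw [h6, one_pow]

/-- nonzero elements of the small field are squares of squares -/
theorem exists_root (h4 : Fintype.card K % 4 = 3) (t : K) (ht : t ≠ 0) :
    ∃ d : Q K, d * d = algebraMap K (Q K) t ∧ quadraticChar (Q K) d = 1 := by
  have hsq : ∀ s : K, s ≠ 0 → IsSquare (algebraMap K (Q K) s) := by
    intro s hs
    have hchar : ringChar K ≠ 2 := by
      intro h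
      have h1 := FiniteField.even_card_of_char_two h
      omega
    rcases quadraticChar_dichotomy hs with h | h
    · rw [quadraticChar_one_iff_isSquare hs] at h
      obtain ⟨r, hr⟩ := h
      exact ⟨algebraMap K (Q K) r, by rw [← map_mul, ← hr]⟩
    · have h1 : quadraticChar K (-1) = -1 := by
        rcases quadraticChar_dichotomy (neg_ne_zero.2 (one_ne_zero (α := K))) with h2 | h2
        · exfalso
          rw [quadraticChar_one_iff_isSquare (neg_ne_zero.2 one_ne_zero),
            FiniteField.isSquare_neg_one_iff] at h2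
          exact h2 h4
        · exact h2
      have h2 : quadraticChar K (-s) = 1 := by
        rw [← neg_one_mul, map_mul, h1, h]
        norm_num
      rw [quadraticChar_one_iff_isSquare (neg_ne_zero.2 hs)] at h2
      obtain ⟨r, hr⟩ := h2
      refine ⟨om * algebraMap K (Q K) r, ?_⟩
      have h3 : om * algebraMap K (Q K) r * (om * algebraMap K (Q K) r) =
          (om * om) * (algebraMap K (Q K) (r * r)) := by rw [map_mul]; ring
      rw [h3, om_sq, ← hr, map_neg]
      ring
  have hinj := QuadraticAlgebra.algebraMap_injective (R := K) (a := -1) (b := 0)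
  have hne : ∀ s : K, s ≠ 0 → algebraMap K (Q K) s ≠ 0 := by
    intro s hs h
    apply hs
    apply hinj
    rw [h, map_zero]
  have hchi : ∀ s : K, s ≠ 0 → quadraticChar (Q K) (algebraMap K (Q K) s) = 1 := fun s hs =>
    (quadraticChar_one_iff_isSquare (hne s hs)).2 (hsq s hs)
  -- `t = s ^ 2` or `t = - s ^ 2`
  rcases quadraticChar_dichotomy ht with h | h
  · rw [quadraticChar_one_iff_isSquare ht] at h
    obtain ⟨r, hr⟩ := h
    have hr0 : r ≠ 0 := by rintro rfl; simp at hr; exact ht hr
    exact ⟨algebraMap K (Q K) r, by rw [← map_mul, ← hr], hchi r hr0⟩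
  · have h1 : quadraticChar K (-1) = -1 := by
      rcases quadraticChar_dichotomy (neg_ne_zero.2 (one_ne_zero (α := K))) with h2 | h2
      · exfalso
        rw [quadraticChar_one_iff_isSquare (neg_ne_zero.2 one_ne_zero),
          FiniteField.isSquare_neg_one_iff] at h2
        exact h2 h4
      · exact h2
    have h2 : quadraticChar K (-t) = 1 := by
      rw [← neg_one_mul, map_mul, h1, h]
      norm_num
    rw [quadraticChar_one_iff_isSquare (neg_ne_zero.2 ht)] at h2
    obtain ⟨r, hr⟩ := h2
    have hr0 : r ≠ 0 := by rintro rfl; simp at hr; exact ht hr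
    refine ⟨om * algebraMap K (Q K) r, ?_, ?_⟩
    · have h3 : om * algebraMap K (Q K) r * (om * algebraMap K (Q K) r) =
          (om * om) * (algebraMap K (Q K) (r * r)) := by rw [map_mul]; ring
      rw [h3, om_sq, ← hr, map_neg]
      ring
    · rw [map_mul, chi_om h4, hchi r hr0, one_mul]

theorem chi_alg (h4 : Fintype.card K % 4 = 3) (t : K) (ht : t ≠ 0) :
    quadraticChar (Q K) (algebraMap K (Q K) t) = 1 := by
  obtain ⟨d, hd, hd1⟩ := exists_root h4 t ht
  rw [← hd, map_mul, hd1, one_mul]

theorem chi_smul (h4 : Fintype.card K % 4 = 3) (t : K) (ht : t ≠ 0) (x : Q K) :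
    quadraticChar (Q K) (t • x) = quadraticChar (Q K) x := by
  rw [Algebra.smul_def, map_mul, chi_alg h4 t ht, one_mul]

/-- the sum over a line -/
theorem line_sum (h4 : Fintype.card K % 4 = 3) (x d : Q K) (hd : d ≠ 0) :
    (∃ t : K, x = t • d) ∧ ∑ t : K, quadraticChar (Q K) (x - t • d) =
        ((Fintype.card K : ℤ) - 1) * quadraticChar (Q K) d ∨
    (¬ ∃ t : K, x = t • d) ∧ ∑ t : K, quadraticChar (Q K) (x - t • d) =
        - quadraticChar (Q K) d := by
  have h0 : ∑ t : K, quadraticChar (Q K) (t • d) =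
      ((Fintype.card K : ℤ) - 1) * quadraticChar (Q K) d := by
    have h1 : ∀ t : K, quadraticChar (Q K) (t • d) =
        quadraticChar (Q K) d - if t = 0 then quadraticChar (Q K) d else 0 := by
      intro t
      by_cases ht : t = 0
      · subst ht; simp
      · rw [chi_smul h4 t ht, if_neg ht, sub_zero]
    rw [sum_congr rfl fun t _ => h1 t, sum_sub_distrib, sum_const, card_univ, nsmul_eq_mul]
    simp
    ring
  by_cases hx : ∃ t : K, x = t • d
  · left
    refine ⟨hx, ?_⟩
    obtain ⟨s, rfl⟩ := hx
    rw [← h0, ← Equiv.sum_comp (Equiv.subLeft s)]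
    refine sum_congr rfl fun t _ => ?_
    rw [Equiv.subLeft_apply, ← sub_smul, sub_sub_cancel]
  · right
    refine ⟨hx, ?_⟩
    have hinj : Function.Injective (fun p : K × K => p.1 • x - p.2 • d) := by
      rintro ⟨s, t⟩ ⟨s', t'⟩ h
      simp only at h
      have h1 : (s - s') • x = (t - t') • d := by
        rw [sub_smul, sub_smul]
        linear_combination h
      have h2 : s = s' := by
        by_contra hne
        apply hx
        refine ⟨(s - s')⁻¹ * (t - t'), ?_⟩
        rw [mul_smul, ← h1, smul_smul, inv_mul_cancel₀ (sub_ne_zero.2 hne), one_smul]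
      subst h2
      rw [sub_self, zero_smul] at h1
      have h3 := (smul_eq_zero.1 h1.symm).resolve_right hd
      rw [sub_eq_zero.1 h3]
    have hbij : Function.Bijective (fun p : K × K => p.1 • x - p.2 • d) := by
      rw [Fintype.bijective_iff_injective_and_card]
      refine ⟨hinj, ?_⟩
      rw [card_Q, Fintype.card_prod, sq]
    have h1 : ∑ z : Q K, quadraticChar (Q K) z = 0 :=
      quadraticChar_sum_zero (char_ne_two (card_Q_mod h4))
    rw [← hbij.sum_comp (fun z => quadraticChar (Q K) z), Fintype.sum_prod_type] at h1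
    have h2 : ∀ s : K, ∑ t : K, quadraticChar (Q K) (s • x - t • d) =
        if s = 0 then ((Fintype.card K : ℤ) - 1) * quadraticChar (Q K) d
        else ∑ t : K, quadraticChar (Q K) (x - t • d) := by
      intro s
      by_cases hs : s = 0
      · subst hs
        rw [if_pos rfl, ← h0]
        refine sum_congr rfl fun t _ => ?_
        rw [zero_smul, zero_sub, chi_neg (card_Q_mod h4)]
      · rw [if_neg hs, ← Equiv.sum_comp (Equiv.mulLeft₀ s hs)]
        refine sum_congr rfl fun t _ => ?_
        rw [Equiv.mulLeft₀_apply, mul_smul, ← smul_sub, chi_smul h4 s hs]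
    have h3 : ∀ s : K, (if s = 0 then ((Fintype.card K : ℤ) - 1) * quadraticChar (Q K) d
        else ∑ t : K, quadraticChar (Q K) (x - t • d)) =
        ∑ t : K, quadraticChar (Q K) (x - t • d) + if s = 0 then
          ((Fintype.card K : ℤ) - 1) * quadraticChar (Q K) d -
            ∑ t : K, quadraticChar (Q K) (x - t • d) else 0 := by
      intro s
      split_ifs <;> ring
    simp only at h1
    rw [sum_congr rfl fun s _ => (h2 s).trans (h3 s), sum_add_distrib, sum_const, card_univ,
      nsmul_eq_mul, sum_ite_eq'] at h1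
    simp only [mem_univ, if_true] at h1
    have hc : (2 : ℤ) ≤ Fintype.card K := by
      have : 3 ≤ Fintype.card K := by omega
      exact_mod_cast (by omega : 2 ≤ Fintype.card K)
    have h5 : ((Fintype.card K : ℤ) - 1) *
        (∑ t : K, quadraticChar (Q K) (x - t • d) + quadraticChar (Q K) d) = 0 := by
      linear_combination h1
    rcases mul_eq_zero.1 h5 with h6 | h6
    · omega
    · linarith

/-- functions of the imaginary part -/
theorem sum_im (h4 : Fintype.card K % 4 = 3) (b : K → ℤ) (x : Q K) :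
    ∑ y : Q K, quadraticChar (Q K) (x - y) * b y.im =
      Fintype.card K * b x.im - ∑ t, b t := by
  have h1 : ∑ y : Q K, quadraticChar (Q K) (x - y) * b y.im =
      ∑ s : K, b s * ∑ t : K, quadraticChar (Q K) ((x - s • om) - t • (1 : Q K)) := by
    rw [← Equiv.sum_comp (QuadraticAlgebra.equivProd (R := K) (-1) 0).symm, Fintype.sum_prod_type,
      sum_comm]
    refine sum_congr rfl fun s _ => ?_
    rw [mul_sum]
    refine sum_congr rfl fun t _ => ?_
    rw [mul_comm]
    congr 2
    ext <;> simp [om, re_one', im_one']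
  rw [h1]
  have h2 : ∀ s : K, b s * ∑ t : K, quadraticChar (Q K) ((x - s • om) - t • (1 : Q K)) =
      (if s = x.im then Fintype.card K * b x.im else 0) - b s := by
    intro s
    rcases line_sum h4 (x - s • om) 1 one_ne_zero with ⟨⟨t, ht⟩, h⟩ | ⟨hn, h⟩
    · have h3 : s = x.im := by
        have := congrArg QuadraticAlgebra.im ht
        simp [om, im_one'] at this
        exact (sub_eq_zero.1 this).symm
      rw [h, map_one, if_pos h3, h3]
      ring
    · have h3 : s ≠ x.im := by
        intro h3
        apply hn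
        refine ⟨x.re, ?_⟩
        subst h3
        ext <;> simp [om, re_one', im_one']
      rw [h, map_one, if_neg h3]
      ring
  rw [sum_congr rfl fun s _ => h2 s, sum_sub_distrib, sum_ite_eq']
  simp

/-- the function on the lines through the origin -/
theorem exists_fun (h4 : Fintype.card K % 4 = 3) : ∃ A : Q K → ℤ, A 0 = 0 ∧
    (∀ y, y ≠ 0 → A y = 1 ∨ A y = -1) ∧ (∀ (t : K) (y : Q K), t ≠ 0 → A (t • y) = A y) ∧
    ∃ h : Q K, h ≠ 0 ∧ quadraticChar (Q K) h = 1 ∧ ∀ y, A (h * y) = - A y := by
  classical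
  have hq := card_Q_mod h4
  obtain ⟨g, hg⟩ := quadraticChar_exists_neg_one (char_ne_two hq)
  have hg0 : g ≠ 0 := by
    rintro rfl
    simp at hg
  have hnsq : ∀ y : Q K, ¬ IsSquare y → IsSquare (y * g) := by
    intro y hy
    have hy0 : y ≠ 0 := by rintro rfl; exact hy ⟨0, by simp⟩
    have h1 : quadraticChar (Q K) y = -1 := by
      rcases quadraticChar_dichotomy hy0 with h | h
      · exact absurd ((quadraticChar_one_iff_isSquare hy0).1 h) hy
      · exact h
    rw [← quadraticChar_one_iff_isSquare (mul_ne_zero hy0 hg0), map_mul, h1, hg]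
    norm_num
  let A : Q K → ℤ := fun y => if h : IsSquare y then quadraticChar (Q K) h.choose
    else quadraticChar (Q K) (hnsq y h).choose
  have hroot : ∀ z w : Q K, z * z = w * w → quadraticChar (Q K) z = quadraticChar (Q K) w := by
    intro z w h
    rcases mul_self_eq_mul_self_iff.1 h with h | h
    · rw [h]
    · rw [h, chi_neg hq]
  have hA1 : ∀ z : Q K, A (z * z) = quadraticChar (Q K) z := by
    intro z
    have h : IsSquare (z * z) := ⟨z, rfl⟩
    simp only [A]
    rw [dif_pos h]
    exact hroot _ _ h.choose_spec.symm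
  have hA2 : ∀ y z : Q K, ¬ IsSquare y → y * g = z * z → A y = quadraticChar (Q K) z := by
    intro y z hy hz
    simp only [A]
    rw [dif_neg hy]
    apply hroot
    rw [← (hnsq y hy).choose_spec, hz]
  have hcancel : ∀ d y : Q K, d ≠ 0 → ¬ IsSquare y → ¬ IsSquare (d * d * y) := by
    rintro d y hd hy ⟨r, hr⟩
    apply hy
    refine ⟨d⁻¹ * r, ?_⟩
    have : d⁻¹ * r * (d⁻¹ * r) = d⁻¹ * d⁻¹ * (r * r) := by ring
    rw [this, ← hr]
    field_simp
  have hA3 : ∀ d y : Q K, d ≠ 0 → A (d * d * y) = quadraticChar (Q K) d * A y := by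
    intro d y hd
    by_cases hy : IsSquare y
    · obtain ⟨z, rfl⟩ := hy
      rw [hA1 z]
      have : d * d * (z * z) = (d * z) * (d * z) := by ring
      rw [this, hA1, map_mul]
    · obtain ⟨z, hz⟩ := hnsq y hy
      rw [hA2 y z hy hz, hA2 (d * d * y) (d * z) (hcancel d y hd hy) (by
        rw [mul_assoc, hz]; ring), map_mul]
  refine ⟨A, ?_, ?_, ?_, g * g, mul_ne_zero hg0 hg0, by rw [map_mul, hg]; norm_num, fun y => ?_⟩
  · have := hA1 0
    simpa using this
  · intro y hy
    by_cases hs : IsSquare y
    · obtain ⟨z, rfl⟩ := hs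
      rw [hA1]
      exact quadraticChar_dichotomy (by rintro rfl; simp at hy)
    · obtain ⟨z, hz⟩ := hnsq y hs
      rw [hA2 y z hs hz]
      refine quadraticChar_dichotomy ?_
      rintro rfl
      rw [mul_zero] at hz
      exact mul_ne_zero hy hg0 hz
  · intro t y ht
    obtain ⟨d, hd, hd1⟩ := exists_root h4 t ht
    have hd0 : d ≠ 0 := by
      rintro rfl
      simp at hd1
    rw [Algebra.smul_def, ← hd, hA3 d y hd0, hd1, one_mul]
  · rw [hA3 g y hg0, hg]
    ring

/-- functions on the lines through the origin with two vanishing sums are mapped to `v χ` times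
themselves -/
theorem sum_lines (h4 : Fintype.card K % 4 = 3) (A : Q K → ℤ) (hA0 : A 0 = 0)
    (hA : ∀ (t : K) (y : Q K), t ≠ 0 → A (t • y) = A y) (hs : ∑ y, A y = 0)
    (hc : ∑ y, quadraticChar (Q K) y * A y = 0) (x : Q K) (hx : x ≠ 0) :
    ∑ y : Q K, quadraticChar (Q K) (x - y) * A y =
      Fintype.card K * (quadraticChar (Q K) x * A x) := by
  classical
  have hcard : (2 : ℤ) ≤ Fintype.card K := by
    have : 3 ≤ Fintype.card K := by omega
    exact_mod_cast (by omega : 2 ≤ Fintype.card K)
  have h1 : ∀ t : K, t ≠ 0 → ∑ y : Q K, quadraticChar (Q K) (x - y) * A y =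
      ∑ y : Q K, quadraticChar (Q K) (x - t • y) * A y := by
    intro t ht
    have hb : Function.Bijective (fun y : Q K => t • y) := by
      refine ⟨fun y z h => ?_, fun y => ⟨t⁻¹ • y, ?_⟩⟩
      · exact smul_right_injective _ ht h
      · simp only [smul_smul, mul_inv_cancel₀ ht, one_smul]
    rw [← hb.sum_comp]
    refine sum_congr rfl fun y _ => ?_
    rw [hA t y ht]
  have h2 : ((Fintype.card K : ℤ) - 1) * ∑ y : Q K, quadraticChar (Q K) (x - y) * A y =
      ∑ t : K, (∑ y : Q K, quadraticChar (Q K) (x - t • y) * A y -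
        if t = 0 then ∑ y : Q K, quadraticChar (Q K) x * A y else 0) := by
    have h3 : ∀ t : K, (∑ y : Q K, quadraticChar (Q K) (x - t • y) * A y -
        if t = 0 then ∑ y : Q K, quadraticChar (Q K) x * A y else 0) =
        (∑ y : Q K, quadraticChar (Q K) (x - y) * A y) -
          if t = 0 then ∑ y : Q K, quadraticChar (Q K) (x - y) * A y else 0 := by
      intro t
      by_cases ht : t = 0
      · subst ht
        simp
      · rw [if_neg ht, if_neg ht, sub_zero, sub_zero, ← h1 t ht]
    rw [sum_congr rfl fun t _ => h3 t, sum_sub_distrib, sum_const, card_univ, nsmul_eq_mul,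
      sum_ite_eq']
    simp
    ring
  have h3 : ∑ y : Q K, quadraticChar (Q K) x * A y = 0 := by rw [← mul_sum, hs, mul_zero]
  rw [h3] at h2
  simp only [ite_self, sub_zero] at h2
  rw [sum_comm] at h2
  -- the inner sum
  have h4' : ∀ y : Q K, ∑ t : K, quadraticChar (Q K) (x - t • y) * A y =
      - (quadraticChar (Q K) y * A y) +
        Fintype.card K * (quadraticChar (Q K) x * (if ∃ s : K, s ≠ 0 ∧ y = s • x then A y else 0)) := by
    intro y
    by_cases hy : y = 0
    · subst hy
      simp [hA0]
    · rw [← sum_mul]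
      rcases line_sum h4 x y hy with ⟨⟨t, ht⟩, h⟩ | ⟨hn, h⟩
      · have ht0 : t ≠ 0 := by
          rintro rfl
          rw [zero_smul] at ht
          exact hx ht
        have h5 : ∃ s : K, s ≠ 0 ∧ y = s • x :=
          ⟨t⁻¹, inv_ne_zero ht0, by rw [ht, smul_smul, inv_mul_cancel₀ ht0, one_smul]⟩
        rw [h, if_pos h5]
        have h6 : quadraticChar (Q K) x = quadraticChar (Q K) y := by
          rw [ht, chi_smul h4 t ht0]
        rw [h6]
        ring
      · have h5 : ¬ ∃ s : K, s ≠ 0 ∧ y = s • x := by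
          rintro ⟨s, hs0, h6⟩
          apply hn
          exact ⟨s⁻¹, by rw [h6, smul_smul, inv_mul_cancel₀ hs0, one_smul]⟩
        rw [h, if_neg h5]
        ring
  rw [sum_congr rfl fun y _ => h4' y, sum_add_distrib, sum_neg_distrib, hc, ← mul_sum,
    ← mul_sum] at h2
  have h5 : ∑ y : Q K, (if ∃ s : K, s ≠ 0 ∧ y = s • x then A y else 0) =
      ((Fintype.card K : ℤ) - 1) * A x := by
    rw [← sum_filter]
    have h6 : (univ.filter fun y : Q K => ∃ s : K, s ≠ 0 ∧ y = s • x) =
        (univ.filter fun s : K => s ≠ 0).image (fun s => s • x) := by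
      ext y
      simp only [mem_filter, mem_univ, true_and, mem_image]
      constructor
      · rintro ⟨s, hs0, rfl⟩
        exact ⟨s, hs0, rfl⟩
      · rintro ⟨s, hs0, rfl⟩
        exact ⟨s, hs0, rfl⟩
    rw [h6, sum_image]
    · have h7 : ∀ s ∈ univ.filter (fun s : K => s ≠ 0), A (s • x) = A x := by
        intro s hs'
        exact hA s x (mem_filter.1 hs').2
      rw [sum_congr rfl h7, sum_const, filter_ne', card_erase_of_mem (mem_univ _), card_univ,
        nsmul_eq_mul, Nat.cast_sub (by omega)]
      simp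
    · intro s _ s' _ h
      exact smul_left_injective K hx h
  rw [h5] at h2
  have h6 : ((Fintype.card K : ℤ) - 1) ≠ 0 := by omega
  apply mul_left_cancel₀ h6
  rw [h2]
  ring

/-- the values on the imaginary parts -/
def bb (K : Type) [Field K] [Fintype K] [DecidableEq K] (t : K) : ℤ :=
  quadraticChar K t + if t = 0 then 1 else 0

omit hf in
theorem bb_sign (t : K) : bb K t = 1 ∨ bb K t = -1 := by
  unfold bb
  by_cases ht : t = 0
  · subst ht; simp
  · rw [if_neg ht, add_zero]
    exact quadraticChar_dichotomy ht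

omit hf in
theorem bb_sum (h4 : Fintype.card K % 4 = 3) : ∑ t, bb K t = 1 := by
  have hchar : ringChar K ≠ 2 := by
    intro h
    have h1 := FiniteField.even_card_of_char_two h
    omega
  unfold bb
  rw [sum_add_distrib, quadraticChar_sum_zero hchar]
  simp

/-- the sign vectors for the field with `v ^ 2` elements -/
theorem exists_regVec (h4 : Fintype.card K % 4 = 3)
    (M : {x : Q K // x ≠ 0} → {x : Q K // x ≠ 0} → ℤ) (K1 : ∀ x y, M x y = 1 ∨ M x y = -1)
    (hK : ∀ x y, ∑ z, M x z * M y z = if x = y then (Fintype.card (Q K) : ℤ) - 1 else 0)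
    (hK' : ∀ x y, ∑ z, M z x * M z y = if x = y then (Fintype.card (Q K) : ℤ) - 1 else 0) :
    Nonempty (RegVec (fieldData (card_Q_mod h4) M K1 hK hK') (Fintype.card K : ℤ)) := by
  obtain ⟨A, hA0, hA1, hA2, h, hh0, hh1, hh2⟩ := exists_fun (K := K) h4
  have hq := card_Q_mod h4
  have hbij : Function.Bijective (fun y : Q K => h * y) := by
    refine ⟨fun y z hyz => mul_left_cancel₀ hh0 hyz, fun y => ⟨h⁻¹ * y, ?_⟩⟩
    simp only
    rw [← mul_assoc, mul_inv_cancel₀ hh0, one_mul]
  have hs : ∑ y, A y = 0 := by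
    have h1 := hbij.sum_comp (fun y => A y)
    simp only [hh2, sum_neg_distrib] at h1
    linarith
  have hc : ∑ y, quadraticChar (Q K) y * A y = 0 := by
    have h1 := hbij.sum_comp (fun y => quadraticChar (Q K) y * A y)
    simp only [hh2, map_mul, hh1, one_mul, mul_neg, sum_neg_distrib] at h1
    linarith
  have hb0 : bb K 0 = 1 := by simp [bb]
  refine ⟨{ a := fun x => bb K (x : Q K).im, b := fun x => A x,
            w := fun x => quadraticChar (Q K) (x : Q K) * A x,
            ha := fun x => bb_sign _, hb := fun x => hA1 _ x.2, hw := ?_, hPa := ?_, hPb := ?_,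
            sa := ?_, sca := ?_, sb := ?_, scb := ?_ }⟩
  · intro x
    rcases hA1 _ x.2 with h1 | h1 <;> rcases quadraticChar_dichotomy x.2 with h2 | h2 <;>
      rw [h1, h2] <;> norm_num
  · intro x
    show ∑ y : {x : Q K // x ≠ 0}, quadraticChar (Q K) ((x : Q K) - y) * bb K (y : Q K).im = _
    rw [sum_ne_zero (fun y => quadraticChar (Q K) ((x : Q K) - y) * bb K y.im), sum_im h4,
      bb_sum h4]
    simp only [sub_zero, QuadraticAlgebra.im_zero, hb0, mul_one]
    rfl
  · intro x
    show ∑ y : {x : Q K // x ≠ 0}, quadraticChar (Q K) ((x : Q K) - y) * A y = _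
    rw [sum_ne_zero (fun y => quadraticChar (Q K) ((x : Q K) - y) * A y),
      sum_lines h4 A hA0 hA2 hs hc _ x.2, hA0]
    ring
  · rw [sum_ne_zero (fun y : Q K => bb K y.im), QuadraticAlgebra.im_zero, hb0]
    have h1 : ∑ y : Q K, bb K y.im = Fintype.card K := by
      rw [← Equiv.sum_comp (QuadraticAlgebra.equivProd (R := K) (-1) 0).symm,
        Fintype.sum_prod_type]
      simp only [QuadraticAlgebra.equivProd_symm_apply]
      rw [sum_congr rfl fun x _ => bb_sum h4]
      simp
    rw [h1]
  · show ∑ y : {x : Q K // x ≠ 0}, quadraticChar (Q K) (y : Q K) * bb K (y : Q K).im = _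
    rw [sum_ne_zero (fun y => quadraticChar (Q K) y * bb K y.im)]
    have h1 := sum_im h4 (bb K) (0 : Q K)
    simp only [zero_sub, chi_neg hq, QuadraticAlgebra.im_zero, hb0, bb_sum h4] at h1
    rw [h1]
    simp
  · rw [sum_ne_zero A, hs, hA0, sub_zero]
  · show ∑ y : {x : Q K // x ≠ 0}, quadraticChar (Q K) (y : Q K) * A y = _
    rw [sum_ne_zero (fun y => quadraticChar (Q K) y * A y), hc, hA0]
    simp

end Pool.Agent.K9h69.Menon
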