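import Pool.Agent.K9h69.Menon.Comp
import Pool.Agent.K9h69.Menon.Quad

/-!
# The composition with Miyamoto's matrix
-/

set_option autoImplicit false

namespace Pool.Agent.K9h69.Menon

open Finset
open Pool.Agent.TH432.Had
open Pool.Agent.H114R2 (IsSymDesign)

variable {α : Type} [Fintype α] [DecidableEq α] {β : Type} [Fintype β] [DecidableEq β] {w : ℤ}

/-- the composed matrix -/
def cmp (P : XFam β w) (D : Data α) (x y : β × Ix α) : ℤ :=
  P.F (col x.2 y.2).1 (col x.2 y.2).2 x.1 y.1 * D.M x.2 y.2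

theorem cmp_sign (P : XFam β w) (D : Data α) (x y : β × Ix α) :
    cmp P D x y = 1 ∨ cmp P D x y = -1 := by
  unfold cmp
  rcases P.sign (col x.2 y.2).1 (col x.2 y.2).2 x.1 y.1 with h | h <;>
    rcases D.M_sign x.2 y.2 with h' | h' <;> rw [h, h'] <;> norm_num

theorem cmp_eq (P : XFam β w) (D : Data α) (x y : β × Ix α) :
    cmp P D x y = ∑ a, ∑ b, P.F a b x.1 y.1 * part D a b x.2 y.2 := by
  have h1 : ∀ a b, P.F a b x.1 y.1 * part D a b x.2 y.2 =
      if (a, b) = col x.2 y.2 then P.F a b x.1 y.1 * D.M x.2 y.2 else 0 := by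
    intro a b
    rw [part_eq]
    by_cases h : col x.2 y.2 = (a, b)
    · rw [if_pos h, if_pos h.symm]
    · rw [if_neg h, if_neg (fun e => h e.symm), mul_zero]
  have h2 : ∑ a, ∑ b, P.F a b x.1 y.1 * part D a b x.2 y.2 =
      ∑ k : Bool × Bool, if k = col x.2 y.2 then P.F k.1 k.2 x.1 y.1 * D.M x.2 y.2 else 0 := by
    rw [Fintype.sum_prod_type]
    exact sum_congr rfl fun a _ => sum_congr rfl fun b _ => h1 a b
  rw [h2, sum_ite_eq', if_pos (mem_univ _)]
  rfl

theorem M_eq (D : Data α) (p q : Ix α) : D.M p q = ∑ a, ∑ b, part D a b p q := by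
  have h1 : ∀ a b, part D a b p q = if (a, b) = col p q then D.M p q else 0 := by
    intro a b
    rw [part_eq]
    by_cases h : col p q = (a, b)
    · rw [if_pos h, if_pos h.symm]
    · rw [if_neg h, if_neg (fun e => h e.symm)]
  have h2 : ∑ a, ∑ b, part D a b p q = ∑ k : Bool × Bool, if k = col p q then D.M p q else 0 := by
    rw [Fintype.sum_prod_type]
    exact sum_congr rfl fun a _ => sum_congr rfl fun b _ => h1 a b
  rw [h2, sum_ite_eq', if_pos (mem_univ _)]

/-- the composed matrix is a Hadamard matrix -/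
theorem cmp_row (P : XFam β w) (D : Data α) (x y : β × Ix α) :
    ∑ z, cmp P D x z * cmp P D y z = if x = y then 4 * w ^ 2 * D.k else 0 := by
  -- expand
  have h1 : ∑ z, cmp P D x z * cmp P D y z = ∑ a, ∑ b, ∑ c, ∑ d,
      (∑ z, P.F a b x.1 z * P.F c d y.1 z) * ∑ z, part D a b x.2 z * part D c d y.2 z := by
    have h2 : ∀ z : β × Ix α, cmp P D x z * cmp P D y z = ∑ a, ∑ b, ∑ c, ∑ d,
        (P.F a b x.1 z.1 * P.F c d y.1 z.1) * (part D a b x.2 z.2 * part D c d y.2 z.2) := by
      intro z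
      rw [cmp_eq, cmp_eq]
      simp only [Fintype.sum_bool]
      ring
    rw [sum_congr rfl fun z _ => h2 z, sum_comm]
    refine sum_congr rfl fun a _ => ?_
    rw [sum_comm]
    refine sum_congr rfl fun b _ => ?_
    rw [sum_comm]
    refine sum_congr rfl fun c _ => ?_
    rw [sum_comm]
    refine sum_congr rfl fun d _ => ?_
    rw [Fintype.sum_prod_type, sum_mul_sum]
  have h3 : ∀ a b c d, (∑ z, P.F a b x.1 z * P.F c d y.1 z) *
      ∑ z, part D a b x.2 z * part D c d y.2 z =
      ∑ z, part D a b x.2 z * part D c d y.2 z +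
      if c = a ∧ d = b then (∑ z, P.F a b x.1 z * P.F a b y.1 z - 1) *
        (if x.2 = y.2 then D.k else 0) else 0 := by
    intro a b c d
    by_cases h : c = a ∧ d = b
    · obtain ⟨rfl, rfl⟩ := h
      rw [if_pos ⟨rfl, rfl⟩, part_row]
      ring
    · rw [if_neg h, add_zero, P.off a b c d (fun e => h ⟨e.1.symm, e.2.symm⟩), one_mul]
  have h4 : ∑ a, ∑ b, ∑ c, ∑ d, ∑ z, part D a b x.2 z * part D c d y.2 z =
      ∑ z, D.M x.2 z * D.M y.2 z := by
    have h5 : ∀ z, D.M x.2 z * D.M y.2 z = ∑ a, ∑ b, ∑ c, ∑ d,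
        part D a b x.2 z * part D c d y.2 z := by
      intro z
      rw [M_eq, M_eq]
      simp only [Fintype.sum_bool]
      ring
    rw [sum_congr rfl fun z _ => h5 z]
    simp only [Fintype.sum_bool, sum_add_distrib]
  have h6 : ∑ a, ∑ b, ∑ c, ∑ d, (if c = a ∧ d = b then
      (∑ z, P.F a b x.1 z * P.F a b y.1 z - 1) * (if x.2 = y.2 then D.k else 0) else 0) =
      ((if x.1 = y.1 then 4 * w ^ 2 else 0) - 4) * (if x.2 = y.2 then D.k else 0) := by
    rw [← P.diag]
    by_cases h : x.2 = y.2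
    · simp [h]
      ring
    · simp [h]
  rw [h1]
  simp only [h3, sum_add_distrib]
  rw [h4, h6, D.main_row]
  by_cases h : x.1 = y.1 <;> by_cases h' : x.2 = y.2
  · rw [if_pos h, if_pos h', if_pos h', if_pos (Prod.ext h h')]; ring
  · rw [if_neg h', if_neg h', if_neg (fun e => h' (congrArg Prod.snd e))]; ring
  · rw [if_neg h, if_pos h', if_pos h', if_neg (fun e => h (congrArg Prod.fst e))]; ring
  · rw [if_neg h, if_neg h', if_neg h', if_neg (fun e => h (congrArg Prod.fst e))]; ring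

/-- the composed matrix maps signs to multiples of signs -/
theorem cmp_mul (P : XFam β w) (D : Data α) {v : ℤ} (R : RegVec D v) (x : β × Ix α) :
    ∑ z, cmp P D x z * R.X z.2 = 2 * (w * v) * R.Y x.2 := by
  have h1 : ∀ z : β × Ix α, cmp P D x z * R.X z.2 =
      ∑ a, ∑ b, P.F a b x.1 z.1 * (part D a b x.2 z.2 * R.X z.2) := by
    intro z
    rw [cmp_eq]
    simp only [Fintype.sum_bool]
    ring
  rw [sum_congr rfl fun z _ => h1 z, sum_comm]
  have h2 : ∀ a, ∑ z : β × Ix α, ∑ b, P.F a b x.1 z.1 * (part D a b x.2 z.2 * R.X z.2) =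
      w * ∑ b, ∑ z, part D a b x.2 z * R.X z := by
    intro a
    rw [sum_comm, mul_sum]
    refine sum_congr rfl fun b _ => ?_
    rw [sum_mul_sum' (P.F a b x.1) (fun z => part D a b x.2 z * R.X z), P.row]
  rw [sum_congr rfl fun a _ => h2 a, ← mul_sum]
  have h3 : ∑ a, ∑ b, ∑ z, part D a b x.2 z * R.X z = ∑ z, D.M x.2 z * R.X z := by
    have h5 : ∀ z, D.M x.2 z * R.X z = ∑ a, ∑ b, part D a b x.2 z * R.X z := by
      intro z
      rw [M_eq]
      simp only [Fintype.sum_bool]
      ring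
    rw [sum_congr rfl fun z _ => h5 z]
    simp only [Fintype.sum_bool, sum_add_distrib]
  rw [h3, R.mul_X]
  ring

/-- the Menon design of the composition -/
theorem cmp_menon (P : XFam β w) (D : Data α) {m v : ℕ} (hw : w = m) (hm : 0 < m) (hv : 1 < v)
    (hk : D.k = (v : ℤ) ^ 2) (R : RegVec D (v : ℤ)) :
    ∃ B : Fin (4 * (m * v) ^ 2) → Finset (Fin (4 * (m * v) ^ 2)),
      IsSymDesign (4 * (m * v) ^ 2) (2 * (m * v) ^ 2 - m * v) ((m * v) ^ 2 - m * v) B := by
  subst hw
  have hcard : Fintype.card (β × Ix α) = 4 * (m * v) ^ 2 := by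
    have h := D.hcard
    have h' := P.card
    rw [hk] at h
    rw [Fintype.card_prod]
    have h2 : Fintype.card (Ix α) = 4 * v ^ 2 := by
      simp only [Fintype.card_sum, Fintype.card_prod, Fintype.card_bool]
      zify
      linarith
    have h3 : Fintype.card β = m ^ 2 := by
      zify
      exact h'
    rw [h2, h3]
    ring
  refine menon_of_reg (by nlinarith) hcard (cmp P D) (cmp_sign P D) ?_ (fun z => R.X z.2)
    (fun z => R.Y z.2) (fun z => R.X_sign z.2) (fun z => R.Y_sign z.2) ?_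
  · intro p q
    rw [cmp_row, hk]
    push_cast
    split_ifs <;> ring
  · intro p
    rw [cmp_mul]
    push_cast
    ring

end Pool.Agent.K9h69.Menon
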