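import Pool.Agent.TH432.Had.Miya

/-!
# Miyamoto's matrix is a disjoint sum of four weighing matrices

`D.M` is Miyamoto's Hadamard matrix of order `4 k`. We write it as a sum of four matrices
`part D a b`, `a b : Bool`, with disjoint supports and entries `0, 1, -1`, each with `k` nonzero entries
in every row and with pairwise orthogonal rows.
-/

set_option autoImplicit false

namespace Pool.Agent.K9h69.Menon

open Finset
open Pool.Agent.TH432.Had

/-- index set of Miyamoto's matrix -/
abbrev Ix (α : Type) : Type := (Bool × Bool) ⊕ (Bool × Bool × α)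

variable {α : Type} [Fintype α] [DecidableEq α] (D : Data α)

/-- the part with index `(a, b)` -/
def part (a b : Bool) : Ix α → Ix α → ℤ
  | Sum.inl i, Sum.inl l =>
      if l.2 = !(xor (xor i.1 i.2) a) ∧ l.1 = xor b i.2 then Data.F i l else 0
  | Sum.inl i, Sum.inr r => if r.2.1 = b ∧ r.1 = xor i.2 a then D.G i r else 0
  | Sum.inr r, Sum.inl l => if r.2.1 = a ∧ l.1 = xor (xor r.1 a) b then D.G' r l else 0
  | Sum.inr r, Sum.inr r' =>
      (if r.2.1 = a ∧ r'.2.1 = b then D.U (r.1, r.2.2) (r'.1, r'.2.2) else 0) +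
      (if r.2.1 = !a ∧ r'.2.1 = !b then sg a * sg b * D.V (r.1, r.2.2) (r'.1, r'.2.2) else 0)

/-- the colour of an entry -/
def col : Ix α → Ix α → Bool × Bool
  | Sum.inl i, Sum.inl l => (!(xor (xor i.1 i.2) l.2), xor l.1 i.2)
  | Sum.inl i, Sum.inr r => (xor i.2 r.1, r.2.1)
  | Sum.inr r, Sum.inl l => (r.2.1, xor (xor l.1 r.1) r.2.1)
  | Sum.inr r, Sum.inr r' => if r.1 = r'.1 ∧ r.2.2 ≠ r'.2.2 then (r.2.1, r'.2.1)
      else (!r.2.1, !r'.2.1)

theorem part_eq (a b : Bool) (p q : Ix α) :
    part D a b p q = if col p q = (a, b) then D.M p q else 0 := by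
  rcases p with ⟨i1, i2⟩ | ⟨h, e, x⟩ <;> rcases q with ⟨l1, l2⟩ | ⟨h', e', y⟩
  · cases a <;> cases b <;> cases i1 <;> cases i2 <;> cases l1 <;> cases l2 <;> rfl
  · cases a <;> cases b <;> cases i2 <;> cases h' <;> cases e' <;> rfl
  · cases a <;> cases b <;> cases h <;> cases e <;> cases l1 <;> rfl
  · simp only [part, col, Data.M, Data.X]
    by_cases hh : h = h'
    · subst hh
      by_cases hx : x = y
      · subst hx
        cases a <;> cases b <;> cases e <;> cases e' <;> simp [Data.U, D.P0, sg]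
      · cases a <;> cases b <;> cases e <;> cases e' <;> cases h <;>
          simp [Data.U, Data.V, hx]
    · have hU : D.U (h, x) (h', y) = 0 := by simp [Data.U, hh]
      simp only [hU, hh, false_and, if_false, ite_self, zero_add]
      cases a <;> cases b <;> cases e <;> cases e' <;> simp [sg]

/-- the parts have orthogonal rows of weight `k` -/
theorem part_row (a b : Bool) (p q : Ix α) :
    ∑ z, part D a b p z * part D a b q z = if p = q then D.k else 0 := by
  rw [Fintype.sum_sum_type]
  rcases p with ⟨i1, i2⟩ | ⟨h, e, x⟩ <;> rcases q with ⟨j1, j2⟩ | ⟨h', e', y⟩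
  · -- border, border
    have h1 : ∀ (ε : Bool), 2 * ∑ y, Data.g (i1, i2) ε (D.c y) * Data.g (j1, j2) ε (D.c y) =
        (D.k - 1) * (Data.g (i1, i2) ε 1 * Data.g (j1, j2) ε 1 +
          Data.g (i1, i2) ε (-1) * Data.g (j1, j2) ε (-1)) := fun ε =>
      D.sum_c (fun c => Data.g (i1, i2) ε c * Data.g (j1, j2) ε c)
    have h2 := h1 false
    have h3 := h1 true
    simp only [Fintype.sum_prod_type, Fintype.sum_bool, part, Data.G]
    cases a <;> cases b <;> cases i1 <;> cases i2 <;> cases j1 <;> cases j2 <;>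
      simp [Data.F, Data.g, sg] at h2 h3 ⊢ <;> linarith
  · -- border, inner
    have h1 : ∀ (ε : Bool), 2 * ∑ z, Data.g (i1, i2) ε (D.c z) * D.P y z =
        -(Data.g (i1, i2) ε 1 + Data.g (i1, i2) ε (-1)) * D.c y -
          (Data.g (i1, i2) ε 1 - Data.g (i1, i2) ε (-1)) := fun ε =>
      D.sum_cP (fun c => Data.g (i1, i2) ε c) y
    have h2 := h1 false
    have h3 := h1 true
    simp only [Fintype.sum_prod_type, Fintype.sum_bool, part, Data.G, Data.G', Data.U]
    cases a <;> cases b <;> cases i1 <;> cases i2 <;> cases h' <;> cases e' <;>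
      simp [Data.F, Data.g, sg] at h2 h3 ⊢ <;> linarith
  · -- inner, border
    have h1 : ∀ (ε : Bool), 2 * ∑ z, Data.g (j1, j2) ε (D.c z) * D.P x z =
        -(Data.g (j1, j2) ε 1 + Data.g (j1, j2) ε (-1)) * D.c x -
          (Data.g (j1, j2) ε 1 - Data.g (j1, j2) ε (-1)) := fun ε =>
      D.sum_cP (fun c => Data.g (j1, j2) ε c) x
    have h1' : ∀ (ε : Bool), ∑ z, D.P x z * Data.g (j1, j2) ε (D.c z) =
        ∑ z, Data.g (j1, j2) ε (D.c z) * D.P x z := fun ε =>
      sum_congr rfl fun z _ => mul_comm _ _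
    have h2 := h1 false
    have h3 := h1 true
    rw [← h1'] at h2 h3
    simp only [Fintype.sum_prod_type, Fintype.sum_bool, part, Data.G, Data.G', Data.U]
    cases a <;> cases b <;> cases j1 <;> cases j2 <;> cases h <;> cases e <;>
      simp [Data.F, Data.g, sg] at h2 h3 ⊢ <;> linarith
  · -- inner, inner
    have hU := D.UU (h, x) (h', y)
    have hV := D.VV (h, x) (h', y)
    rw [Fintype.sum_prod_type, Fintype.sum_bool] at hU hV
    simp only [Fintype.sum_prod_type, Fintype.sum_bool, part, Data.G']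
    cases a <;> cases b <;> cases e <;> cases e' <;> cases h <;> cases h' <;>
      simp [sg] at hU hV ⊢ <;> linarith

end Pool.Agent.K9h69.Menon
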