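import Pool.Agent.K9h69.Menon.Quad
import Pool.Agent.Y341.Had.Tower
import Pool.Agent.Q123.CB.Paley

/-!
# Menon designs for prime powers `v = 3` modulo `4`
-/

set_option autoImplicit false

namespace Pool.Agent.K9h69.Menon

open Finset Matrix
open Pool.Agent.TH432.Had
open Pool.Agent.H108R3.Had (HasHad)
open Pool.Agent.H114R2 (IsSymDesign)

theorem menon_field {K : Type} [Field K] [Fintype K] [DecidableEq K]
    (h4 : Fintype.card K % 4 = 3) (h : HasHad (Fintype.card K ^ 2 - 1)) :
    ∃ B : Fin (4 * Fintype.card K ^ 2) → Finset (Fin (4 * Fintype.card K ^ 2)),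
      IsSymDesign (4 * Fintype.card K ^ 2) (2 * Fintype.card K ^ 2 - Fintype.card K)
        (Fintype.card K ^ 2 - Fintype.card K) B := by
  have hf := neg_one_not_sq h4
  obtain ⟨H, hH1, hH2⟩ := h
  have hH3 := had_transpose H hH2
  have hc : Fintype.card {x : Q K // x ≠ 0} = Fintype.card K ^ 2 - 1 := by
    rw [Fintype.card_subtype_compl, card_Q]
    simp
  have h1 : 0 < Fintype.card K ^ 2 := by
    have : 0 < Fintype.card K := Fintype.card_pos
    positivity
  let e : {x : Q K // x ≠ 0} ≃ Fin (Fintype.card K ^ 2 - 1) := Fintype.equivFinOfCardEq hc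
  have hcast : ((Fintype.card K ^ 2 - 1 : ℕ) : ℤ) = (Fintype.card (Q K) : ℤ) - 1 := by
    rw [card_Q]
    omega
  have hK : ∀ x y, ∑ z, H (e x) (e z) * H (e y) (e z) =
      if x = y then (Fintype.card (Q K) : ℤ) - 1 else 0 := by
    intro x y
    rw [Equiv.sum_comp e (fun z => H (e x) z * H (e y) z)]
    have h2 := congrFun (congrFun hH2 (e x)) (e y)
    rw [Matrix.mul_apply] at h2
    simp only [Matrix.transpose_apply, Matrix.smul_apply, Matrix.one_apply] at h2
    rw [h2, hcast]
    by_cases hxy : x = y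
    · subst hxy; simp
    · have : e x ≠ e y := fun h => hxy (e.injective h)
      simp [hxy, this]
  have hK' : ∀ x y, ∑ z, H (e z) (e x) * H (e z) (e y) =
      if x = y then (Fintype.card (Q K) : ℤ) - 1 else 0 := by
    intro x y
    rw [Equiv.sum_comp e (fun z => H z (e x) * H z (e y))]
    have h2 := congrFun (congrFun hH3 (e x)) (e y)
    rw [Matrix.mul_apply] at h2
    simp only [Matrix.transpose_apply, Matrix.smul_apply, Matrix.one_apply] at h2
    rw [h2, hcast]
    by_cases hxy : x = y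
    · subst hxy; simp
    · have : e x ≠ e y := fun h => hxy (e.injective h)
      simp [hxy, this]
  obtain ⟨R⟩ := exists_regVec h4 (fun x y => H (e x) (e y)) (fun x y => hH1 _ _) hK hK'
  exact RegVec.menon (by omega) (by
    show (Fintype.card (Q K) : ℤ) = _
    rw [card_Q]
    push_cast
    ring) R

/-- **Menon designs for prime powers** -/
theorem menon_prime_pow {v : ℕ} (hv : IsPrimePow v) (h4 : v % 4 = 3) (h : HasHad (v ^ 2 - 1)) :
    ∃ B : Fin (4 * v ^ 2) → Finset (Fin (4 * v ^ 2)),
      IsSymDesign (4 * v ^ 2) (2 * v ^ 2 - v) (v ^ 2 - v) B := by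
  obtain ⟨p, k, hp, hk, rfl⟩ := hv
  have hp' : p.Prime := hp.nat_prime
  have : Fact p.Prime := ⟨hp'⟩
  have : Fintype (GaloisField p k) := Fintype.ofFinite _
  have hcard : Fintype.card (GaloisField p k) = p ^ k := by
    rw [← Nat.card_eq_fintype_card, GaloisField.card p k (by omega)]
  classical
  have h6 := menon_field (K := GaloisField p k) (by rw [hcard]; exact h4) (by rw [hcard]; exact h)
  rwa [hcard] at h6

/-- Paley's first construction for prime powers -/
theorem had_paley_one' {q : ℕ} (hq : IsPrimePow q) (h4 : q % 4 = 3) : HasHad (q + 1) := by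
  obtain ⟨p, k, hp, hk, rfl⟩ := hq
  have hp' : p.Prime := hp.nat_prime
  have : Fact p.Prime := ⟨hp'⟩
  have : Fintype (GaloisField p k) := Fintype.ofFinite _
  have hcard : Fintype.card (GaloisField p k) = p ^ k := by
    rw [← Nat.card_eq_fintype_card, GaloisField.card p k (by omega)]
  classical
  have h6 := Pool.Agent.Q123.CB.paley_had (F := GaloisField p k) (by rw [hcard]; exact h4)
  rw [hcard] at h6
  exact h6

/-- a Hadamard matrix of order `2 (v - 1)` gives one of order `v ^ 2 - 1` -/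
theorem had_sq_sub {v : ℕ} (hv : IsPrimePow v) (h4 : v % 4 = 3) (h : HasHad (2 * (v - 1))) :
    HasHad (v ^ 2 - 1) := by
  have h1 : HasHad (2 * ((v + 1) / 2)) := by
    have : 2 * ((v + 1) / 2) = v + 1 := by omega
    rw [this]
    exact had_paley_one' hv h4
  have h2 := Pool.Agent.Y341.Had.agayan h1 h
  have h3 : 2 * ((v + 1) / 2 * (v - 1)) = v ^ 2 - 1 := by
    have h5 : 2 * ((v + 1) / 2) = v + 1 := by omega
    rw [← mul_assoc, h5, ← Nat.sq_sub_sq, one_pow]
  rw [h3] at h2
  exact h2

theorem menon_prime_pow' {v : ℕ} (hv : IsPrimePow v) (h4 : v % 4 = 3) (h : HasHad (2 * (v - 1))) :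
    ∃ B : Fin (4 * v ^ 2) → Finset (Fin (4 * v ^ 2)),
      IsSymDesign (4 * v ^ 2) (2 * v ^ 2 - v) (v ^ 2 - v) B :=
  menon_prime_pow hv h4 (had_sq_sub hv h4 h)

end Pool.Agent.K9h69.Menon
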