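import Pool.Agent.K9h69.Menon.Comp2
import Pool.Agent.K9h69.Menon.Chen2
import Pool.Agent.K9h69.Menon.Main

/-!
# The second eigenvector for all odd orders

`E` is the quadratic extension of a field with `v` elements, `v` odd, `χ` its quadratic character and
`cj` the conjugation. There is a function `b` with values `1, -1` on the nonzero elements such that
`b ((cj w / w) x) = χ w * b x`. It satisfies `∑ y, χ (x - y) * b y = v * χ ω * χ x * b x` for all nonzero
`x`.
-/

set_option autoImplicit false

namespace Pool.Agent.K9h69.Menon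

open Finset Matrix
open Pool.Agent.TH432.Had
open Pool.Agent.H108R3.Had (HasHad)
open Pool.Agent.H114R2 (IsSymDesign)

namespace Chen

section odd

variable {K : Type} [Field K] [Fintype K] [DecidableEq K] {d : K}
  [hf : Fact (∀ r : K, r ^ 2 ≠ d + 0 * r)]

attribute [local instance] fintypeQ decQ

/-- conjugation -/
def cj (z : QuadraticAlgebra K d 0) : QuadraticAlgebra K d 0 := ⟨z.re, -z.im⟩

/-- norm -/
def nm (z : QuadraticAlgebra K d 0) : K := z.re * z.re - d * z.im * z.im

/-- the purely imaginary element -/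
def omg : QuadraticAlgebra K d 0 := ⟨0, 1⟩

omit [Fintype K] [DecidableEq K] hf in
theorem cj_mul (z w : QuadraticAlgebra K d 0) : cj (z * w) = cj z * cj w := by
  ext <;> simp [cj]
  ring

omit [Fintype K] [DecidableEq K] hf in
theorem cj_cj (z : QuadraticAlgebra K d 0) : cj (cj z) = z := by
  ext <;> simp [cj]

omit [Fintype K] [DecidableEq K] hf in
theorem cj_add (z w : QuadraticAlgebra K d 0) : cj (z + w) = cj z + cj w := by
  ext <;> simp [cj]
  ring

omit [Fintype K] [DecidableEq K] hf in
theorem cj_sub (z w : QuadraticAlgebra K d 0) : cj (z - w) = cj z - cj w := by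
  ext <;> simp [cj]
  ring

omit [Fintype K] [DecidableEq K] hf in
theorem cj_zero : cj (0 : QuadraticAlgebra K d 0) = 0 := by
  ext <;> simp [cj]

omit [Fintype K] [DecidableEq K] hf in
theorem mul_cj (z : QuadraticAlgebra K d 0) :
    z * cj z = algebraMap K (QuadraticAlgebra K d 0) (nm z) := by
  rw [QuadraticAlgebra.algebraMap_eq]
  ext <;> simp [cj, nm] <;> ring

omit [Fintype K] [DecidableEq K] hf in
theorem nm_mul (z w : QuadraticAlgebra K d 0) : nm (z * w) = nm z * nm w := by
  simp [nm]
  ring

omit [Fintype K] [DecidableEq K] hf in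
theorem nm_cj (z : QuadraticAlgebra K d 0) : nm (cj z) = nm z := by
  simp [nm, cj]

omit [Fintype K] [DecidableEq K] hf in
theorem nm_zero : nm (0 : QuadraticAlgebra K d 0) = 0 := by
  simp [nm]

omit [Fintype K] [DecidableEq K] in
theorem cj_ne_zero {z : QuadraticAlgebra K d 0} (hz : z ≠ 0) : cj z ≠ 0 := by
  intro h
  apply hz
  rw [← cj_cj z, h, cj_zero]

omit [Fintype K] [DecidableEq K] in
theorem nm_ne_zero {z : QuadraticAlgebra K d 0} (hz : z ≠ 0) : nm z ≠ 0 := by
  intro h
  have h1 := mul_cj z
  rw [h, map_zero] at h1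
  exact mul_ne_zero hz (cj_ne_zero hz) h1

theorem chi_real (h2 : Fintype.card K % 2 = 1) {t : QuadraticAlgebra K d 0} (ht : t ≠ 0)
    (h : cj t = t) : quadraticChar (QuadraticAlgebra K d 0) t = 1 := by
  have hchar : ringChar K ≠ 2 := by
    intro h
    have h1 := FiniteField.even_card_of_char_two h
    omega
  have h20 : (2 : K) ≠ 0 := Ring.two_ne_zero hchar
  have him : t.im = 0 := by
    have h1 := congrArg QuadraticAlgebra.im h
    simp only [cj] at h1
    have h3 : 2 * t.im = 0 := by linear_combination -h1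
    exact (mul_eq_zero.1 h3).resolve_left h20
  have h3 : t = algebraMap K (QuadraticAlgebra K d 0) t.re := by
    rw [QuadraticAlgebra.algebraMap_eq]
    ext
    · rfl
    · exact him
  have h5 : t.re ≠ 0 := by
    intro h6
    rw [h6, map_zero] at h3
    exact ht h3
  rw [h3]
  exact chi_alg' h2 _ h5

theorem chi_cj (h2 : Fintype.card K % 2 = 1) {z : QuadraticAlgebra K d 0} (hz : z ≠ 0) :
    quadraticChar (QuadraticAlgebra K d 0) (cj z) =
      quadraticChar (QuadraticAlgebra K d 0) z := by
  have h1 : quadraticChar (QuadraticAlgebra K d 0) (z * cj z) = 1 := by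
    rw [mul_cj]
    exact chi_alg' h2 _ (nm_ne_zero hz)
  rw [map_mul] at h1
  rcases quadraticChar_dichotomy hz with h | h <;> rw [h] at h1 ⊢ <;> linarith

omit [Fintype K] [DecidableEq K] in
/-- elements of the same norm -/
theorem exists_w (x r : QuadraticAlgebra K d 0) (h : nm x = nm r) (hx : x ≠ 0) :
    ∃ w : QuadraticAlgebra K d 0, w ≠ 0 ∧ w * x = cj w * r := by
  have hr : r ≠ 0 := by
    rintro rfl
    rw [nm_zero] at h
    exact nm_ne_zero hx h
  by_cases hxr : r + x = 0
  · refine ⟨omg, ?_, ?_⟩
    · intro h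
      have := congrArg QuadraticAlgebra.im h
      simp [omg] at this
    · have h1 : x = -r := by linear_combination hxr
      have h2 : cj (omg : QuadraticAlgebra K d 0) = - omg := by
        ext <;> simp [cj, omg]
      rw [h1, h2]
      ring
  · refine ⟨r * cj (r + x), mul_ne_zero hr (cj_ne_zero hxr), ?_⟩
    rw [cj_mul, cj_cj, cj_add]
    have h1 := mul_cj x
    have h2 := mul_cj r
    rw [h] at h1
    have h3 : x * cj x = r * cj r := by rw [h1, h2]
    linear_combination r * h3

/-- the twisted function -/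
theorem exists_tw (h2 : Fintype.card K % 2 = 1) : ∃ b : QuadraticAlgebra K d 0 → ℤ, b 0 = 0 ∧
    (∀ y, y ≠ 0 → b y = 1 ∨ b y = -1) ∧
    ∀ w x y, w ≠ 0 → w * x = cj w * y → b x = quadraticChar (QuadraticAlgebra K d 0) w * b y := by
  let r : K → QuadraticAlgebra K d 0 := Function.invFun nm
  have hr : ∀ y : QuadraticAlgebra K d 0, nm (r (nm y)) = nm y := fun y =>
    Function.invFun_eq ⟨y, rfl⟩
  have hW : ∀ y : QuadraticAlgebra K d 0, ∃ w : QuadraticAlgebra K d 0,
      w ≠ 0 ∧ w * y = cj w * r (nm y) := by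
    intro y
    by_cases hy : y = 0
    · subst hy
      refine ⟨1, one_ne_zero, ?_⟩
      have h1 : r (nm (0 : QuadraticAlgebra K d 0)) = 0 := by
        by_contra h
        exact nm_ne_zero h (by rw [hr, nm_zero])
      rw [h1, mul_zero, mul_zero]
    · exact exists_w y _ (hr y).symm hy
  choose W hW0 hW1 using hW
  refine ⟨fun y => if y = 0 then 0 else quadraticChar (QuadraticAlgebra K d 0) (W y),
    by simp, ?_, ?_⟩
  · intro y hy
    simp only [if_neg hy]
    exact quadraticChar_dichotomy (hW0 y)
  · intro w x y hw h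
    by_cases hx : x = 0
    · have hy : y = 0 := by
        rw [hx, mul_zero] at h
        exact (mul_eq_zero.1 h.symm).resolve_left (cj_ne_zero hw)
      simp [hx, hy]
    · have hy : y ≠ 0 := by
        rintro rfl
        rw [mul_zero] at h
        exact mul_ne_zero hw hx h
      simp only [if_neg hx, if_neg hy]
      have hn : nm x = nm y := by
        have h1 := congrArg nm h
        rw [nm_mul, nm_mul, nm_cj] at h1
        exact mul_left_cancel₀ (nm_ne_zero hw) h1
      have e1 := hW1 x
      have e2 := hW1 y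
      rw [hn] at e1
      set ρ := r (nm y) with hρ
      have hρ0 : ρ ≠ 0 := by
        intro h0
        have h1 := hr y
        rw [← hρ, h0, nm_zero] at h1
        exact nm_ne_zero hy h1.symm
      -- both `W x` and `w * W y` carry `x` to `ρ`
      have e3 : w * W y * x = cj (w * W y) * ρ := by
        rw [cj_mul]
        linear_combination W y * h + cj w * e2
      have h4 : W x * cj (w * W y) = cj (W x) * (w * W y) := by
        apply mul_right_cancel₀ (mul_ne_zero hx hρ0)
        linear_combination cj (w * W y) * ρ * e1 - cj (W x) * ρ * e3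
      have h5 : quadraticChar (QuadraticAlgebra K d 0) (W x * cj (w * W y)) = 1 := by
        apply chi_real h2 (mul_ne_zero (hW0 x) (cj_ne_zero (mul_ne_zero hw (hW0 y))))
        rw [cj_mul, cj_cj, h4]
      rw [map_mul, chi_cj h2 (mul_ne_zero hw (hW0 y)), map_mul] at h5
      rcases quadraticChar_dichotomy (hW0 x) with h6 | h6 <;> rw [h6] at h5 ⊢ <;> linarith

omit [DecidableEq K] in
/-- sums over `x w - cj w y` -/
theorem sum_form (φ : QuadraticAlgebra K d 0 → ℤ)
    (x y : QuadraticAlgebra K d 0) (h : nm x ≠ nm y) :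
    ∑ w, φ (x * w - cj w * y) = ∑ z, φ z := by
  have hinj : Function.Injective (fun w : QuadraticAlgebra K d 0 => x * w - cj w * y) := by
    intro w w' hw
    simp only at hw
    have h1 : x * (w - w') = cj (w - w') * y := by
      rw [cj_sub]
      linear_combination hw
    have h3 := congrArg nm h1
    rw [nm_mul, nm_mul, nm_cj] at h3
    by_contra hne
    have h5 : nm (w - w') ≠ 0 := nm_ne_zero (sub_ne_zero.2 hne)
    apply h
    apply mul_right_cancel₀ h5
    rw [h3, mul_comm]
  have hbij : Function.Bijective (fun w : QuadraticAlgebra K d 0 => x * w - cj w * y) :=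
    Finite.injective_iff_bijective.1 hinj
  exact hbij.sum_comp φ

omit [DecidableEq K] in
/-- the degenerate case -/
theorem sum_form' (φ : QuadraticAlgebra K d 0 → ℤ) (x y w1 : QuadraticAlgebra K d 0) (hw : w1 ≠ 0)
    (h : w1 * x = cj w1 * y) (g : K → ℤ)
    (hg : ∀ s : QuadraticAlgebra K d 0, φ (x * w1 * ((2 * s.im) • omg)) = g s.im) :
    ∑ w, φ (x * w - cj w * y) = Fintype.card K * ∑ t, g t := by
  classical
  rw [← sum_im_const (d := d), ← Equiv.sum_comp (Equiv.mulLeft₀ w1 hw)]
  refine sum_congr rfl fun s _ => ?_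
  rw [Equiv.mulLeft₀_apply, ← hg s]
  congr 1
  have h1 : s - cj s = (2 * s.im) • (omg : QuadraticAlgebra K d 0) := by
    ext <;> simp [cj, omg]
    ring
  rw [← h1, cj_mul]
  linear_combination (cj s) * h

/-- the number of elements with a given norm -/
theorem count_nm (h2 : Fintype.card K % 2 = 1) (x : QuadraticAlgebra K d 0) (hx : x ≠ 0) :
    ((Fintype.card K : ℤ) - 1) *
      (∑ y : QuadraticAlgebra K d 0, if nm x = nm y then (1 : ℤ) else 0) =
      (Fintype.card K : ℤ) ^ 2 - 1 := by
  have hchar : ringChar K ≠ 2 := by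
    intro h
    have h1 := FiniteField.even_card_of_char_two h
    omega
  have h20 : (2 : K) ≠ 0 := Ring.two_ne_zero hchar
  have homg : (omg : QuadraticAlgebra K d 0) ≠ 0 := by
    intro h
    have := congrArg QuadraticAlgebra.im h
    simp [omg] at this
  let φ : QuadraticAlgebra K d 0 → ℤ := fun z => if z = 0 then 1 else 0
  have h1 : ∀ y : QuadraticAlgebra K d 0, ∑ w, φ (x * w - cj w * y) =
      1 + ((Fintype.card K : ℤ) - 1) * if nm x = nm y then (1 : ℤ) else 0 := by
    intro y
    by_cases h : nm x = nm y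
    · obtain ⟨w1, hw1, hw2⟩ := exists_w x y h hx
      rw [if_pos h, sum_form' φ x y w1 hw1 hw2 (fun t => if t = 0 then 1 else 0) ?_]
      · simp
      · intro s
        simp only [φ]
        by_cases hs : s.im = 0
        · simp [hs]
        · rw [if_neg hs, if_neg]
          exact mul_ne_zero (mul_ne_zero hx hw1) (smul_ne_zero (mul_ne_zero h20 hs) homg)
    · rw [if_neg h, sum_form φ x y h]
      simp [φ]
  have h3 : ∑ y : QuadraticAlgebra K d 0, ∑ w, φ (x * w - cj w * y) =
      2 * (Fintype.card K : ℤ) ^ 2 - 1 := by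
    rw [sum_comm]
    have h5 : ∀ w : QuadraticAlgebra K d 0, ∑ y, φ (x * w - cj w * y) =
        1 + if w = 0 then (Fintype.card K : ℤ) ^ 2 - 1 else 0 := by
      intro w
      by_cases hw : w = 0
      · subst hw
        rw [if_pos rfl]
        have h6 : ∀ y : QuadraticAlgebra K d 0, φ (x * 0 - cj 0 * y) = 1 := by
          intro y
          simp [φ, cj_zero]
        rw [sum_congr rfl fun y _ => h6 y, sum_const, card_univ, card_E]
        simp
      · rw [if_neg hw, add_zero]
        have h6 : ∀ y : QuadraticAlgebra K d 0, φ (x * w - cj w * y) =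
            if y = x * w / cj w then 1 else 0 := by
          intro y
          simp only [φ]
          have h7 : (x * w - cj w * y = 0) ↔ y = x * w / cj w := by
            rw [eq_div_iff (cj_ne_zero hw), sub_eq_zero, mul_comm y, eq_comm]
          simp only [h7]
        rw [sum_congr rfl fun y _ => h6 y, sum_ite_eq']
        simp
    rw [sum_congr rfl fun w _ => h5 w, sum_add_distrib, sum_const, card_univ, card_E]
    simp
    ring
  rw [sum_congr rfl fun y _ => h1 y, sum_add_distrib, ← mul_sum, sum_const, card_univ,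
    card_E] at h3
  simp only [nsmul_eq_mul, mul_one] at h3
  push_cast at h3
  linarith

/-- the twisted function is an eigenvector up to `χ` -/
theorem sum_tw' (h2 : Fintype.card K % 2 = 1) (b : QuadraticAlgebra K d 0 → ℤ)
    (hb : ∀ w x y, w ≠ 0 → w * x = cj w * y →
      b x = quadraticChar (QuadraticAlgebra K d 0) w * b y)
    (x : QuadraticAlgebra K d 0) (hx : x ≠ 0) :
    ∑ y, quadraticChar (QuadraticAlgebra K d 0) (x - y) * b y =
      Fintype.card K * (quadraticChar (QuadraticAlgebra K d 0) omg *
        quadraticChar (QuadraticAlgebra K d 0) x * b x) := by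
  have hq := card_E_mod (d := d) h2
  have hchar : ringChar K ≠ 2 := by
    intro h
    have h1 := FiniteField.even_card_of_char_two h
    omega
  have h20 : (2 : K) ≠ 0 := Ring.two_ne_zero hchar
  -- every `w ≠ 0` gives the same sum
  have hA : ∀ w : QuadraticAlgebra K d 0, w ≠ 0 →
      ∑ y, quadraticChar (QuadraticAlgebra K d 0) (x * w - cj w * y) * b y =
      ∑ y, quadraticChar (QuadraticAlgebra K d 0) (x - y) * b y := by
    intro w hw
    have hc : cj w / w ≠ 0 := div_ne_zero (cj_ne_zero hw) hw
    rw [← Equiv.sum_comp (Equiv.mulLeft₀ (cj w / w) hc)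
      (fun y => quadraticChar (QuadraticAlgebra K d 0) (x - y) * b y)]
    refine sum_congr rfl fun y _ => ?_
    rw [Equiv.mulLeft₀_apply]
    have e1 : w * (cj w / w * y) = cj w * y := by field_simp
    rw [hb w _ y hw e1]
    have e2 : x * w - cj w * y = w * (x - cj w / w * y) := by
      rw [mul_sub, e1, mul_comm]
    rw [e2, map_mul]
    ring
  have hB : ∑ w, ∑ y, quadraticChar (QuadraticAlgebra K d 0) (x * w - cj w * y) * b y =
      ((Fintype.card K : ℤ) ^ 2 - 1) *
        ∑ y, quadraticChar (QuadraticAlgebra K d 0) (x - y) * b y := by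
    have h1 : ∀ w : QuadraticAlgebra K d 0,
        ∑ y, quadraticChar (QuadraticAlgebra K d 0) (x * w - cj w * y) * b y =
        (∑ y, quadraticChar (QuadraticAlgebra K d 0) (x - y) * b y) -
          if w = 0 then ∑ y, quadraticChar (QuadraticAlgebra K d 0) (x - y) * b y else 0 := by
      intro w
      by_cases hw : w = 0
      · subst hw
        simp [cj_zero]
      · rw [if_neg hw, sub_zero, hA w hw]
    rw [sum_congr rfl fun w _ => h1 w, sum_sub_distrib, sum_const, card_univ, card_E,
      sum_ite_eq']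
    simp
    ring
  rw [sum_comm] at hB
  have hC : ∀ y : QuadraticAlgebra K d 0,
      ∑ w, quadraticChar (QuadraticAlgebra K d 0) (x * w - cj w * y) * b y =
      (Fintype.card K * ((Fintype.card K : ℤ) - 1) *
        (quadraticChar (QuadraticAlgebra K d 0) omg *
          quadraticChar (QuadraticAlgebra K d 0) x * b x)) * if nm x = nm y then 1 else 0 := by
    intro y
    rw [← sum_mul]
    by_cases h : nm x = nm y
    · obtain ⟨w1, hw1, hw2⟩ := exists_w x y h hx
      have e1 := hb w1 x y hw1 hw2
      rw [if_pos h, sum_form' (fun z => quadraticChar (QuadraticAlgebra K d 0) z) x y w1 hw1 hw2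
        (fun t => (quadraticChar (QuadraticAlgebra K d 0) x *
          quadraticChar (QuadraticAlgebra K d 0) w1 *
          quadraticChar (QuadraticAlgebra K d 0) omg) * (1 - if t = 0 then 1 else 0)) ?_]
      · rw [← mul_sum, sum_sub_distrib, sum_const, card_univ, sum_ite_eq']
        simp only [mem_univ, if_true, nsmul_eq_mul, mul_one]
        rw [e1]
        ring
      · intro s
        by_cases hs : s.im = 0
        · simp [hs]
        · rw [if_neg hs, map_mul, map_mul, chi_smul' h2 _ (mul_ne_zero h20 hs)]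
          ring
    · rw [if_neg h, sum_form (fun z => quadraticChar (QuadraticAlgebra K d 0) z) x y h,
        chi_sum hq]
      ring
  rw [sum_congr rfl fun y _ => hC y, ← mul_sum] at hB
  have hD := count_nm h2 x hx
  have hc : (2 : ℤ) ≤ Fintype.card K := by
    have h5 : 1 < Fintype.card K := Fintype.one_lt_card
    exact_mod_cast h5
  have hE : ((Fintype.card K : ℤ) ^ 2 - 1) ≠ 0 := by nlinarith
  apply mul_left_cancel₀ hE
  rw [← hB]
  linear_combination (Fintype.card K * (quadraticChar (QuadraticAlgebra K d 0) omg *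
    quadraticChar (QuadraticAlgebra K d 0) x * b x)) * hD

/-- the two sums of the twisted function vanish -/
theorem sum_tw_zero (h2 : Fintype.card K % 2 = 1) (b : QuadraticAlgebra K d 0 → ℤ)
    (hb : ∀ w x y, w ≠ 0 → w * x = cj w * y →
      b x = quadraticChar (QuadraticAlgebra K d 0) w * b y) :
    ∑ y, b y = 0 ∧ ∑ y, quadraticChar (QuadraticAlgebra K d 0) y * b y = 0 := by
  have hq := card_E_mod (d := d) h2
  obtain ⟨θ, hθ⟩ := quadraticChar_exists_neg_one (char_ne_two hq)
  have hθ0 : θ ≠ 0 := by
    rintro rfl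
    simp at hθ
  have hc : cj θ / θ ≠ 0 := div_ne_zero (cj_ne_zero hθ0) hθ0
  have hbc : ∀ y, b (cj θ / θ * y) = - b y := by
    intro y
    have e1 : θ * (cj θ / θ * y) = cj θ * y := by field_simp
    rw [hb θ _ y hθ0 e1, hθ]
    ring
  have hchi : quadraticChar (QuadraticAlgebra K d 0) (cj θ / θ) = 1 := by
    have h1 : cj θ / θ * θ = cj θ := by field_simp
    have h3 := congrArg (quadraticChar (QuadraticAlgebra K d 0)) h1
    rw [map_mul, chi_cj h2 hθ0, hθ] at h3
    linarith
  constructor
  · have h1 := Equiv.sum_comp (Equiv.mulLeft₀ (cj θ / θ) hc) b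
    simp only [Equiv.mulLeft₀_apply, hbc, sum_neg_distrib] at h1
    linarith
  · have h1 := Equiv.sum_comp (Equiv.mulLeft₀ (cj θ / θ) hc)
      (fun y => quadraticChar (QuadraticAlgebra K d 0) y * b y)
    simp only [Equiv.mulLeft₀_apply, hbc, map_mul, hchi, one_mul, mul_neg,
      sum_neg_distrib] at h1
    linarith

/-- signs with sum `1` and value `1` at `0` -/
theorem exists_b0 (h2 : Fintype.card K % 2 = 1) :
    ∃ β : K → ℤ, (∀ z, β z = 1 ∨ β z = -1) ∧ β 0 = 1 ∧ ∑ z, β z = 1 := by
  obtain ⟨B, hB, hBc⟩ := Finset.exists_subset_card_eq (s := (univ : Finset K).erase 0)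
    (n := Fintype.card K / 2) (by
      rw [card_erase_of_mem (mem_univ _), card_univ]
      omega)
  refine ⟨fun z => 1 - 2 * (if z ∈ B then 1 else 0), ?_, ?_, ?_⟩
  · intro z
    by_cases h : z ∈ B
    · right; simp only [if_pos h]; norm_num
    · left; simp only [if_neg h]; norm_num
  · have h : (0 : K) ∉ B := fun h => by
      have := hB h
      simp at this
    simp only [if_neg h]
    norm_num
  · rw [sum_sub_distrib, ← mul_sum]
    simp only [sum_ite_mem, univ_inter, sum_const, nsmul_eq_mul, mul_one, card_univ]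
    rw [hBc]
    omega

/-- the sign vectors for all odd orders -/
theorem exists_regVec' (h2 : Fintype.card K % 2 = 1)
    (M : {x : QuadraticAlgebra K d 0 // x ≠ 0} → {x : QuadraticAlgebra K d 0 // x ≠ 0} → ℤ)
    (K1 : ∀ x y, M x y = 1 ∨ M x y = -1)
    (hK : ∀ x y, ∑ z, M x z * M y z =
      if x = y then (Fintype.card (QuadraticAlgebra K d 0) : ℤ) - 1 else 0)
    (hK' : ∀ x y, ∑ z, M z x * M z y =
      if x = y then (Fintype.card (QuadraticAlgebra K d 0) : ℤ) - 1 else 0) :
    Nonempty (RegVec (fieldData (card_E_mod h2) M K1 hK hK') (Fintype.card K : ℤ)) := by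
  obtain ⟨b, hb0, hb1, hb⟩ := exists_tw (d := d) h2
  obtain ⟨β, hβ1, hβ0, hβs⟩ := exists_b0 (K := K) h2
  have hq := card_E_mod (d := d) h2
  obtain ⟨hs, hc⟩ := sum_tw_zero h2 b hb
  have homg : (omg : QuadraticAlgebra K d 0) ≠ 0 := by
    intro h
    have := congrArg QuadraticAlgebra.im h
    simp [omg] at this
  refine ⟨{ a := fun x => β (x : QuadraticAlgebra K d 0).im, b := fun x => b x,
            w := fun x => quadraticChar (QuadraticAlgebra K d 0) omg *
              quadraticChar (QuadraticAlgebra K d 0) (x : QuadraticAlgebra K d 0) * b x,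
            ha := fun x => hβ1 _, hb := fun x => hb1 _ x.2, hw := ?_, hPa := ?_, hPb := ?_,
            sa := ?_, sca := ?_, sb := ?_, scb := ?_ }⟩
  · intro x
    rcases hb1 _ x.2 with h1 | h1 <;> rcases quadraticChar_dichotomy x.2 with h2 | h2 <;>
      rcases quadraticChar_dichotomy homg with h3 | h3 <;>
      rw [h1, h2, h3] <;> norm_num
  · intro x
    show ∑ y : {x : QuadraticAlgebra K d 0 // x ≠ 0},
      quadraticChar (QuadraticAlgebra K d 0) ((x : QuadraticAlgebra K d 0) - y) *
        β (y : QuadraticAlgebra K d 0).im = _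
    rw [sum_ne_zero (fun y => quadraticChar (QuadraticAlgebra K d 0)
      ((x : QuadraticAlgebra K d 0) - y) * β y.im), sum_im' h2, hβs]
    simp only [sub_zero, QuadraticAlgebra.im_zero, hβ0, mul_one]
    rfl
  · intro x
    show ∑ y : {x : QuadraticAlgebra K d 0 // x ≠ 0},
      quadraticChar (QuadraticAlgebra K d 0) ((x : QuadraticAlgebra K d 0) - y) * b y = _
    rw [sum_ne_zero (fun y => quadraticChar (QuadraticAlgebra K d 0)
      ((x : QuadraticAlgebra K d 0) - y) * b y), sum_tw' h2 b hb _ x.2, hb0]
    ring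
  · rw [sum_ne_zero (fun y : QuadraticAlgebra K d 0 => β y.im), QuadraticAlgebra.im_zero, hβ0,
      sum_im_const, hβs, mul_one]
  · show ∑ y : {x : QuadraticAlgebra K d 0 // x ≠ 0},
      quadraticChar (QuadraticAlgebra K d 0) (y : QuadraticAlgebra K d 0) *
        β (y : QuadraticAlgebra K d 0).im = _
    rw [sum_ne_zero (fun y => quadraticChar (QuadraticAlgebra K d 0) y * β y.im)]
    have h1 := sum_im' h2 β (0 : QuadraticAlgebra K d 0)
    simp only [zero_sub, chi_neg hq, QuadraticAlgebra.im_zero, hβ0, hβs] at h1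
    rw [h1]
    simp
  · rw [sum_ne_zero b, hs, hb0, sub_zero]
  · show ∑ y : {x : QuadraticAlgebra K d 0 // x ≠ 0},
      quadraticChar (QuadraticAlgebra K d 0) (y : QuadraticAlgebra K d 0) * b y = _
    rw [sum_ne_zero (fun y => quadraticChar (QuadraticAlgebra K d 0) y * b y), hc, hb0]
    simp

end odd

end Chen

attribute [local instance] Chen.fintypeQ Chen.decQ in
theorem comp_field' {K : Type} [Field K] [Fintype K] [DecidableEq K]
    (h2 : Fintype.card K % 2 = 1) (h : HasHad (Fintype.card K ^ 2 - 1)) {m : ℕ} (hm0 : 0 < m)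
    (hm : HasX m) :
    ∃ B : Fin (4 * (m * Fintype.card K) ^ 2) → Finset (Fin (4 * (m * Fintype.card K) ^ 2)),
      IsSymDesign (4 * (m * Fintype.card K) ^ 2)
        (2 * (m * Fintype.card K) ^ 2 - m * Fintype.card K)
        ((m * Fintype.card K) ^ 2 - m * Fintype.card K) B := by
  have hchar : ringChar K ≠ 2 := by
    intro h
    have h1 := FiniteField.even_card_of_char_two h
    omega
  obtain ⟨d, hd⟩ := FiniteField.exists_nonsquare hchar
  have hf : Fact (∀ r : K, r ^ 2 ≠ d + 0 * r) := by
    refine ⟨fun r hr => hd ⟨r, ?_⟩⟩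
    rw [← sq, hr]
    ring
  obtain ⟨H, hH1, hH2⟩ := h
  have hH3 := had_transpose H hH2
  have hc : Fintype.card {x : QuadraticAlgebra K d 0 // x ≠ 0} = Fintype.card K ^ 2 - 1 := by
    rw [Fintype.card_subtype_compl, Chen.card_E]
    simp
  have h1 : 0 < Fintype.card K ^ 2 := by
    have : 0 < Fintype.card K := Fintype.card_pos
    positivity
  let e : {x : QuadraticAlgebra K d 0 // x ≠ 0} ≃ Fin (Fintype.card K ^ 2 - 1) :=
    Fintype.equivFinOfCardEq hc
  have hcast : ((Fintype.card K ^ 2 - 1 : ℕ) : ℤ) =
      (Fintype.card (QuadraticAlgebra K d 0) : ℤ) - 1 := by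
    rw [Chen.card_E]
    omega
  have hK : ∀ x y, ∑ z, H (e x) (e z) * H (e y) (e z) =
      if x = y then (Fintype.card (QuadraticAlgebra K d 0) : ℤ) - 1 else 0 := by
    intro x y
    rw [Equiv.sum_comp e (fun z => H (e x) z * H (e y) z)]
    have h2 := congrFun (congrFun hH2 (e x)) (e y)
    rw [Matrix.mul_apply] at h2
    simp only [Matrix.transpose_apply, Matrix.smul_apply, Matrix.one_apply] at h2
    rw [h2, hcast]
    by_cases hxy : x = y
    · subst hxy; simp
    · have : e x ≠ e y := fun h => hxy (e.injective h)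
      simp [hxy, this]
  have hK' : ∀ x y, ∑ z, H (e z) (e x) * H (e z) (e y) =
      if x = y then (Fintype.card (QuadraticAlgebra K d 0) : ℤ) - 1 else 0 := by
    intro x y
    rw [Equiv.sum_comp e (fun z => H z (e x) * H z (e y))]
    have h2 := congrFun (congrFun hH3 (e x)) (e y)
    rw [Matrix.mul_apply] at h2
    simp only [Matrix.transpose_apply, Matrix.smul_apply, Matrix.one_apply] at h2
    rw [h2, hcast]
    by_cases hxy : x = y
    · subst hxy; simp
    · have : e x ≠ e y := fun h => hxy (e.injective h)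
      simp [hxy, this]
  obtain ⟨R⟩ := Chen.exists_regVec' (d := d) h2 (fun x y => H (e x) (e y))
    (fun x y => hH1 _ _) hK hK'
  obtain ⟨β, i1, i2, ⟨P⟩⟩ := hm
  have hv1 : 1 < Fintype.card K := Fintype.one_lt_card
  exact cmp_menon P _ rfl hm0 hv1 (by
    show (Fintype.card (QuadraticAlgebra K d 0) : ℤ) = _
    rw [Chen.card_E]
    push_cast
    ring) R

/-- **Menon designs for composite orders**, all odd prime powers -/
theorem menon_comp' {m v : ℕ} (hm0 : 0 < m) (hm : HasX m) (hv : IsPrimePow v) (h2 : v % 2 = 1)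
    (h : HasHad (v ^ 2 - 1)) :
    ∃ B : Fin (4 * (m * v) ^ 2) → Finset (Fin (4 * (m * v) ^ 2)),
      IsSymDesign (4 * (m * v) ^ 2) (2 * (m * v) ^ 2 - m * v) ((m * v) ^ 2 - m * v) B := by
  obtain ⟨p, k, hp, hk, rfl⟩ := hv
  have hp' : p.Prime := hp.nat_prime
  have : Fact p.Prime := ⟨hp'⟩
  have : Fintype (GaloisField p k) := Fintype.ofFinite _
  have hcard : Fintype.card (GaloisField p k) = p ^ k := by
    rw [← Nat.card_eq_fintype_card, GaloisField.card p k (by omega)]
  classical
  have h6 := comp_field' (K := GaloisField p k) (by rw [hcard]; exact h2) (by rw [hcard]; exact h)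
    hm0 hm
  rwa [hcard] at h6

end Pool.Agent.K9h69.Menon
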