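import Pool.Agent.K9h69.Menon.Skew
import Pool.Agent.K9h69.Menon.Odd
import Pool.Agent.K9h69.Menon.Amic

/-!
# Final forms: Menon designs from skew-Hadamard matrices, and for odd prime powers
-/

set_option autoImplicit false

namespace Pool.Agent.K9h69.Menon

open Finset Matrix
open Pool.Agent.H108R3.Had (HasHad)
open Pool.Agent.H114R2 (IsSymDesign)
open Pool.Agent.Y342.SK (SkewC exists_core IsSkew)

/-- a skew-Hadamard matrix gives a skew conference matrix -/
theorem skewC_of_had {n : ℕ} (H : Matrix (Fin n) (Fin n) ℤ) (h1 : ∀ i j, H i j = 1 ∨ H i j = -1)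
    (h2 : H * H.transpose = (n : ℤ) • 1) (h3 : H + H.transpose = (2 : ℤ) • 1) : SkewC n := by
  have hT : H.transpose = (2 : ℤ) • 1 - H := by rw [← h3]; abel
  have hH : H * H = (2 : ℤ) • H - (n : ℤ) • 1 := by
    rw [hT, mul_sub, mul_smul_comm, mul_one] at h2
    rw [← h2]; abel
  refine ⟨H - 1, ⟨?_, ?_, ?_, ?_⟩⟩
  · intro x
    have h4 := congrFun (congrFun h3 x) x
    simp only [Matrix.add_apply, Matrix.transpose_apply, Matrix.smul_apply, Matrix.one_apply_eq,
      smul_eq_mul] at h4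
    rw [Matrix.sub_apply, Matrix.one_apply_eq]
    omega
  · intro x y hxy
    rw [Matrix.sub_apply, Matrix.one_apply_ne hxy, sub_zero]
    exact h1 x y
  · rw [transpose_sub, transpose_one, hT, two_smul]
    abel
  · rw [mul_sub, sub_mul, mul_one, one_mul, hH, Fintype.card_fin, sub_smul, one_smul, two_smul]
    abel

theorem had_of_skewC {n : ℕ} (h : SkewC n) : HasHad n := by
  obtain ⟨H, h1, -, h3⟩ := h.had
  exact ⟨H, h1, h3⟩

theorem odd_of_skewC {v : ℕ} (hv1 : 1 < v) (h : SkewC (v + 1)) : v % 2 = 1 := by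
  obtain ⟨S, hS⟩ := exists_core h
  have := core_card_odd hS.toG (⟨0, by omega⟩ : Fin v)
  rwa [Fintype.card_fin] at this

/-- Hadamard matrices of order `v + 1` and `2 (v - 1)` give one of order `v ^ 2 - 1` -/
theorem had_sq_sub_gen {v : ℕ} (h2 : v % 2 = 1) (h : HasHad (v + 1)) (h' : HasHad (2 * (v - 1))) :
    HasHad (v ^ 2 - 1) := by
  have h1 : HasHad (2 * ((v + 1) / 2)) := by
    have : 2 * ((v + 1) / 2) = v + 1 := by omega
    rw [this]
    exact h
  have h4 := Pool.Agent.Y341.Had.agayan h1 h'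
  have h3 : 2 * ((v + 1) / 2 * (v - 1)) = v ^ 2 - 1 := by
    have h5 : 2 * ((v + 1) / 2) = v + 1 := by omega
    rw [← mul_assoc, h5, ← Nat.sq_sub_sq, one_pow]
  rw [h3] at h4
  exact h4

/-- **the design for a skew-Hadamard matrix** -/
theorem menon_skew_final {b t v u : ℕ} (ht : t % 2 = 1) (hv1 : 1 < v) (hs : SkewC (v + 1))
    (h : HasHad (v ^ 2 - 1) ∨ HasHad (2 * (v - 1))) (hu : u = 3 ^ b * t ^ 2 * v) :
    ∃ B : Fin (4 * u ^ 2) → Finset (Fin (4 * u ^ 2)),
      IsSymDesign (4 * u ^ 2) (2 * u ^ 2 - u) (u ^ 2 - u) B := by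
  subst hu
  have ht0 : 0 < t := by omega
  have h' : HasHad (v ^ 2 - 1) := by
    rcases h with h | h
    · exact h
    · exact had_sq_sub_gen (odd_of_skewC hv1 hs) (had_of_skewC hs) h
  exact menon_skew (by positivity) (hasX_main b t ht) hv1 hs h'

/-- Hadamard matrices of order `v ^ 2 - 1`, `v = 1` modulo `4` a prime power -/
theorem had_sq_sub_one_mod {v : ℕ} (hv : IsPrimePow v) (h4 : v % 4 = 1) (h : HasHad (v - 1)) :
    HasHad (v ^ 2 - 1) := by
  have h1 := Pool.Agent.Y341.Had.had_paley_two hv h4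
  have h2 : HasHad (2 * ((v - 1) / 2)) := by
    have : 2 * ((v - 1) / 2) = v - 1 := by omega
    rw [this]
    exact h
  have h5 := Pool.Agent.Y341.Had.agayan h1 h2
  have h3 : 2 * ((v + 1) * ((v - 1) / 2)) = v ^ 2 - 1 := by
    have h6 : 2 * ((v - 1) / 2) = v - 1 := by omega
    rw [mul_left_comm, h6, ← Nat.sq_sub_sq, one_pow]
  rw [h3] at h5
  exact h5

/-- **the designs for odd prime powers** -/
theorem menon_prime_final {b t v u : ℕ} (ht : t % 2 = 1) (hv : IsPrimePow v) (h2 : v % 2 = 1)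
    (h : HasHad (v ^ 2 - 1) ∨ v % 4 = 3 ∧ HasHad (2 * (v - 1)) ∨ v % 4 = 1 ∧ HasHad (v - 1))
    (hu : u = 3 ^ b * t ^ 2 * v) :
    ∃ B : Fin (4 * u ^ 2) → Finset (Fin (4 * u ^ 2)),
      IsSymDesign (4 * u ^ 2) (2 * u ^ 2 - u) (u ^ 2 - u) B := by
  subst hu
  have ht0 : 0 < t := by omega
  have h' : HasHad (v ^ 2 - 1) := by
    rcases h with h | ⟨h4, h⟩ | ⟨h4, h⟩
    · exact h
    · exact had_sq_sub hv h4 h
    · exact had_sq_sub_one_mod hv h4 h
  exact menon_comp' (by positivity) (hasX_main b t ht) hv h2 h'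

/-- the product type with Paley's matrices -/
theorem menon_product_final {b t v u s : ℕ} (L : List ℕ) (ht : t % 2 = 1) (hv1 : 1 < v)
    (hL : ∀ q ∈ L, IsPrimePow q ∧ q % 4 = 3) (hs : v + 1 = 2 ^ s * (L.map (· + 1)).prod)
    (h : HasHad (v ^ 2 - 1) ∨ HasHad (2 * (v - 1)) ∨ IsPrimePow (2 * v - 3) ∨ IsPrimePow (v - 2) ∨
      IsPrimePow (v ^ 2 - 2)) (hu : u = 3 ^ b * t ^ 2 * v) :
    ∃ B : Fin (4 * u ^ 2) → Finset (Fin (4 * u ^ 2)),
      IsSymDesign (4 * u ^ 2) (2 * u ^ 2 - u) (u ^ 2 - u) B := by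
  have hsk : SkewC (v + 1) := by
    rw [hs]
    exact skewC_prod s L hL
  have h2 := odd_of_skewC hv1 hsk
  have h4 : v % 4 = 3 := by
    -- a Hadamard matrix of order `v + 1 > 2`
    by_contra h3
    have h5 : v % 4 = 1 := by omega
    have hpr : ∀ M : List ℕ, (∀ q ∈ M, IsPrimePow q ∧ q % 4 = 3) → M ≠ [] →
        4 ∣ (M.map (· + 1)).prod := by
      intro M hM hM0
      cases M with
      | nil => exact absurd rfl hM0
      | cons q M =>
        rw [List.map_cons, List.prod_cons]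
        obtain ⟨-, h6⟩ := hM q (by simp)
        exact (by omega : 4 ∣ q + 1).mul_right _
    by_cases hL0 : L = []
    · subst hL0
      simp only [List.map_nil, List.prod_nil, mul_one] at hs
      rcases Nat.lt_or_ge s 2 with h6 | h6
      · have h7 : s = 0 ∨ s = 1 := by omega
        rcases h7 with rfl | rfl <;> simp at hs <;> omega
      · have h7 : 2 ^ 2 ∣ v + 1 := by rw [hs]; exact pow_dvd_pow 2 h6
        omega
    · have h7 : 4 ∣ v + 1 := by rw [hs]; exact (hpr L hL hL0).mul_left _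
      omega
  refine menon_skew_final ht hv1 hsk ?_ hu
  rcases h with h | h | h | h | h
  · exact Or.inl h
  · exact Or.inr h
  · right
    have h6 := had_paley_one' h (by omega)
    have h7 : 2 * v - 3 + 1 = 2 * (v - 1) := by omega
    rwa [h7] at h6
  · right
    have h6 := Pool.Agent.Y341.Had.had_paley_two h (by omega)
    have h7 : v - 2 + 1 = v - 1 := by omega
    rwa [h7] at h6
  · left
    have h8 : (v ^ 2 - 2) % 4 = 3 := by
      have h9 : v ^ 2 % 4 = 1 := by rw [Nat.pow_mod, h4]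
      have h10 : 2 ≤ v ^ 2 := by nlinarith
      omega
    have h6 := had_paley_one' h h8
    have h7 : v ^ 2 - 2 + 1 = v ^ 2 - 1 := by
      have h10 : 2 ≤ v ^ 2 := by nlinarith
      omega
    rwa [h7] at h6

end Pool.Agent.K9h69.Menon
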