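import Pool.Agent.Y342.SK.Sym
import Pool.Agent.K9h69.Menon.Comp2
import Pool.Agent.K9h69.Menon.Chen2
import Pool.Agent.K9h69.Menon.Main

/-!
# Menon designs from skew-Hadamard matrices

Let `S` be a skew core of order `v`, that is, the core of a skew-Hadamard matrix of order `v + 1`. The
symmetric core `sqB S` of order `v ^ 2` maps the matrix `diag s * S - I + e 1ᵀ` to `v` times the matrix
`S * diag s - I + 1 eᵀ`, where `s` is the row of `S` with number `o` and `e` is the unit vector of `o`.
Hence Miyamoto's Hadamard matrix of order `4 v ^ 2` belonging to `sqB S` can be made regular.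
-/

set_option autoImplicit false

namespace Pool.Agent.K9h69.Menon

open Finset Matrix
open Pool.Agent.TH432.Had
open Pool.Agent.H108R3.Had (HasHad)
open Pool.Agent.H114R2 (IsSymDesign)
open Pool.Agent.Y342.SK (IsCoreG sqB SkewC IsCore exists_core Sg)

theorem sum_subtype_ne {κ : Type} [Fintype κ] [DecidableEq κ] (o : κ) (f : κ → ℤ) :
    ∑ z : {x : κ // x ≠ o}, f z = ∑ z, f z - f o := by
  rw [Fintype.sum_eq_add_sum_subtype_ne f o]
  ring

/-- the data of a symmetric core -/
def coreData {κ : Type} [Fintype κ] [DecidableEq κ] {B : κ → κ → ℤ} (h : IsCoreG 1 B) (o : κ)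
    (K : {x : κ // x ≠ o} → {x : κ // x ≠ o} → ℤ) (K1 : ∀ x y, K x y = 1 ∨ K x y = -1)
    (hK : ∀ x y, ∑ z, K x z * K y z = if x = y then (Fintype.card κ : ℤ) - 1 else 0)
    (hK' : ∀ x y, ∑ z, K z x * K z y = if x = y then (Fintype.card κ : ℤ) - 1 else 0) :
    Data {x : κ // x ≠ o} where
  P x y := B x y
  c x := B o x
  K := K
  k := Fintype.card κ
  P0 x := h.diag _
  P1 x y hxy := h.sign _ _ fun h' => hxy (Subtype.ext h')
  hc x := h.sign _ _ (Ne.symm x.2)
  hP x y := by
    have hs : ∀ x y, B y x = B x y := fun x y => by rw [h.sym x y, one_mul]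
    rw [sum_subtype_ne o (fun z => B x z * B y z), h.mul, hs o x, hs o y]
    by_cases hxy : x = y
    · subst hxy; simp
    · rw [if_neg hxy, if_neg fun h' => hxy (Subtype.ext h')]
  hr x := by
    have hs : ∀ x y, B y x = B x y := fun x y => by rw [h.sym x y, one_mul]
    rw [sum_subtype_ne o (fun z => B x z), h.row, hs o x]
    ring
  hs x := by
    rw [sum_subtype_ne o (fun z => B x z * B o z), h.mul, if_neg x.2, h.diag o]
    ring
  hcs := by
    rw [sum_subtype_ne o (fun z => B o z), h.row, h.diag]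
    ring
  K1 := K1
  hK := hK
  hK' := hK'
  hcard := by
    have h1 : Fintype.card {x : κ // x ≠ o} = Fintype.card κ - 1 := by
      rw [Fintype.card_subtype_compl]
      simp
    have h2 : 0 < Fintype.card κ := Fintype.card_pos_iff.2 ⟨o⟩
    rw [h1]
    omega

section skew

variable {ι : Type} [Fintype ι] [DecidableEq ι]

/-- the vector of column signs -/
def bF (S : ι → ι → ℤ) (o : ι) (p : ι × ι) : ℤ :=
  S o p.1 * S p.1 p.2 - (if p.1 = p.2 then 1 else 0) + (if p.1 = o then 1 else 0)

/-- the vector of row signs -/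
def wF (S : ι → ι → ℤ) (o : ι) (p : ι × ι) : ℤ :=
  S p.1 p.2 * S o p.2 - (if p.1 = p.2 then 1 else 0) + (if p.2 = o then 1 else 0)

variable {S : ι → ι → ℤ} (h : IsCoreG (-1) S) (o : ι)

include h

theorem bF_sign (p : ι × ι) (hp : p ≠ (o, o)) : bF S o p = 1 ∨ bF S o p = -1 := by
  obtain ⟨x, y⟩ := p
  simp only [bF]
  by_cases hx : x = o
  · subst hx
    have hy : ¬ x = y := fun e => hp (by rw [← e])
    rw [h.diag, if_neg hy, if_pos rfl]
    left; ring
  · rw [if_neg hx]
    by_cases hxy : x = y
    · subst hxy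
      rw [h.diag, if_pos rfl]
      right; ring
    · rw [if_neg hxy]
      rcases h.sign o x (Ne.symm hx) with h1 | h1 <;> rcases h.sign x y hxy with h2 | h2 <;>
        rw [h1, h2] <;> norm_num

theorem wF_sign (p : ι × ι) (hp : p ≠ (o, o)) : wF S o p = 1 ∨ wF S o p = -1 := by
  obtain ⟨x, y⟩ := p
  simp only [wF]
  by_cases hy : y = o
  · subst hy
    have hx : ¬ x = y := fun e => hp (by rw [← e])
    rw [h.diag, if_neg hx, if_pos rfl]
    left; ring
  · rw [if_neg hy]
    by_cases hxy : x = y
    · subst hxy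
      rw [h.diag, if_pos rfl]
      right; ring
    · rw [if_neg hxy]
      rcases h.sign o y (Ne.symm hy) with h1 | h1 <;> rcases h.sign x y hxy with h2 | h2 <;>
        rw [h1, h2] <;> norm_num

theorem bF_zero : bF S o (o, o) = 0 := by
  simp [bF, h.diag]

theorem wF_zero : wF S o (o, o) = 0 := by
  simp [wF, h.diag]

/-- column sums -/
theorem core_col (y : ι) : ∑ x, S x y = 0 := by
  have h1 : ∀ x, S x y = - S y x := fun x => by rw [h.sym y x]; ring
  rw [sum_congr rfl fun x _ => h1 x, sum_neg_distrib, h.row, neg_zero]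

theorem sum_bF_row (x : ι) : ∑ y, bF S o (x, y) =
    (if x = o then (Fintype.card ι : ℤ) else 0) - 1 := by
  simp only [bF]
  rw [sum_add_distrib, sum_sub_distrib, ← mul_sum, h.row, sum_ite_eq, if_pos (mem_univ _)]
  by_cases e : x = o
  · simp [e]
    ring
  · simp [e]

theorem sum_bF_col (y : ι) : ∑ x, bF S o (x, y) =
    1 - (if y = o then (Fintype.card ι : ℤ) else 0) := by
  simp only [bF]
  have h1 : ∀ x, S o x * S x y = -(S o x * S y x) := fun x => by rw [h.sym y x]; ring
  rw [sum_add_distrib, sum_sub_distrib, sum_congr rfl fun x _ => h1 x, sum_neg_distrib, h.mul]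
  have h2 : (if o = y then (Fintype.card ι : ℤ) else 0) = if y = o then (Fintype.card ι : ℤ) else 0 := by
    simp only [eq_comm]
  rw [h2]
  simp
  ring

/-- the sign vector is mapped to `v` times a sign vector -/
theorem sqB_bF (p : ι × ι) : ∑ q, sqB S p q * bF S o q = Fintype.card ι * wF S o p := by
  obtain ⟨x, x'⟩ := p
  have h1 : ∀ q : ι × ι, sqB S (x, x') q * bF S o q =
      S x q.1 * S x' q.2 * bF S o q + (if x = q.1 then bF S o q else 0) -
        (if x' = q.2 then bF S o q else 0) := by
    intro q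
    simp only [sqB]
    by_cases e1 : x = q.1 <;> by_cases e2 : x' = q.2 <;> simp [e1, e2] <;> ring
  have h2 : ∑ q : ι × ι, (if x = q.1 then bF S o q else 0) =
      (if x = o then (Fintype.card ι : ℤ) else 0) - 1 := by
    rw [Fintype.sum_prod_type]
    have : ∀ a : ι, ∑ b : ι, (if x = a then bF S o (a, b) else 0) =
        if x = a then ∑ b : ι, bF S o (a, b) else 0 := by
      intro a
      by_cases e : x = a <;> simp [e]
    simp only
    rw [sum_congr rfl fun a _ => this a, sum_ite_eq, if_pos (mem_univ _), sum_bF_row h]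
  have h3 : ∑ q : ι × ι, (if x' = q.2 then bF S o q else 0) =
      1 - (if x' = o then (Fintype.card ι : ℤ) else 0) := by
    rw [Fintype.sum_prod_type_right]
    have : ∀ b : ι, ∑ a : ι, (if x' = b then bF S o (a, b) else 0) =
        if x' = b then ∑ a : ι, bF S o (a, b) else 0 := by
      intro b
      by_cases e : x' = b <;> simp [e]
    simp only
    rw [sum_congr rfl fun b _ => this b, sum_ite_eq, if_pos (mem_univ _), sum_bF_col h]
  have h4 : ∑ q : ι × ι, S x q.1 * S x' q.2 * bF S o q =
      Fintype.card ι * (S x x' * S o x') - ((if x = o then (Fintype.card ι : ℤ) else 0) - 1) -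
        ((if x = x' then (Fintype.card ι : ℤ) else 0) - 1) := by
    rw [Fintype.sum_prod_type]
    have e1 : ∀ a : ι, ∑ b : ι, S x a * S x' b * bF S o (a, b) =
        (S x a * S o a) * ((if x' = a then (Fintype.card ι : ℤ) else 0) - 1) - S x a * S x' a := by
      intro a
      have e2 : ∀ b : ι, S x a * S x' b * bF S o (a, b) =
          (S x a * S o a) * (S x' b * S a b) - (if a = b then S x a * S x' b else 0) +
            (if a = o then S x a * S x' b else 0) := by
        intro b
        simp only [bF]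
        split_ifs <;> ring
      rw [sum_congr rfl fun b _ => e2 b, sum_add_distrib, sum_sub_distrib, ← mul_sum, h.mul,
        sum_ite_eq, if_pos (mem_univ _)]
      have e5 : ∑ b : ι, (if a = o then S x a * S x' b else 0) = 0 := by
        by_cases e4 : a = o
        · simp only [e4, if_true]
          rw [← mul_sum, h.row, mul_zero]
        · simp [e4]
      rw [e5, add_zero]
    have e6 : ∀ a : ι, (S x a * S o a) * ((if x' = a then (Fintype.card ι : ℤ) else 0) - 1) -
        S x a * S x' a = (if x' = a then Fintype.card ι * (S x a * S o a) else 0) -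
          S x a * S o a - S x a * S x' a := by
      intro a
      by_cases e : x' = a
      · rw [if_pos e, if_pos e]; ring
      · rw [if_neg e, if_neg e]; ring
    simp only
    rw [sum_congr rfl fun a _ => (e1 a).trans (e6 a), sum_sub_distrib, sum_sub_distrib, h.mul, h.mul,
      sum_ite_eq, if_pos (mem_univ _)]
  rw [sum_congr rfl fun q _ => h1 q, sum_sub_distrib, sum_add_distrib, h2, h3, h4]
  simp only [wF]
  split_ifs <;> ring

theorem sum_bF : ∑ q, bF S o q = 0 := by
  rw [Fintype.sum_prod_type, sum_congr rfl fun x _ => sum_bF_row h o x, sum_sub_distrib,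
    sum_ite_eq', if_pos (mem_univ _), sum_const, card_univ]
  simp

omit h in
/-- signs with sum `1` and value `1` at `o` -/
theorem exists_phi (h2 : Fintype.card ι % 2 = 1) (o : ι) :
    ∃ β : ι → ℤ, (∀ z, β z = 1 ∨ β z = -1) ∧ β o = 1 ∧ ∑ z, β z = 1 := by
  obtain ⟨B, hB, hBc⟩ := Finset.exists_subset_card_eq (s := (univ : Finset ι).erase o)
    (n := Fintype.card ι / 2) (by
      rw [card_erase_of_mem (mem_univ _), card_univ]
      omega)
  refine ⟨fun z => 1 - 2 * (if z ∈ B then 1 else 0), ?_, ?_, ?_⟩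
  · intro z
    by_cases h : z ∈ B
    · right; simp only [if_pos h]; norm_num
    · left; simp only [if_neg h]; norm_num
  · have h : o ∉ B := fun h => by
      have := hB h
      simp at this
    simp only [if_neg h]
    norm_num
  · rw [sum_sub_distrib, ← mul_sum]
    simp only [sum_ite_mem, univ_inter, sum_const, nsmul_eq_mul, mul_one, card_univ]
    rw [hBc]
    omega

/-- functions of the first coordinate -/
theorem sqB_fst (β : ι → ℤ) (p : ι × ι) :
    ∑ q : ι × ι, sqB S p q * β q.1 = Fintype.card ι * β p.1 - ∑ z, β z := by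
  obtain ⟨x, x'⟩ := p
  rw [Fintype.sum_prod_type]
  have h1 : ∀ a : ι, ∑ b : ι, sqB S (x, x') (a, b) * β a =
      (if x = a then Fintype.card ι * β a else 0) - β a := by
    intro a
    have h2 : ∑ b : ι, sqB S (x, x') (a, b) = (if x = a then (Fintype.card ι : ℤ) else 0) - 1 := by
      simp only [sqB]
      rw [sum_sub_distrib, sum_add_distrib, ← mul_sum, h.row, sum_ite_eq, if_pos (mem_univ _)]
      by_cases e : x = a <;> simp [e]
    rw [← sum_mul, h2]
    by_cases e : x = a
    · rw [if_pos e, if_pos e]; ring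
    · rw [if_neg e, if_neg e]; ring
  simp only
  rw [sum_congr rfl fun a _ => h1 a, sum_sub_distrib, sum_ite_eq, if_pos (mem_univ _)]

/-- the size of a skew core is odd -/
theorem core_card_odd (o : ι) : Fintype.card ι % 2 = 1 := by
  by_contra h2
  have h3 : Fintype.card ι % 2 = 0 := by omega
  have h4 : 0 < Fintype.card ι := Fintype.card_pos_iff.2 ⟨o⟩
  have h1 := h.row o
  have h5 : ∀ y, (S o y) % 2 = if o = y then 0 else 1 := by
    intro y
    by_cases e : o = y
    · subst e
      rw [h.diag, if_pos rfl]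
      rfl
    · rw [if_neg e]
      rcases h.sign o y e with h6 | h6 <;> rw [h6] <;> rfl
  have h6 : (∑ y, S o y) % 2 = ((Fintype.card ι : ℤ) - 1) % 2 := by
    rw [Finset.sum_int_mod, sum_congr rfl fun y _ => h5 y]
    congr 1
    have h7 : ∀ y, (if o = y then (0 : ℤ) else 1) = 1 - if o = y then 1 else 0 := by
      intro y; split_ifs <;> norm_num
    rw [sum_congr rfl fun y _ => h7 y, sum_sub_distrib]
    simp
  rw [h1] at h6
  omega

theorem exists_regVec_skew
    (M : {x : ι × ι // x ≠ (o, o)} → {x : ι × ι // x ≠ (o, o)} → ℤ)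
    (K1 : ∀ x y, M x y = 1 ∨ M x y = -1)
    (hK : ∀ x y, ∑ z, M x z * M y z = if x = y then (Fintype.card (ι × ι) : ℤ) - 1 else 0)
    (hK' : ∀ x y, ∑ z, M z x * M z y = if x = y then (Fintype.card (ι × ι) : ℤ) - 1 else 0) :
    Nonempty (RegVec (coreData (h.sq (by norm_num)) (o, o) M K1 hK hK') (Fintype.card ι : ℤ)) := by
  obtain ⟨β, hβ1, hβ0, hβs⟩ := exists_phi (core_card_odd h o) o
  have hsym : ∀ p q, sqB S p q = sqB S q p := fun p q => by
    have := (h.sq (by norm_num)).sym q p
    rw [this, one_mul]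
  refine ⟨{ a := fun x => β (x : ι × ι).1, b := fun x => bF S o x,
            w := fun x => wF S o x,
            ha := fun x => hβ1 _, hb := fun x => bF_sign h o _ x.2,
            hw := fun x => wF_sign h o _ x.2, hPa := ?_, hPb := ?_,
            sa := ?_, sca := ?_, sb := ?_, scb := ?_ }⟩
  · intro x
    show ∑ y : {x : ι × ι // x ≠ (o, o)}, sqB S x y * β (y : ι × ι).1 = _
    rw [sum_subtype_ne (o, o) (fun y : ι × ι => sqB S x y * β y.1), sqB_fst h, hβs, hβ0, mul_one]
    show _ = _ - 1 - sqB S (o, o) x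
    rw [hsym (o, o) x]
  · intro x
    show ∑ y : {x : ι × ι // x ≠ (o, o)}, sqB S x y * bF S o y = _
    rw [sum_subtype_ne (o, o) (fun y : ι × ι => sqB S x y * bF S o y), sqB_bF h, bF_zero h,
      mul_zero, sub_zero]
  · rw [sum_subtype_ne (o, o) (fun y : ι × ι => β y.1), hβ0, Fintype.sum_prod_type]
    simp only [sum_const, card_univ, nsmul_eq_mul]
    rw [← mul_sum, hβs, mul_one]
  · show ∑ y : {x : ι × ι // x ≠ (o, o)}, sqB S (o, o) y * β (y : ι × ι).1 = _
    rw [sum_subtype_ne (o, o) (fun y : ι × ι => sqB S (o, o) y * β y.1), sqB_fst h, hβs, hβ0,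
      (h.sq (by norm_num)).diag]
    ring
  · rw [sum_subtype_ne (o, o) (fun y : ι × ι => bF S o y), sum_bF h, bF_zero h, sub_zero]
  · show ∑ y : {x : ι × ι // x ≠ (o, o)}, sqB S (o, o) y * bF S o y = _
    rw [sum_subtype_ne (o, o) (fun y : ι × ι => sqB S (o, o) y * bF S o y), sqB_bF h, bF_zero h,
      wF_zero h]
    ring

end skew

/-- **Menon designs from skew-Hadamard matrices** -/
theorem menon_skew {m v : ℕ} (hm0 : 0 < m) (hm : HasX m) (hv1 : 1 < v) (hs : SkewC (v + 1))
    (hh : HasHad (v ^ 2 - 1)) :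
    ∃ B : Fin (4 * (m * v) ^ 2) → Finset (Fin (4 * (m * v) ^ 2)),
      IsSymDesign (4 * (m * v) ^ 2) (2 * (m * v) ^ 2 - m * v) ((m * v) ^ 2 - m * v) B := by
  obtain ⟨S, hS⟩ := exists_core hs
  have h := hS.toG
  let o : Fin v := ⟨0, by omega⟩
  obtain ⟨H, hH1, hH2⟩ := hh
  have hH3 := had_transpose H hH2
  have hcard : Fintype.card (Fin v × Fin v) = v ^ 2 := by
    rw [Fintype.card_prod, Fintype.card_fin, sq]
  have hc : Fintype.card {x : Fin v × Fin v // x ≠ (o, o)} = v ^ 2 - 1 := by
    rw [Fintype.card_subtype_compl, hcard]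
    simp
  have h1 : 0 < v ^ 2 := by positivity
  let e : {x : Fin v × Fin v // x ≠ (o, o)} ≃ Fin (v ^ 2 - 1) := Fintype.equivFinOfCardEq hc
  have hcast : ((v ^ 2 - 1 : ℕ) : ℤ) = (Fintype.card (Fin v × Fin v) : ℤ) - 1 := by
    rw [hcard]
    omega
  have hK : ∀ x y, ∑ z, H (e x) (e z) * H (e y) (e z) =
      if x = y then (Fintype.card (Fin v × Fin v) : ℤ) - 1 else 0 := by
    intro x y
    rw [Equiv.sum_comp e (fun z => H (e x) z * H (e y) z)]
    have h2 := congrFun (congrFun hH2 (e x)) (e y)
    rw [Matrix.mul_apply] at h2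
    simp only [Matrix.transpose_apply, Matrix.smul_apply, Matrix.one_apply] at h2
    rw [h2, hcast]
    by_cases hxy : x = y
    · subst hxy; simp
    · have : e x ≠ e y := fun h => hxy (e.injective h)
      simp [hxy, this]
  have hK' : ∀ x y, ∑ z, H (e z) (e x) * H (e z) (e y) =
      if x = y then (Fintype.card (Fin v × Fin v) : ℤ) - 1 else 0 := by
    intro x y
    rw [Equiv.sum_comp e (fun z => H z (e x) * H z (e y))]
    have h2 := congrFun (congrFun hH3 (e x)) (e y)
    rw [Matrix.mul_apply] at h2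
    simp only [Matrix.transpose_apply, Matrix.smul_apply, Matrix.one_apply] at h2
    rw [h2, hcast]
    by_cases hxy : x = y
    · subst hxy; simp
    · have : e x ≠ e y := fun h => hxy (e.injective h)
      simp [hxy, this]
  obtain ⟨R⟩ := exists_regVec_skew h o (fun x y => H (e x) (e y)) (fun x y => hH1 _ _) hK hK'
  obtain ⟨β, i1, i2, ⟨P⟩⟩ := hm
  rw [Fintype.card_fin] at R
  exact cmp_menon P _ rfl hm0 hv1 (by
    show (Fintype.card (Fin v × Fin v) : ℤ) = _
    rw [hcard]
    push_cast
    ring) R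

end Pool.Agent.K9h69.Menon
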