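import Pool.Agent.K9h69.Menon.Cert

/-!
# Derivations of Hadamard matrices of order `v ^ 2 - 1` for prime powers `v ≡ 3 (mod 4)`,
`6400 ≤ v < 9600`
-/

set_option autoImplicit false

namespace Pool.Agent.K9h69.Menon.T1

/-- part 0 of the table -/
def tbl0 : List (Cert ⊕ ℕ) := [
  .inr 19, .inr 43, .inr 3, .inr 5, .inr 49, .inr 3, .inl (.p1 41306327 0 3212), .inr 59, .inr 9,
  .inr 47, .inr 17, .inr 3, .inl (.ag (.p1 19 0 1) (.p1 4161539 0 1019)), .inr 5, .inr 3, .inr 23,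
  .inr 29, .inr 9, .inr 25, .inr 11, .inr 3, .inr 13,
  .inl (.ag (.p1 11 0 1) (.p1 7022179 0 1324)), .inr 3, .inr 67, .inr 7, .inr 27, .inr 17, .inr 5,
  .inr 3, .inr 11, .inr 61, .inr 3, .inr 5, .inr 13, .inr 9,
  .inl (.ag (.p1 11 0 1) (.p2 3571933 0 944)),
  .inl (.ag (.p1 3 0 0) (.ag (.p1 3 0 0) (.p1 10728899 0 1637))), .inr 3, .inr 7,
  .inl (.ag (.p1 67 0 3) (.p1 1266851 0 562)), .inr 3, .inl (.p1 43178039 0 3284), .inr 25,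
  .inr 9, .inr 29, .inr 7, .inr 3, .inr 5, .inl (.p1 43546799 0 3298), .inr 3,
  .inl (.ag (.p1 3 0 0) (.p1 21826223 0 2335)), .inr 11, .inr 27,
  .inl (.ag (.p1 3 0 0) (.p2 10952789 0 1654)), .inr 37, .inr 3, .inr 19, .inr 5, .inr 3, .inr 7,
  .inr 289, .inr 9, .inr 5, .inl (.ag (.p1 11 0 1) (.p1 7390379 0 1358)), .inr 3, .inr 59, .inr 7,
  .inr 3, .inl (.ag (.p1 3 0 0) (.ag (.p1 251 0 7) (.p1 177019 0 209))), .inr 41, .inr 9,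
  .inl (.p1 44769479 0 3344), .inr 5, .inr 3, .inl (.ag (.p1 6703 0 40) (.p2 6701 0 40)), .inr 19,
  .inr 3, .inr 5,
  .inl (.ag (.p1 3 0 0) (.ag (.p1 3 0 0) (.ag (.p1 3 0 0) (.ag (.p1 3 0 0) (.ag (.p1 3 0 0) (.p2 705389 0 419)))))),
  .inr 81, .inr 7, .inr 53, .inr 3, .inr 23, .inr 11, .inr 3, .inr 43, .inr 5, .inr 9,
  .inl (.p1 45738167 0 3380), .inr 67, .inr 3, .inr 25,
  .inl (.ag (.p1 19 0 1) (.p2 2297741 0 757)), .inr 3, .inr 11,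
  .inl (.ag (.p1 3 0 0) (.ag (.p1 19 0 1) (.p1 2305883 0 758))), .inr 9, .inr 13]

theorem tbl0_ok : table 1600 tbl0 = true := by decide +kernel

theorem tbl0_len : tbl0.length = 100 := by decide +kernel

/-- part 1 of the table -/
def tbl1 : List (Cert ⊕ ℕ) := [
  .inl (.ag (.p1 11 0 1) (.p2 3856733 0 981)), .inr 3, .inr 49, .inr 5, .inr 3,
  .inl (.ag (.p1 3 0 0) (.ag (.p2 17 0 1) (.p2 646573 0 401))),
  .inl (.ag (.mi 569 0 11 (.ag (.p1 3 0 0) (.p1 283 0 7))) (.p2 20477 0 71)), .inr 27, .inr 5,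
  .inr 7, .inr 3, .inr 41, .inr 13, .inr 3, .inl (.ag (.p1 3 0 0) (.p2 11761469 0 1714)),
  .inl (.ag (.p1 3 0 0) (.ag (.p1 3 0 0) (.p1 11775191 0 1715))), .inr 9,
  .inl (.ag (.p1 3 0 0) (.p1 23605319 0 2428)), .inr 625, .inr 3, .inl (.p1 47375687 0 3440),
  .inr 71, .inr 3, .inr 5, .inl (.ag (.p1 3 0 0) (.p2 11899049 0 1724)), .inr 9,
  .inl (.ag (.p1 43 0 2) (.p1 2168483 0 735)), .inl (.p1 47761919 0 3454), .inr 3, .inr 11,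
  .inr 7, .inr 3, .inr 29, .inr 5, .inr 27, .inr 53, .inl (.ag (.p1 11 0 1) (.p2 4021733 0 1002)),
  .inr 3, .inr 5, .inl (.ag (.p1 3 0 0) (.ag (.p1 3 0 0) (.ag (.p1 3 2 0) (.p2 432389 0 328)))),
  .inr 3, .inl (.ag (.p1 3 0 0) (.p1 24269543 0 2462)),
  .inl (.ag (.p1 11 0 1) (.p2 4049569 0 1005)), .inr 9, .inr 7,
  .inl (.ag (.p1 3 0 0) (.p1 24381143 0 2468)), .inr 3,
  .inl (.ag (.p1 3 0 0) (.ag (.p1 3 0 0) (.ag (.p1 3 0 0) (.p2 3054629 0 873)))), .inr 5, .inr 3,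
  .inr 47, .inr 49, .inr 9, .inr 5, .inl (.ag (.p1 3 0 0) (.p2 12316589 0 1754)), .inr 3,
  .inl (.ag (.p1 3 0 0) (.p2 12344681 0 1756)), .inr 79, .inr 3,
  .inl (.ag (.p1 3 0 0) (.ag (.p1 3 0 0) (.ag (.p1 3 0 0) (.ag (.p1 3 0 0) (.p1 3096719 0 879))))),
  .inl (.ag (.p1 2011 0 21) (.p1 49307 0 110)), .inr 243, .inr 11, .inr 5, .inr 3, .inr 7,
  .inr 37, .inr 3, .inr 25, .inl (.ag (.p1 3 0 0) (.ag (.p1 19 0 1) (.p1 2505611 0 790))), .inr 9,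
  .inr 19, .inr 7, .inr 3, .inr 31, .inl (.ag (.p1 3 0 0) (.p1 25226303 0 2510)), .inr 3, .inr 13,
  .inr 5, .inr 9, .inr 17, .inl (.p1 50794127 0 3562), .inr 3, .inr 5, .inr 121, .inr 3, .inr 7,
  .inl (.ag (.p1 3 0 0) (.ag (.p1 3 0 0) (.p1 12784199 0 1787))), .inr 27,
  .inl (.ag (.p1 3 0 0) (.ag (.p1 3 0 0) (.p1 12812819 0 1789))), .inr 13, .inr 3, .inr 71,
  .inr 25, .inr 3, .inr 11, .inl (.p1 51652967 0 3592), .inr 9, .inr 5, .inr 23]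

theorem tbl1_ok : table 1700 tbl1 = true := by decide +kernel

theorem tbl1_len : tbl1.length = 100 := by decide +kernel

/-- part 2 of the table -/
def tbl2 : List (Cert ⊕ ℕ) := [
  .inr 3, .inl (.ag (.p1 3 0 0) (.ag (.p1 67 0 3) (.p2 381917 0 308))),
  .inl (.ag (.p1 11 0 1) (.p1 8666419 0 1471)), .inr 3,
  .inl (.ag (.p1 3 0 0) (.p2 13028489 0 1804)), .inr 31, .inr 9, .inr 7, .inr 5, .inr 3,
  .inl (.ag (.p1 3 0 0) (.p2 13115261 0 1810)), .inl (.p1 52519007 0 3622), .inr 3, .inr 5,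
  .inr 7, .inr 27, .inr 169, .inr 11, .inr 3, .inr 29,
  .inl (.ag (.p1 3 0 0) (.p1 26521043 0 2574)), .inr 3, .inr 23, .inr 5, .inr 9, .inr 67,
  .inl (.ag (.p1 251 0 7) (.p2 211873 0 229)), .inr 3, .inr 5, .inr 13, .inr 3, .inr 17,
  .inl (.ag (.p1 3 0 0) (.p2 13435889 0 1832)), .inr 9, .inr 41, .inr 7, .inr 3,
  .inl (.ag (.p1 3 0 0) (.p1 27018599 0 2598)), .inr 5, .inr 3, .inr 37, .inr 53, .inr 81,
  .inr 125, .inr 47, .inr 3, .inr 83, .inr 19, .inr 3, .inr 49, .inr 11, .inr 9,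
  .inl (.ag (.p1 3 0 0) (.p1 27461459 0 2619)), .inr 5, .inr 3, .inr 13, .inr 7, .inr 3, .inr 5,
  .inr 43, .inr 9, .inr 11, .inl (.ag (.p1 11 0 1) (.p2 4626449 0 1074)), .inr 3,
  .inl (.ag (.p1 3 0 0) (.p2 13909169 0 1864)), .inr 17, .inr 3, .inr 31, .inr 25, .inr 27,
  .inr 7, .inl (.ag (.p1 3 0 0) (.p1 28027583 0 2646)), .inr 3, .inr 5,
  .inl (.ag (.p1 3 0 0) (.p2 14058749 0 1874)), .inr 3,
  .inl (.ag (.p1 11 0 1) (.p1 9392507 0 1531)), .inr 7, .inr 9, .inr 73,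
  .inl (.ag (.p1 3 0 0) (.p2 14148881 0 1880)), .inr 3, .inr 17, .inr 5, .inr 3, .inr 19,
  .inl (.p1 56957207 0 3772), .inr 9, .inr 5, .inl (.ag (.p1 3 0 0) (.p1 28569239 0 2672)),
  .inr 3, .inr 7, .inr 67, .inr 3, .inr 11,
  .inl (.ag (.p1 3 0 0) (.ag (.p1 3 0 0) (.ag (.p1 3 0 0) (.ag (.p1 67 0 3) (.p1 211403 0 229))))),
  .inr 27, .inl (.ag (.p1 3 0 0) (.ag (.p1 19 0 1) (.p1 2881163 0 848))), .inr 5, .inr 3]

theorem tbl2_ok : table 1800 tbl2 = true := by decide +kernel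

theorem tbl2_len : tbl2.length = 100 := by decide +kernel

/-- part 3 of the table -/
def tbl3 : List (Cert ⊕ ℕ) := [
  .inl (.ag (.p2 19 1 1) (.p1 159683 0 199)),
  .inl (.ag (.p1 3 0 0) (.ag (.p1 3 0 0) (.p1 14466611 0 1901))), .inr 3, .inr 5, .inr 19, .inr 9,
  .inr 29, .inr 13, .inr 3, .inl (.ag (.p1 3 0 0) (.ag (.p1 19 0 1) (.p2 1458857 0 603))),
  .inl (.ag (.p2 181 0 6) (.p2 160481 0 199)), .inr 3, .inr 7, .inr 5, .inr 9, .inr 79, .inr 11,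
  .inr 3, .inr 25, .inr 7, .inr 3, .inl (.ag (.p1 3 0 0) (.ag (.p1 11 0 1) (.p1 4924163 0 1109))),
  .inl (.ag (.p1 3 0 0) (.p2 14787869 0 1922)), .inr 81,
  .inl (.ag (.p1 3 0 0) (.p1 29637299 0 2721)), .inl (.ag (.p1 3 0 0) (.p1 29668103 0 2722)),
  .inr 3, .inr 11, .inr 5, .inr 3, .inl (.ag (.p1 3 0 0) (.p1 29822363 0 2729)),
  .inl (.ag (.p1 3 0 0) (.ag (.p1 3 0 0) (.ag (.p1 1931 0 21) (.p1 15451 0 61)))), .inr 9, .inr 5,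
  .inr 71, .inr 3, .inr 61, .inr 23, .inr 3,
  .inl (.ag (.p1 3 0 0) (.ag (.p1 3 0 0) (.ag (.p2 17 0 1) (.p2 418069 0 322)))), .inr 7, .inr 9,
  .inr 19, .inr 25, .inr 3, .inr 43, .inr 13, .inr 3, .inr 5, .inr 11, .inr 27, .inr 37, .inr 73,
  .inr 3, .inr 7, .inl (.ag (.p1 3 0 0) (.p1 30599663 0 2765)), .inr 3, .inr 41, .inr 5, .inr 9,
  .inr 11, .inr 7, .inr 3, .inr 5, .inr 29, .inr 3, .inl (.p1 61889687 0 3932), .inr 17, .inr 9,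
  .inl (.ag (.p1 3 0 0) (.ag (.p1 3 0 0) (.p1 15519659 0 1969))),
  .inl (.ag (.p1 11 0 1) (.p1 10356947 0 1608)), .inr 3, .inr 13, .inr 5, .inr 3, .inr 7,
  .inl (.ag (.p1 3 0 0) (.p1 31260323 0 2795)), .inr 27, .inr 5, .inl (.p1 62710559 0 3958),
  .inr 3, .inr 0, .inr 7, .inr 3, .inr 17, .inr 169, .inr 9, .inl (.p1 63218399 0 3974), .inr 5,
  .inr 3, .inl (.ag (.p1 3 0 0) (.p1 31704683 0 2814)), .inr 31, .inr 3, .inr 25, .inr 79, .inr 9,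
  .inr 49, .inr 61, .inr 3, .inr 19]

theorem tbl3_ok : table 1900 tbl3 = true := by decide +kernel

theorem tbl3_len : tbl3.length = 100 := by decide +kernel

/-- part 4 of the table -/
def tbl4 : List (Cert ⊕ ℕ) := [
  .inr 53, .inr 3, .inl (.ag (.p1 3 0 0) (.p2 16044029 0 2002)), .inr 5, .inr 729, .inr 71,
  .inr 23, .inr 3, .inr 5, .inl (.ag (.p1 3 0 0) (.ag (.p1 3 0 0) (.p1 16156379 0 2009))), .inr 3,
  .inr 13, .inr 83, .inr 9, .inl (.p1 64947479 0 4028), .inr 11, .inr 3, .inr 7, .inr 25, .inr 3,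
  .inr 59, .inl (.ag (.p1 3 0 0) (.ag (.p2 5 1 0) (.p2 628841 0 395))), .inr 9, .inr 5, .inr 7,
  .inr 3, .inr 121, .inl (.p1 65788319 0 4054), .inr 3, .inr 23,
  .inl (.ag (.p2 61 0 3) (.p1 1064243 0 515)), .inr 27, .inr 47, .inr 5, .inr 3, .inr 17,
  .inl (.ag (.p1 3 2 0) (.p1 4740971 0 1088)), .inr 3, .inr 5, .inr 41, .inr 9,
  .inl (.ag (.p1 3 0 0) (.ag (.p1 11 0 1) (.p1 5558323 0 1178))),
  .inl (.ag (.p1 3 0 0) (.p1 33382619 0 2888)), .inr 3,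
  .inl (.ag (.p1 11 0 1) (.p1 11149339 0 1669)), .inr 49, .inr 3,
  .inl (.ag (.p1 3 0 0) (.p1 33546239 0 2895)), .inr 5, .inr 9, .inr 13, .inr 29, .inr 3, .inr 5,
  .inl (.p1 67551959 0 4108), .inr 3, .inr 19, .inl (.ag (.p1 3 0 0) (.p1 33874679 0 2909)),
  .inr 27, .inr 7, .inl (.ag (.p1 11 0 1) (.p1 11324507 0 1682)), .inr 3, .inr 37, .inr 5, .inr 3,
  .inl (.ag (.p1 3 0 0) (.ag (.p2 17 0 1) (.p2 948293 0 486))), .inr 7, .inr 9, .inr 25, .inr 17,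
  .inr 3, .inl (.p1 68674367 0 4142), .inl (.ag (.p1 11 0 1) (.p1 11456779 0 1691)), .inr 3,
  .inr 43, .inr 361, .inr 9, .inl (.ag (.p1 3 0 0) (.ag (.p1 11 0 1) (.p1 5756059 0 1199))),
  .inr 5, .inr 3, .inr 7, .inr 11, .inr 3, .inr 5, .inr 31, .inr 81, .inr 17, .inr 7, .inr 3,
  .inr 13, .inl (.ag (.p1 11 0 1) (.p1 11656627 0 1706)), .inr 3, .inr 11, .inr 125, .inr 9,
  .inr 83, .inl (.ag (.p1 11 0 1) (.p2 5861813 0 1210)), .inr 3, .inr 5, .inr 37]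

theorem tbl4_ok : table 2000 tbl4 = true := by decide +kernel

theorem tbl4_len : tbl4.length = 100 := by decide +kernel

/-- part 5 of the table -/
def tbl5 : List (Cert ⊕ ℕ) := [
  .inr 3, .inr 7, .inr 13, .inr 9, .inl (.ag (.p1 3 0 0) (.p1 35439779 0 2976)),
  .inl (.ag (.p1 3 0 0) (.ag (.p1 3 0 0) (.p1 17736731 0 2105))), .inr 3,
  .inl (.ag (.p1 3 0 0) (.ag (.p1 3 0 0) (.ag (.p1 3 0 0) (.p2 4442609 0 1053)))), .inr 5, .inr 3,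
  .inl (.ag (.p1 83 0 4) (.p1 1697243 0 650)),
  .inl (.ag (.p1 3 0 0) (.ag (.p1 3 0 0) (.ag (.p1 3 0 0) (.ag (.p1 3 0 0) (.ag (.p1 3 0 0) (.ag (.p1 3 0 0) (.ag (.p1 3 0 0) (.p2 278717 0 263)))))))),
  .inr 27, .inr 5, .inr 11, .inr 3, .inl (.ag (.p1 11 0 1) (.p1 11948347 0 1727)), .inr 43,
  .inr 3, .inr 61, .inr 17, .inr 9, .inr 7, .inr 5, .inr 3, .inr 11, .inr 47, .inr 3, .inr 5,
  .inr 7, .inr 9, .inl (.p1 72709727 0 4262), .inr 19, .inr 3, .inl (.p1 72914519 0 4268),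
  .inl (.ag (.p1 3 0 0) (.ag (.p1 3 0 0) (.ag (.p1 3 0 0) (.ag (.p1 11 0 1) (.p2 760237 0 435))))),
  .inr 3, .inr 17, .inr 5, .inr 27, .inl (.ag (.p1 8563 0 45) (.p1 17123 0 64)), .inr 13, .inr 3,
  .inr 25, .inr 23, .inr 3, .inr 31, .inr 121, .inr 9,
  .inl (.ag (.p1 3 0 0) (.ag (.p1 11 0 1) (.p1 6161899 0 1240))), .inr 7, .inr 3, .inr 79, .inr 5,
  .inr 3, .inl (.p1 74356127 0 4310), .inl (.ag (.p1 3 0 0) (.p1 37212563 0 3049)), .inr 9,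
  .inr 5, .inr 53, .inr 3, .inl (.ag (.p1 3 0 0) (.ag (.p1 3 0 0) (.p1 18692651 0 2161))),
  .inr 41, .inr 3, .inr 7, .inl (.ag (.p1 3 0 0) (.ag (.p2 37 0 2) (.p2 493733 0 350))), .inr 81,
  .inr 13, .inr 25, .inr 3, .inr 19, .inr 7, .inr 3, .inr 5,
  .inl (.ag (.p1 11 0 1) (.p2 6306049 0 1255)), .inr 9, .inl (.p1 75811847 0 4352), .inr 31,
  .inr 3, .inl (.ag (.p1 3 0 0) (.ag (.p1 3 0 0) (.ag (.p1 59 0 3) (.p2 316753 0 280)))), .inr 11,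
  .inr 3, .inl (.p1 76230359 0 4364), .inr 5, .inr 9, .inr 7,
  .inl (.ag (.p1 11 0 1) (.p1 12751667 0 1784)), .inr 3, .inr 5, .inr 19, .inr 3, .inr 11,
  .inr 49, .inr 27, .inl (.ag (.p1 11 0 1) (.p2 6422569 0 1266)),
  .inl (.ag (.p1 3 0 0) (.ag (.p1 3 0 0) (.ag (.p1 3 0 0) (.p2 4821317 0 1097)))), .inr 3,
  .inr 59, .inr 5, .inr 3]

theorem tbl5_ok : table 2100 tbl5 = true := by decide +kernel

theorem tbl5_len : tbl5.length = 100 := by decide +kernel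

/-- part 6 of the table -/
def tbl6 : List (Cert ⊕ ℕ) := [
  .inl (.ag (.p1 3 0 0) (.p2 19373201 0 2200)), .inl (.p1 77563247 0 4402), .inr 9, .inr 5,
  .inl (.ag (.p1 3 0 0) (.p1 38887379 0 3117)), .inr 3, .inr 7,
  .inl (.ag (.p1 3 0 0) (.ag (.p1 3 0 0) (.ag (.p1 3 0 0) (.ag (.p1 3 0 0) (.ag (.p1 3 0 0) (.ag (.p1 3 0 0) (.p2 609269 0 389))))))),
  .inr 3, .inl (.ag (.p1 3 0 0) (.ag (.p1 11 0 1) (.p1 6510659 0 1275))), .inr 37, .inr 9,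
  .inr 53, .inr 5, .inr 3,
  .inl (.ag (.p1 3 0 0) (.ag (.p1 3 0 0) (.ag (.p1 3 0 0) (.ag (.p1 3 0 0) (.p2 2454773 0 782))))),
  .inl (.p1 78623687 0 4432), .inr 3, .inr 125, .inr 13, .inr 27,
  .inl (.ag (.p1 3 0 0) (.ag (.p1 3 0 0) (.p1 19744691 0 2221))), .inr 17, .inr 3, .inr 11,
  .inr 29, .inr 3, .inr 7, .inr 5, .inr 9, .inl (.ag (.p1 3 0 0) (.p2 19904981 0 2230)), .inr 79,
  .inr 3, .inr 5, .inr 7, .inr 3, .inr 23,
  .inl (.ag (.p1 3 0 0) (.ag (.p1 19 0 1) (.p1 4006019 0 1000))), .inr 9, .inr 289,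
  .inl (.ag (.p1 331 0 8) (.p2 241973 0 245)), .inr 3,
  .inl (.ag (.p1 3 0 0) (.p2 20119709 0 2242)), .inr 25, .inr 3, .inr 13, .inr 11, .inr 243,
  .inr 5, .inl (.ag (.p1 3 0 0) (.p1 40490999 0 3181)), .inr 3,
  .inl (.ag (.p1 3 0 0) (.ag (.p1 3 0 0) (.ag (.p2 37 0 2) (.p1 533723 0 364)))),
  .inl (.ag (.p1 59 0 3) (.p2 1353301 0 581)), .inr 3, .inr 29, .inr 7, .inr 9, .inr 11, .inr 5,
  .inr 3, .inl (.ag (.p1 3 2 0) (.p1 5841131 0 1207)), .inr 83, .inr 3, .inr 5,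
  .inl (.ag (.p1 1811 0 20) (.p2 45289 0 105)), .inr 9,
  .inl (.ag (.p1 3 0 0) (.p1 41105243 0 3205)), .inr 47, .inr 3, .inr 7, .inr 31, .inr 3,
  .inl (.ag (.p1 19 0 1) (.p2 4132313 0 1015)), .inr 5, .inr 27,
  .inl (.ag (.p1 3 0 0) (.ag (.p1 3 0 0) (.ag (.p1 163 0 5) (.p2 126317 0 177)))), .inr 7, .inr 3,
  .inr 5, .inr 11, .inr 3, .inl (.p1 83302127 0 4562), .inr 23, .inr 9, .inr 13, .inr 41, .inr 3,
  .inl (.ag (.p1 3 0 0) (.ag (.p1 3 0 0) (.ag (.p1 3 0 0) (.ag (.p1 3 0 0) (.ag (.p2 5 1 0) (.p2 100649 0 158)))))),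
  .inr 5, .inr 3, .inr 49, .inr 89, .inr 9, .inr 25, .inr 67, .inr 3,
  .inl (.ag (.p2 3061 0 27) (.p2 13781 0 58)), .inr 7, .inr 3,
  .inl (.ag (.p1 3 0 0) (.ag (.p1 3 0 0) (.p1 21155399 0 2299)))]

theorem tbl6_ok : table 2200 tbl6 = true := by decide +kernel

theorem tbl6_len : tbl6.length = 100 := by decide +kernel

/-- part 7 of the table -/
def tbl7 : List (Cert ⊕ ℕ) := [
  .inl (.ag (.p2 353 0 8) (.p1 239251 0 244)), .inr 27, .inr 61, .inr 5, .inr 3, .inr 23,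
  .inl (.p1 85137527 0 4612), .inr 3, .inr 5,
  .inl (.ag (.p1 3 0 0) (.ag (.p1 3 0 0) (.p1 21339779 0 2309))), .inr 9, .inr 7, .inr 11, .inr 3,
  .inr 47, .inr 59, .inr 3, .inr 73, .inr 25, .inr 9,
  .inl (.ag (.p1 11 0 1) (.p2 7181173 0 1339)), .inr 37, .inr 3, .inr 5, .inr 17, .inr 3, .inr 41,
  .inl (.p1 86694719 0 4654), .inr 81, .inl (.p1 86843759 0 4658),
  .inl (.ag (.p2 73 0 3) (.p1 1174571 0 541)), .inr 3, .inr 7, .inr 5, .inr 3,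
  .inl (.ag (.p1 3 0 0) (.ag (.p1 3 0 0) (.ag (.p1 3 0 0) (.ag (.p1 3 0 0) (.p1 5455727 0 1167))))),
  .inr 13, .inr 9, .inr 5, .inr 49, .inr 3, .inr 17, .inl (.ag (.p1 3 0 0) (.p1 43907819 0 3312)),
  .inr 3, .inr 83, .inr 11, .inr 9,
  .inl (.ag (.p1 3 0 0) (.ag (.p1 3 0 0) (.p1 22047719 0 2347))), .inr 5, .inr 3,
  .inl (.p1 88416407 0 4700), .inr 23, .inr 3, .inr 5,
  .inl (.ag (.p1 67 0 3) (.p1 2609339 0 807)), .inr 27, .inr 11,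
  .inl (.ag (.p1 3 0 0) (.p1 44471879 0 3333)), .inr 3,
  .inl (.ag (.p1 3 0 0) (.p1 44547359 0 3336)), .inr 7, .inr 3, .inr 13, .inr 5, .inr 9,
  .inl (.ag (.p1 3 0 0) (.ag (.p1 331 0 8) (.p1 269723 0 259))),
  .inl (.ag (.p1 3 0 0) (.p1 44812043 0 3346)), .inr 3, .inr 25, .inl (.p1 89851439 0 4738),
  .inr 3, .inr 53, .inl (.p1 90079079 0 4744), .inr 9, .inr 7, .inr 13, .inr 3,
  .inl (.p1 90459119 0 4754), .inr 5, .inr 3, .inr 89, .inr 7, .inr 27, .inr 5,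
  .inl (.p1 90992519 0 4768), .inr 3, .inl (.ag (.p1 43 0 2) (.p2 2071481 0 719)),
  .inl (.ag (.p1 3 0 0) (.ag (.p1 3 0 0) (.ag (.p2 7 1 0) (.p1 456107 0 337)))), .inr 3, .inr 121,
  .inr 73, .inr 9, .inr 17, .inr 25, .inr 3, .inr 7, .inl (.ag (.p1 3 0 0) (.p2 22977641 0 2396)),
  .inr 3, .inr 5, .inr 29]

theorem tbl7_ok : table 2300 tbl7 = true := by decide +kernel

theorem tbl7_len : tbl7.length = 100 := by decide +kernel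

theorem had_sq {v : ℕ} (hv : IsPrimePow v) (hv4 : v % 4 = 3) (hx : v ∉ exc)
    (hlo : 6400 ≤ v) (hhi : v < 9600) : Pool.Agent.H108R3.Had.HasHad (v ^ 2 - 1) := by
  by_cases h0 : v < 6800
  · exact table_spec tbl0 1600 tbl0_ok v hv4 (by omega) (by rw [tbl0_len]; omega) hv hx
  by_cases h1 : v < 7200
  · exact table_spec tbl1 1700 tbl1_ok v hv4 (by omega) (by rw [tbl1_len]; omega) hv hx
  by_cases h2 : v < 7600
  · exact table_spec tbl2 1800 tbl2_ok v hv4 (by omega) (by rw [tbl2_len]; omega) hv hx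
  by_cases h3 : v < 8000
  · exact table_spec tbl3 1900 tbl3_ok v hv4 (by omega) (by rw [tbl3_len]; omega) hv hx
  by_cases h4 : v < 8400
  · exact table_spec tbl4 2000 tbl4_ok v hv4 (by omega) (by rw [tbl4_len]; omega) hv hx
  by_cases h5 : v < 8800
  · exact table_spec tbl5 2100 tbl5_ok v hv4 (by omega) (by rw [tbl5_len]; omega) hv hx
  by_cases h6 : v < 9200
  · exact table_spec tbl6 2200 tbl6_ok v hv4 (by omega) (by rw [tbl6_len]; omega) hv hx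
  by_cases h7 : v < 9600
  · exact table_spec tbl7 2300 tbl7_ok v hv4 (by omega) (by rw [tbl7_len]; omega) hv hx
  omega

end Pool.Agent.K9h69.Menon.T1
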