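import Pool.Agent.K9h69.Menon.Cert

/-!
# Derivations of Hadamard matrices of order `v ^ 2 - 1` for prime powers `v ≡ 3 (mod 4)`,
`9600 ≤ v < 12000`
-/

set_option autoImplicit false

namespace Pool.Agent.K9h69.Menon.T2

/-- part 0 of the table -/
def tbl0 : List (Cert ⊕ ℕ) := [
  .inr 9, .inr 13, .inr 7, .inr 3, .inl (.ag (.p1 3 0 0) (.p2 23131289 0 2404)),
  .inl (.ag (.p1 3 0 0) (.ag (.p2 101 0 4) (.p1 453931 0 336))), .inr 3,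
  .inl (.p1 92756159 0 4814), .inr 5, .inr 81, .inl (.ag (.p1 3 0 0) (.p1 46493723 0 3408)),
  .inr 11, .inr 3, .inr 5, .inr 13, .inr 3, .inr 7, .inr 19, .inr 9,
  .inl (.ag (.p1 3 0 0) (.ag (.p1 3 0 0) (.p1 23420759 0 2419))), .inr 23, .inr 3, .inr 11,
  .inr 5, .inr 3, .inr 31, .inr 17, .inr 9, .inr 5,
  .inl (.ag (.p1 3 0 0) (.ag (.p1 11 0 1) (.p1 7871579 0 1402))), .inr 3, .inr 71, .inr 37,
  .inr 3, .inl (.ag (.p1 3 0 0) (.p1 47424059 0 3442)),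
  .inl (.ag (.p1 3 0 0) (.p1 47463023 0 3444)), .inr 27, .inr 49, .inr 5, .inr 3, .inr 13,
  .inl (.ag (.p1 3 0 0) (.ag (.p1 43 0 2) (.p1 2168051 0 735))), .inr 3, .inr 25, .inr 7, .inr 9,
  .inl (.ag (.p1 3 0 0) (.p2 23946341 0 2446)),
  .inl (.ag (.p1 3 0 0) (.ag (.p1 3 0 0) (.ag (.p1 3 0 0) (.ag (.p1 3 0 0) (.ag (.p1 3 0 0) (.p2 1497869 0 611)))))),
  .inr 3, .inr 41, .inl (.ag (.p1 3 0 0) (.p2 24024701 0 2450)), .inr 3,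
  .inl (.ag (.p1 11 0 1) (.p1 16042619 0 2002)), .inr 5, .inr 9, .inr 11, .inr 31, .inr 3, .inr 5,
  .inl (.ag (.p1 3 0 0) (.ag (.p1 163 0 5) (.p1 590279 0 383))), .inr 3, .inr 43,
  .inl (.ag (.p2 7 1 0) (.p2 970421 0 492)), .inr 27,
  .inl (.ag (.p1 3 0 0) (.p2 24299969 0 2464)), .inr 7, .inr 3,
  .inl (.ag (.p1 3 0 0) (.ag (.p1 3 0 0) (.ag (.p1 139 0 5) (.p1 347987 0 294)))), .inr 125,
  .inr 3, .inl (.ag (.p1 11 0 1) (.p2 8139473 0 1425)),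
  .inl (.ag (.p1 3 0 0) (.p1 48876383 0 3495)), .inr 9, .inr 5, .inr 19, .inr 3,
  .inl (.p1 98148647 0 4952), .inr 11, .inr 3, .inr 7,
  .inl (.ag (.p1 43 0 2) (.p2 2237861 0 747)), .inr 9,
  .inl (.ag (.p1 3 0 0) (.p2 24656189 0 2482)), .inr 5, .inr 3, .inr 61, .inr 343, .inr 3, .inr 5,
  .inr 23, .inr 243,
  .inl (.ag (.p1 3 0 0) (.ag (.p1 3 0 0) (.ag (.p1 3 0 0) (.p2 6208817 0 1245)))), .inr 169,
  .inr 3, .inr 17, .inr 67, .inr 3, .inr 97, .inr 5, .inr 9]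

theorem tbl0_ok : table 2400 tbl0 = true := by decide +kernel

theorem tbl0_len : tbl0.length = 100 := by decide +kernel

/-- part 1 of the table -/
def tbl1 : List (Cert ⊕ ℕ) := [
  .inr 7, .inl (.ag (.p1 3 0 0) (.ag (.p2 277 0 7) (.p2 90053 0 149))), .inr 3, .inr 5, .inr 43,
  .inr 3, .inr 37, .inr 7, .inr 9, .inl (.ag (.p1 3 0 0) (.ag (.p1 19 0 1) (.p2 2519537 0 793))),
  .inr 121, .inr 3, .inr 19, .inr 5, .inr 3, .inr 29,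
  .inl (.ag (.p1 3 0 0) (.p2 25336121 0 2516)), .inr 27, .inr 25,
  .inl (.ag (.p1 3 0 0) (.ag (.p1 3 0 0) (.ag (.p1 3 0 0) (.ag (.p1 3 0 0) (.p1 6349139 0 1259))))),
  .inr 3, .inr 7, .inl (.ag (.p1 11 0 1) (.p1 16971379 0 2059)), .inr 3,
  .inl (.ag (.p2 17 0 1) (.p2 2833049 0 841)),
  .inl (.ag (.p1 3 0 0) (.ag (.p2 29 1 2) (.p1 60611 0 122))), .inr 9,
  .inl (.ag (.p1 3 0 0) (.p1 51116159 0 3574)), .inr 5, .inr 3, .inr 53, .inr 13, .inr 3, .inr 5,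
  .inl (.ag (.p1 11 0 1) (.p2 8566609 0 1462)), .inr 9, .inr 73,
  .inl (.ag (.p1 3 0 0) (.p1 51521399 0 3588)), .inr 3,
  .inl (.ag (.p1 3 0 0) (.ag (.p1 3 0 0) (.ag (.p1 19 0 1) (.p1 2580131 0 802)))),
  .inl (.ag (.p1 11 0 1) (.p1 17214427 0 2074)), .inr 3, .inr 7, .inr 25, .inr 27, .inr 17,
  .inr 61, .inr 3, .inr 5, .inr 7, .inr 3, .inr 59, .inl (.ag (.p2 137 0 5) (.p1 755539 0 434)),
  .inr 9, .inr 11,
  .inl (.ag (.p1 3 0 0) (.ag (.p1 3 0 0) (.ag (.p1 3 0 0) (.p2 6531857 0 1277)))), .inr 3,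
  .inr 13, .inr 5, .inr 3, .inl (.ag (.p1 787 0 13) (.p1 266291 0 257)),
  .inl (.p1 105001007 0 5122), .inr 9, .inr 5, .inl (.ag (.p1 3 0 0) (.p1 52623539 0 3626)),
  .inr 3, .inl (.ag (.p1 11 0 1) (.p1 17568547 0 2095)),
  .inl (.ag (.p1 3 0 0) (.ag (.p1 3 0 0) (.p1 26373359 0 2567))), .inr 3, .inr 19, .inr 7,
  .inr 81, .inr 41, .inr 5, .inr 3,
  .inl (.ag (.p1 3 0 0) (.ag (.p1 3 0 0) (.ag (.p1 3 0 0) (.ag (.p1 3 0 0) (.ag (.p1 3 0 0) (.p1 3317243 0 910)))))),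
  .inr 11, .inr 3, .inr 5, .inr 17, .inr 9, .inr 23,
  .inl (.ag (.p1 11 0 1) (.p1 17788259 0 2108)), .inr 3, .inr 49, .inr 0, .inr 3, .inr 11, .inr 5,
  .inr 9, .inr 43, .inr 7, .inr 3, .inr 125, .inr 97, .inr 3, .inr 13,
  .inl (.ag (.p1 19 0 1) (.p1 10797287 0 1642)), .inr 27,
  .inl (.ag (.p1 3 0 0) (.ag (.p1 3 0 0) (.ag (.p1 3 0 0) (.ag (.p2 5 1 0) (.p2 259949 0 254)))))]

theorem tbl1_ok : table 2500 tbl1 = true := by decide +kernel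

theorem tbl1_len : tbl1.length = 100 := by decide +kernel

/-- part 2 of the table -/
def tbl2 : List (Cert ⊕ ℕ) := [
  .inr 101, .inr 3, .inr 29, .inr 5, .inr 3, .inr 7, .inl (.ag (.p1 11 0 1) (.p2 9060193 0 1504)),
  .inr 9, .inr 5, .inr 11, .inr 3, .inr 31, .inr 7, .inr 3,
  .inl (.ag (.p1 11 0 1) (.p1 18231779 0 2134)), .inl (.p1 109474367 0 5230), .inr 9, .inr 37,
  .inr 25, .inr 3, .inr 11, .inl (.ag (.p1 3 0 0) (.ag (.p1 3 2 0) (.p2 1963877 0 700))), .inr 3,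
  .inr 5, .inl (.p1 110228999 0 5248), .inr 27, .inr 7, .inr 23, .inr 3, .inr 67, .inr 17, .inr 3,
  .inl (.ag (.p1 59 0 3) (.p1 3696731 0 960)), .inr 5, .inr 9, .inr 13, .inr 53, .inr 3, .inr 5,
  .inl (.ag (.p1 3 0 0) (.ag (.p1 3 0 0) (.ag (.p1 3 0 0) (.ag (.p1 3 0 0) (.ag (.p1 19 0 1) (.p1 696827 0 416)))))),
  .inr 3, .inl (.ag (.p1 11 0 1) (.p1 18610247 0 2156)), .inr 11, .inr 9, .inr 71, .inr 19,
  .inr 3, .inr 7, .inr 5, .inr 3, .inr 23,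
  .inl (.ag (.p1 3 0 0) (.ag (.p1 3 0 0) (.p1 28127111 0 2651))), .inr 81, .inr 5, .inr 7, .inr 3,
  .inl (.ag (.p1 11 0 1) (.p1 18822187 0 2168)), .inr 0, .inr 3,
  .inl (.ag (.p1 3 0 0) (.ag (.p1 3 0 0) (.ag (.p1 19 0 1) (.p1 2829707 0 840)))), .inr 29,
  .inr 9, .inl (.ag (.p1 19 0 1) (.p1 11344379 0 1683)), .inr 5, .inr 3,
  .inl (.p1 113699567 0 5330), .inl (.ag (.p1 3 2 0) (.p1 8127491 0 1424)), .inr 3, .inr 25,
  .inr 59, .inr 9,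
  .inl (.ag (.p1 3 0 0) (.ag (.p1 3 0 0) (.ag (.p1 3 0 0) (.ag (.p1 3 0 0) (.ag (.p1 3 0 0) (.p2 1784561 0 667)))))),
  .inl (.p1 114297479 0 5344), .inr 3, .inr 13, .inr 7, .inr 3, .inl (.p1 114725519 0 5354),
  .inr 5, .inr 27, .inl (.ag (.p1 11 0 1) (.p2 9581893 0 1547)), .inr 17, .inr 3, .inr 5,
  .inl (.p1 115326119 0 5368), .inr 3, .inr 11, .inr 13, .inr 9, .inr 7, .inr 47, .inr 3,
  .inl (.p1 116014439 0 5384), .inr 25, .inr 3, .inr 41, .inr 7, .inr 9, .inr 5,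
  .inl (.ag (.p1 3 0 0) (.ag (.p1 3 0 0) (.ag (.p1 3 0 0) (.p2 7288649 0 1349))))]

theorem tbl2_ok : table 2600 tbl2 = true := by decide +kernel

theorem tbl2_len : tbl2.length = 100 := by decide +kernel

/-- part 3 of the table -/
def tbl3 : List (Cert ⊕ ℕ) := [
  .inr 3, .inr 101, .inr 19, .inr 3, .inr 31, .inr 79, .inr 27, .inl (.p1 117310559 0 5414),
  .inr 5, .inr 3, .inr 7, .inl (.ag (.p1 3 0 0) (.p1 58828703 0 3834)), .inr 3, .inr 5,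
  .inl (.p1 117917879 0 5428), .inr 9, .inl (.ag (.p1 3 0 0) (.p2 29522921 0 2716)), .inr 7,
  .inr 3, .inr 11, .inl (.ag (.p1 10883 0 51) (.mi 5441 0 36 (.ag (.p1 3 0 0) (.p1 2719 0 25)))),
  .inr 3, .inl (.ag (.p1 3 0 0) (.p2 29653469 0 2722)), .inr 5, .inr 9,
  .inl (.ag (.p1 3 0 0) (.ag (.p2 137 0 5) (.p2 215353 0 231))), .inr 13, .inr 3, .inr 5, .inr 61,
  .inr 3, .inr 49, .inr 17, .inr 2187, .inl (.p1 119661719 0 5468), .inr 31, .inr 3, .inr 47,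
  .inr 5, .inr 3, .inr 19, .inr 11, .inr 9, .inr 25, .inl (.ag (.p1 3 0 0) (.p2 30134609 0 2744)),
  .inr 3, .inl (.ag (.p1 3 0 0) (.p2 30178541 0 2746)), .inr 29, .inr 3, .inr 17,
  .inl (.p1 121066007 0 5500), .inr 9, .inr 7, .inr 5, .inr 3, .inr 73,
  .inl (.ag (.p1 11 0 1) (.p1 20265787 0 2250)), .inr 3, .inr 5, .inr 7, .inr 27,
  .inl (.p1 122036207 0 5522), .inr 43, .inr 3, .inl (.ag (.p1 11 0 1) (.p1 20383579 0 2256)),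
  .inr 13, .inr 3, .inl (.ag (.p1 3 0 0) (.ag (.p1 3 0 0) (.p1 30641759 0 2767))), .inr 25,
  .inr 9, .inl (.p1 122832887 0 5540),
  .inl (.ag (.p1 3 0 0) (.ag (.p1 3 0 0) (.ag (.p1 3 2 0) (.p2 1097513 0 523)))), .inr 3, .inr 5,
  .inr 11, .inr 3, .inr 29, .inr 41, .inr 9,
  .inl (.ag (.p1 3 0 0) (.ag (.p1 3 0 0) (.ag (.p1 3 0 0) (.p2 7727009 0 1389)))), .inr 49,
  .inr 3, .inl (.ag (.p1 3 0 0) (.p1 61949579 0 3934)), .inr 5, .inr 3, .inr 11, .inr 71, .inr 27,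
  .inr 5, .inl (.ag (.p1 3 0 0) (.ag (.p1 11 0 1) (.p1 10376939 0 1610))), .inr 3, .inr 13,
  .inl (.ag (.p1 3 0 0) (.p2 31197809 0 2792)), .inr 3, .inr 7, .inr 53, .inr 9, .inr 361, .inr 5,
  .inr 3]

theorem tbl3_ok : table 2700 tbl3 = true := by decide +kernel

theorem tbl3_len : tbl3.length = 100 := by decide +kernel

/-- part 4 of the table -/
def tbl4 : List (Cert ⊕ ℕ) := [
  .inr 17, .inr 7, .inr 3, .inr 5, .inr 13, .inr 9, .inr 103, .inr 11, .inr 3,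
  .inl (.ag (.p1 3 0 0) (.p1 63157559 0 3973)), .inl (.ag (.p1 3 2 0) (.p1 9028931 0 1501)),
  .inr 3, .inl (.ag (.p1 3 0 0) (.p2 31646249 0 2812)), .inr 5, .inr 81, .inr 7, .inr 19, .inr 3,
  .inr 25, .inl (.ag (.p1 3 0 0) (.p1 63607919 0 3987)), .inr 3,
  .inl (.ag (.p1 3 0 0) (.ag (.p1 43 0 2) (.p1 2895371 0 850))), .inr 7, .inr 9,
  .inl (.ag (.p1 3 0 0) (.p1 63833699 0 3994)), .inr 89, .inr 3,
  .inl (.ag (.p1 3 0 0) (.p1 63969359 0 3998)), .inr 5, .inr 3, .inr 169, .inr 47, .inr 9, .inr 5,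
  .inr 17, .inr 3, .inr 7, .inl (.ag (.p1 3 0 0) (.ag (.p1 19 0 1) (.p1 6442259 0 1268))), .inr 3,
  .inr 37, .inr 11, .inr 27, .inr 83, .inr 125, .inr 3,
  .inl (.ag (.p1 3 0 0) (.ag (.p1 3 2 0) (.p2 2313797 0 760))), .inr 59, .inr 3, .inr 5,
  .inl (.ag (.p1 3 0 0) (.ag (.p1 3 0 0) (.p1 32484299 0 2849))), .inr 9, .inr 11,
  .inl (.ag (.p1 11 0 1) (.p2 10850909 0 1646)), .inr 3, .inr 19, .inl (.p1 130484927 0 5710),
  .inr 3, .inr 7, .inr 5, .inr 9, .inl (.ag (.p1 11 0 1) (.p2 10911853 0 1651)),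
  .inl (.ag (.p1 3 0 0) (.ag (.p2 17 0 1) (.p1 3639827 0 953))), .inr 3, .inr 5, .inr 7, .inr 3,
  .inl (.p1 131492087 0 5732), .inl (.ag (.p1 3 0 0) (.p1 65791919 0 4055)), .inr 27, .inr 13,
  .inl (.ag (.p1 11 0 1) (.p1 21976547 0 2343)), .inr 3,
  .inl (.ag (.p1 3 0 0) (.p1 66021539 0 4062)), .inr 5, .inr 3,
  .inl (.ag (.p1 3 0 0) (.ag (.p1 3 0 0) (.ag (.p2 17 0 1) (.p1 1837763 0 677)))), .inr 37,
  .inr 9, .inr 5,
  .inl (.ag (.p1 3 0 0) (.ag (.p1 3 0 0) (.ag (.p1 3 0 0) (.ag (.p1 3 0 0) (.p1 8292959 0 1439))))),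
  .inr 3, .inl (.p1 132871727 0 5762), .inr 13, .inr 3, .inr 11, .inr 7, .inr 9,
  .inl (.ag (.p1 3 0 0) (.ag (.p1 3 0 0) (.ag (.p1 3 0 0) (.ag (.p1 3 0 0) (.p2 4169549 0 1020))))),
  .inr 5, .inr 3, .inr 31, .inr 43, .inr 3, .inr 25,
  .inl (.ag (.p1 11 0 1) (.p2 11172769 0 1670)), .inr 81,
  .inl (.ag (.p1 7723 0 43) (.p1 34763 0 92)), .inr 67, .inr 3, .inr 7]

theorem tbl4_ok : table 2800 tbl4 = true := by decide +kernel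

theorem tbl4_len : tbl4.length = 100 := by decide +kernel

/-- part 5 of the table -/
def tbl5 : List (Cert ⊕ ℕ) := [
  .inr 41, .inr 3, .inr 17, .inr 5, .inr 9, .inr 59, .inr 7, .inr 3, .inr 5, .inr 103, .inr 3,
  .inr 19, .inr 61, .inr 9, .inr 89, .inr 107, .inr 3, .inr 11, .inr 25, .inr 3, .inr 7, .inr 13,
  .inr 27, .inr 5, .inl (.p1 136866599 0 5848), .inr 3, .inr 23, .inr 49, .inr 3,
  .inl (.ag (.p1 3 0 0) (.p1 68667479 0 4142)), .inr 19, .inr 9, .inl (.p1 137616359 0 5864),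
  .inr 5, .inr 3,
  .inl (.ag (.p1 3 0 0) (.ag (.p1 3 0 0) (.ag (.p1 3 0 0) (.ag (.p1 11 0 1) (.p2 1436437 0 598))))),
  .inr 17, .inr 3, .inr 5, .inr 11, .inr 9, .inr 7, .inr 79, .inr 3,
  .inl (.ag (.p1 3 0 0) (.p1 69372419 0 4164)), .inl (.p1 138839087 0 5890), .inr 3, .inr 13,
  .inr 5, .inr 27, .inr 11, .inl (.ag (.p1 3 0 0) (.p1 69702623 0 4173)), .inr 3, .inr 5, .inr 53,
  .inr 3, .inl (.ag (.p1 3 0 0) (.p1 69938963 0 4180)),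
  .inl (.ag (.p1 3 0 0) (.ag (.p1 3 0 0) (.p1 34993139 0 2957))), .inr 9,
  .inl (.ag (.p1 3 0 0) (.ag (.p1 3 0 0) (.ag (.p1 3 0 0) (.ag (.p1 3 0 0) (.p1 8760119 0 1479))))),
  .inr 13, .inr 3, .inr 7, .inr 5, .inr 3,
  .inl (.ag (.p1 3 0 0) (.ag (.p1 11 0 1) (.p1 11727563 0 1711))),
  .inl (.ag (.p1 3 0 0) (.p1 70412843 0 4195)), .inr 9, .inr 625, .inr 7, .inr 3,
  .inl (.p1 141300767 0 5942), .inr 11, .inr 3, .inr 73,
  .inl (.ag (.p1 3 0 0) (.ag (.p1 3 0 0) (.ag (.p1 3 0 0) (.ag (.p1 3 0 0) (.p1 8855087 0 1487))))),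
  .inr 243, .inr 43, .inr 5, .inr 3, .inl (.ag (.p1 131 0 5) (.p2 1076953 0 518)),
  .inl (.ag (.p1 3 0 0) (.p1 71126663 0 4216)), .inr 3, .inr 5,
  .inl (.ag (.p1 563 0 11) (.p1 505459 0 354)), .inr 9, .inr 13, .inr 17, .inr 3,
  .inl (.ag (.p1 3 0 0) (.ag (.p1 19 0 1) (.p2 3575441 0 944))), .inr 7, .inr 3,
  .inl (.ag (.p1 3 0 0) (.p2 35826209 0 2992)), .inr 25, .inr 9, .inr 23,
  .inl (.ag (.p1 3 0 0) (.p2 35922041 0 2996)), .inr 3, .inr 5, .inr 169]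

theorem tbl5_ok : table 2900 tbl5 = true := by decide +kernel

theorem tbl5_len : tbl5.length = 100 := by decide +kernel

theorem had_sq {v : ℕ} (hv : IsPrimePow v) (hv4 : v % 4 = 3) (hx : v ∉ exc)
    (hlo : 9600 ≤ v) (hhi : v < 12000) : Pool.Agent.H108R3.Had.HasHad (v ^ 2 - 1) := by
  by_cases h0 : v < 10000
  · exact table_spec tbl0 2400 tbl0_ok v hv4 (by omega) (by rw [tbl0_len]; omega) hv hx
  by_cases h1 : v < 10400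
  · exact table_spec tbl1 2500 tbl1_ok v hv4 (by omega) (by rw [tbl1_len]; omega) hv hx
  by_cases h2 : v < 10800
  · exact table_spec tbl2 2600 tbl2_ok v hv4 (by omega) (by rw [tbl2_len]; omega) hv hx
  by_cases h3 : v < 11200
  · exact table_spec tbl3 2700 tbl3_ok v hv4 (by omega) (by rw [tbl3_len]; omega) hv hx
  by_cases h4 : v < 11600
  · exact table_spec tbl4 2800 tbl4_ok v hv4 (by omega) (by rw [tbl4_len]; omega) hv hx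
  by_cases h5 : v < 12000
  · exact table_spec tbl5 2900 tbl5_ok v hv4 (by omega) (by rw [tbl5_len]; omega) hv hx
  omega

end Pool.Agent.K9h69.Menon.T2
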