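import Pool.Agent.K9h69.Menon.Cert

/-!
# Derivations of Hadamard matrices of order `v ^ 2 - 1` for prime powers `v ≡ 3 (mod 4)`,
`12000 ≤ v < 13600`
-/

set_option autoImplicit false

namespace Pool.Agent.K9h69.Menon.T3

/-- part 0 of the table -/
def tbl0 : List (Cert ⊕ ℕ) := [
  .inr 3, .inl (.p1 144168047 0 6002), .inl (.ag (.p1 3 0 0) (.p1 72132059 0 4246)), .inr 27,
  .inr 7, .inr 11, .inr 3, .inr 53, .inr 5, .inr 3, .inl (.ag (.p1 11 0 1) (.p1 24172307 0 2457)),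
  .inr 7, .inr 9, .inr 5, .inr 31, .inr 3, .inr 11, .inl (.ag (.p1 3 0 0) (.p1 72854519 0 4267)),
  .inr 3, .inr 47, .inr 43, .inr 9, .inr 107, .inr 5, .inr 3, .inr 49, .inr 0, .inr 3, .inr 5,
  .inl (.ag (.p1 3 0 0) (.ag (.p2 1009 0 15) (.p1 72707 0 134))), .inr 27, .inr 67, .inr 7,
  .inr 3, .inr 61, .inl (.p1 147452447 0 6070), .inr 3, .inr 29, .inr 5, .inr 9,
  .inl (.ag (.p1 12163 0 54) (.p2 12161 0 54)), .inl (.ag (.p1 3 0 0) (.p1 74017943 0 4301)),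
  .inr 3, .inr 25, .inr 19, .inr 3, .inr 7, .inr 73, .inr 9, .inr 11, .inl (.p1 148913207 0 6100),
  .inr 3, .inl (.ag (.p1 3 0 0) (.p2 37277129 0 3052)), .inr 5, .inr 3, .inr 17,
  .inl (.ag (.p1 11 0 1) (.p2 12458293 0 1764)), .inr 81, .inr 5,
  .inl (.ag (.p1 3 0 0) (.ag (.p1 3 0 0) (.ag (.p1 3 0 0) (.p2 9362069 0 1529)))), .inr 3,
  .inr 37, .inl (.ag (.p1 59 0 3) (.p2 2501449 0 790)), .inr 3, .inr 13,
  .inl (.ag (.p1 3 0 0) (.ag (.p1 11 0 1) (.p1 12531763 0 1769))), .inr 9, .inr 7, .inr 25,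
  .inr 3, .inr 71, .inr 11, .inr 3, .inr 5, .inr 49, .inr 9, .inr 31, .inr 13, .inr 3, .inr 97,
  .inl (.ag (.mi 101 0 4 (.p2 7 1 0)) (.p1 751763 0 433)), .inr 3, .inr 11, .inr 5, .inr 27,
  .inl (.p1 152349647 0 6170), .inl (.p1 152448407 0 6172), .inr 3, .inr 5, .inr 17, .inr 3,
  .inr 83, .inr 89, .inr 9, .inl (.ag (.p1 11 0 1) (.p2 12769969 0 1786)), .inr 7, .inr 3,
  .inl (.p1 153536879 0 6194), .inr 5, .inr 3]

theorem tbl0_ok : table 3000 tbl0 = true := by decide +kernel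

theorem tbl0_len : tbl0.length = 100 := by decide +kernel

/-- part 1 of the table -/
def tbl1 : List (Cert ⊕ ℕ) := [
  .inr 79, .inr 19, .inr 9, .inr 5, .inr 11, .inr 3, .inr 289, .inr 31, .inr 3, .inr 7, .inr 23,
  .inr 27, .inl (.ag (.p1 3 0 0) (.p1 77513699 0 4401)), .inr 5, .inr 3, .inr 121, .inr 7, .inr 3,
  .inr 25,
  .inl (.ag (.p1 3 0 0) (.ag (.p1 3 0 0) (.ag (.p1 3 0 0) (.ag (.p1 3 0 0) (.p1 9732839 0 1559))))),
  .inr 9, .inl (.ag (.p1 3 0 0) (.p1 77962583 0 4414)),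
  .inl (.ag (.p1 3 0 0) (.p2 39006269 0 3122)), .inr 3, .inr 29,
  .inl (.ag (.p1 3 0 0) (.ag (.p2 37 0 2) (.p1 2056907 0 716))), .inr 3,
  .inl (.p1 156525119 0 6254), .inr 5, .inr 9, .inr 7,
  .inl (.ag (.p1 3 0 0) (.ag (.p1 3 0 0) (.p1 39231431 0 3131))), .inr 3, .inr 5,
  .inl (.ag (.p1 59 0 3) (.p2 2620441 0 808)), .inr 3,
  .inl (.ag (.p1 3 0 0) (.p1 78713603 0 4435)), .inr 7, .inr 81, .inr 19, .inr 17, .inr 3,
  .inr 13, .inr 25, .inr 3, .inl (.ag (.p1 3 0 0) (.p1 79165943 0 4448)), .inr 41, .inr 9, .inr 5,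
  .inr 43, .inr 3, .inr 7, .inl (.ag (.p1 59 0 3) (.p2 2650621 0 813)), .inr 3,
  .inl (.p1 159239159 0 6308), .inr 13, .inr 9, .inr 17, .inr 5, .inr 3, .inr 47,
  .inl (.p1 159946607 0 6322), .inr 3, .inr 5, .inl (.ag (.p1 3 0 0) (.p2 40062569 0 3164)),
  .inr 27, .inr 53,
  .inl (.ag (.p1 3 0 0) (.ag (.p1 3 0 0) (.ag (.p1 3 0 0) (.ag (.p1 3 0 0) (.p1 10034639 0 1583))))),
  .inr 3, .inr 31, .inr 11, .inr 3, .inr 343, .inr 5, .inr 9,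
  .inl (.ag (.p1 3 0 0) (.ag (.p1 3 0 0) (.ag (.p1 3 0 0) (.ag (.mi 29 0 2 (.p1 3 2 0)) (.p1 347771 0 294))))),
  .inr 97, .inr 3, .inr 5, .inr 7, .inr 3, .inr 11, .inr 29, .inr 9,
  .inl (.ag (.p2 5 1 0) (.p1 6241619 0 1248)),
  .inl (.ag (.p1 3 0 0) (.ag (.p1 3 0 0) (.p1 40596011 0 3185))), .inr 3, .inr 41, .inr 5, .inr 3,
  .inl (.ag (.p1 3 0 0) (.p1 81447083 0 4511)), .inr 17, .inr 27, .inr 25, .inr 13, .inr 3,
  .inr 19, .inl (.ag (.p1 3 0 0) (.p1 81804839 0 4521)), .inr 3,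
  .inl (.ag (.p1 3 0 0) (.ag (.p1 3 0 0) (.p1 40953599 0 3199)))]

theorem tbl1_ok : table 3100 tbl1 = true := by decide +kernel

theorem tbl1_len : tbl1.length = 100 := by decide +kernel

/-- part 2 of the table -/
def tbl2 : List (Cert ⊕ ℕ) := [
  .inr 7, .inr 9, .inr 23, .inr 5, .inr 3, .inl (.p1 164429327 0 6410), .inr 101, .inr 3, .inr 5,
  .inr 37, .inr 9, .inr 29, .inr 71, .inr 3, .inr 7, .inr 19, .inr 3, .inr 61, .inr 125, .inr 243,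
  .inr 13, .inr 49, .inr 3, .inr 5, .inl (.p1 166384199 0 6448), .inr 3,
  .inl (.p1 166590647 0 6452),
  .inl (.ag (.p1 3 0 0) (.ag (.p1 3 0 0) (.ag (.p2 1613 0 19) (.p1 25819 0 79)))), .inr 9,
  .inl (.ag (.p1 3 0 0) (.ag (.p1 19 0 1) (.p1 8345027 0 1443))), .inl (.p1 167003927 0 6460),
  .inr 3, .inr 67, .inr 5, .inr 3, .inr 7, .inr 121, .inr 9, .inr 5,
  .inl (.ag (.p1 3 0 0) (.ag (.p1 3 0 0) (.p1 41983919 0 3239))), .inr 3,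
  .inl (.ag (.p1 3 0 0) (.p1 84071543 0 4584)), .inr 7, .inr 3,
  .inl (.ag (.p1 3 0 0) (.p2 42113609 0 3244)),
  .inl (.ag (.p1 3 0 0) (.ag (.p1 11 0 1) (.p1 14046523 0 1873))), .inr 27, .inr 11, .inr 5,
  .inr 3, .inl (.ag (.p1 3 0 0) (.p1 84539003 0 4596)),
  .inl (.ag (.p1 3 0 0) (.ag (.p1 3 0 0) (.ag (.p1 3 2 0) (.p1 3021107 0 868)))), .inr 3, .inr 5,
  .inr 47, .inr 9, .inr 7, .inr 83, .inr 3, .inr 13, .inl (.ag (.p1 13043 0 56) (.p1 26083 0 80)),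
  .inr 3, .inr 31, .inr 5, .inr 9, .inl (.ag (.p2 137 0 5) (.ag (.p1 283 0 7) (.p1 8707 0 46))),
  .inr 73, .inr 3, .inr 25, .inr 11, .inr 3, .inr 23, .inr 13, .inr 27,
  .inl (.ag (.p1 3 0 0) (.p1 85791899 0 4630)),
  .inl (.ag (.p1 3 0 0) (.ag (.p1 3 0 0) (.ag (.p1 3 2 0) (.p2 1532933 0 618)))), .inr 3, .inr 7,
  .inr 5, .inr 3, .inr 11, .inl (.p1 172318127 0 6562), .inr 9, .inr 5, .inr 7, .inr 3,
  .inl (.ag (.p2 37 0 2) (.p2 2274257 0 753)),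
  .inl (.ag (.p1 3 0 0) (.ag (.p1 3 0 0) (.p1 43237199 0 3287))), .inr 3,
  .inl (.ag (.p1 3 0 0) (.p1 86579639 0 4651)), .inl (.ag (.p1 11 0 1) (.p2 14438713 0 1899)),
  .inr 9, .inl (.ag (.p1 3 0 0) (.p1 86737619 0 4656)), .inr 25, .inr 3,
  .inl (.ag (.p1 3 0 0) (.ag (.p1 3 0 0) (.p1 43447871 0 3295))), .inl (.p1 173896967 0 6592),
  .inr 3, .inr 5, .inr 67]

theorem tbl2_ok : table 3200 tbl2 = true := by decide +kernel

theorem tbl2_len : tbl2.length = 100 := by decide +kernel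

/-- part 3 of the table -/
def tbl3 : List (Cert ⊕ ℕ) := [
  .inr 81, .inr 47, .inr 11, .inr 3, .inl (.ag (.p1 3 0 0) (.p2 43685489 0 3304)), .inr 7, .inr 3,
  .inr 101, .inr 5, .inr 9, .inr 17, .inr 13, .inr 3, .inr 5, .inl (.p1 175801079 0 6628), .inr 3,
  .inl (.ag (.p1 11 0 1) (.p1 29335547 0 2707)), .inr 23, .inr 9, .inr 49, .inr 37, .inr 3,
  .inl (.ag (.p1 3 0 0) (.p1 88325339 0 4698)), .inr 5, .inr 3, .inr 53, .inr 7, .inr 27, .inr 5,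
  .inr 19, .inr 3, .inl (.ag (.p1 3 0 0) (.ag (.p1 3 0 0) (.p1 44402231 0 3331))),
  .inl (.ag (.p1 19 0 1) (.p2 8885777 0 1489)), .inr 3,
  .inl (.ag (.p1 3 0 0) (.p1 88964459 0 4715)), .inr 11, .inr 9, .inr 169, .inr 5, .inr 3, .inr 7,
  .inl (.ag (.p1 3 0 0) (.ag (.p2 977 0 15) (.p2 45673 0 106))), .inr 3, .inr 125, .inr 17,
  .inr 9, .inr 11, .inr 7, .inr 3, .inl (.ag (.p1 3 0 0) (.ag (.p1 3 0 0) (.p1 44883299 0 3349))),
  .inr 13, .inr 3, .inl (.p1 179854919 0 6704), .inr 5, .inr 27, .inr 31, .inr 29, .inr 3, .inr 5,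
  .inr 89, .inr 3, .inr 7, .inl (.ag (.p1 19 0 1) (.p1 18092939 0 2126)), .inr 9, .inr 43,
  .inl (.p1 181252367 0 6730), .inr 3, .inr 19, .inr 25, .inr 3, .inr 97,
  .inl (.ag (.p1 3 0 0) (.ag (.p1 3 0 0) (.p1 45474791 0 3371))), .inr 9, .inr 5,
  .inl (.ag (.p1 3 0 0) (.p1 91111499 0 4772)), .inr 3, .inr 13, .inr 59, .inr 3, .inr 11,
  .inl (.ag (.p1 643 0 12) (.p2 283961 0 265)), .inr 81, .inr 7, .inr 5, .inr 3, .inr 29, .inr 19,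
  .inr 3, .inr 5, .inr 7, .inr 9, .inl (.p1 184063487 0 6782), .inr 41, .inr 3, .inr 37, .inr 289,
  .inr 3, .inl (.ag (.p1 3 0 0) (.ag (.p1 59 0 3) (.p1 3078587 0 876))), .inr 5, .inr 9]

theorem tbl3_ok : table 3300 tbl3 = true := by decide +kernel

theorem tbl3_len : tbl3.length = 100 := by decide +kernel

theorem had_sq {v : ℕ} (hv : IsPrimePow v) (hv4 : v % 4 = 3) (hx : v ∉ exc)
    (hlo : 12000 ≤ v) (hhi : v < 13600) : Pool.Agent.H108R3.Had.HasHad (v ^ 2 - 1) := by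
  by_cases h0 : v < 12400
  · exact table_spec tbl0 3000 tbl0_ok v hv4 (by omega) (by rw [tbl0_len]; omega) hv hx
  by_cases h1 : v < 12800
  · exact table_spec tbl1 3100 tbl1_ok v hv4 (by omega) (by rw [tbl1_len]; omega) hv hx
  by_cases h2 : v < 13200
  · exact table_spec tbl2 3200 tbl2_ok v hv4 (by omega) (by rw [tbl2_len]; omega) hv hx
  by_cases h3 : v < 13600
  · exact table_spec tbl3 3300 tbl3_ok v hv4 (by omega) (by rw [tbl3_len]; omega) hv hx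
  omega

end Pool.Agent.K9h69.Menon.T3
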