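import Pool.Agent.K9h69.Menon.Cert

/-!
# Derivations of Hadamard matrices of order `v ^ 2 - 1` for prime powers `v ≡ 3 (mod 4)`,
`13600 ≤ v < 15600`
-/

set_option autoImplicit false

namespace Pool.Agent.K9h69.Menon.T4

/-- part 0 of the table -/
def tbl0 : List (Cert ⊕ ℕ) := [
  .inr 61, .inr 11, .inr 3, .inr 5, .inl (.ag (.p1 3 0 0) (.p1 92738579 0 4814)), .inr 3,
  .inl (.p1 185695127 0 6812), .inr 43, .inr 27, .inr 23, .inr 7, .inr 3, .inr 11, .inr 5, .inr 3,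
  .inr 13, .inr 79, .inr 9, .inr 25,
  .inl (.ag (.p1 3 0 0) (.ag (.p1 3 0 0) (.ag (.p2 37 0 2) (.p2 615509 0 391)))), .inr 3,
  .inl (.ag (.p1 3 0 0) (.ag (.mi 29 0 2 (.p1 3 2 0)) (.p1 1614947 0 634))),
  .inl (.ag (.p1 3 0 0) (.p1 93721739 0 4839)), .inr 3, .inr 7, .inr 71, .inr 9,
  .inl (.ag (.p1 3 0 0) (.ag (.p1 3 0 0) (.p1 46997879 0 3427))), .inr 5, .inr 3,
  .inl (.ag (.p1 3 0 0) (.p2 47080181 0 3430)), .inr 7, .inr 3, .inr 5, .inr 11, .inr 27, .inr 59,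
  .inl (.ag (.p1 3 0 0) (.p1 94544999 0 4861)), .inr 3,
  .inl (.ag (.p1 3 0 0) (.ag (.p1 3 0 0) (.p1 47327519 0 3439))),
  .inl (.ag (.p2 61 0 3) (.p1 3055163 0 873)), .inr 3, .inr 47, .inr 25, .inr 9, .inr 7, .inr 17,
  .inr 3, .inr 5, .inl (.p1 190412399 0 6898), .inr 3,
  .inl (.ag (.p1 3 0 0) (.ag (.p1 3 0 0) (.ag (.p1 467 0 10) (.p2 101833 0 159)))), .inr 7,
  .inr 9, .inr 13, .inr 23, .inr 3, .inl (.p1 191296559 0 6914), .inr 5, .inr 3, .inr 109,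
  .inr 61, .inr 729, .inr 5, .inl (.ag (.p1 3 0 0) (.p2 48017969 0 3464)), .inr 3, .inr 49,
  .inr 11, .inr 3, .inl (.ag (.p1 3 0 0) (.p1 96313319 0 4906)),
  .inl (.ag (.p1 3 0 0) (.p2 48184421 0 3470)), .inr 9, .inr 29, .inr 5, .inr 3,
  .inl (.p1 193293407 0 6950), .inl (.p1 193404647 0 6952), .inr 3, .inr 5, .inr 31, .inr 9,
  .inr 19, .inl (.ag (.p1 59 0 3) (.p1 6469091 0 1271)), .inr 3, .inr 53, .inr 73, .inr 3, .inr 7,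
  .inr 5, .inr 27, .inl (.ag (.p1 3 0 0) (.p1 97482683 0 4936)),
  .inl (.ag (.p1 3 0 0) (.ag (.p1 3 0 0) (.ag (.p2 193 0 6) (.p1 251387 0 250)))), .inr 3,
  .inr 25, .inr 7, .inr 3, .inr 71, .inr 17, .inr 9,
  .inl (.ag (.p1 3 0 0) (.ag (.p1 3 0 0) (.ag (.p1 3 2 0) (.p1 3499499 0 934))))]

theorem tbl0_ok : table 3400 tbl0 = true := by decide +kernel

theorem tbl0_len : tbl0.length = 100 := by decide +kernel

/-- part 1 of the table -/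
def tbl1 : List (Cert ⊕ ℕ) := [
  .inr 11, .inr 3, .inl (.ag (.p1 3 0 0) (.p1 98154059 0 4953)), .inr 5, .inr 3, .inr 37,
  .inr 169, .inr 9, .inr 5, .inr 101, .inr 3, .inr 11,
  .inl (.ag (.p1 3 0 0) (.p1 98715299 0 4967)), .inr 3, .inr 17, .inr 343, .inr 27,
  .inl (.ag (.p1 3 0 0) (.p1 98996519 0 4974)), .inr 25, .inr 3,
  .inl (.ag (.p1 83 0 4) (.p1 4722163 0 1086)), .inl (.ag (.p1 3 0 0) (.p1 99221783 0 4980)),
  .inr 3, .inr 5, .inr 23, .inr 9, .inl (.ag (.p1 9403 0 47) (.p1 42323 0 102)), .inr 103, .inr 3,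
  .inr 7, .inr 29, .inr 3, .inr 13, .inr 5, .inr 9, .inl (.ag (.p1 3 0 0) (.p1 100012223 0 4999)),
  .inr 7, .inr 3, .inr 5, .inl (.ag (.p1 3 0 0) (.ag (.p1 3 0 0) (.p1 50119319 0 3539))), .inr 3,
  .inr 31, .inr 37, .inr 81, .inr 11, .inr 13, .inr 3, .inr 23, .inr 5, .inr 3, .inr 7,
  .inl (.ag (.p1 3 0 0) (.ag (.p1 3 0 0) (.p1 50459711 0 3551))), .inr 9, .inr 5, .inr 59, .inr 3,
  .inr 41, .inr 7, .inr 3, .inr 29, .inl (.p1 202863047 0 7120), .inr 9,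
  .inl (.ag (.p1 59 0 3) (.p1 6769699 0 1300)), .inr 5, .inr 3, .inr 17, .inr 11, .inr 3, .inr 25,
  .inr 109, .inr 27, .inr 7, .inr 31, .inr 3, .inr 79,
  .inl (.ag (.p1 3 0 0) (.p1 102287903 0 5056)), .inr 3, .inr 11, .inr 5, .inr 9,
  .inl (.p1 205148327 0 7160),
  .inl (.ag (.p1 3 0 0) (.ag (.mi 29 0 2 (.p1 3 2 0)) (.p1 1769507 0 664))), .inr 3, .inr 5,
  .inr 13, .inr 3, .inl (.ag (.p1 2531 0 24) (.p2 81293 0 142)), .inr 113, .inr 9, .inr 83,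
  .inr 53, .inr 3, .inr 7, .inr 625, .inr 3, .inr 19,
  .inl (.ag (.p1 11 0 1) (.p2 17248813 0 2076)), .inr 27, .inr 5, .inr 7]

theorem tbl1_ok : table 3500 tbl1 = true := by decide +kernel

theorem tbl1_len : tbl1.length = 100 := by decide +kernel

/-- part 2 of the table -/
def tbl2 : List (Cert ⊕ ℕ) := [
  .inr 3, .inl (.ag (.p1 3 0 0) (.ag (.p1 3 0 0) (.p1 51890411 0 3601))),
  .inl (.ag (.p1 3 0 0) (.p1 103838459 0 5094)), .inr 3,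
  .inl (.ag (.p1 3 0 0) (.p1 103953779 0 5097)), .inl (.ag (.p1 3 0 0) (.p1 104011463 0 5098)),
  .inr 9,
  .inl (.ag (.p1 3 0 0) (.ag (.p1 3 0 0) (.ag (.p1 3 0 0) (.ag (.p2 5 1 0) (.p1 1001219 0 499))))),
  .inr 5, .inr 3, .inr 11,
  .inl (.ag (.p1 3 0 0) (.ag (.p1 3 0 0) (.ag (.p1 3 2 0) (.p1 3727067 0 964)))), .inr 3, .inr 5,
  .inr 19, .inr 9, .inr 17, .inr 29, .inr 3,
  .inl (.ag (.p1 3 0 0) (.ag (.p1 3 0 0) (.ag (.p2 19 1 1) (.p1 144779 0 189)))), .inr 7, .inr 3,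
  .inr 43, .inr 5, .inr 81, .inl (.ag (.p1 3 0 0) (.ag (.p1 3 0 0) (.p1 52584251 0 3625))),
  .inr 89, .inr 3, .inr 5, .inl (.ag (.p1 3 0 0) (.ag (.p1 139 0 5) (.p1 1505723 0 613))), .inr 3,
  .inr 73, .inr 11, .inr 9, .inr 7,
  .inl (.ag (.p1 3 0 0) (.ag (.p1 3 0 0) (.ag (.p2 17 0 1) (.p2 1468741 0 605)))), .inr 3,
  .inl (.ag (.p1 3 0 0) (.ag (.p1 19 0 1) (.p1 10586579 0 1626))), .inr 5, .inr 3,
  .inl (.ag (.p1 11 0 1) (.p1 35346827 0 2972)), .inr 7, .inr 9, .inr 25, .inr 61, .inr 3,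
  .inr 29, .inl (.ag (.p1 3 0 0) (.ag (.p1 3 0 0) (.p1 53224319 0 3647))), .inr 3, .inr 13,
  .inr 17, .inr 27, .inr 19, .inr 5, .inr 3, .inr 7,
  .inl (.ag (.p1 3 0 0) (.p1 106974563 0 5170)), .inr 3, .inr 5,
  .inl (.ag (.p1 3 0 0) (.p1 107150159 0 5175)), .inr 9, .inr 97, .inr 49, .inr 3, .inr 107,
  .inr 11, .inr 3, .inr 17, .inr 25, .inr 9, .inl (.ag (.p1 14683 0 60) (.p1 29363 0 85)),
  .inr 19, .inr 3, .inr 5, .inl (.ag (.p1 11 0 1) (.p1 36010099 0 2999)), .inr 3, .inr 7, .inr 47,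
  .inr 27, .inr 41, .inl (.ag (.p1 3 0 0) (.p2 54191681 0 3680)), .inr 3,
  .inl (.ag (.mi 29 0 2 (.p1 3 2 0)) (.p2 1870709 0 683)), .inr 5, .inr 3, .inr 23,
  .inl (.p1 217474007 0 7372), .inr 9, .inr 5,
  .inl (.ag (.p1 3 0 0) (.ag (.p1 11 0 1) (.p1 18152339 0 2129))), .inr 3,
  .inl (.ag (.p1 3 0 0) (.ag (.p1 3 0 0) (.p1 54516071 0 3691))),
  .inl (.ag (.p1 3 0 0) (.p1 109091219 0 5221)), .inr 3,
  .inl (.ag (.p1 11 0 1) (.p2 18201569 0 2132)),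
  .inl (.ag (.p1 3 0 0) (.ag (.p1 3 0 0) (.ag (.p1 3 0 0) (.ag (.p1 3 0 0) (.ag (.p1 3 0 0) (.p1 6829283 0 1306)))))),
  .inr 9, .inr 7, .inr 5, .inr 3]

theorem tbl2_ok : table 3600 tbl2 = true := by decide +kernel

theorem tbl2_len : tbl2.length = 100 := by decide +kernel

/-- part 3 of the table -/
def tbl3 : List (Cert ⊕ ℕ) := [
  .inr 113, .inr 13, .inr 3, .inr 5, .inr 7, .inr 243,
  .inl (.ag (.p1 3 0 0) (.p1 109919963 0 5241)),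
  .inl (.ag (.p1 3 0 0) (.ag (.p1 3 0 0) (.p1 54989639 0 3707))), .inr 3, .inr 11,
  .inl (.ag (.p1 491 0 10) (.p2 447793 0 334)), .inr 3,
  .inl (.ag (.p1 11 0 1) (.p2 18379349 0 2143)), .inr 5, .inr 9, .inr 89,
  .inl (.ag (.p1 11 0 1) (.p1 36837947 0 3034)), .inr 3, .inr 125,
  .inl (.ag (.p1 3 0 0) (.ag (.p1 3 0 0) (.ag (.p1 3 0 0) (.ag (.p1 3 0 0) (.p1 13836539 0 1859))))),
  .inr 3, .inl (.p1 221622767 0 7442), .inl (.p1 221741879 0 7444), .inr 9, .inr 47, .inr 7,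
  .inr 3, .inr 13, .inr 5, .inr 3, .inl (.p1 222695927 0 7460), .inr 11, .inr 27, .inr 5,
  .inl (.ag (.p1 3 0 0) (.p1 111586859 0 5281)), .inr 3,
  .inl (.ag (.p1 3 0 0) (.p1 111706403 0 5284)),
  .inl (.ag (.p1 3 0 0) (.ag (.p1 19 0 1) (.p1 11176619 0 1671))), .inr 3, .inr 7, .inr 13,
  .inr 9, .inr 11, .inr 25, .inr 3, .inl (.ag (.p1 3 0 0) (.p1 112245143 0 5296)), .inr 7, .inr 3,
  .inr 5, .inr 53, .inr 9, .inr 43, .inr 17, .inr 3, .inr 23, .inr 83, .inr 3,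
  .inl (.p1 225930959 0 7514), .inr 5, .inr 27, .inr 49, .inr 41, .inr 3, .inr 5, .inr 11, .inr 3,
  .inr 13, .inr 7, .inr 9, .inr 17, .inl (.ag (.p1 11 0 1) (.p2 18958073 0 2176)), .inr 3,
  .inl (.ag (.p1 19 0 1) (.p1 22773827 0 2385)), .inr 5, .inr 3, .inr 11,
  .inl (.ag (.p1 11 0 1) (.p2 19018453 0 2180)), .inr 9, .inr 5, .inr 13, .inr 3, .inr 7,
  .inl (.ag (.p1 3 0 0) (.p2 57236789 0 3782)), .inr 3,
  .inl (.ag (.p1 3 0 0) (.p1 114594659 0 5351)), .inr 19, .inr 81, .inr 109, .inr 5, .inr 3,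
  .inr 59, .inr 29, .inr 3, .inr 25, .inr 43, .inr 9,
  .inl (.ag (.p1 11 0 1) (.p2 19220413 0 2191)), .inr 11, .inr 3, .inl (.p1 231009599 0 7598)]

theorem tbl3_ok : table 3700 tbl3 = true := by decide +kernel

theorem tbl3_len : tbl3.length = 100 := by decide +kernel

/-- part 4 of the table -/
def tbl4 : List (Cert ⊕ ℕ) := [
  .inr 23, .inr 3, .inr 7, .inr 5, .inr 9, .inr 13,
  .inl (.ag (.mi 3 3 0 (.p1 79 0 3)) (.p2 715621 0 422)), .inr 3, .inr 5, .inr 49, .inr 3,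
  .inr 79, .inr 101, .inr 27, .inl (.p1 232837079 0 7628),
  .inl (.ag (.p1 3 0 0) (.ag (.p1 3 0 0) (.p1 58239791 0 3815))), .inr 3,
  .inl (.ag (.p1 3 0 0) (.ag (.p1 3 0 0) (.p1 58300859 0 3817))), .inr 25, .inr 3, .inr 17,
  .inl (.p1 233692367 0 7642), .inr 9, .inr 5, .inl (.ag (.p1 3 0 0) (.p1 117029699 0 5408)),
  .inr 3, .inl (.p1 234304247 0 7652), .inr 61, .inr 3,
  .inl (.ag (.p1 3 0 0) (.ag (.p1 11 0 1) (.p1 19555979 0 2210))), .inr 7, .inr 9,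
  .inl (.p1 235039559 0 7664), .inr 5, .inr 3, .inr 67, .inr 103, .inr 3, .inr 5,
  .inl (.ag (.p1 3 0 0) (.ag (.p1 3 0 0) (.ag (.p1 3 0 0) (.ag (.p1 3 0 0) (.ag (.p1 3 0 0) (.p1 7371839 0 1357)))))),
  .inr 27, .inr 121, .inr 19, .inr 3, .inr 7,
  .inl (.ag (.p1 3 0 0) (.ag (.p1 7691 0 43) (.p1 30763 0 87))), .inr 3,
  .inl (.ag (.p1 3 0 0) (.p1 118441439 0 5441)), .inr 5, .inr 9, .inr 73, .inr 7, .inr 3, .inr 5,
  .inr 17, .inr 3, .inl (.ag (.p1 3 0 0) (.p2 59498081 0 3856)), .inr 13, .inr 9,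
  .inl (.ag (.p1 3 0 0) (.ag (.p1 3 0 0) (.ag (.p1 3 0 0) (.p2 14897669 0 1929)))),
  .inl (.p1 238486247 0 7720), .inr 3, .inl (.ag (.p2 7 1 0) (.p1 4774667 0 1092)), .inr 5,
  .inr 3, .inr 7, .inl (.ag (.p1 43 0 2) (.p2 5437001 0 1165)), .inr 81, .inr 25, .inr 23, .inr 3,
  .inr 17, .inr 7, .inr 3, .inr 11, .inr 37, .inr 9,
  .inl (.ag (.p1 3 0 0) (.ag (.p1 19 0 1) (.p2 6014777 0 1225))), .inr 5, .inr 3, .inr 361,
  .inl (.ag (.p1 3 0 0) (.ag (.mi 1109 0 16 (.mi 277 0 7 (.p2 137 0 5))) (.p1 54347 0 116))),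
  .inr 3, .inr 5, .inr 41, .inr 9, .inr 7,
  .inl (.ag (.p1 3 0 0) (.ag (.p1 3 0 0) (.ag (.p1 3 0 0) (.ag (.p1 3 0 0) (.ag (.p1 19 0 1) (.p1 1511459 0 614)))))),
  .inr 3, .inl (.p1 242082479 0 7778), .inr 79, .inr 3, .inr 23, .inr 25, .inr 27,
  .inl (.ag (.p1 3 0 0) (.ag (.p1 3 0 0) (.ag (.p1 3 0 0) (.ag (.p1 3 0 0) (.p1 15176867 0 1947))))),
  .inr 11, .inr 3, .inr 5, .inr 19]

theorem tbl4_ok : table 3800 tbl4 = true := by decide +kernel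

theorem tbl4_len : tbl4.length = 100 := by decide +kernel

theorem had_sq {v : ℕ} (hv : IsPrimePow v) (hv4 : v % 4 = 3) (hx : v ∉ exc)
    (hlo : 13600 ≤ v) (hhi : v < 15600) : Pool.Agent.H108R3.Had.HasHad (v ^ 2 - 1) := by
  by_cases h0 : v < 14000
  · exact table_spec tbl0 3400 tbl0_ok v hv4 (by omega) (by rw [tbl0_len]; omega) hv hx
  by_cases h1 : v < 14400
  · exact table_spec tbl1 3500 tbl1_ok v hv4 (by omega) (by rw [tbl1_len]; omega) hv hx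
  by_cases h2 : v < 14800
  · exact table_spec tbl2 3600 tbl2_ok v hv4 (by omega) (by rw [tbl2_len]; omega) hv hx
  by_cases h3 : v < 15200
  · exact table_spec tbl3 3700 tbl3_ok v hv4 (by omega) (by rw [tbl3_len]; omega) hv hx
  by_cases h4 : v < 15600
  · exact table_spec tbl4 3800 tbl4_ok v hv4 (by omega) (by rw [tbl4_len]; omega) hv hx
  omega

end Pool.Agent.K9h69.Menon.T4
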