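import Pool.Agent.K9h69.Menon.Cert

/-!
# Derivations of Hadamard matrices of order `v ^ 2 - 1` for prime powers `v ≡ 3 (mod 4)`,
`15600 ≤ v < 17200`
-/

set_option autoImplicit false

namespace Pool.Agent.K9h69.Menon.T5

/-- part 0 of the table -/
def tbl0 : List (Cert ⊕ ℕ) := [
  .inr 3, .inl (.ag (.p1 3 0 0) (.ag (.p1 3 0 0) (.p1 60894611 0 3901))), .inr 67, .inr 9,
  .inl (.ag (.p1 3 0 0) (.p2 60988289 0 3904)), .inr 17, .inr 3, .inr 49, .inr 5, .inr 3,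
  .inl (.ag (.p1 11 0 1) (.p1 40783907 0 3192)),
  .inl (.ag (.p1 3 0 0) (.ag (.p1 11 0 1) (.p1 20402383 0 2257))), .inr 9, .inr 5, .inr 7, .inr 3,
  .inl (.p1 245454887 0 7832), .inl (.ag (.p1 3 0 0) (.p1 122790119 0 5540)), .inr 3,
  .inl (.ag (.p1 3 0 0) (.ag (.p1 3 0 0) (.ag (.p1 3 0 0) (.ag (.p1 3 0 0) (.p1 15364439 0 1959))))),
  .inl (.ag (.p1 15683 0 62) (.mi 7841 0 43 (.ag (.p1 3 0 0) (.p1 3919 0 30)))), .inr 27, .inr 13,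
  .inr 5, .inr 3, .inr 41, .inr 113, .inr 3, .inr 5, .inr 11, .inr 9,
  .inl (.ag (.p1 3 0 0) (.ag (.p1 3 0 0) (.p1 61834631 0 3931))),
  .inl (.ag (.p1 11 0 1) (.p1 41244059 0 3210)), .inr 3,
  .inl (.ag (.p1 3 0 0) (.p2 61929029 0 3934)), .inr 7, .inr 3, .inr 19, .inr 5, .inr 9, .inr 11,
  .inl (.ag (.p1 3 0 0) (.ag (.p2 17 0 1) (.p2 3452753 0 928))), .inr 3, .inr 25, .inr 31, .inr 3,
  .inl (.ag (.p1 3 0 0) (.p1 124614683 0 5581)),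
  .inl (.ag (.p1 3 0 0) (.ag (.p1 3 0 0) (.ag (.p1 3 0 0) (.p2 15584729 0 1973)))), .inr 243,
  .inr 7, .inl (.ag (.p1 11 0 1) (.p1 41622467 0 3225)), .inr 3, .inr 97, .inr 5, .inr 3,
  .inl (.ag (.p1 3 0 0) (.ag (.p1 3 0 0) (.ag (.p2 17 0 1) (.p2 1738661 0 658)))), .inr 49,
  .inr 9, .inr 5, .inr 47, .inr 3, .inr 13, .inr 121, .inr 3,
  .inl (.ag (.p1 3 0 0) (.p1 125753939 0 5606)), .inr 29, .inr 9, .inr 59, .inr 125, .inr 3,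
  .inr 7, .inl (.ag (.p1 3 0 0) (.ag (.p1 3 0 0) (.ag (.p2 661 0 12) (.p2 47657 0 108)))), .inr 3,
  .inr 5, .inr 13, .inr 27, .inl (.ag (.p1 3 0 0) (.p2 63258161 0 3976)), .inr 7, .inr 3,
  .inl (.ag (.p1 3 0 0) (.ag (.p1 3 0 0) (.ag (.p1 3 0 0) (.p2 15838409 0 1989)))),
  .inl (.ag (.p1 3 0 0) (.p2 63385481 0 3980)), .inr 3, .inr 89, .inr 5, .inr 9, .inr 107,
  .inr 37, .inr 3, .inr 5, .inl (.p1 254689679 0 7978), .inr 3, .inr 7,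
  .inl (.ag (.p2 109 0 4) (.p1 2318843 0 760)), .inr 9, .inr 19, .inr 11, .inr 3,
  .inl (.ag (.p1 3 0 0) (.ag (.p1 3 0 0) (.p1 63928019 0 3997))), .inr 5, .inr 3]

theorem tbl0_ok : table 3900 tbl0 = true := by decide +kernel

theorem tbl0_len : tbl0.length = 100 := by decide +kernel

/-- part 1 of the table -/
def tbl1 : List (Cert ⊕ ℕ) := [
  .inr 13, .inl (.ag (.p1 3 0 0) (.ag (.p2 137 0 5) (.p2 464173 0 340))), .inr 27, .inr 5,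
  .inr 83, .inr 3, .inr 11, .inr 17, .inr 3, .inr 43, .inr 61, .inr 9, .inr 7, .inr 5, .inr 3,
  .inl (.p1 258019967 0 8030), .inl (.ag (.p2 2677 0 25) (.p2 48197 0 109)), .inr 3, .inr 25,
  .inr 7, .inr 9, .inl (.ag (.p1 3 0 0) (.ag (.p1 3 0 0) (.p1 64697891 0 4021))),
  .inl (.ag (.p1 19 0 1) (.p2 12946013 0 1798)), .inr 3, .inr 17,
  .inl (.ag (.p1 3 0 0) (.ag (.p1 43 0 2) (.p1 5893331 0 1213))), .inr 3,
  .inl (.ag (.p1 3 0 0) (.ag (.p1 3 0 0) (.ag (.p1 3 0 0) (.p2 16222769 0 2013)))), .inr 5,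
  .inr 81, .inr 23, .inl (.ag (.p1 3 0 0) (.ag (.p1 3 0 0) (.p1 65020031 0 4031))), .inr 3,
  .inr 5, .inl (.ag (.p2 2689 0 25) (.p1 96827 0 155)), .inr 3, .inr 67, .inr 31, .inr 9, .inr 11,
  .inr 7, .inr 3, .inr 103, .inr 25, .inr 3, .inl (.p1 261889487 0 8090),
  .inl (.ag (.p1 283 0 7) (.p2 922601 0 479)), .inr 9, .inr 5, .inr 97, .inr 3, .inr 19, .inr 13,
  .inr 3, .inr 49, .inl (.ag (.p1 3 0 0) (.p1 131592863 0 5735)), .inr 27,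
  .inl (.ag (.p1 3 0 0) (.ag (.p1 3 0 0) (.p1 65861339 0 4057))), .inr 5, .inr 3, .inr 37, .inr 7,
  .inr 3, .inr 5, .inr 71, .inr 9, .inl (.ag (.p1 331 0 8) (.p2 797033 0 445)), .inr 53, .inr 3,
  .inr 73, .inr 19, .inr 3, .inr 11, .inr 5, .inr 9, .inr 7, .inr 23, .inr 3, .inr 5,
  .inl (.ag (.p1 3 0 0) (.ag (.p1 3 0 0) (.ag (.p1 3 0 0) (.ag (.p1 3 0 0) (.ag (.p1 19 0 1) (.p2 832217 0 455)))))),
  .inr 3, .inr 29, .inr 7, .inr 27, .inl (.ag (.p1 19 0 1) (.p1 26696291 0 2582)), .inr 59,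
  .inr 3, .inr 83, .inr 5, .inr 3, .inl (.ag (.mi 3 3 0 (.p1 79 0 3)) (.p2 826381 0 454)),
  .inr 13, .inr 9, .inr 125, .inr 11, .inr 3, .inr 7, .inr 37, .inr 3, .inr 529]

theorem tbl1_ok : table 4000 tbl1 = true := by decide +kernel

theorem tbl1_len : tbl1.length = 100 := by decide +kernel

/-- part 2 of the table -/
def tbl2 : List (Cert ⊕ ℕ) := [
  .inr 47, .inr 9, .inl (.ag (.p1 3 0 0) (.p2 67330229 0 4102)), .inr 5, .inr 3, .inr 11,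
  .inl (.ag (.mi 37 1 2 (.p1 1367 0 17)) (.p2 49277 0 110)), .inr 3, .inr 5, .inr 17, .inr 81,
  .inl (.ag (.p1 3 0 0) (.ag (.p1 3 0 0) (.p1 67625951 0 4111))), .inl (.p1 270635399 0 8224),
  .inr 3, .inr 109, .inr 101, .inr 3, .inr 7, .inr 25, .inr 9, .inr 53,
  .inl (.ag (.p1 3 0 0) (.ag (.p1 11 0 1) (.p1 22651763 0 2379))), .inr 3, .inr 5, .inr 7, .inr 3,
  .inr 17, .inr 11, .inr 9, .inl (.ag (.p1 3 0 0) (.ag (.p1 11 0 1) (.p1 22739779 0 2383))),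
  .inr 13, .inr 3, .inr 61, .inr 5, .inr 3, .inr 71,
  .inl (.ag (.p1 3 0 0) (.p1 136901603 0 5849)), .inr 27, .inr 5, .inr 29, .inr 3,
  .inl (.p1 274465487 0 8282), .inr 73, .inr 3, .inr 59, .inr 7, .inr 9, .inr 47, .inr 5, .inr 3,
  .inl (.ag (.p1 11 0 1) (.p1 45943267 0 3388)),
  .inl (.ag (.p1 3 0 0) (.ag (.p1 3 0 0) (.ag (.p1 3 0 0) (.ag (.p2 37 0 2) (.p1 907211 0 475))))),
  .inr 3, .inr 5, .inl (.p1 276191159 0 8308), .inr 9, .inr 13,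
  .inl (.ag (.p1 3 0 0) (.ag (.p1 11 0 1) (.p1 23049179 0 2399))), .inr 3, .inr 7, .inr 11,
  .inr 3, .inl (.ag (.p1 59 0 3) (.p2 4620929 0 1074)), .inr 5, .inr 27, .inr 19, .inr 7, .inr 3,
  .inr 25, .inr 13, .inr 3, .inr 11, .inl (.ag (.p1 11 0 1) (.p2 23215789 0 2408)), .inr 9,
  .inl (.ag (.p1 3 0 0) (.p1 139428299 0 5903)),
  .inl (.ag (.p1 3 0 0) (.ag (.p1 3 0 0) (.ag (.p1 3 0 0) (.ag (.p1 3 0 0) (.ag (.p1 11 0 1) (.p1 2906147 0 851)))))),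
  .inr 3, .inr 17, .inr 5, .inr 3, .inr 7, .inr 43, .inr 9, .inr 5, .inr 19, .inr 3,
  .inl (.ag (.p1 947 0 14) (.p1 591691 0 384)), .inr 7, .inr 3, .inl (.p1 280864079 0 8378),
  .inl (.ag (.p1 3 0 0) (.p1 140499083 0 5926)), .inr 729, .inr 31, .inr 25, .inr 3, .inr 13,
  .inl (.p1 281803367 0 8392), .inr 3, .inr 5, .inr 107]

theorem tbl2_ok : table 4100 tbl2 = true := by decide +kernel

theorem tbl2_len : tbl2.length = 100 := by decide +kernel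

/-- part 3 of the table -/
def tbl3 : List (Cert ⊕ ℕ) := [
  .inr 9,
  .inl (.ag (.p1 11 0 1) (.ag (.p2 4201 0 31) (.mi 2801 0 25 (.ag (.p1 3 0 0) (.p1 1399 0 18))))),
  .inl (.ag (.p1 59 0 3) (.p2 4710161 0 1084)), .inr 3, .inr 121, .inl (.p1 283013327 0 8410),
  .inr 3,
  .inl (.ag (.p1 3 0 0) (.ag (.p1 3 0 0) (.ag (.p1 3 0 0) (.ag (.p1 3 0 0) (.p1 17705159 0 2103))))),
  .inr 5, .inr 9, .inl (.ag (.p1 83 0 4) (.p2 3377221 0 918)), .inr 17, .inr 3, .inr 5, .inr 23,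
  .inr 3, .inr 101, .inl (.ag (.p1 3 0 0) (.ag (.p1 11 0 1) (.p1 23719219 0 2434))), .inr 27,
  .inl (.ag (.p1 3 0 0) (.ag (.p1 3 0 0) (.ag (.p2 193 0 6) (.p1 367139 0 302)))),
  .inl (.p1 285035687 0 8440), .inr 3, .inr 7, .inr 5, .inr 3,
  .inl (.ag (.p1 3 0 0) (.ag (.p2 5 3 0) (.p1 228203 0 238))), .inr 11, .inr 9, .inr 5, .inr 7,
  .inr 3, .inl (.ag (.p1 3 0 0) (.ag (.p1 3 0 0) (.p1 71630831 0 4231))),
  .inl (.p1 286658759 0 8464), .inr 3, .inr 13,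
  .inl (.ag (.p1 3 0 0) (.ag (.p1 11 0 1) (.p1 23922103 0 2445))), .inr 9, .inr 11, .inr 5,
  .inr 3, .inl (.ag (.p1 3 0 0) (.p1 143871683 0 5996)), .inr 361, .inr 3, .inr 25,
  .inl (.ag (.p1 19 0 1) (.p2 14414321 0 1897)), .inr 27,
  .inl (.ag (.p2 61 0 3) (.p1 4654163 0 1078)), .inr 13, .inr 3, .inr 89, .inr 49, .inr 3,
  .inl (.ag (.p1 11 0 1) (.p2 24114509 0 2454)), .inr 5, .inr 9, .inr 29,
  .inl (.ag (.p1 11 0 1) (.p2 24159893 0 2457)), .inr 3, .inr 5, .inr 11, .inr 3,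
  .inl (.ag (.p1 3 0 0) (.ag (.p1 3 0 0) (.p1 72650051 0 4261))), .inr 289, .inr 9, .inr 7,
  .inr 113, .inr 3, .inr 43, .inr 25, .inr 3, .inr 11, .inr 7, .inr 81, .inr 5,
  .inl (.ag (.p1 11 0 1) (.p1 48729299 0 3489)), .inr 3,
  .inl (.ag (.p2 5 1 0) (.p1 11255747 0 1676)), .inr 71, .inr 3, .inr 17,
  .inl (.ag (.p1 83 0 4) (.p2 3490441 0 933)), .inr 9, .inr 37, .inr 5, .inr 3, .inr 7, .inr 13,
  .inr 3, .inr 5, .inl (.ag (.p1 3 0 0) (.ag (.p2 5 1 0) (.p2 2831069 0 840))), .inr 9,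
  .inl (.ag (.p1 3 0 0) (.ag (.p1 3 0 0) (.ag (.p1 3 0 0) (.p2 18419117 0 2145)))), .inr 7,
  .inr 3, .inr 41, .inl (.ag (.p1 3 0 0) (.ag (.p1 3 0 0) (.p1 73813871 0 4295))), .inr 3,
  .inl (.ag (.p1 3 0 0) (.ag (.p1 3 0 0) (.p1 73882619 0 4297))), .inr 5, .inr 27]

theorem tbl3_ok : table 4200 tbl3 = true := by decide +kernel

theorem tbl3_len : tbl3.length = 100 := by decide +kernel

theorem had_sq {v : ℕ} (hv : IsPrimePow v) (hv4 : v % 4 = 3) (hx : v ∉ exc)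
    (hlo : 15600 ≤ v) (hhi : v < 17200) : Pool.Agent.H108R3.Had.HasHad (v ^ 2 - 1) := by
  by_cases h0 : v < 16000
  · exact table_spec tbl0 3900 tbl0_ok v hv4 (by omega) (by rw [tbl0_len]; omega) hv hx
  by_cases h1 : v < 16400
  · exact table_spec tbl1 4000 tbl1_ok v hv4 (by omega) (by rw [tbl1_len]; omega) hv hx
  by_cases h2 : v < 16800
  · exact table_spec tbl2 4100 tbl2_ok v hv4 (by omega) (by rw [tbl2_len]; omega) hv hx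
  by_cases h3 : v < 17200
  · exact table_spec tbl3 4200 tbl3_ok v hv4 (by omega) (by rw [tbl3_len]; omega) hv hx
  omega

end Pool.Agent.K9h69.Menon.T5
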