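import Pool.Agent.K9h69.Menon.Cert

/-!
# Derivations of Hadamard matrices of order `v ^ 2 - 1` for prime powers `v ≡ 3 (mod 4)`,
`17200 ≤ v < 18800`
-/

set_option autoImplicit false

namespace Pool.Agent.K9h69.Menon.T6

/-- part 0 of the table -/
def tbl0 : List (Cert ⊕ ℕ) := [
  .inl (.ag (.p2 101 0 4) (.p1 2901403 0 851)),
  .inl (.ag (.p1 3 0 0) (.ag (.p2 17 0 1) (.p2 4112233 0 1013))), .inr 3, .inr 5, .inr 67, .inr 3,
  .inr 7, .inl (.ag (.p1 3 0 0) (.ag (.p1 3 0 0) (.ag (.p1 3 0 0) (.p2 18556709 0 2153)))),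
  .inr 9, .inl (.ag (.p1 3 0 0) (.ag (.p1 11 0 1) (.p1 24765259 0 2487))), .inr 43, .inr 3,
  .inr 13, .inr 5, .inr 3, .inr 61, .inr 31, .inr 9, .inr 25, .inr 37, .inr 3, .inr 59,
  .inl (.ag (.p1 3 0 0) (.p1 149489339 0 6112)), .inr 3, .inl (.p1 299255399 0 8648), .inr 1331,
  .inr 27, .inr 7, .inr 5, .inr 3, .inr 17, .inl (.ag (.p1 3 0 0) (.p1 150112463 0 6125)), .inr 3,
  .inr 5, .inr 7, .inr 9, .inr 11,
  .inl (.ag (.p1 3 0 0) (.ag (.p1 19 0 1) (.p1 15052859 0 1939))), .inr 3,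
  .inl (.ag (.p1 3 0 0) (.ag (.p1 3 0 0) (.ag (.p1 3 0 0) (.p2 18833429 0 2169)))), .inr 97,
  .inr 3, .inr 29, .inr 125, .inr 9, .inl (.ag (.p1 3 0 0) (.p1 151084343 0 6145)),
  .inl (.ag (.p1 11 0 1) (.p2 25192313 0 2509)), .inr 3, .inr 5, .inr 127, .inr 3, .inr 169,
  .inr 23, .inr 81, .inl (.ag (.p1 19 0 1) (.p2 15171077 0 1947)), .inr 7, .inr 3,
  .inl (.ag (.p1 3 0 0) (.ag (.p1 19 0 1) (.p1 15191987 0 1948))), .inr 5, .inr 3,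
  .inl (.p1 304258247 0 8720), .inr 73, .inr 9, .inr 5, .inr 13, .inr 3,
  .inl (.p1 305096087 0 8732), .inl (.p1 305235839 0 8734), .inr 3, .inr 7,
  .inl (.ag (.p1 11 0 1) (.p2 25471273 0 2522)), .inr 9,
  .inl (.ag (.p1 3 0 0) (.p2 76483769 0 4372)), .inr 5, .inr 3, .inr 23, .inr 7, .inr 3, .inr 5,
  .inl (.ag (.p1 3 0 0) (.ag (.p1 3 0 0) (.ag (.p1 3 0 0) (.p2 19182209 0 2189)))), .inr 27,
  .inr 17, .inr 47, .inr 3, .inl (.ag (.p1 3 0 0) (.p2 76904129 0 4384)), .inr 53, .inr 3,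
  .inl (.ag (.p1 3 0 0) (.ag (.p1 3 0 0) (.ag (.p1 19 0 1) (.p1 7700939 0 1387)))), .inr 5,
  .inr 9, .inr 7, .inr 11, .inr 3, .inr 25, .inl (.ag (.p1 43 0 2) (.p2 7023209 0 1324)), .inr 3,
  .inr 43, .inr 49, .inr 9, .inl (.p1 309724799 0 8798)]

theorem tbl0_ok : table 4300 tbl0 = true := by decide +kernel

theorem tbl0_len : tbl0.length = 100 := by decide +kernel

/-- part 1 of the table -/
def tbl1 : List (Cert ⊕ ℕ) := [
  .inr 29, .inr 3, .inr 11, .inr 5, .inr 3, .inl (.ag (.p1 3 0 0) (.p1 155285063 0 6230)),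
  .inl (.ag (.p1 3 0 0) (.p2 77677781 0 4406)), .inr 27, .inr 5, .inr 31, .inr 3, .inr 7, .inr 19,
  .inr 3, .inl (.ag (.p2 17 0 1) (.p1 17324459 0 2080)), .inr 17, .inr 9, .inr 41, .inr 25,
  .inr 3, .inl (.p1 312688487 0 8840), .inr 23, .inr 3, .inr 5, .inr 11, .inr 9,
  .inl (.ag (.p1 11 0 1) (.p2 26128153 0 2555)), .inr 89, .inr 3, .inr 13, .inr 37, .inr 3,
  .inr 7, .inr 5, .inr 243, .inr 11, .inl (.p1 314956007 0 8872), .inr 3, .inr 5, .inr 7, .inr 3,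
  .inr 109, .inr 13, .inr 9, .inr 23, .inl (.ag (.p1 3 0 0) (.p1 158117543 0 6286)), .inr 3,
  .inl (.ag (.p1 3 0 0) (.ag (.p1 3 0 0) (.ag (.p1 3 0 0) (.ag (.p1 3 0 0) (.p1 19782479 0 2223))))),
  .inr 5, .inr 3, .inr 19,
  .inl (.ag (.p1 3 0 0) (.ag (.p1 3 0 0) (.ag (.p1 3 0 0) (.p2 19818077 0 2225)))), .inr 9,
  .inr 5, .inr 103, .inr 3, .inl (.ag (.p1 11 0 1) (.p1 52966987 0 3638)), .inr 11, .inr 3,
  .inl (.ag (.p1 3 0 0) (.p1 159114959 0 6306)), .inr 7, .inr 27, .inl (.p1 318658199 0 8924),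
  .inr 5, .inr 3, .inl (.ag (.p1 3 0 0) (.ag (.p2 5 1 0) (.p2 3068141 0 875))), .inr 17, .inr 3,
  .inr 125, .inr 19, .inr 9, .inr 31, .inl (.ag (.p1 3 2 0) (.p2 11431709 0 1690)), .inr 3,
  .inr 7, .inl (.ag (.p1 3 0 0) (.ag (.p1 3 0 0) (.ag (.p2 2237 0 23) (.p1 35803 0 94)))), .inr 3,
  .inl (.ag (.p1 3 0 0) (.p1 160401959 0 6331)), .inr 5, .inr 9,
  .inl (.ag (.mi 29 0 2 (.p1 3 2 0)) (.p2 2769257 0 831)), .inr 7, .inr 3, .inr 5,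
  .inl (.ag (.p1 3 0 0) (.p1 160903859 0 6341)), .inr 3, .inr 131, .inr 29, .inr 27,
  .inl (.ag (.p1 3 0 0) (.p1 161262839 0 6348)), .inr 11, .inr 3, .inl (.p1 322956839 0 8984),
  .inr 25, .inr 3, .inr 49, .inl (.ag (.p1 11 0 1) (.p2 26961013 0 2595)), .inr 9, .inr 5, .inr 41]

theorem tbl1_ok : table 4400 tbl1 = true := by decide +kernel

theorem tbl1_len : tbl1.length = 100 := by decide +kernel

/-- part 2 of the table -/
def tbl2 : List (Cert ⊕ ℕ) := [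
  .inr 3, .inr 11, .inr 7, .inr 3, .inr 37, .inr 67, .inr 9, .inr 13, .inr 5, .inr 3,
  .inl (.ag (.p1 11 0 1) (.p1 54258307 0 3682)), .inl (.p1 325694207 0 9022), .inr 3, .inr 5,
  .inl (.ag (.p1 3 0 0) (.p1 163063739 0 6384)), .inr 81, .inr 7, .inr 17, .inr 3, .inr 101,
  .inr 169, .inr 3, .inr 79, .inr 5, .inr 9, .inr 43, .inr 19, .inr 3, .inr 5,
  .inl (.ag (.p1 3 0 0) (.ag (.p1 3 0 0) (.p1 82074539 0 4529))), .inr 3,
  .inl (.ag (.p1 3 0 0) (.ag (.p1 3 0 0) (.ag (.p2 17 0 1) (.p2 2281861 0 754)))),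
  .inl (.ag (.p1 19 0 1) (.p2 16436657 0 2026)), .inr 9, .inr 11,
  .inl (.ag (.p1 3 0 0) (.ag (.p1 3 0 0) (.ag (.p1 3 0 0) (.ag (.p2 17 0 1) (.p1 2285891 0 755))))),
  .inr 3, .inr 7, .inr 5, .inr 3, .inr 41, .inr 37, .inr 27, .inr 25, .inr 343, .inr 3, .inr 13,
  .inl (.ag (.p1 3 0 0) (.ag (.p1 3 0 0) (.ag (.p1 59 0 3) (.p2 1378801 0 586)))), .inr 3,
  .inl (.p1 331203599 0 9098), .inr 109, .inr 9, .inl (.ag (.p1 59 0 3) (.p1 11054683 0 1661)),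
  .inr 5, .inr 3, .inl (.p1 332077727 0 9110), .inr 11, .inr 3, .inr 5, .inr 13, .inr 9, .inr 71,
  .inl (.ag (.p1 19 0 1) (.p2 16654949 0 2040)), .inr 3, .inr 19, .inr 7, .inr 3, .inr 121,
  .inr 25, .inr 27, .inr 47,
  .inl (.ag (.p1 3 0 0) (.ag (.p1 3 0 0) (.ag (.p1 3 0 0) (.p2 20900897 0 2285)))), .inr 3,
  .inr 5, .inr 29, .inr 3, .inl (.ag (.p1 3 0 0) (.p1 167573123 0 6472)),
  .inl (.ag (.p1 3 0 0) (.ag (.p1 83 0 4) (.p1 3991579 0 998))), .inr 9, .inr 7, .inr 73, .inr 3,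
  .inr 23, .inr 5, .inr 3, .inr 13, .inr 7, .inr 9, .inr 5, .inr 11, .inr 3,
  .inl (.ag (.p1 3 0 0) (.ag (.p1 3 0 0) (.ag (.p1 3 0 0) (.ag (.p1 3 0 0) (.ag (.p1 3 0 0) (.p2 5271041 0 1147)))))),
  .inl (.ag (.p1 3 0 0) (.p1 168746819 0 6494)), .inr 3,
  .inl (.ag (.p1 3 0 0) (.p2 84446909 0 4594)), .inr 31, .inr 81, .inr 53, .inr 5, .inr 3]

theorem tbl2_ok : table 4500 tbl2 = true := by decide +kernel

theorem tbl2_len : tbl2.length = 100 := by decide +kernel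

/-- part 3 of the table -/
def tbl3 : List (Cert ⊕ ℕ) := [
  .inr 7, .inr 79, .inr 3, .inr 5, .inr 113, .inr 9,
  .inl (.ag (.p1 3 0 0) (.p1 169777163 0 6514)), .inr 7, .inr 3,
  .inl (.ag (.p1 3 0 0) (.ag (.p1 19 0 1) (.p2 8499917 0 1457))), .inl (.p1 340144247 0 9220),
  .inr 3, .inl (.ag (.p1 11 0 1) (.p2 28369949 0 2662)), .inr 5, .inr 9, .inr 37, .inr 59, .inr 3,
  .inr 25, .inr 17, .inr 3, .inr 7, .inr 11, .inr 27, .inr 13, .inl (.p1 342361007 0 9250),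
  .inr 3, .inr 107, .inr 5, .inr 3, .inl (.ag (.p1 3 0 0) (.p1 171550763 0 6548)), .inr 97,
  .inr 9, .inr 5, .inl (.ag (.p1 11 0 1) (.p1 57282419 0 3783)), .inr 3, .inr 17, .inr 13, .inr 3,
  .inr 67, .inr 19, .inr 9, .inr 49, .inr 25, .inr 3,
  .inl (.ag (.p1 3 0 0) (.p1 172663943 0 6569)), .inl (.ag (.p1 3 0 0) (.p1 172738283 0 6570)),
  .inr 3, .inr 5, .inr 7, .inr 27, .inr 23, .inr 37, .inr 3, .inr 43, .inr 11, .inr 3, .inr 31,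
  .inr 5, .inr 9, .inr 103, .inr 29, .inr 3, .inr 5, .inr 47, .inr 3, .inr 11,
  .inl (.ag (.p1 3 0 0) (.ag (.p1 3 0 0) (.ag (.mi 389 0 9 (.p2 193 0 6)) (.p1 112019 0 166)))),
  .inr 9, .inl (.ag (.p1 3 0 0) (.ag (.p1 3 0 0) (.p1 87226259 0 4669))), .inr 7, .inr 3,
  .inl (.ag (.p1 3 0 0) (.p1 174676739 0 6607)), .inr 5, .inr 3, .inr 59, .inr 13, .inr 243,
  .inr 5, .inl (.p1 350400959 0 9358), .inr 3, .inr 61,
  .inl (.ag (.p1 139 0 5) (.p2 2506073 0 791)), .inr 3, .inr 7,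
  .inl (.ag (.p1 3 0 0) (.ag (.p1 9371 0 47) (.p1 37483 0 96))), .inr 9, .inr 17, .inr 5, .inr 3,
  .inr 29, .inr 49, .inr 3, .inr 25, .inr 89, .inr 9,
  .inl (.ag (.p1 11 0 1) (.p2 29412613 0 2711)), .inr 19, .inr 3, .inr 11]

theorem tbl3_ok : table 4600 tbl3 = true := by decide +kernel

theorem tbl3_len : tbl3.length = 100 := by decide +kernel

theorem had_sq {v : ℕ} (hv : IsPrimePow v) (hv4 : v % 4 = 3) (hx : v ∉ exc)
    (hlo : 17200 ≤ v) (hhi : v < 18800) : Pool.Agent.H108R3.Had.HasHad (v ^ 2 - 1) := by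
  by_cases h0 : v < 17600
  · exact table_spec tbl0 4300 tbl0_ok v hv4 (by omega) (by rw [tbl0_len]; omega) hv hx
  by_cases h1 : v < 18000
  · exact table_spec tbl1 4400 tbl1_ok v hv4 (by omega) (by rw [tbl1_len]; omega) hv hx
  by_cases h2 : v < 18400
  · exact table_spec tbl2 4500 tbl2_ok v hv4 (by omega) (by rw [tbl2_len]; omega) hv hx
  by_cases h3 : v < 18800
  · exact table_spec tbl3 4600 tbl3_ok v hv4 (by omega) (by rw [tbl3_len]; omega) hv hx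
  omega

end Pool.Agent.K9h69.Menon.T6
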