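import Pool.Agent.K9h69.Menon.Cert

/-!
# Derivations of Hadamard matrices of order `v ^ 2 - 1` for prime powers `v ≡ 3 (mod 4)`,
`18800 ≤ v < 20000`
-/

set_option autoImplicit false

namespace Pool.Agent.K9h69.Menon.T7

/-- part 0 of the table -/
def tbl0 : List (Cert ⊕ ℕ) := [
  .inl (.ag (.p2 101 0 4) (.p2 1733101 0 657)), .inr 3, .inr 13, .inr 5, .inr 27, .inr 7, .inr 67,
  .inr 3, .inr 5, .inl (.p1 354907919 0 9418), .inr 3, .inr 47, .inr 7, .inr 9,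
  .inl (.ag (.p1 3 0 0) (.p2 88915469 0 4714)), .inr 13, .inr 3, .inr 113, .inr 125, .inr 3,
  .inr 23, .inr 11, .inr 9, .inr 5, .inl (.p1 357172199 0 9448), .inr 3, .inr 7,
  .inl (.ag (.p1 3 0 0) (.ag (.p1 3 0 0) (.ag (.p1 3 0 0) (.ag (.p1 19 0 1) (.p2 2235161 0 747))))),
  .inr 3, .inl (.p1 357928559 0 9458), .inr 127, .inr 27, .inr 11, .inr 5, .inr 3, .inr 19,
  .inl (.ag (.p1 18947 0 68) (.mi 9473 0 48 (.ag (.p1 3 0 0) (.ag (.p1 3 0 0) (.ag (.p1 3 0 0) (.ag (.p1 3 0 0) (.ag (.p1 3 0 0) (.ag (.p1 3 0 0) (.p2 73 0 3))))))))),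
  .inr 3, .inr 5,
  .inl (.ag (.p1 3 0 0) (.ag (.p1 3 0 0) (.ag (.p1 19 0 1) (.p1 8986091 0 1498)))), .inr 9,
  .inr 13, .inr 61, .inr 3, .inl (.p1 360202439 0 9488), .inr 41, .inr 3, .inr 7, .inr 5, .inr 9,
  .inr 31, .inr 83, .inr 3, .inr 5, .inr 7, .inr 3, .inr 53,
  .inl (.ag (.p1 3 0 0) (.p1 181089479 0 6727)), .inr 81, .inr 79, .inr 137, .inr 3,
  .inl (.ag (.p1 3 0 0) (.p2 90735149 0 4762)), .inr 5, .inr 3, .inr 11, .inr 23, .inr 9, .inr 25,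
  .inl (.ag (.p1 3 0 0) (.ag (.p1 3 0 0) (.p1 91002059 0 4769))), .inr 3,
  .inl (.ag (.p1 3 0 0) (.ag (.p1 3 0 0) (.ag (.p1 3 0 0) (.p2 22769597 0 2385)))), .inr 17,
  .inr 3, .inr 71, .inr 7, .inr 9, .inr 29, .inr 5, .inr 3, .inr 13, .inr 31, .inr 3, .inr 5,
  .inl (.ag (.p1 3 0 0) (.p1 183150659 0 6766)), .inr 27, .inr 41, .inr 11, .inr 3, .inr 49,
  .inl (.ag (.p1 3 0 0) (.p1 183610283 0 6774)), .inr 3, .inr 19, .inr 25, .inr 9,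
  .inl (.ag (.p1 3 0 0) (.p1 183993743 0 6781)), .inr 7, .inr 3, .inr 5, .inr 73]

theorem tbl0_ok : table 4700 tbl0 = true := by decide +kernel

theorem tbl0_len : tbl0.length = 100 := by decide +kernel

/-- part 1 of the table -/
def tbl1 : List (Cert ⊕ ℕ) := [
  .inr 3, .inl (.ag (.p1 3 0 0) (.ag (.p1 3 0 0) (.p1 92227211 0 4801))),
  .inl (.ag (.p1 59 0 3) (.p1 12302083 0 1753)), .inr 9,
  .inl (.ag (.p1 19 0 1) (.p2 18468497 0 2148)), .inr 47, .inr 3,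
  .inl (.ag (.p1 3 0 0) (.ag (.p1 3 0 0) (.ag (.p1 3 0 0) (.ag (.p1 59 0 3) (.p1 1540963 0 620))))),
  .inr 5, .inr 3, .inr 7, .inr 19, .inr 27, .inr 5, .inl (.ag (.p1 3 0 0) (.p1 185454539 0 6808)),
  .inr 3, .inl (.ag (.p1 11 0 1) (.p1 61869547 0 3932)), .inr 7, .inr 3, .inr 13, .inr 11, .inr 9,
  .inr 101, .inr 5, .inr 3, .inr 97, .inr 43, .inr 3, .inr 5,
  .inl (.ag (.p1 3 0 0) (.p1 186611879 0 6829)), .inr 9, .inr 7, .inr 13, .inr 3, .inr 83,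
  .inr 23, .inr 3, .inr 37, .inr 5, .inr 81, .inr 289, .inr 107, .inr 3, .inr 625,
  .inl (.ag (.p1 227 0 7) (.p1 3294259 0 907)), .inr 3,
  .inl (.ag (.p1 3 0 0) (.p2 93963941 0 4846)),
  .inl (.ag (.p1 3 0 0) (.ag (.p1 3 0 0) (.ag (.p1 3 0 0) (.ag (.p1 3 0 0) (.p1 23500679 0 2423))))),
  .inr 9, .inr 19, .inl (.ag (.p1 83 0 4) (.p1 8963723 0 1496)), .inr 3, .inr 7, .inr 5, .inr 3,
  .inl (.ag (.p1 3 0 0) (.ag (.p1 3 0 0) (.ag (.p1 3 0 0) (.ag (.p2 1213 0 16) (.p2 19421 0 69))))),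
  .inl (.ag (.p1 3 0 0) (.p1 188704163 0 6867)), .inr 9, .inr 5, .inr 7, .inr 3,
  .inl (.ag (.p1 3 0 0) (.ag (.p2 5 1 0) (.p1 7272803 0 1347))), .inr 53, .inr 3, .inr 11,
  .inl (.ag (.p1 3 0 0) (.p1 189404183 0 6880)), .inr 27,
  .inl (.ag (.p1 3 0 0) (.p1 189559919 0 6883)), .inr 25, .inr 3,
  .inl (.ag (.p2 101 0 4) (.p2 1860721 0 681)), .inr 13, .inr 3, .inr 5, .inr 17, .inr 9, .inr 0,
  .inr 109, .inr 3, .inr 131, .inr 7, .inr 3, .inl (.p1 381459959 0 9764), .inr 5, .inr 9,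
  .inl (.ag (.p1 3 0 0) (.ag (.p1 3 2 0) (.p2 6820157 0 1305))), .inr 11, .inr 3, .inr 5,
  .inl (.ag (.p1 3 0 0) (.ag (.p1 3 0 0) (.p1 95638619 0 4889))), .inr 3, .inr 17,
  .inl (.ag (.p1 3 0 0) (.p2 95756009 0 4892)), .inr 27, .inr 7,
  .inl (.ag (.p1 3 0 0) (.ag (.p1 3 0 0) (.p1 95873471 0 4895))), .inr 3, .inr 11, .inr 5, .inr 3]

theorem tbl1_ok : table 4800 tbl1 = true := by decide +kernel

theorem tbl1_len : tbl1.length = 100 := by decide +kernel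

/-- part 2 of the table -/
def tbl2 : List (Cert ⊕ ℕ) := [
  .inl (.ag (.p2 5 1 0) (.p1 14779907 0 1921)), .inr 7, .inr 9, .inr 5, .inr 23, .inr 3, .inr 19,
  .inr 67, .inr 3, .inr 41, .inr 13, .inr 9, .inr 43, .inr 5, .inr 3, .inr 7, .inr 71, .inr 3,
  .inr 25, .inr 11, .inl (.ag (.p2 181 0 6) (.p2 1064341 0 515)),
  .inl (.ag (.p1 3 0 0) (.p1 193788983 0 6959)), .inr 7, .inr 3, .inl (.p1 388050599 0 9848),
  .inr 17, .inr 3, .inr 23, .inr 5, .inr 9, .inr 121,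
  .inl (.ag (.p1 3 0 0) (.ag (.p1 3 0 0) (.ag (.p1 3 0 0) (.p2 24322157 0 2465)))), .inr 3,
  .inr 5, .inl (.ag (.p1 19 0 1) (.p1 38962811 0 3120)), .inr 3, .inr 49,
  .inl (.ag (.p1 3 0 0) (.ag (.p1 19 0 1) (.p2 9752549 0 1560))), .inr 9,
  .inl (.ag (.p1 3 0 0) (.ag (.p1 3 0 0) (.p1 97604519 0 4939))), .inl (.p1 390576167 0 9880),
  .inr 3, .inr 17, .inr 25, .inr 3, .inr 73, .inr 47, .inr 27, .inr 5, .inr 13, .inr 3, .inr 29,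
  .inr 11, .inr 3, .inl (.ag (.p1 3 0 0) (.p2 98198189 0 4954)), .inr 43, .inr 9, .inr 7, .inr 5,
  .inr 3, .inl (.p1 393744647 0 9920), .inr 89, .inr 3, .inr 5, .inr 7, .inr 9,
  .inl (.ag (.p1 11 0 1) (.p2 32891473 0 2867)), .inr 31, .inr 3, .inr 103, .inr 59, .inr 3,
  .inl (.ag (.p1 11 0 1) (.p2 32970989 0 2870)), .inr 5, .inr 27, .inr 13, .inr 17, .inr 3,
  .inr 5, .inl (.ag (.p1 3 0 0) (.ag (.p1 3 0 0) (.p1 99191639 0 4979))), .inr 3,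
  .inl (.ag (.p1 3 0 0) (.ag (.p1 11 0 1) (.p1 33090443 0 2875))), .inr 19, .inr 9, .inr 127,
  .inr 49, .inr 3, .inr 71, .inr 5, .inr 3, .inl (.ag (.p1 11 0 1) (.p1 66420227 0 4074)),
  .inr 41, .inr 9, .inr 25, .inl (.ag (.p1 11 0 1) (.p2 33263369 0 2883)), .inr 3, .inr 11,
  .inl (.ag (.p1 3 0 0) (.ag (.p1 3 2 0) (.p2 7136429 0 1335))), .inr 3, .inr 7]

theorem tbl2_ok : table 4900 tbl2 = true := by decide +kernel

theorem tbl2_len : tbl2.length = 100 := by decide +kernel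

theorem had_sq {v : ℕ} (hv : IsPrimePow v) (hv4 : v % 4 = 3) (hx : v ∉ exc)
    (hlo : 18800 ≤ v) (hhi : v < 20000) : Pool.Agent.H108R3.Had.HasHad (v ^ 2 - 1) := by
  by_cases h0 : v < 19200
  · exact table_spec tbl0 4700 tbl0_ok v hv4 (by omega) (by rw [tbl0_len]; omega) hv hx
  by_cases h1 : v < 19600
  · exact table_spec tbl1 4800 tbl1_ok v hv4 (by omega) (by rw [tbl1_len]; omega) hv hx
  by_cases h2 : v < 20000
  · exact table_spec tbl2 4900 tbl2_ok v hv4 (by omega) (by rw [tbl2_len]; omega) hv hx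
  omega

end Pool.Agent.K9h69.Menon.T7
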