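import Pool.Agent.K9h69.Menon.Table0
import Pool.Agent.K9h69.Menon.Table1
import Pool.Agent.K9h69.Menon.Table2
import Pool.Agent.K9h69.Menon.Table3
import Pool.Agent.K9h69.Menon.Table4
import Pool.Agent.K9h69.Menon.Table5
import Pool.Agent.K9h69.Menon.Table6
import Pool.Agent.K9h69.Menon.Table7

/-!
# Hadamard matrices of order `v ^ 2 - 1` for prime powers `v ≡ 3 (mod 4)`, `v < 20000`
-/

set_option autoImplicit false

namespace Pool.Agent.K9h69.Menon

/-- For every prime power `v ≡ 3 (mod 4)`, `v < 20000`, which is not in the list `exc` of eight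
exceptions, there is a Hadamard matrix of order `v ^ 2 - 1`. -/
theorem had_sq_sub_one {v : ℕ} (hv : IsPrimePow v) (hv4 : v % 4 = 3) (hx : v ∉ exc)
    (h : v < 20000) : Pool.Agent.H108R3.Had.HasHad (v ^ 2 - 1) := by
  by_cases h0 : v < 6400
  · exact T0.had_sq hv hv4 hx (by omega) h0
  by_cases h1 : v < 9600
  · exact T1.had_sq hv hv4 hx (by omega) h1
  by_cases h2 : v < 12000
  · exact T2.had_sq hv hv4 hx (by omega) h2
  by_cases h3 : v < 13600
  · exact T3.had_sq hv hv4 hx (by omega) h3
  by_cases h4 : v < 15600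
  · exact T4.had_sq hv hv4 hx (by omega) h4
  by_cases h5 : v < 17200
  · exact T5.had_sq hv hv4 hx (by omega) h5
  by_cases h6 : v < 18800
  · exact T6.had_sq hv hv4 hx (by omega) h6
  by_cases h7 : v < 20000
  · exact T7.had_sq hv hv4 hx (by omega) h7
  omega

end Pool.Agent.K9h69.Menon
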