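import Pool.Agent.K9h69.Menon.Cert

/-!
# Derivations of Hadamard matrices of order `v ^ 2 - 1` for prime powers `v ≡ 3 (mod 4)`,
`0 ≤ v < 6400`
-/

set_option autoImplicit false

namespace Pool.Agent.K9h69.Menon.T0

/-- part 0 of the table -/
def tbl0 : List (Cert ⊕ ℕ) := [
  .inl (.p1 7 0 0), .inl (.p1 47 0 2), .inl (.ag (.p1 3 0 0) (.p1 59 0 3)), .inr 3,
  .inl (.p1 359 0 8), .inl (.ag (.p1 3 0 0) (.p1 263 0 7)), .inl (.p1 727 0 12),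
  .inl (.ag (.p1 3 0 0) (.p1 479 0 10)), .inr 5, .inr 3, .inl (.p1 1847 0 20),
  .inl (.p1 2207 0 22), .inr 3, .inr 5, .inl (.ag (.p1 11 0 1) (.p2 17 1 1)), .inr 9,
  .inl (.ag (.p1 3 0 0) (.p1 2243 0 23)), .inl (.p1 5039 0 34), .inr 3,
  .inl (.ag (.p1 3 0 0) (.p1 3119 0 27)), .inl (.ag (.p1 3 0 0) (.p2 1721 0 20)), .inr 3, .inr 7,
  .inr 5, .inr 9, .inl (.p1 10607 0 50), .inl (.p1 11447 0 52), .inr 3, .inr 5, .inr 7, .inr 3,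
  .inl (.p1 16127 0 62), .inl (.p1 17159 0 64), .inr 27, .inl (.p1 19319 0 68), .inr 11, .inr 3,
  .inl (.ag (.p1 3 0 0) (.p1 11399 0 52)), .inr 5, .inr 3,
  .inl (.ag (.p1 11 0 1) (.p2 2213 0 23)),
  .inl (.ag (.p1 3 0 0) (.ag (.p1 3 0 0) (.p1 6971 0 41))), .inr 9, .inr 25,
  .inl (.ag (.p1 3 0 0) (.p2 8009 0 44)), .inr 3, .inr 11, .inl (.p1 36479 0 94), .inr 3,
  .inl (.ag (.p1 3 0 0) (.ag (.p1 11 0 1) (.p1 3299 0 28))), .inr 7, .inr 9,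
  .inl (.p1 44519 0 104), .inr 5, .inr 3, .inl (.p1 49727 0 110),
  .inl (.ag (.p1 3 0 0) (.p1 25763 0 79)), .inr 3, .inr 5, .inl (.p1 57119 0 118),
  .inl (.ag (.p1 43 0 2) (.p1 2683 0 25)), .inr 13, .inl (.ag (.p1 3 0 0) (.p2 15749 0 62)),
  .inr 3, .inr 7, .inl (.ag (.p1 3 0 0) (.p1 34583 0 92)), .inr 3,
  .inl (.ag (.p1 3 0 0) (.ag (.p1 3 0 0) (.ag (.p2 17 0 1) (.p1 1019 0 15)))), .inr 25, .inr 9,
  .inl (.ag (.p1 3 0 0) (.p2 20021 0 70)), .inr 7, .inr 3, .inr 5, .inr 13, .inr 3,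
  .inl (.ag (.p1 3 0 0) (.p1 47123 0 108)),
  .inl (.ag (.p1 3 0 0) (.ag (.p1 3 0 0) (.p1 24179 0 77))), .inr 9, .inr 11, .inr 17, .inr 3,
  .inl (.ag (.p1 3 0 0) (.p1 54779 0 116)), .inr 5, .inr 3,
  .inl (.ag (.p1 3 0 0) (.ag (.p1 3 0 0) (.p1 29411 0 85))),
  .inl (.ag (.p1 347 0 8) (.p1 691 0 12)), .inr 27, .inr 5, .inl (.p1 128879 0 178), .inr 3,
  .inl (.ag (.p1 3 0 0) (.p1 67343 0 129)), .inr 7, .inr 3,
  .inl (.ag (.p1 11 0 1) (.p2 11969 0 54)),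
  .inl (.ag (.p1 3 0 0) (.ag (.p1 3 0 0) (.p1 36671 0 95))), .inr 9, .inr 17, .inr 5, .inr 3]

theorem tbl0_ok : table 0 tbl0 = true := by decide +kernel

theorem tbl0_len : tbl0.length = 100 := by decide +kernel

/-- part 1 of the table -/
def tbl1 : List (Cert ⊕ ℕ) := [
  .inr 13, .inr 11, .inr 3, .inr 5, .inl (.ag (.p1 3 0 0) (.p2 43889 0 104)), .inr 9, .inr 7,
  .inl (.ag (.p1 3 0 0) (.ag (.p1 3 0 0) (.p1 46439 0 107))), .inr 3,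
  .inl (.ag (.p1 3 0 0) (.ag (.p1 3 0 0) (.p1 48179 0 109))), .inl (.p1 196247 0 220), .inr 3,
  .inr 11, .inr 5, .inr 27, .inl (.ag (.p1 3 0 0) (.p1 107183 0 163)), .inl (.p1 218087 0 232),
  .inr 3, .inr 25,
  .inl (.ag (.p1 3 0 0) (.ag (.p1 3 0 0) (.ag (.p1 3 0 0) (.ag (.p1 11 0 1) (.p2 2389 0 23))))),
  .inr 3, .inl (.ag (.p1 3 0 0) (.p1 118583 0 171)), .inl (.p1 241079 0 244), .inr 9,
  .inl (.ag (.p1 11 0 1) (.p2 20749 0 71)),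
  .inl (.ag (.p1 3 0 0) (.ag (.p1 3 2 0) (.p2 4517 0 33))), .inr 3, .inr 7, .inr 5, .inr 3,
  .inl (.p1 273527 0 260), .inr 17, .inr 9, .inr 5, .inr 49, .inr 3,
  .inl (.ag (.p1 3 0 0) (.p1 149603 0 192)), .inr 19, .inr 3, .inr 13,
  .inl (.ag (.p1 3 0 0) (.p2 79241 0 140)), .inr 81, .inl (.ag (.p1 3 0 0) (.p1 163019 0 201)),
  .inr 25, .inr 3, .inr 11, .inl (.p1 344567 0 292), .inr 3, .inr 5,
  .inl (.ag (.p1 3 0 0) (.ag (.p1 19 0 1) (.p1 17939 0 66))), .inr 9, .inl (.p1 368447 0 302),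
  .inr 13, .inr 3, .inl (.ag (.p1 3 0 0) (.p1 191579 0 218)), .inr 7, .inr 3,
  .inl (.ag (.p1 3 0 0) (.ag (.p1 11 0 1) (.p1 33179 0 90))), .inr 5, .inr 9,
  .inl (.ag (.p1 3 2 0) (.p1 29531 0 85)),
  .inl (.ag (.p1 3 0 0) (.ag (.p1 3 0 0) (.p1 104651 0 161))), .inr 3, .inr 5,
  .inl (.ag (.p1 11 0 1) (.p1 72379 0 134)), .inr 3, .inr 23, .inr 11, .inr 27, .inr 7,
  .inl (.ag (.p1 11 0 1) (.p1 77747 0 138)), .inr 3, .inl (.ag (.p1 11 0 1) (.p1 79579 0 140)),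
  .inr 5, .inr 3, .inr 19, .inr 7, .inr 9, .inr 5, .inl (.p1 516959 0 358), .inr 3,
  .inl (.p1 528527 0 362), .inr 17, .inr 3, .inl (.ag (.p1 3 0 0) (.p1 273059 0 260)),
  .inl (.p1 552047 0 370), .inr 9, .inl (.p1 563999 0 374), .inr 5, .inr 3, .inr 7, .inr 13,
  .inr 3, .inr 25, .inr 19, .inr 27, .inl (.ag (.p1 3 0 0) (.p2 154841 0 196)), .inr 7, .inr 3,
  .inr 17]

theorem tbl1_ok : table 100 tbl1 = true := by decide +kernel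

theorem tbl1_len : tbl1.length = 100 := by decide +kernel

/-- part 2 of the table -/
def tbl2 : List (Cert ⊕ ℕ) := [
  .inr 11, .inr 3, .inl (.p1 657719 0 404), .inr 5, .inr 9,
  .inl (.ag (.p1 3 0 0) (.ag (.p1 11 0 1) (.p1 56443 0 118))),
  .inl (.ag (.p1 3 0 0) (.p1 341963 0 291)), .inr 3, .inr 5,
  .inl (.ag (.p1 3 0 0) (.p1 351959 0 296)), .inr 3, .inr 7, .inr 23, .inr 9,
  .inl (.ag (.p1 3 0 0) (.p1 368939 0 303)), .inl (.p1 744767 0 430), .inr 3, .inr 13, .inr 125,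
  .inr 3, .inl (.ag (.p1 3 2 0) (.p1 55691 0 117)), .inl (.ag (.p1 3 0 0) (.p1 393383 0 313)),
  .inr 81, .inr 5, .inr 29, .inr 3, .inl (.ag (.p1 3 0 0) (.p2 205661 0 226)),
  .inl (.ag (.p1 3 0 0) (.p1 414959 0 321)), .inr 3,
  .inl (.ag (.p1 3 0 0) (.ag (.p1 11 0 1) (.p1 70379 0 132))), .inr 13, .inr 9, .inr 49, .inr 5,
  .inr 3, .inr 23, .inl (.ag (.p1 3 0 0) (.p2 224201 0 236)), .inr 3, .inr 5, .inr 7, .inr 9,
  .inl (.ag (.p1 3 0 0) (.p1 467543 0 341)), .inl (.ag (.p1 11 0 1) (.p2 78569 0 139)), .inr 3,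
  .inr 11, .inl (.ag (.p1 11 0 1) (.p1 161047 0 200)), .inr 3,
  .inl (.ag (.p1 3 0 0) (.p1 491039 0 349)), .inr 5, .inr 27, .inr 17, .inr 19, .inr 3, .inr 5,
  .inl (.ag (.p1 11 0 1) (.p1 173059 0 207)), .inr 3, .inr 13,
  .inl (.ag (.p1 3 0 0) (.ag (.p1 3 0 0) (.p1 265739 0 257))), .inr 9,
  .inl (.ag (.p1 3 0 0) (.ag (.p1 3 0 0) (.p1 269879 0 259))), .inr 7, .inr 3,
  .inl (.p1 1104599 0 524), .inr 5, .inr 3, .inl (.ag (.p1 3 0 0) (.p1 564983 0 375)), .inr 11,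
  .inr 9, .inr 25, .inr 13, .inr 3,
  .inl (.ag (.p1 3 0 0) (.ag (.p1 3 0 0) (.ag (.p1 3 0 0) (.ag (.p1 3 0 0) (.p1 73847 0 135))))),
  .inl (.p1 1190279 0 544), .inr 3, .inr 7, .inl (.ag (.p1 3 0 0) (.p1 608303 0 389)), .inr 27,
  .inr 11, .inr 5, .inr 3, .inl (.ag (.p1 3 0 0) (.p2 315281 0 280)), .inr 49, .inr 3, .inr 5,
  .inr 17, .inr 9, .inr 31,
  .inl (.ag (.p1 3 0 0) (.ag (.p1 3 0 0) (.ag (.p1 3 0 0) (.ag (.p1 3 0 0) (.p1 82799 0 143))))),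
  .inr 3, .inr 19, .inl (.ag (.p1 3 0 0) (.p2 338141 0 290)), .inr 3,
  .inl (.ag (.p1 11 0 1) (.p1 228539 0 238)), .inr 25, .inr 9, .inr 7,
  .inl (.ag (.p1 11 0 1) (.p2 117413 0 170)), .inr 3, .inr 5, .inr 11]

theorem tbl2_ok : table 200 tbl2 = true := by decide +kernel

theorem tbl2_len : tbl2.length = 100 := by decide +kernel

/-- part 3 of the table -/
def tbl3 : List (Cert ⊕ ℕ) := [
  .inr 3, .inr 17, .inr 7, .inr 243, .inr 23, .inl (.p1 1495727 0 610), .inr 3,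
  .inl (.p1 1515359 0 614), .inr 5, .inr 3, .inr 11, .inr 29, .inr 9, .inr 5,
  .inl (.ag (.p1 3 0 0) (.p2 396269 0 314)), .inr 3, .inr 7, .inr 31, .inr 3,
  .inl (.ag (.p1 3 0 0) (.p1 817919 0 451)),
  .inl (.ag (.p1 1283 0 17) (.mi 641 0 12 (.ag (.p1 3 0 0) (.ag (.p1 3 0 0) (.ag (.p1 3 0 0) (.p1 79 0 3)))))),
  .inr 9, .inl (.ag (.p1 11 0 1) (.p2 138889 0 185)), .inr 5, .inr 3,
  .inl (.ag (.p1 3 0 0) (.ag (.p1 3 0 0) (.p1 424451 0 325))), .inl (.p1 1708247 0 652), .inr 3,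
  .inr 5, .inl (.ag (.p1 3 0 0) (.p1 869879 0 465)), .inr 27,
  .inl (.ag (.p1 3 0 0) (.ag (.p1 3 0 0) (.ag (.p2 5 1 0) (.p1 16931 0 64)))),
  .inl (.p1 1771559 0 664), .inr 3, .inr 13, .inr 17, .inr 3, .inr 7, .inr 5, .inr 9, .inr 29,
  .inl (.p1 1868687 0 682), .inr 3, .inr 125, .inr 7, .inr 3, .inr 19, .inr 13, .inr 9,
  .inl (.ag (.p1 3 0 0) (.p1 978599 0 494)), .inr 23, .inr 3, .inr 17, .inr 5, .inr 3,
  .inl (.ag (.p1 3 0 0) (.p1 1012463 0 502)), .inl (.ag (.p1 11 0 1) (.p2 169693 0 205)), .inr 27,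
  .inr 5,
  .inl (.ag (.p1 3 0 0) (.ag (.p1 3 0 0) (.ag (.p1 3 0 0) (.ag (.p1 3 0 0) (.p1 129419 0 179))))),
  .inr 3, .inl (.p1 2093807 0 722), .inl (.ag (.p1 11 0 1) (.p1 350899 0 295)), .inr 3,
  .inl (.ag (.p1 3 0 0) (.p1 1064339 0 515)), .inr 7, .inr 9,
  .inl (.ag (.p1 3 0 0) (.p1 1081919 0 519)), .inr 25, .inr 3,
  .inl (.ag (.p1 11 0 1) (.p1 366547 0 302)), .inl (.ag (.p1 3 0 0) (.p1 1105583 0 525)), .inr 3,
  .inr 5, .inl (.p1 2246999 0 748), .inr 9, .inr 11,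
  .inl (.ag (.p1 3 0 0) (.ag (.p1 19 0 1) (.p2 57077 0 118))), .inr 3, .inr 49,
  .inl (.ag (.p1 3 0 0) (.p2 579881 0 380)), .inr 3, .inl (.ag (.p1 3 0 0) (.p1 1171979 0 540)),
  .inr 5, .inr 81, .inl (.ag (.p1 3 0 0) (.ag (.mi 193 0 6 (.p1 191 0 6)) (.p1 3083 0 27))),
  .inr 7, .inr 3, .inr 5, .inl (.ag (.p1 3 0 0) (.p1 1215239 0 550)), .inr 3,
  .inl (.p1 2455487 0 782), .inl (.ag (.p1 19 0 1) (.p1 246803 0 247)), .inr 9,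
  .inl (.ag (.p1 11 0 1) (.p2 207769 0 227)), .inl (.ag (.p1 3 0 0) (.p1 1252943 0 559)), .inr 3,
  .inr 37, .inr 5, .inr 3]

theorem tbl3_ok : table 300 tbl3 = true := by decide +kernel

theorem tbl3_len : tbl3.length = 100 := by decide +kernel

/-- part 4 of the table -/
def tbl4 : List (Cert ⊕ ℕ) := [
  .inr 7, .inl (.ag (.p1 3 0 0) (.p1 1291223 0 567)), .inr 9, .inr 5, .inl (.p1 2621159 0 808),
  .inr 3, .inl (.ag (.p1 11 0 1) (.p1 441187 0 331)), .inr 7, .inr 3, .inr 11, .inr 31, .inr 27,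
  .inr 13, .inr 5, .inr 3,
  .inl (.ag (.p1 3 0 0) (.ag (.p1 3 0 0) (.ag (.p1 3 0 0) (.ag (.p1 3 0 0) (.ag (.p1 3 0 0) (.p1 86423 0 146)))))),
  .inl (.ag (.p1 3 0 0) (.p2 694721 0 416)), .inr 3, .inr 25, .inr 23, .inr 9, .inr 7, .inr 19,
  .inr 3, .inl (.ag (.p1 59 0 3) (.p2 48109 0 109)), .inr 13, .inr 3, .inr 29, .inr 5, .inr 9,
  .inl (.ag (.p1 11 0 1) (.p2 247393 0 248)), .inr 11, .inr 3, .inr 5, .inr 37, .inr 3,
  .inl (.ag (.p1 3 0 0) (.p2 763001 0 436)), .inr 17, .inr 27,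
  .inl (.ag (.p1 3 0 0) (.ag (.p1 3 0 0) (.ag (.p1 3 0 0) (.ag (.p1 3 0 0) (.p1 193379 0 219))))),
  .inr 41, .inr 3, .inr 7, .inr 25, .inr 3, .inl (.p1 3179087 0 890),
  .inl (.ag (.p2 37 0 2) (.p2 42017 0 101)), .inr 9, .inr 5, .inr 7, .inr 3, .inr 13,
  .inl (.ag (.p1 11 0 1) (.p1 546619 0 369)), .inr 3, .inr 17,
  .inl (.ag (.p1 3 0 0) (.p1 1661663 0 644)), .inr 9,
  .inl (.ag (.p1 3 0 0) (.ag (.p1 3 0 0) (.p1 838139 0 457))), .inr 5, .inr 3, .inr 19,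
  .inl (.ag (.p1 3 0 0) (.ag (.p1 3 0 0) (.p1 852851 0 461))), .inr 3, .inr 5, .inr 11, .inr 81,
  .inl (.p1 3485687 0 932), .inl (.ag (.p1 3 0 0) (.p1 1750319 0 660)), .inr 3,
  .inl (.ag (.p1 3 0 0) (.ag (.p1 3 0 0) (.p1 882659 0 469))), .inr 7, .inr 3, .inr 31, .inr 5,
  .inr 9, .inr 11, .inl (.ag (.p1 11 0 1) (.p2 303053 0 274)), .inr 3, .inr 5, .inr 19, .inr 3,
  .inr 41, .inl (.p1 3728759 0 964), .inr 9, .inr 7, .inr 29, .inr 3,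
  .inl (.ag (.p1 3 0 0) (.p1 1903199 0 689)), .inr 5, .inr 3, .inr 13, .inr 7, .inr 27, .inr 25,
  .inl (.p1 3916439 0 988), .inr 3, .inl (.ag (.p1 3 2 0) (.p1 282011 0 265)), .inr 11, .inr 3,
  .inl (.ag (.p1 3 0 0) (.p1 1997999 0 706))]

theorem tbl4_ok : table 400 tbl4 = true := by decide +kernel

theorem tbl4_len : tbl4.length = 100 := by decide +kernel

/-- part 5 of the table -/
def tbl5 : List (Cert ⊕ ℕ) := [
  .inl (.ag (.p1 3 0 0) (.p2 1003001 0 500)), .inr 9, .inl (.ag (.p1 3 0 0) (.p2 1011029 0 502)),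
  .inr 5, .inr 3, .inr 7, .inl (.ag (.p1 3 0 0) (.p2 1027181 0 506)), .inr 3, .inr 5,
  .inl (.ag (.p1 3 0 0) (.p1 2078759 0 720)), .inr 9, .inr 23, .inr 7, .inr 3, .inr 29, .inr 0,
  .inr 3, .inr 19, .inr 25, .inr 27, .inl (.ag (.p1 3 0 0) (.p1 2169443 0 735)),
  .inl (.p1 4355567 0 1042), .inr 3, .inr 5, .inl (.ag (.p1 3 0 0) (.p1 2202899 0 741)), .inr 3,
  .inr 49, .inl (.ag (.p1 3 0 0) (.p1 2228159 0 745)), .inr 9, .inr 13, .inr 11, .inr 3,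
  .inl (.ag (.p2 5 1 0) (.p1 174659 0 208)), .inr 5, .inr 3,
  .inl (.ag (.p1 3 0 0) (.ag (.p1 3 0 0) (.p1 1148111 0 535))), .inr 19, .inr 9, .inr 5, .inr 17,
  .inr 3, .inr 11, .inr 13, .inr 3, .inl (.p1 4748039 0 1088), .inr 37,
  .inl (.ag (.p1 3 0 0) (.p2 1195741 0 546)), .inr 7, .inr 5, .inr 3,
  .inl (.ag (.p1 3 0 0) (.p1 2426603 0 778)),
  .inl (.ag (.p1 3 0 0) (.ag (.p1 3 0 0) (.ag (.p1 3 0 0) (.ag (.p1 3 0 0) (.p2 152213 0 194))))),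
  .inr 3, .inr 5, .inr 7, .inr 9, .inr 17, .inr 23, .inr 3, .inl (.p1 5013119 0 1118),
  .inl (.ag (.p1 3 0 0) (.p1 2515523 0 792)), .inr 3, .inl (.ag (.p1 3 0 0) (.p1 2533499 0 795)),
  .inr 5, .inr 9, .inr 31, .inl (.ag (.p1 11 0 1) (.p1 856547 0 462)), .inr 3, .inr 25, .inr 43,
  .inr 3, .inl (.p1 5230367 0 1142), .inr 29, .inr 27, .inr 121, .inr 49, .inr 3,
  .inl (.ag (.p1 3 0 0) (.ag (.p1 3 2 0) (.p2 95369 0 153))), .inr 5, .inr 3, .inr 23, .inr 13,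
  .inr 9, .inr 5, .inl (.ag (.p1 11 0 1) (.p1 911819 0 476)), .inr 3,
  .inl (.ag (.p1 3 0 0) (.p1 2754203 0 829)), .inl (.ag (.p1 3 0 0) (.p1 2763599 0 830)), .inr 3,
  .inr 7, .inr 17, .inr 9, .inl (.ag (.p1 19 0 1) (.p2 281081 0 264)), .inr 125, .inr 3,
  .inl (.ag (.p1 3 0 0) (.ag (.p1 3 0 0) (.ag (.mi 149 0 5 (.p2 73 0 3)) (.p2 2381 0 23)))),
  .inr 7, .inr 3, .inr 5,
  .inl (.ag (.p1 3 0 0) (.ag (.p1 3 0 0) (.ag (.p1 3 0 0) (.ag (.p1 3 0 0) (.p2 179849 0 211)))))]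

theorem tbl5_ok : table 500 tbl5 = true := by decide +kernel

theorem tbl5_len : tbl5.length = 100 := by decide +kernel

/-- part 6 of the table -/
def tbl6 : List (Cert ⊕ ℕ) := [
  .inr 27, .inr 29, .inl (.ag (.p1 3 0 0) (.p1 2906459 0 851)), .inr 3, .inr 41,
  .inl (.p1 5870927 0 1210), .inr 3, .inr 11, .inr 5, .inr 9, .inr 7,
  .inl (.ag (.p1 3 0 0) (.ag (.p1 3 0 0) (.ag (.p1 67 0 3) (.p1 44027 0 104)))), .inr 3, .inr 5,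
  .inl (.ag (.p1 3 0 0) (.p2 1511669 0 614)), .inr 3, .inl (.ag (.p2 821 0 13) (.p2 3701 0 29)),
  .inr 7, .inr 9, .inr 37, .inr 13, .inr 3, .inr 47, .inr 5, .inr 3,
  .inl (.ag (.p1 3 0 0) (.ag (.p1 3 0 0) (.p1 1566251 0 625))), .inr 23, .inr 81, .inr 5, .inr 11,
  .inr 3, .inr 7, .inl (.ag (.p1 3 0 0) (.p2 1601489 0 632)), .inr 3,
  .inl (.ag (.p1 59 0 3) (.p1 214883 0 231)), .inl (.p1 6466847 0 1270), .inr 9,
  .inl (.ag (.p1 3 0 0) (.p1 3253799 0 901)), .inr 5, .inr 3, .inr 11, .inr 17, .inr 3, .inr 25,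
  .inl (.ag (.p1 11 0 1) (.p2 554269 0 371)), .inr 9, .inr 13, .inl (.p1 6713279 0 1294), .inr 3,
  .inr 23, .inr 19, .inr 3, .inr 7, .inr 5, .inr 27, .inr 43, .inr 37, .inr 3, .inr 5, .inr 7,
  .inr 3, .inl (.p1 7006607 0 1322), .inr 11, .inr 9, .inl (.ag (.p1 3 0 0) (.p1 3535139 0 939)),
  .inl (.ag (.p1 3 0 0) (.p1 3545783 0 941)), .inr 3, .inl (.ag (.p1 3 0 0) (.p1 3567119 0 943)),
  .inr 25, .inr 3, .inl (.ag (.p1 3 0 0) (.p1 3599243 0 948)),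
  .inl (.ag (.p1 3 0 0) (.ag (.p1 3 0 0) (.p1 1804991 0 671))), .inr 9, .inr 5,
  .inl (.ag (.p1 3 0 0) (.p1 3642299 0 953)), .inr 3, .inl (.p1 7327847 0 1352),
  .inl (.ag (.p1 3 0 0) (.ag (.p1 3 0 0) (.p1 1837379 0 677))), .inr 3,
  .inl (.ag (.p1 3 0 0) (.p1 3696479 0 960)), .inr 7, .inr 27,
  .inl (.ag (.p1 3 0 0) (.p1 3729179 0 965)), .inr 5, .inr 3, .inr 13, .inr 41, .inr 3, .inr 5,
  .inr 31, .inr 9, .inl (.ag (.p1 3 0 0) (.ag (.p1 3 0 0) (.ag (.p1 691 0 12) (.p1 5531 0 36)))),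
  .inr 17, .inr 3, .inr 7, .inr 121, .inr 3,
  .inl (.ag (.p1 3 0 0) (.ag (.p1 3 0 0) (.p1 1947419 0 697))), .inr 5, .inr 9]

theorem tbl6_ok : table 600 tbl6 = true := by decide +kernel

theorem tbl6_len : tbl6.length = 100 := by decide +kernel

/-- part 7 of the table -/
def tbl7 : List (Cert ⊕ ℕ) := [
  .inl (.ag (.p1 2803 0 25) (.p2 2801 0 25)), .inr 7, .inr 3, .inr 5,
  .inl (.ag (.p1 3 0 0) (.p2 1986689 0 704)), .inr 3, .inr 11, .inr 19, .inr 81, .inr 17,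
  .inl (.ag (.p1 3 0 0) (.p2 2020661 0 710)), .inr 3, .inl (.ag (.p1 59 0 3) (.p2 135469 0 183)),
  .inr 5, .inr 3, .inr 7, .inr 47, .inr 9, .inr 125,
  .inl (.ag (.p1 3 0 0) (.ag (.p1 3 0 0) (.ag (.p1 3 0 0) (.ag (.p1 3 0 0) (.ag (.p1 3 0 0) (.p1 259019 0 253)))))),
  .inr 3, .inl (.ag (.p1 3 0 0) (.ag (.p2 5 1 0) (.p2 80141 0 141))), .inr 49, .inr 3, .inr 13,
  .inl (.ag (.p1 3 0 0) (.ag (.p1 11 0 1) (.p1 702283 0 418))), .inr 9, .inr 41, .inr 5, .inr 3,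
  .inr 37, .inl (.ag (.p1 3 0 0) (.p1 4283663 0 1034)), .inr 3, .inr 5,
  .inl (.ag (.p1 19 0 1) (.p1 863771 0 464)), .inr 27, .inr 7, .inr 13, .inr 3, .inr 11,
  .inl (.ag (.p1 2963 0 26) (.p1 5923 0 37)), .inr 3, .inl (.ag (.p1 3 0 0) (.p1 4413419 0 1049)),
  .inr 25, .inr 9, .inr 19, .inr 29, .inr 3, .inr 5,
  .inl (.ag (.p1 3 0 0) (.ag (.p1 19 0 1) (.p1 449699 0 334))), .inr 3, .inr 31,
  .inl (.ag (.p1 3 0 0) (.p1 4533059 0 1064)), .inr 9, .inl (.ag (.p1 19 0 1) (.p2 455717 0 337)),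
  .inl (.p1 9138527 0 1510), .inr 3, .inr 7, .inr 5, .inr 3, .inr 17, .inr 11, .inr 27, .inr 5,
  .inr 7, .inr 3, .inl (.ag (.p2 5 1 0) (.p1 361787 0 300)), .inr 37, .inr 3,
  .inl (.p1 9480239 0 1538), .inl (.ag (.p1 3 0 0) (.p1 4752443 0 1089)), .inr 9, .inr 11, .inr 5,
  .inr 3, .inr 29, .inr 13, .inr 3, .inr 5,
  .inl (.ag (.p1 3 0 0) (.ag (.p1 3 0 0) (.ag (.p1 19 0 1) (.p1 243203 0 246)))), .inr 9, .inr 53,
  .inr 31, .inr 3, .inr 43, .inr 7, .inr 3, .inr 23, .inr 5, .inr 243,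
  .inl (.ag (.p1 11 0 1) (.p2 833713 0 456)),
  .inl (.ag (.p1 3 0 0) (.ag (.p1 3 0 0) (.ag (.p1 3 0 0) (.ag (.p1 43 0 2) (.p2 28493 0 83))))),
  .inr 3, .inr 25, .inr 11, .inr 3, .inl (.ag (.p1 11 0 1) (.p1 1692827 0 650)),
  .inl (.ag (.p1 3 0 0) (.ag (.p1 3 0 0) (.p1 2545619 0 797))), .inr 9, .inr 7]

theorem tbl7_ok : table 700 tbl7 = true := by decide +kernel

theorem tbl7_len : tbl7.length = 100 := by decide +kernel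

/-- part 8 of the table -/
def tbl8 : List (Cert ⊕ ℕ) := [
  .inl (.ag (.mi 89 0 4 (.ag (.p1 3 0 0) (.p1 43 0 2))) (.p2 28817 0 84)), .inr 3, .inr 169,
  .inr 5, .inr 3, .inr 11, .inr 7, .inr 9, .inr 5, .inr 41, .inr 3, .inr 17,
  .inl (.ag (.p2 5 1 0) (.p1 406499 0 318)), .inr 3, .inl (.ag (.p1 19 0 1) (.p1 1062107 0 514)),
  .inr 13, .inr 27, .inl (.ag (.p1 3 0 0) (.ag (.p1 19 0 1) (.p1 534971 0 365))), .inr 25, .inr 3,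
  .inr 49, .inr 19, .inr 3, .inr 5, .inl (.p1 10883399 0 1648), .inr 9,
  .inl (.ag (.p1 347 0 8) (.p1 62851 0 124)), .inr 7, .inr 3,
  .inl (.ag (.p1 3 0 0) (.ag (.p1 3 0 0) (.p1 2753939 0 829))),
  .inl (.ag (.p1 131 0 5) (.p2 83653 0 144)), .inr 3, .inl (.p1 11095559 0 1664), .inr 5, .inr 9,
  .inl (.ag (.p1 3 0 0) (.p1 5587823 0 1181)), .inl (.ag (.p1 3 0 0) (.p2 2800601 0 836)), .inr 3,
  .inr 5, .inl (.p1 11282879 0 1678), .inr 3, .inr 7, .inl (.ag (.p1 11 0 1) (.p2 946969 0 486)),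
  .inr 27, .inr 31, .inr 17, .inr 3,
  .inl (.ag (.p1 3 0 0) (.ag (.p1 3 0 0) (.ag (.p1 3 0 0) (.ag (.p1 3 0 0) (.ag (.p1 19 0 1) (.p1 71867 0 133)))))),
  .inr 5, .inr 3, .inr 41, .inl (.ag (.p1 3 0 0) (.p1 5803823 0 1204)), .inr 9, .inr 5, .inr 13,
  .inr 3, .inr 23, .inr 47, .inr 3, .inr 19, .inr 11, .inr 9, .inr 7, .inr 5, .inr 3,
  .inl (.ag (.p1 3 0 0) (.ag (.mi 433 0 9 (.p1 431 0 9)) (.p2 3461 0 28))),
  .inl (.ag (.p1 67 0 3) (.p1 353531 0 296)), .inr 3, .inr 25, .inr 49, .inr 81, .inr 11,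
  .inl (.ag (.p1 11 0 1) (.p1 2031179 0 712)), .inr 3, .inl (.ag (.p1 3 0 0) (.p2 3060749 0 874)),
  .inr 31, .inr 3, .inl (.ag (.p1 3 0 0) (.ag (.p1 3 0 0) (.p1 3081779 0 877))), .inr 5, .inr 9,
  .inr 13, .inl (.p1 12439727 0 1762), .inr 3, .inr 5,
  .inl (.ag (.p1 11 0 1) (.p1 2087419 0 721)), .inr 3,
  .inl (.ag (.p1 11 0 1) (.p1 2096867 0 723)), .inr 53, .inr 9,
  .inl (.ag (.p1 3 0 0) (.ag (.p1 19 0 1) (.p2 316661 0 280))), .inr 7, .inr 3,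
  .inl (.ag (.p1 11 0 1) (.p1 2125339 0 728)), .inr 25, .inr 3,
  .inl (.ag (.p1 3 0 0) (.p1 6418943 0 1266)), .inr 17, .inr 27, .inr 5, .inr 59]

theorem tbl8_ok : table 800 tbl8 = true := by decide +kernel

theorem tbl8_len : tbl8.length = 100 := by decide +kernel

/-- part 9 of the table -/
def tbl9 : List (Cert ⊕ ℕ) := [
  .inr 3, .inl (.p1 13010447 0 1802), .inr 23, .inr 3, .inr 7,
  .inl (.ag (.p1 3 0 0) (.ag (.p1 11 0 1) (.p1 1093843 0 522))), .inr 9,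
  .inl (.ag (.p1 3 0 0) (.ag (.p1 3 0 0) (.p1 3296039 0 907))), .inr 5, .inr 3,
  .inl (.ag (.p1 3 0 0) (.p1 6635723 0 1287)), .inr 7, .inr 3, .inr 5,
  .inl (.ag (.p1 19 0 1) (.p2 669413 0 408)), .inr 9, .inr 19,
  .inl (.ag (.p1 3 0 0) (.ag (.p1 3 0 0) (.p1 3369059 0 917))), .inr 3, .inr 13, .inr 29, .inr 3,
  .inl (.ag (.p1 283 0 7) (.p2 47969 0 109)), .inr 5, .inr 27, .inr 7, .inr 11, .inr 3, .inr 5,
  .inl (.ag (.p1 3 0 0) (.ag (.p1 19 0 1) (.p2 345773 0 293))), .inr 3,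
  .inl (.ag (.p1 3 0 0) (.ag (.p1 3 0 0) (.ag (.p1 3 0 0) (.p2 868157 0 465)))), .inr 7, .inr 9,
  .inl (.ag (.p1 3 0 0) (.p1 6990059 0 1321)), .inr 19, .inr 3, .inr 121, .inr 5, .inr 3, .inr 53,
  .inl (.ag (.p1 3 0 0) (.ag (.p1 3 0 0) (.p1 3547571 0 941))), .inr 9, .inr 25,
  .inl (.ag (.p1 11 0 1) (.p2 1190069 0 544)), .inr 3, .inr 7, .inr 17, .inr 3, .inr 29,
  .inl (.p1 14462807 0 1900), .inr 81, .inr 37, .inr 5, .inr 3,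
  .inl (.ag (.p1 3 0 0) (.ag (.p1 3 0 0) (.p1 3653831 0 955))), .inr 43, .inr 3, .inr 5, .inr 11,
  .inr 9, .inl (.ag (.p1 3 0 0) (.p1 7399703 0 1359)), .inl (.p1 14830199 0 1924), .inr 3,
  .inr 17, .inl (.p1 14922767 0 1930), .inr 3, .inr 49, .inr 125, .inr 9, .inr 11, .inr 169,
  .inr 3, .inr 5, .inr 7, .inr 3, .inl (.ag (.p1 83 0 4) (.p2 181721 0 212)),
  .inl (.p1 15295919 0 1954), .inr 27,
  .inl (.ag (.p1 3 0 0) (.ag (.p1 3 0 0) (.p1 3839639 0 979))),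
  .inl (.ag (.p1 11 0 1) (.p2 1282493 0 565)), .inr 3,
  .inl (.ag (.p1 3 0 0) (.p1 7726379 0 1389)), .inr 5, .inr 3, .inl (.p1 15547247 0 1970),
  .inl (.p1 15578807 0 1972), .inr 9, .inr 5, .inr 37, .inr 3,
  .inl (.ag (.p1 3 0 0) (.ag (.p1 3 0 0) (.ag (.p1 3 0 0) (.ag (.p1 3 0 0) (.ag (.p1 3 0 0) (.p1 491783 0 350)))))),
  .inr 11, .inr 3, .inr 23, .inr 7, .inr 9, .inr 13, .inr 5, .inr 3]

theorem tbl9_ok : table 900 tbl9 = true := by decide +kernel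

theorem tbl9_len : tbl9.length = 100 := by decide +kernel

/-- part 10 of the table -/
def tbl10 : List (Cert ⊕ ℕ) := [
  .inl (.p1 16024007 0 2000), .inl (.ag (.p1 3 0 0) (.ag (.p1 3 0 0) (.p1 4014011 0 1001))),
  .inr 3, .inr 5, .inl (.ag (.p1 59 0 3) (.p1 538411 0 366)), .inr 27,
  .inl (.ag (.p1 3 0 0) (.p1 8108363 0 1423)), .inr 29, .inr 3, .inr 7, .inr 13, .inr 3,
  .inl (.p1 16410599 0 2024), .inr 5, .inr 9, .inr 17, .inr 49, .inr 3, .inr 25,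
  .inl (.ag (.p1 3 0 0) (.ag (.p1 3 0 0) (.ag (.p1 67 0 3) (.p2 61169 0 123)))), .inr 3, .inr 61,
  .inl (.ag (.p1 19 0 1) (.p1 1673627 0 646)), .inr 9,
  .inl (.ag (.p1 19 0 1) (.p1 1680179 0 647)), .inr 11, .inr 3,
  .inl (.ag (.p1 3 0 0) (.p1 8450159 0 1452)), .inr 5, .inr 3, .inr 7,
  .inl (.ag (.p1 3 0 0) (.ag (.p1 3 0 0) (.p1 4258031 0 1031))), .inr 243, .inr 5,
  .inl (.ag (.p1 3 0 0) (.p2 4282829 0 1034)), .inr 3, .inr 11, .inr 7, .inr 3,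
  .inl (.ag (.p1 3 0 0) (.ag (.p1 3 0 0) (.ag (.p1 3 0 0) (.ag (.p1 3 0 0) (.p1 1081079 0 519))))),
  .inr 23, .inr 9, .inr 43, .inr 25, .inr 3, .inr 47, .inr 53, .inr 3, .inr 5, .inr 13, .inr 9,
  .inr 7, .inl (.ag (.p1 3 0 0) (.p1 8866259 0 1488)), .inr 3, .inl (.p1 17799959 0 2108),
  .inr 41, .inr 3, .inl (.ag (.p1 3 0 0) (.ag (.p2 137 0 5) (.p2 32429 0 89))), .inr 5, .inr 27,
  .inl (.ag (.p1 3 0 0) (.p1 9001523 0 1499)), .inr 31, .inr 3, .inr 5,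
  .inl (.ag (.p1 59 0 3) (.p2 302317 0 274)), .inr 3, .inr 17, .inl (.p1 18241439 0 2134), .inr 9,
  .inr 11, .inl (.ag (.p1 3 0 0) (.p1 9172043 0 1513)), .inr 3, .inr 7, .inr 5, .inr 3, .inr 13,
  .inr 59, .inr 9, .inr 5, .inr 7, .inr 3,
  .inl (.ag (.p1 3 0 0) (.ag (.p2 617 0 11) (.p2 7573 0 43))), .inr 61, .inr 3,
  .inl (.ag (.p1 11 0 1) (.p2 1568909 0 625)), .inr 43, .inr 27, .inr 19, .inr 5, .inr 3,
  .inl (.ag (.p1 11 0 1) (.p1 3172627 0 890)), .inr 11, .inr 3, .inr 625, .inr 29, .inr 9,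
  .inr 41, .inl (.ag (.p1 3 0 0) (.ag (.p1 3 0 0) (.p1 4820219 0 1097))), .inr 3, .inr 53]

theorem tbl10_ok : table 1000 tbl10 = true := by decide +kernel

theorem tbl10_len : tbl10.length = 100 := by decide +kernel

/-- part 11 of the table -/
def tbl11 : List (Cert ⊕ ℕ) := [
  .inr 7, .inr 3, .inr 11, .inr 5, .inr 9, .inl (.p1 19562927 0 2210), .inr 19, .inr 3, .inr 5,
  .inr 23, .inr 3,
  .inl (.ag (.p1 3 0 0) (.ag (.p1 3 0 0) (.ag (.p1 3 0 0) (.ag (.p1 3 0 0) (.p1 1235987 0 555))))),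
  .inl (.p1 19811399 0 2224), .inr 81, .inr 343,
  .inl (.ag (.p1 3 0 0) (.ag (.p1 3 0 0) (.p1 4979591 0 1115))), .inr 3, .inr 17, .inr 25, .inr 3,
  .inl (.ag (.p2 37 0 2) (.p2 264437 0 256)), .inr 7, .inr 9, .inr 5, .inr 11, .inr 3,
  .inl (.p1 20313047 0 2252), .inr 13, .inr 3,
  .inl (.ag (.p1 3 0 0) (.ag (.p1 19 0 1) (.p1 1021067 0 504))),
  .inl (.ag (.p1 11 0 1) (.p2 1704793 0 652)), .inr 9, .inr 23, .inr 5, .inr 3, .inr 7,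
  .inl (.ag (.p1 4547 0 33) (.p1 9091 0 47)), .inr 3, .inr 5, .inr 47, .inr 27, .inr 0, .inr 7,
  .inr 3, .inr 19, .inl (.p1 21003887 0 2290), .inr 3,
  .inl (.ag (.p1 3 0 0) (.ag (.p1 3 0 0) (.ag (.p1 19 0 1) (.p1 526931 0 362)))), .inr 5, .inr 9,
  .inl (.ag (.p1 4603 0 33) (.p1 9203 0 47)), .inr 17, .inr 3, .inr 5, .inr 31, .inr 3, .inr 7,
  .inr 11, .inr 9, .inl (.ag (.p1 3 0 0) (.ag (.p1 3 0 0) (.p1 5380079 0 1159))),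
  .inl (.p1 21557447 0 2320), .inr 3, .inl (.ag (.p1 11 0 1) (.p1 3605299 0 948)), .inr 5, .inr 3,
  .inl (.ag (.p1 3 0 0) (.ag (.p1 3 0 0) (.p1 5435891 0 1165))), .inr 13, .inr 27, .inr 25,
  .inl (.ag (.p1 3 0 0) (.ag (.p2 17 0 1) (.p2 304069 0 275))), .inr 3, .inr 43,
  .inl (.ag (.p1 19 0 1) (.p2 1100273 0 523)), .inr 3, .inr 37,
  .inl (.ag (.p1 3 0 0) (.ag (.p1 3 0 0) (.ag (.p1 3 0 0) (.ag (.p1 3 0 0) (.p2 691193 0 415))))),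
  .inr 9, .inr 7, .inr 5, .inr 3, .inl (.p1 22306727 0 2360), .inr 29, .inr 3, .inr 5, .inr 7,
  .inr 9, .inr 47, .inl (.ag (.p1 3 0 0) (.ag (.p1 3 0 0) (.p1 5642999 0 1187))), .inr 3,
  .inl (.ag (.p1 3 0 0) (.ag (.p1 19 0 1) (.p1 1132403 0 531))), .inr 11, .inr 3, .inr 13,
  .inr 25, .inr 81, .inl (.ag (.p1 3 0 0) (.p1 11438543 0 1690)),
  .inl (.ag (.p1 3 0 0) (.p1 11457683 0 1691)), .inr 3, .inr 5,
  .inl (.ag (.p1 3 0 0) (.ag (.p1 3 0 0) (.ag (.p1 3 0 0) (.ag (.p1 3 0 0) (.ag (.p1 3 0 0) (.p1 719699 0 423))))))]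

theorem tbl11_ok : table 1100 tbl11 = true := by decide +kernel

theorem tbl11_len : tbl11.length = 100 := by decide +kernel

/-- part 12 of the table -/
def tbl12 : List (Cert ⊕ ℕ) := [
  .inr 3, .inr 11, .inr 17, .inr 9, .inr 61, .inr 7, .inr 3,
  .inl (.ag (.p1 3 0 0) (.ag (.p1 3 0 0) (.ag (.p1 3 0 0) (.ag (.p1 3 0 0) (.p1 1458659 0 603))))),
  .inr 5, .inr 3, .inr 29, .inr 37, .inr 9, .inr 5, .inr 43, .inr 3, .inr 31,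
  .inl (.ag (.p1 3 0 0) (.ag (.p1 59 0 3) (.p1 395443 0 313))), .inr 3, .inr 7, .inr 19, .inr 27,
  .inr 67, .inr 5, .inr 3, .inl (.ag (.p1 3 0 0) (.p1 12019703 0 1732)), .inr 7, .inr 3, .inr 5,
  .inl (.ag (.p1 3 0 0) (.ag (.p2 409 0 9) (.p2 14753 0 60))), .inr 9, .inr 13,
  .inl (.ag (.p1 11 0 1) (.p2 2026229 0 711)), .inr 3, .inr 11,
  .inl (.ag (.p1 3 0 0) (.ag (.p1 3 0 0) (.ag (.p1 3 2 0) (.p1 436307 0 329)))), .inr 3,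
  .inl (.p1 24512399 0 2474), .inr 5, .inr 9, .inr 7,
  .inl (.ag (.p1 3 0 0) (.ag (.p2 17 0 1) (.p2 342653 0 292))), .inr 3, .inr 25, .inr 13, .inr 3,
  .inl (.ag (.p1 11 0 1) (.p1 4145027 0 1017)), .inr 7, .inr 27,
  .inl (.ag (.p1 3 0 0) (.ag (.p1 11 0 1) (.p1 2082499 0 721))),
  .inl (.ag (.p1 3 0 0) (.p1 12515003 0 1768)), .inr 3, .inl (.p1 25110119 0 2504), .inr 5,
  .inr 3,
  .inl (.ag (.p1 3 0 0) (.ag (.p1 3 0 0) (.ag (.p1 3 0 0) (.ag (.p1 3 0 0) (.p1 1576907 0 627))))),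
  .inr 11, .inr 9, .inr 5, .inl (.ag (.p1 3 0 0) (.p1 12695759 0 1781)), .inr 3, .inr 49,
  .inl (.ag (.mi 101 0 4 (.p2 7 1 0)) (.p2 63149 0 125)), .inr 3,
  .inl (.ag (.p1 3 0 0) (.p1 12796739 0 1788)), .inr 61, .inr 9, .inr 11, .inr 25, .inr 3,
  .inr 13, .inl (.p1 25877567 0 2542), .inr 3, .inr 5,
  .inl (.ag (.p1 3 0 0) (.p2 6499949 0 1274)), .inr 729,
  .inl (.ag (.p1 11 0 1) (.p2 2173453 0 736)), .inr 19, .inr 3, .inl (.p1 26204159 0 2558),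
  .inr 47, .inr 3, .inr 7, .inr 5, .inr 9, .inr 37, .inl (.ag (.p1 11 0 1) (.p2 2207633 0 742)),
  .inr 3, .inr 5, .inr 7, .inr 3, .inl (.ag (.p1 3 0 0) (.p1 13348943 0 1826)),
  .inl (.ag (.p1 19 0 1) (.p2 1336961 0 577)), .inr 9,
  .inl (.ag (.p1 19 0 1) (.p2 1341101 0 578)), .inr 71, .inr 3, .inr 29, .inr 5, .inr 3]

theorem tbl12_ok : table 1200 tbl12 = true := by decide +kernel

theorem tbl12_len : tbl12.length = 100 := by decide +kernel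

/-- part 13 of the table -/
def tbl13 : List (Cert ⊕ ℕ) := [
  .inr 121, .inr 41, .inr 27, .inr 5, .inr 17, .inr 3,
  .inl (.ag (.p1 3 0 0) (.p1 13660763 0 1847)),
  .inl (.ag (.p1 3 0 0) (.ag (.p1 3 0 0) (.ag (.p1 59 0 3) (.p2 114013 0 168)))), .inr 3,
  .inr 169, .inr 49, .inr 9, .inr 59, .inr 5, .inr 3, .inr 19, .inr 23, .inr 3, .inr 25,
  .inl (.p1 27867839 0 2638), .inr 9, .inr 17, .inr 11, .inr 3, .inr 7,
  .inl (.ag (.p1 3 0 0) (.ag (.p1 3 0 0) (.p1 7030451 0 1325))), .inr 3, .inr 47, .inr 5, .inr 27,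
  .inl (.ag (.p1 3 0 0) (.p2 7083581 0 1330)), .inr 7, .inr 3, .inr 5, .inr 19, .inr 3,
  .inl (.ag (.p1 3 2 0) (.p1 2042171 0 714)),
  .inl (.ag (.p1 3 0 0) (.ag (.p1 11 0 1) (.p1 2386099 0 771))), .inr 9, .inr 23, .inr 31, .inr 3,
  .inr 41, .inr 125, .inr 3, .inr 7, .inl (.ag (.p1 5387 0 36) (.p1 10771 0 51)), .inr 9, .inr 5,
  .inl (.p1 29149199 0 2698), .inr 3,
  .inl (.ag (.p1 3 0 0) (.ag (.p1 3 0 0) (.ag (.p1 3 0 0) (.ag (.p1 3 0 0) (.p1 1827227 0 675))))),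
  .inr 7, .inr 3, .inl (.ag (.p1 11 0 1) (.p1 4894259 0 1105)), .inr 11, .inr 81,
  .inl (.ag (.p1 3 0 0) (.p1 14747879 0 1919)), .inr 5, .inr 3,
  .inl (.ag (.p1 5443 0 36) (.p1 10883 0 51)), .inr 13, .inr 3, .inr 5, .inr 53, .inr 9, .inr 7,
  .inl (.ag (.p1 3 0 0) (.p1 14965919 0 1933)), .inr 3,
  .inl (.ag (.p1 3 0 0) (.p1 15009719 0 1936)), .inl (.p1 30063287 0 2740), .inr 3, .inr 289,
  .inr 5, .inr 9,
  .inl (.ag (.p1 3 0 0) (.ag (.p1 3 0 0) (.ag (.p1 3 0 0) (.ag (.p1 3 0 0) (.p1 1892687 0 687))))),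
  .inl (.ag (.p1 3 0 0) (.p1 15163523 0 1946)), .inr 3, .inr 5,
  .inl (.ag (.p1 3 0 0) (.ag (.p1 3 0 0) (.ag (.p1 3 0 0) (.p2 1903709 0 689)))), .inr 3,
  .inl (.ag (.p1 3 0 0) (.ag (.p1 3 0 0) (.p1 7636931 0 1381))),
  .inl (.ag (.p1 3 0 0) (.p1 15295979 0 1955)), .inr 27, .inr 29, .inr 23, .inr 3, .inr 7, .inr 5,
  .inr 3, .inl (.ag (.p2 617 0 11) (.p2 25037 0 78)), .inr 19, .inr 9, .inr 25, .inr 7, .inr 3,
  .inr 37, .inl (.ag (.p1 3 0 0) (.p1 15629639 0 1976)), .inr 3, .inr 11]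

theorem tbl13_ok : table 1300 tbl13 = true := by decide +kernel

theorem tbl13_len : tbl13.length = 100 := by decide +kernel

/-- part 14 of the table -/
def tbl14 : List (Cert ⊕ ℕ) := [
  .inr 13, .inr 9, .inr 31, .inr 5, .inr 3, .inl (.p1 31618127 0 2810), .inr 17, .inr 3, .inr 5,
  .inl (.ag (.p1 3 0 0) (.ag (.p1 19 0 1) (.p2 794957 0 445))), .inr 27,
  .inl (.ag (.p1 3 0 0) (.ag (.p1 3 0 0) (.ag (.p1 3 0 0) (.p2 1993037 0 705)))),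
  .inl (.p1 31933799 0 2824), .inr 3, .inl (.ag (.p1 59 0 3) (.p2 533737 0 364)), .inr 7, .inr 3,
  .inr 53, .inr 25, .inr 9, .inl (.p1 32296487 0 2840), .inr 121, .inr 3, .inr 5, .inr 41, .inr 3,
  .inr 13, .inl (.p1 32615519 0 2854), .inr 9, .inr 7, .inr 59, .inr 3, .inr 11, .inr 5, .inr 3,
  .inl (.ag (.p1 3 0 0) (.ag (.p1 3 0 0) (.ag (.mi 29 0 2 (.p1 3 2 0)) (.p2 71081 0 132)))),
  .inr 7, .inr 81, .inr 5, .inr 13, .inr 3, .inr 73, .inr 29, .inr 3,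
  .inl (.ag (.p1 59 0 3) (.p2 556613 0 372)),
  .inl (.ag (.p1 3 0 0) (.ag (.p1 3 0 0) (.p1 8360771 0 1445))), .inr 9,
  .inl (.ag (.p1 3 0 0) (.ag (.p1 3 0 0) (.ag (.p1 3 0 0) (.ag (.p1 3 0 0) (.p2 1047989 0 511))))),
  .inr 5, .inr 3, .inr 7, .inl (.ag (.p1 3 0 0) (.ag (.p1 3 0 0) (.p1 8430311 0 1451))), .inr 3,
  .inr 5, .inr 11, .inr 9, .inl (.ag (.p1 3 0 0) (.p1 16976963 0 2059)), .inr 343, .inr 3,
  .inl (.ag (.p1 3 0 0) (.ag (.p1 3 0 0) (.ag (.p1 19 0 1) (.p1 852347 0 461)))), .inr 0, .inr 3,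
  .inl (.ag (.p1 3 0 0) (.p2 8558549 0 1462)), .inr 5, .inr 27, .inr 11,
  .inl (.ag (.p1 11 0 1) (.p2 2868473 0 846)), .inr 3, .inr 125,
  .inl (.ag (.p1 3 0 0) (.ag (.p1 3 2 0) (.p1 1234379 0 555))), .inr 3, .inr 7, .inr 43, .inr 9,
  .inr 17, .inl (.ag (.p1 3 0 0) (.ag (.p1 3 0 0) (.ag (.p2 17 0 1) (.p2 241981 0 245)))), .inr 3,
  .inr 23, .inr 5, .inr 3, .inl (.p1 35081927 0 2960),
  .inl (.ag (.p1 3 0 0) (.ag (.p2 5 1 0) (.p2 337781 0 290))), .inr 9, .inr 5,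
  .inl (.ag (.p1 59 0 3) (.p1 1175723 0 541)), .inr 3, .inr 19, .inr 11, .inr 3, .inr 59, .inr 67,
  .inr 27, .inr 7, .inr 25, .inr 3, .inr 31, .inl (.p1 35844167 0 2992), .inr 3, .inr 5, .inr 7]

theorem tbl14_ok : table 1400 tbl14 = true := by decide +kernel

theorem tbl14_len : tbl14.length = 100 := by decide +kernel

/-- part 15 of the table -/
def tbl15 : List (Cert ⊕ ℕ) := [
  .inr 9, .inl (.ag (.p1 3 0 0) (.ag (.p1 11 0 1) (.p1 3007003 0 866))),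
  .inl (.p1 36132119 0 3004), .inr 3, .inr 13, .inr 19, .inr 3, .inr 37, .inr 5, .inr 9,
  .inl (.p1 36517847 0 3020),
  .inl (.ag (.p1 3 0 0) (.ag (.p1 3 0 0) (.ag (.p1 3 0 0) (.ag (.p1 3 0 0) (.p2 1142693 0 533))))),
  .inr 3, .inr 5, .inr 73, .inr 3, .inl (.ag (.p1 3 0 0) (.p2 9202121 0 1516)), .inr 13, .inr 243,
  .inl (.ag (.p1 3 0 0) (.ag (.p1 3 0 0) (.ag (.p1 3 0 0) (.ag (.p1 3 0 0) (.ag (.p1 3 0 0) (.p1 1154819 0 536)))))),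
  .inr 7, .inr 3, .inl (.ag (.p1 3 0 0) (.p1 18550139 0 2152)), .inr 5, .inr 3, .inr 17, .inr 31,
  .inr 9, .inr 5, .inr 29, .inr 3, .inr 11, .inl (.ag (.p1 3 0 0) (.p1 18794579 0 2167)), .inr 3,
  .inr 7,
  .inl (.ag (.p1 3 0 0) (.ag (.p1 3 0 0) (.ag (.p1 3 0 0) (.ag (.p1 3 0 0) (.ag (.p1 3 0 0) (.p1 1179263 0 542)))))),
  .inr 9, .inl (.ag (.p1 3 0 0) (.ag (.p1 19 0 1) (.p1 1891739 0 687))), .inr 5, .inr 3,
  .inl (.ag (.p1 3 0 0) (.p1 18991283 0 2178)), .inr 7, .inr 3, .inr 25, .inr 37, .inr 27,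
  .inr 23, .inr 41, .inr 3, .inl (.ag (.p1 3 0 0) (.ag (.p1 3 0 0) (.p1 9606899 0 1549))),
  .inl (.ag (.p1 3 2 0) (.p1 2748371 0 828)), .inr 3,
  .inl (.ag (.p1 11 0 1) (.p1 6429419 0 1267)), .inr 5, .inr 9, .inr 49, .inr 13, .inr 3, .inr 5,
  .inr 17, .inr 3, .inl (.ag (.p1 3 0 0) (.p1 19512503 0 2208)), .inr 7, .inr 9, .inr 11,
  .inl (.ag (.p1 3 0 0) (.ag (.p2 17 0 1) (.p2 544793 0 368))), .inr 3,
  .inl (.ag (.p1 3 0 0) (.ag (.p1 3 0 0) (.ag (.p1 3 0 0) (.ag (.p1 3 0 0) (.p1 2457839 0 783))))),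
  .inr 25, .inr 3, .inr 61, .inl (.p1 39526367 0 3142), .inr 27, .inr 5,
  .inl (.p1 39677399 0 3148), .inr 3, .inr 7,
  .inl (.ag (.p1 11 0 1) (.ag (.p1 1051 0 15) (.p1 12619 0 55))), .inr 3, .inr 71,
  .inl (.p1 39980327 0 3160), .inr 9, .inr 13, .inr 5, .inr 3,
  .inl (.ag (.p1 3 0 0) (.ag (.p1 3 2 0) (.p2 718457 0 423))), .inr 11, .inr 3, .inr 5,
  .inl (.ag (.p1 3 0 0) (.p1 20218439 0 2247)), .inr 9,
  .inl (.ag (.p1 3 0 0) (.p1 20269343 0 2250)), .inr 23, .inr 3,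
  .inl (.ag (.p1 11 0 1) (.p1 6781939 0 1301)), .inr 13, .inr 3, .inr 7, .inr 5, .inr 81]

theorem tbl15_ok : table 1500 tbl15 = true := by decide +kernel

theorem tbl15_len : tbl15.length = 100 := by decide +kernel

theorem had_sq {v : ℕ} (hv : IsPrimePow v) (hv4 : v % 4 = 3) (hx : v ∉ exc)
    (hlo : 0 ≤ v) (hhi : v < 6400) : Pool.Agent.H108R3.Had.HasHad (v ^ 2 - 1) := by
  by_cases h0 : v < 400
  · exact table_spec tbl0 0 tbl0_ok v hv4 (by omega) (by rw [tbl0_len]; omega) hv hx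
  by_cases h1 : v < 800
  · exact table_spec tbl1 100 tbl1_ok v hv4 (by omega) (by rw [tbl1_len]; omega) hv hx
  by_cases h2 : v < 1200
  · exact table_spec tbl2 200 tbl2_ok v hv4 (by omega) (by rw [tbl2_len]; omega) hv hx
  by_cases h3 : v < 1600
  · exact table_spec tbl3 300 tbl3_ok v hv4 (by omega) (by rw [tbl3_len]; omega) hv hx
  by_cases h4 : v < 2000
  · exact table_spec tbl4 400 tbl4_ok v hv4 (by omega) (by rw [tbl4_len]; omega) hv hx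
  by_cases h5 : v < 2400
  · exact table_spec tbl5 500 tbl5_ok v hv4 (by omega) (by rw [tbl5_len]; omega) hv hx
  by_cases h6 : v < 2800
  · exact table_spec tbl6 600 tbl6_ok v hv4 (by omega) (by rw [tbl6_len]; omega) hv hx
  by_cases h7 : v < 3200
  · exact table_spec tbl7 700 tbl7_ok v hv4 (by omega) (by rw [tbl7_len]; omega) hv hx
  by_cases h8 : v < 3600
  · exact table_spec tbl8 800 tbl8_ok v hv4 (by omega) (by rw [tbl8_len]; omega) hv hx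
  by_cases h9 : v < 4000
  · exact table_spec tbl9 900 tbl9_ok v hv4 (by omega) (by rw [tbl9_len]; omega) hv hx
  by_cases h10 : v < 4400
  · exact table_spec tbl10 1000 tbl10_ok v hv4 (by omega) (by rw [tbl10_len]; omega) hv hx
  by_cases h11 : v < 4800
  · exact table_spec tbl11 1100 tbl11_ok v hv4 (by omega) (by rw [tbl11_len]; omega) hv hx
  by_cases h12 : v < 5200
  · exact table_spec tbl12 1200 tbl12_ok v hv4 (by omega) (by rw [tbl12_len]; omega) hv hx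
  by_cases h13 : v < 5600
  · exact table_spec tbl13 1300 tbl13_ok v hv4 (by omega) (by rw [tbl13_len]; omega) hv hx
  by_cases h14 : v < 6000
  · exact table_spec tbl14 1400 tbl14_ok v hv4 (by omega) (by rw [tbl14_len]; omega) hv hx
  by_cases h15 : v < 6400
  · exact table_spec tbl15 1500 tbl15_ok v hv4 (by omega) (by rw [tbl15_len]; omega) hv hx
  omega

end Pool.Agent.K9h69.Menon.T0
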