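import Pool.Agent.K9h69.Menon.Cert1

/-!
# Derivations of Hadamard matrices of order `v ^ 2 - 1` for prime powers `v ≡ 1 (mod 4)`,
`6400 ≤ v < 9600`
-/

set_option autoImplicit false

namespace Pool.Agent.K9h69.Menon.S1

/-- part 0 of the table -/
def tbl0 : List (Cert ⊕ ℕ) := [
  .inr 37, .inr 3, .inr 13, .inr 121, .inr 9, .inl (.ag (.p1 3 0 0) (.p1 20614619 0 2269)),
  .inr 25, .inr 3, .inr 7, .inr 41, .inr 3, .inr 5,
  .inl (.ag (.p1 3 0 0) (.ag (.p1 3 0 0) (.ag (.p1 3 0 0) (.p2 2599349 0 805)))), .inr 27,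
  .inr 11, .inr 7, .inr 3, .inl (.ag (.p1 3 0 0) (.p1 20923979 0 2286)),
  .inl (.ag (.p1 3 0 0) (.ag (.p2 5 1 0) (.p2 402881 0 316))), .inr 3,
  .inl (.ag (.p1 3 0 0) (.p1 21001679 0 2290)), .inr 5, .inr 9, .inr 43, .inr 73, .inr 3, .inr 5,
  .inr 23, .inr 3, .inr 343, .inl (.ag (.p1 3 0 0) (.ag (.p1 19 0 1) (.p1 2126171 0 728))),
  .inr 9,
  .inl (.ag (.p1 3 0 0) (.ag (.p1 3 0 0) (.ag (.p1 3 0 0) (.ag (.p1 3 0 0) (.ag (.p1 3 0 0) (.p1 1332119 0 576)))))),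
  .inr 47, .inr 3, .inr 31, .inr 5, .inr 3, .inl (.ag (.p1 3 0 0) (.p1 21470903 0 2316)), .inr 79,
  .inl (.ag (.p1 3 0 0) (.ag (.p1 3 0 0) (.ag (.p1 3 0 0) (.ag (.p1 19 0 1) (.p2 269041 0 258))))),
  .inr 5, .inl (.ag (.p1 3 0 0) (.ag (.p1 19 0 1) (.p1 2157587 0 733))), .inr 3,
  .inl (.ag (.p1 3 0 0) (.p1 21628463 0 2324)), .inl (.ag (.p1 3 0 0) (.p2 10827389 0 1644)),
  .inr 3, .inr 11, .inr 19, .inr 9, .inr 7, .inr 5, .inr 3, .inr 17, .inr 13, .inr 3, .inr 125,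
  .inr 7, .inr 9, .inl (.p1 44049767 0 3317), .inr 29, .inr 3, .inr 61, .inr 0, .inr 3,
  .inl (.ag (.p1 11 0 1) (.p2 3697409 0 960)), .inr 5, .inr 27,
  .inl (.ag (.p1 3 0 0) (.ag (.p1 3 0 0) (.ag (.p2 277 0 7) (.p2 20021 0 70)))), .inr 11, .inr 3,
  .inr 5, .inl (.ag (.p1 3 0 0) (.ag (.p1 3 0 0) (.p1 11185679 0 1671))), .inr 3, .inr 37,
  .inl (.ag (.p1 3 0 0) (.p2 11225849 0 1674)), .inr 9,
  .inl (.ag (.p1 3 0 0) (.p2 11252669 0 1676)), .inr 49, .inr 3, .inr 11, .inr 25, .inr 3,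
  .inl (.ag (.p1 43 0 2) (.p2 101 2 4)),
  .inl (.ag (.p1 3 0 0) (.ag (.p1 3 0 0) (.ag (.p2 29 1 2) (.p2 6737 0 40)))), .inr 9, .inr 5,
  .inr 17, .inr 3, .inr 29, .inl (.ag (.p1 3 0 0) (.ag (.p1 19 0 1) (.p2 1142777 0 534))), .inr 3,
  .inr 7, .inr 13, .inr 27, .inl (.ag (.p1 3 0 0) (.p2 11495489 0 1694)), .inr 5, .inr 3,
  .inl (.ag (.p1 3 0 0) (.ag (.p2 157 0 5) (.p2 73013 0 134))), .inr 7]

theorem tbl0_ok : table1 1600 tbl0 = true := by decide +kernel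

theorem tbl0_len : tbl0.length = 100 := by decide +kernel

/-- part 1 of the table -/
def tbl1 : List (Cert ⊕ ℕ) := [
  .inr 3, .inr 5, .inr 11, .inr 9, .inr 17, .inr 19, .inr 3,
  .inl (.ag (.p1 6827 0 40) (.p2 6829 0 40)),
  .inl (.ag (.p1 3 0 0) (.ag (.p1 3 0 0) (.ag (.p1 3 0 0) (.p2 2918117 0 853)))), .inr 3,
  .inl (.ag (.p1 3 0 0) (.ag (.p1 3 0 0) (.p1 11699819 0 1709))), .inr 5, .inr 9, .inr 7,
  .inl (.ag (.p1 3 0 0) (.ag (.p2 17 0 1) (.p2 653033 0 403))), .inr 3, .inr 5,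
  .inl (.ag (.p2 101 0 4) (.p2 231289 0 239)), .inr 3, .inr 13, .inr 7, .inr 81,
  .inl (.p1 47458319 0 3443), .inr 61, .inr 3, .inr 67, .inr 5, .inr 3, .inr 31,
  .inl (.ag (.p1 3 0 0) (.p2 11961221 0 1728)), .inr 9, .inr 25, .inr 169, .inr 3, .inr 7,
  .inr 11, .inr 3, .inl (.ag (.p1 3 0 0) (.p1 24144299 0 2456)), .inr 17, .inr 9,
  .inl (.ag (.p1 3 0 0) (.ag (.p1 3 0 0) (.ag (.p1 3 0 0) (.p2 3028469 0 869)))), .inr 5, .inr 3,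
  .inr 19, .inl (.ag (.p1 3 0 0) (.ag (.p1 3 0 0) (.p1 12169631 0 1743))), .inr 3, .inr 5,
  .inr 29, .inr 27, .inl (.ag (.p1 131 0 5) (.p1 741787 0 430)),
  .inl (.ag (.p1 3 0 0) (.ag (.p1 3 2 0) (.p1 1750499 0 661))), .inr 3, .inr 43,
  .inl (.ag (.mi 1753 0 20 (.ag (.p1 11 0 1) (.mi 73 0 3 (.p1 71 0 3)))) (.p2 7013 0 41)), .inr 3,
  .inr 7, .inr 25, .inr 9, .inr 13, .inr 31, .inr 3, .inr 5, .inr 7, .inr 3,
  .inl (.ag (.p1 3 0 0) (.ag (.p1 3 0 0) (.p1 12450311 0 1763))), .inr 23, .inr 9,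
  .inl (.ag (.p2 37 0 2) (.p1 1315019 0 572)), .inr 11, .inr 3, .inr 73, .inr 5, .inr 3, .inr 41,
  .inr 47, .inr 27, .inr 5, .inl (.ag (.p1 19 0 1) (.p2 2526893 0 794)), .inr 3, .inr 11,
  .inl (.ag (.p1 3 0 0) (.ag (.p1 3 0 0) (.ag (.p1 3 0 0) (.p2 3169289 0 889)))), .inr 3,
  .inl (.ag (.p1 3 0 0) (.ag (.p1 3 0 0) (.p1 12705659 0 1781))), .inr 7, .inr 9, .inr 37, .inr 5,
  .inr 3, .inr 23, .inr 17, .inr 3, .inr 5, .inr 67, .inr 9, .inl (.p1 51509327 0 3587), .inr 43,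
  .inr 3, .inr 7, .inl (.ag (.p1 3 0 0) (.ag (.p2 61 0 3) (.p1 417251 0 322))), .inr 3]

theorem tbl1_ok : table1 1700 tbl1 = true := by decide +kernel

theorem tbl1_len : tbl1.length = 100 := by decide +kernel

/-- part 2 of the table -/
def tbl2 : List (Cert ⊕ ℕ) := [
  .inr 19, .inr 5, .inr 81, .inl (.ag (.p1 3 0 0) (.p1 26013683 0 2549)), .inr 7, .inr 3, .inr 25,
  .inl (.p1 52258439 0 3613), .inr 3, .inl (.p1 52374167 0 3617), .inr 13, .inr 9, .inr 11,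
  .inl (.ag (.p1 11 0 1) (.p2 4383833 0 1046)), .inr 3, .inr 53, .inr 5, .inr 3, .inr 7, .inr 19,
  .inr 9, .inr 5, .inr 37, .inr 3,
  .inl (.ag (.p1 3 0 0) (.ag (.p1 3 0 0) (.ag (.p1 3 0 0) (.ag (.p1 3 0 0) (.ag (.p1 3 0 0) (.ag (.p1 11 0 1) (.p2 138661 0 185))))))),
  .inr 49, .inr 3, .inl (.ag (.p1 19 0 1) (.p2 2671073 0 816)), .inr 71, .inr 27,
  .inl (.ag (.p1 3 0 0) (.ag (.p1 3 0 0) (.p1 13399259 0 1829))), .inr 25, .inr 3,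
  .inl (.ag (.p1 3 0 0) (.p1 26886443 0 2592)), .inr 11, .inr 3, .inr 5,
  .inl (.p1 54007799 0 3673), .inr 9, .inr 7, .inr 17, .inr 3,
  .inl (.ag (.p1 3 0 0) (.ag (.p1 131 0 5) (.p1 411379 0 320))), .inr 73, .inr 3, .inr 121,
  .inr 5, .inr 9,
  .inl (.ag (.p1 3 0 0) (.ag (.p1 3 0 0) (.ag (.p1 3 0 0) (.ag (.p1 3 2 0) (.p1 488003 0 348))))),
  .inr 13, .inr 3, .inr 5, .inr 31, .inr 3, .inl (.ag (.p1 3 0 0) (.p1 27505943 0 2621)), .inr 41,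
  .inr 27, .inr 17, .inl (.ag (.p1 3 0 0) (.p1 27624743 0 2627)), .inr 3, .inr 7, .inr 5, .inr 3,
  .inr 29,
  .inl (.ag (.p1 3 0 0) (.ag (.p1 3 0 0) (.ag (.p1 3 0 0) (.ag (.p1 3 0 0) (.p1 3475427 0 931))))),
  .inr 9, .inr 5, .inr 7, .inr 3, .inl (.ag (.p1 3 0 0) (.p1 27952763 0 2643)),
  .inl (.ag (.p1 3 0 0) (.p1 27982679 0 2644)), .inr 3, .inl (.p1 56085119 0 3743), .inr 59,
  .inr 9, .inr 13, .inr 5, .inr 3, .inr 11, .inl (.ag (.p1 3 2 0) (.p1 4036091 0 1004)), .inr 3,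
  .inr 25, .inl (.ag (.p1 3 0 0) (.ag (.p1 3011 0 26) (.p2 97 1 4))), .inr 243,
  .inl (.ag (.p1 3 0 0) (.ag (.p1 3 0 0) (.p1 14201591 0 1883))),
  .inl (.ag (.p1 19 0 1) (.p2 2843333 0 842)), .inr 3,
  .inl (.ag (.p1 11 0 1) (.p1 9497899 0 1540)), .inr 7, .inr 3,
  .inl (.ag (.p1 3 0 0) (.p1 28584359 0 2672)), .inr 5, .inr 9, .inl (.p1 57350327 0 3785),
  .inl (.ag (.p1 3 0 0) (.ag (.p1 11 0 1) (.p1 4784243 0 1093))), .inr 3, .inr 5,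
  .inl (.p1 57592919 0 3793), .inr 3, .inr 71]

theorem tbl2_ok : table1 1800 tbl2 = true := by decide +kernel

theorem tbl2_len : tbl2.length = 100 := by decide +kernel

/-- part 3 of the table -/
def tbl3 : List (Cert ⊕ ℕ) := [
  .inr 11, .inr 9, .inr 7, .inr 23, .inr 3, .inl (.ag (.p2 73 0 3) (.p1 784859 0 442)), .inr 125,
  .inr 3, .inr 17, .inr 7, .inr 27, .inr 5,
  .inl (.ag (.p1 3 0 0) (.ag (.p1 3 0 0) (.ag (.p1 3 0 0) (.ag (.p1 3 0 0) (.p1 3656699 0 955))))),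
  .inr 3, .inr 13, .inr 47, .inr 3, .inl (.ag (.p1 3 0 0) (.p2 14703389 0 1916)),
  .inl (.ag (.p1 3 0 0) (.ag (.p1 11 0 1) (.p1 4906243 0 1107))), .inr 9,
  .inl (.p1 58997759 0 3839), .inr 5, .inr 3, .inr 49, .inr 43, .inr 3, .inr 5, .inr 13, .inr 9,
  .inl (.ag (.p1 3 0 0) (.p2 14888021 0 1928)), .inr 7, .inr 3, .inr 59, .inr 11, .inr 3,
  .inl (.ag (.p1 3 0 0) (.p1 29961539 0 2736)), .inr 5, .inr 27,
  .inl (.ag (.p1 3 0 0) (.p1 30054503 0 2740)), .inl (.p1 60171047 0 3877), .inr 3, .inr 5,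
  .inr 17, .inr 3, .inr 7, .inr 31, .inr 9, .inl (.ag (.p1 3 0 0) (.p2 15167129 0 1946)),
  .inl (.ag (.p1 3 0 0) (.ag (.p1 3 0 0) (.ag (.p1 3 0 0) (.p2 3795677 0 973)))), .inr 3, .inr 29,
  .inr 5, .inr 3, .inr 13, .inl (.p1 61105487 0 3907), .inr 9, .inr 25,
  .inl (.ag (.p1 19 0 1) (.p1 6129323 0 1237)), .inr 3, .inr 17,
  .inl (.ag (.p1 3 0 0) (.p1 30740639 0 2771)), .inr 3, .inr 47, .inl (.p1 61669607 0 3925),
  .inr 81, .inr 7, .inr 5, .inr 3, .inl (.ag (.p1 3 0 0) (.ag (.p1 3 0 0) (.p1 15496031 0 1967))),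
  .inl (.ag (.mi 101 0 4 (.p2 7 1 0)) (.p1 307163 0 276)), .inr 3, .inr 5, .inr 343, .inr 9,
  .inr 53, .inl (.p1 62425799 0 3949), .inr 3, .inr 11, .inr 41, .inr 3,
  .inl (.ag (.p1 3 0 0) (.ag (.p1 3 0 0) (.ag (.p2 17 0 1) (.p2 435709 0 329)))), .inr 25, .inr 9,
  .inl (.ag (.p1 11 0 1) (.p2 5244373 0 1144)),
  .inl (.ag (.p1 3 0 0) (.ag (.p1 3 0 0) (.ag (.p1 3 0 0) (.ag (.p1 3 0 0) (.ag (.p1 3 0 0) (.ag (.p1 3 0 0) (.ag (.p1 11 0 1) (.p1 164051 0 202)))))))),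
  .inr 3, .inr 5, .inl (.ag (.p1 3 0 0) (.p1 31593299 0 2809)), .inr 3, .inr 73, .inr 19, .inr 27,
  .inr 13, .inr 7, .inr 3, .inr 23, .inr 5, .inr 3, .inl (.p1 63888047 0 3995), .inr 11]

theorem tbl3_ok : table1 1900 tbl3 = true := by decide +kernel

theorem tbl3_len : tbl3.length = 100 := by decide +kernel

/-- part 4 of the table -/
def tbl4 : List (Cert ⊕ ℕ) := [
  .inr 9, .inr 5, .inl (.ag (.p1 3 0 0) (.ag (.p1 19 0 1) (.p2 1603601 0 632))), .inr 3,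
  .inl (.ag (.p1 3 0 0) (.ag (.p1 3 0 0) (.ag (.p2 421 0 9) (.p2 19037 0 68)))), .inr 13, .inr 3,
  .inr 7, .inr 29, .inr 9, .inr 11, .inr 5, .inr 3, .inl (.ag (.p1 3 0 0) (.p1 32425403 0 2846)),
  .inr 7, .inr 3, .inr 5, .inl (.ag (.p1 3 0 0) (.p2 16277189 0 2016)), .inr 27, .inr 41,
  .inl (.ag (.p1 3 0 0) (.ag (.p1 3 0 0) (.ag (.p1 59 0 3) (.p2 272093 0 260)))), .inr 3,
  .inl (.ag (.p1 3 0 0) (.ag (.p2 673 0 12) (.p1 48539 0 109))), .inl (.p1 65496647 0 4045),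
  .inr 3, .inl (.ag (.p2 17 0 1) (.p1 3645899 0 954)), .inr 5, .inr 9, .inr 7,
  .inl (.ag (.p1 131 0 5) (.p2 499133 0 352)), .inr 3, .inr 625, .inr 11, .inr 3, .inr 79, .inr 7,
  .inr 9, .inr 29, .inr 31, .inr 3, .inl (.ag (.p1 3 0 0) (.p1 33300959 0 2884)), .inr 5, .inr 3,
  .inr 11, .inr 13, .inr 81, .inr 5, .inr 19, .inr 3, .inr 7, .inr 59, .inr 3,
  .inl (.p1 67387679 0 4103), .inr 43, .inr 9, .inl (.ag (.p1 19 0 1) (.p1 6758483 0 1299)),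
  .inr 25, .inr 3, .inl (.ag (.p1 3 0 0) (.ag (.p1 3 0 0) (.p1 16945571 0 2057))),
  .inl (.p1 67848167 0 4117), .inr 3, .inr 5, .inr 73, .inr 9, .inr 23, .inr 11, .inr 3,
  .inl (.ag (.p1 3 0 0) (.p1 34188179 0 2923)),
  .inl (.ag (.p1 3 0 0) (.ag (.p1 3 0 0) (.p1 17110631 0 2067))), .inr 3, .inr 49, .inr 5,
  .inr 27, .inl (.ag (.p1 11 0 1) (.p2 5731153 0 1196)),
  .inl (.ag (.p1 3 0 0) (.p1 34420103 0 2932)), .inr 3, .inr 5, .inr 7, .inr 3,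
  .inl (.ag (.p1 3 0 0) (.p2 17293121 0 2078)), .inr 53, .inr 9, .inl (.p1 69372239 0 4163),
  .inr 13, .inr 3, .inr 19, .inr 5, .inr 3, .inl (.ag (.p1 3 0 0) (.p1 34886303 0 2952)), .inr 61,
  .inr 9, .inr 5, .inl (.ag (.p1 3 0 0) (.ag (.p1 3 0 0) (.ag (.p1 3 0 0) (.p2 4377509 0 1045)))),
  .inr 3, .inl (.ag (.p1 11 0 1) (.p1 11695687 0 1709)), .inr 289, .inr 3,
  .inl (.ag (.p1 11 0 1) (.p1 11729219 0 1711)), .inr 7, .inr 27]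

theorem tbl4_ok : table1 2000 tbl4 = true := by decide +kernel

theorem tbl4_len : tbl4.length = 100 := by decide +kernel

/-- part 5 of the table -/
def tbl5 : List (Cert ⊕ ℕ) := [
  .inr 31, .inr 5, .inr 3, .inr 47, .inr 19, .inr 3, .inr 25,
  .inl (.ag (.p1 3 2 0) (.p1 5074859 0 1125)), .inr 9, .inr 11, .inr 23, .inr 3, .inr 7, .inr 79,
  .inr 3, .inl (.ag (.p1 3 0 0) (.p1 35794259 0 2990)), .inr 5, .inr 9, .inr 37, .inr 49, .inr 3,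
  .inr 5, .inr 13, .inr 3, .inr 29, .inl (.ag (.p1 3 0 0) (.p1 36133499 0 3005)), .inr 243,
  .inr 67, .inl (.p1 72471167 0 4255), .inr 3, .inl (.ag (.p1 3 0 0) (.p1 36303719 0 3012)),
  .inr 25, .inr 3, .inr 7, .inl (.ag (.p1 43 0 2) (.ag (.p2 193 0 6) (.p2 8537 0 45))), .inr 9,
  .inr 5, .inr 83, .inr 3, .inr 43, .inr 7, .inr 3, .inr 11, .inr 0, .inr 9,
  .inl (.ag (.p1 3 0 0) (.p1 36816779 0 3033)), .inr 5, .inr 3, .inr 13,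
  .inl (.ag (.p2 613 0 11) (.p1 120371 0 172)), .inr 3, .inr 5,
  .inl (.ag (.p1 3 0 0) (.ag (.p1 3 0 0) (.ag (.p1 3 0 0) (.ag (.p1 83 0 4) (.p1 220579 0 234))))),
  .inr 27, .inr 7, .inr 37, .inr 3, .inl (.p1 74459639 0 4313), .inr 89, .inr 3,
  .inl (.ag (.p1 3 0 0) (.ag (.p1 3 0 0) (.ag (.p1 3 0 0) (.ag (.p1 3 0 0) (.p1 4666679 0 1079))))),
  .inr 5, .inr 9, .inr 17, .inr 11, .inr 3, .inr 5, .inl (.ag (.p1 19 0 1) (.p2 3757577 0 968)),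
  .inr 3, .inl (.ag (.p1 3 0 0) (.p2 18822581 0 2168)),
  .inl (.ag (.p1 3 0 0) (.ag (.p1 19 0 1) (.p1 3767987 0 970))), .inr 9,
  .inl (.ag (.p1 3 0 0) (.ag (.p1 3 0 0) (.ag (.p1 131 0 5) (.p1 285979 0 266)))),
  .inl (.ag (.p1 3 2 0) (.p1 5397731 0 1161)), .inr 3, .inr 7, .inr 5, .inr 3,
  .inl (.p1 75916367 0 4355), .inr 23, .inr 27, .inr 25, .inr 7, .inr 3,
  .inl (.ag (.p1 3 0 0) (.ag (.p1 3 0 0) (.ag (.p1 3 0 0) (.ag (.p1 3 2 0) (.p1 681563 0 412))))),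
  .inl (.p1 76405079 0 4369), .inr 3, .inr 13,
  .inl (.ag (.p1 3 0 0) (.ag (.p1 3 0 0) (.ag (.p1 3 6 0) (.p2 8753 0 46)))), .inr 9,
  .inl (.ag (.p1 3 0 0) (.ag (.p1 11 0 1) (.p1 6396259 0 1264))), .inr 5, .inr 3, .inr 31,
  .inr 67, .inr 3, .inr 5, .inr 11, .inr 9, .inr 19]

theorem tbl5_ok : table1 2100 tbl5 = true := by decide +kernel

theorem tbl5_len : tbl5.length = 100 := by decide +kernel

/-- part 6 of the table -/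
def tbl6 : List (Cert ⊕ ℕ) := [
  .inr 13, .inr 3, .inr 23, .inr 7, .inr 3, .inl (.ag (.p1 11 0 1) (.p1 12968339 0 1800)),
  .inr 25, .inr 81, .inr 121, .inl (.ag (.p1 11 0 1) (.p1 13015427 0 1803)), .inr 3, .inr 5,
  .inl (.p1 78304799 0 4423), .inr 3, .inr 17, .inl (.ag (.p1 3 2 0) (.p2 2804189 0 836)), .inr 9,
  .inr 49, .inr 19, .inr 3, .inr 83, .inr 5, .inr 3, .inl (.ag (.p1 3 0 0) (.p2 19771361 0 2222)),
  .inr 7, .inr 9, .inr 5, .inr 59, .inr 3, .inr 37, .inr 11, .inr 3,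
  .inl (.ag (.p1 3 0 0) (.p1 39863519 0 3156)), .inl (.ag (.p1 3 0 0) (.p1 39899243 0 3157)),
  .inr 27, .inl (.p1 79941479 0 4469), .inr 5, .inr 3, .inr 7, .inr 169, .inr 3, .inr 5,
  .inl (.p1 80442959 0 4483), .inr 9, .inr 47, .inr 7, .inr 3, .inr 89, .inr 17, .inr 3,
  .inl (.ag (.p1 3 0 0) (.ag (.p1 19 0 1) (.p1 4050899 0 1005))), .inr 5, .inr 9,
  .inl (.ag (.p1 9011 0 46) (.p2 9013 0 46)), .inr 71, .inr 3, .inr 25,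
  .inl (.ag (.p1 3 0 0) (.p1 40761419 0 3191)), .inr 3, .inr 7,
  .inl (.ag (.p1 3 0 0) (.ag (.p1 3 0 0) (.ag (.p1 19 0 1) (.p1 2043491 0 714)))), .inr 27,
  .inl (.p1 81884399 0 4523), .inr 11, .inr 3, .inr 13, .inr 5, .inr 3, .inr 43, .inr 29, .inr 9,
  .inr 5, .inr 61, .inr 3, .inr 11, .inr 19, .inr 3, .inl (.p1 82973879 0 4553), .inr 13, .inr 9,
  .inr 7, .inr 125, .inr 3, .inl (.p1 83411687 0 4565),
  .inl (.ag (.p1 3 0 0) (.p1 41742383 0 3229)), .inr 3, .inr 5, .inr 7, .inr 81,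
  .inl (.ag (.mi 109 0 4 (.p1 107 0 4)) (.p2 192317 0 218)),
  .inl (.ag (.p1 3 0 0) (.ag (.p1 19 0 1) (.p2 2098097 0 723))), .inr 3, .inr 53,
  .inl (.ag (.p1 3 0 0) (.p2 21035981 0 2292)), .inr 3,
  .inl (.ag (.p1 3 0 0) (.p1 42145379 0 3245)), .inr 5, .inr 9, .inr 29, .inr 17]

theorem tbl6_ok : table1 2200 tbl6 = true := by decide +kernel

theorem tbl6_len : tbl6.length = 100 := by decide +kernel

/-- part 7 of the table -/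
def tbl7 : List (Cert ⊕ ℕ) := [
  .inr 3, .inr 5, .inl (.ag (.p1 3 0 0) (.p1 42402839 0 3255)), .inr 3, .inr 13,
  .inl (.p1 85026839 0 4609), .inr 9, .inr 11, .inr 7, .inr 3,
  .inl (.ag (.p1 3 0 0) (.ag (.p1 3 0 0) (.p1 21349019 0 2309))), .inr 5, .inr 3, .inr 19,
  .inl (.ag (.p1 3 0 0) (.ag (.p2 5 1 0) (.p2 823961 0 453))), .inr 27, .inr 5, .inr 13, .inr 3,
  .inl (.ag (.mi 773 0 13 (.mi 193 0 6 (.p1 191 0 6))) (.p1 55667 0 117)),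
  .inl (.ag (.p1 3 0 0) (.p1 43068479 0 3280)), .inr 3, .inr 7,
  .inl (.ag (.p1 3 0 0) (.p2 21589961 0 2322)), .inr 9, .inr 71, .inr 5, .inr 3, .inr 67, .inr 7,
  .inr 3, .inr 25, .inr 19, .inr 9,
  .inl (.ag (.p1 3 0 0) (.ag (.p1 11 0 1) (.p1 7264963 0 1347))),
  .inl (.ag (.p1 3 0 0) (.p2 21813569 0 2334)), .inr 3,
  .inl (.ag (.p1 3 0 0) (.p1 43701899 0 3304)), .inr 47, .inr 3, .inr 11, .inr 5, .inr 27, .inr 7,
  .inl (.ag (.p1 3 0 0) (.ag (.p1 3 0 0) (.ag (.p1 3 0 0) (.ag (.p1 3 0 0) (.p2 2747753 0 828))))),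
  .inr 3, .inr 5, .inr 41, .inr 3, .inl (.ag (.p1 3 0 0) (.p2 22075901 0 2348)), .inr 7, .inr 9,
  .inl (.ag (.p1 3 0 0) (.p1 44264639 0 3326)), .inl (.ag (.p2 17 0 1) (.p2 2461237 0 783)),
  .inr 3, .inl (.ag (.p1 59 0 3) (.p2 1479253 0 607)), .inr 25, .inr 3,
  .inl (.ag (.p1 3 0 0) (.ag (.p1 11 0 1) (.p1 7415123 0 1361))), .inl (.p1 89056967 0 4717),
  .inr 9, .inr 5, .inr 11, .inr 3, .inr 49, .inl (.ag (.p1 19 0 1) (.p1 8951051 0 1495)), .inr 3,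
  .inr 17, .inl (.ag (.p1 3 0 0) (.ag (.p1 3 0 0) (.p1 22434431 0 2367))), .inr 729, .inr 19,
  .inr 5, .inr 3, .inr 11, .inr 0, .inr 3, .inr 5, .inr 37, .inr 9, .inr 31,
  .inl (.p1 90649439 0 4759), .inr 3, .inr 13, .inl (.p1 90878087 0 4765), .inr 3, .inr 7, .inr 5,
  .inr 9, .inr 41, .inr 19, .inr 3, .inr 5, .inr 7, .inr 3, .inr 61, .inr 11, .inr 27, .inr 43,
  .inr 53, .inr 3]

theorem tbl7_ok : table1 2300 tbl7 = true := by decide +kernel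

theorem tbl7_len : tbl7.length = 100 := by decide +kernel

theorem had_sq {v : ℕ} (hv : IsPrimePow v) (hv4 : v % 4 = 1) (hx : v ∉ exc1)
    (hlo : 6400 ≤ v) (hhi : v < 9600) : Pool.Agent.H108R3.Had.HasHad (v ^ 2 - 1) := by
  by_cases h0 : v < 6800
  · exact table1_spec tbl0 1600 tbl0_ok v hv4 (by omega) (by rw [tbl0_len]; omega) hv hx
  by_cases h1 : v < 7200
  · exact table1_spec tbl1 1700 tbl1_ok v hv4 (by omega) (by rw [tbl1_len]; omega) hv hx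
  by_cases h2 : v < 7600
  · exact table1_spec tbl2 1800 tbl2_ok v hv4 (by omega) (by rw [tbl2_len]; omega) hv hx
  by_cases h3 : v < 8000
  · exact table1_spec tbl3 1900 tbl3_ok v hv4 (by omega) (by rw [tbl3_len]; omega) hv hx
  by_cases h4 : v < 8400
  · exact table1_spec tbl4 2000 tbl4_ok v hv4 (by omega) (by rw [tbl4_len]; omega) hv hx
  by_cases h5 : v < 8800
  · exact table1_spec tbl5 2100 tbl5_ok v hv4 (by omega) (by rw [tbl5_len]; omega) hv hx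
  by_cases h6 : v < 9200
  · exact table1_spec tbl6 2200 tbl6_ok v hv4 (by omega) (by rw [tbl6_len]; omega) hv hx
  by_cases h7 : v < 9600
  · exact table1_spec tbl7 2300 tbl7_ok v hv4 (by omega) (by rw [tbl7_len]; omega) hv hx
  omega

end Pool.Agent.K9h69.Menon.S1
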