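import Pool.Agent.K9h69.Menon.Cert1

/-!
# Derivations of Hadamard matrices of order `v ^ 2 - 1` for prime powers `v ≡ 1 (mod 4)`,
`9600 ≤ v < 12000`
-/

set_option autoImplicit false

namespace Pool.Agent.K9h69.Menon.S2

/-- part 0 of the table -/
def tbl0 : List (Cert ⊕ ℕ) := [
  .inl (.ag (.p1 3 0 0) (.ag (.p1 3 0 0) (.p1 23044799 0 2399))), .inr 5, .inr 3,
  .inl (.p1 92409767 0 4805), .inr 59, .inr 9, .inr 125,
  .inl (.ag (.p1 11 0 1) (.p2 7726469 0 1389)), .inr 3, .inr 23, .inr 31, .inr 3,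
  .inl (.ag (.p1 3 0 0) (.ag (.p1 3 0 0) (.p1 23275799 0 2411))), .inr 49, .inr 9,
  .inl (.p1 93334919 0 4829), .inr 5, .inr 3, .inr 17,
  .inl (.ag (.p1 3 0 0) (.p1 46822163 0 3420)), .inr 3, .inr 5,
  .inl (.ag (.p1 3 0 0) (.ag (.p1 67 0 3) (.p2 690269 0 414))), .inr 27,
  .inl (.p1 94031807 0 4847), .inr 89, .inr 3, .inr 7, .inr 11, .inr 3,
  .inl (.p1 94497839 0 4859), .inr 25, .inr 9, .inl (.ag (.p2 1621 0 19) (.p1 58403 0 120)),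
  .inr 7, .inr 3, .inr 5, .inl (.ag (.p1 3 0 0) (.p1 47521499 0 3446)), .inr 3, .inr 11, .inr 43,
  .inr 9, .inl (.ag (.p1 3 0 0) (.p1 47716679 0 3453)), .inr 29, .inr 3,
  .inl (.ag (.mi 73 0 3 (.p1 71 0 3)) (.p2 327629 0 285)), .inr 5, .inr 3, .inr 7, .inr 97,
  .inr 81, .inr 5, .inr 17, .inr 3,
  .inl (.ag (.p1 3 0 0) (.ag (.mi 409 0 9 (.ag (.p1 3 0 0) (.p2 101 0 4))) (.p1 58907 0 120))),
  .inr 7, .inr 3, .inl (.p1 96609239 0 4913),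
  .inl (.ag (.p1 3 0 0) (.ag (.p1 11 0 1) (.p1 8057323 0 1418))), .inr 9, .inr 13, .inr 5, .inr 3,
  .inr 59,
  .inl (.ag (.p1 3 0 0) (.ag (.p1 3 0 0) (.ag (.p1 3 0 0) (.ag (.p1 3 0 0) (.p1 6072527 0 1231))))),
  .inr 3, .inr 5, .inr 71, .inr 9, .inr 7, .inr 41, .inr 3, .inr 11, .inr 13, .inr 3,
  .inl (.ag (.p1 3 0 0) (.p2 24507449 0 2474)), .inr 5, .inr 27, .inr 23, .inr 47, .inr 3,
  .inr 25, .inl (.ag (.p1 3 0 0) (.ag (.p1 67 0 3) (.p1 1449779 0 601))), .inr 3, .inr 19,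
  .inl (.ag (.p1 3 0 0) (.p2 24705869 0 2484)), .inr 9, .inl (.p1 98982599 0 4973), .inr 37,
  .inr 3, .inr 7, .inr 5, .inr 3, .inl (.ag (.p1 3323 0 28) (.p2 29921 0 85)), .inr 11, .inr 9,
  .inr 5, .inr 7, .inr 3, .inr 13]

theorem tbl0_ok : table1 2400 tbl0 = true := by decide +kernel

theorem tbl0_len : tbl0.length = 100 := by decide +kernel

/-- part 1 of the table -/
def tbl1 : List (Cert ⊕ ℕ) := [
  .inr 73, .inr 3, .inl (.p1 100180079 0 5003), .inr 17, .inr 27, .inr 11, .inr 25, .inr 3,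
  .inr 79, .inl (.p1 100741367 0 5017), .inr 3, .inr 5, .inr 13, .inr 9, .inr 89,
  .inl (.p1 101223719 0 5029), .inr 3, .inl (.ag (.p1 379 0 9) (.p2 266801 0 257)), .inr 7,
  .inr 3, .inr 17, .inr 5, .inr 9, .inl (.p1 101868647 0 5045), .inr 23, .inr 3, .inr 5, .inr 11,
  .inr 3, .inr 67, .inr 29, .inr 81, .inr 7, .inl (.ag (.p1 3 0 0) (.p2 25669421 0 2532)), .inr 3,
  .inl (.ag (.p1 3 0 0) (.p2 25709969 0 2534)), .inr 5, .inr 3, .inr 11, .inr 7, .inr 9, .inr 5,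
  .inl (.ag (.p1 3 0 0) (.ag (.p1 19 0 1) (.p1 5170427 0 1136))), .inr 3,
  .inl (.ag (.p1 3 0 0) (.p1 51785663 0 3597)),
  .inl (.ag (.mi 1697 0 20 (.ag (.p1 3 0 0) (.ag (.p1 3 0 0) (.ag (.p1 3 0 0) (.p1 211 0 6))))) (.p1 30539 0 86)),
  .inr 3, .inr 23, .inl (.ag (.p1 3 0 0) (.p1 51948623 0 3603)), .inr 9,
  .inl (.p1 104060399 0 5099), .inr 5, .inr 3, .inr 7, .inr 17, .inr 3, .inr 25, .inr 53, .inr 27,
  .inr 29, .inr 49, .inr 3, .inr 37, .inl (.ag (.p1 3 0 0) (.p2 26281001 0 2562)), .inr 3,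
  .inr 31, .inr 5, .inr 9, .inl (.ag (.p1 3 0 0) (.p1 52767263 0 3631)), .inr 43, .inr 3, .inr 5,
  .inl (.p1 105863519 0 5143), .inr 3, .inr 7, .inl (.ag (.p1 3 0 0) (.p2 26527649 0 2574)),
  .inr 9, .inr 169, .inl (.ag (.p1 3 0 0) (.ag (.p1 11 0 1) (.p1 8863163 0 1488))), .inr 3,
  .inl (.ag (.p1 3 0 0) (.p1 53261519 0 3648)), .inr 25, .inr 3,
  .inl (.ag (.p1 3 0 0) (.p1 53385443 0 3652)), .inl (.ag (.p1 3 0 0) (.p1 53426783 0 3654)),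
  .inr 27, .inr 5, .inr 79, .inr 3, .inl (.ag (.p1 3 0 0) (.p2 26816861 0 2588)), .inr 13, .inr 3,
  .inl (.ag (.p1 3 0 0) (.ag (.p1 3 0 0) (.ag (.p1 3 0 0) (.ag (.p1 3 0 0) (.p1 6719759 0 1295))))),
  .inr 11, .inr 9, .inr 7, .inr 5, .inr 3, .inr 19, .inr 37]

theorem tbl1_ok : table1 2500 tbl1 = true := by decide +kernel

theorem tbl1_len : tbl1.length = 100 := by decide +kernel

/-- part 2 of the table -/
def tbl2 : List (Cert ⊕ ℕ) := [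
  .inr 3, .inr 5, .inr 7, .inr 9, .inr 11, .inr 17, .inr 3,
  .inl (.ag (.p1 3 0 0) (.p1 54382019 0 3686)),
  .inl (.ag (.p1 3 0 0) (.ag (.p1 3 0 0) (.p1 27211871 0 2607))), .inr 3, .inr 53, .inr 5,
  .inr 243, .inl (.ag (.p1 3 0 0) (.p1 54632603 0 3695)), .inl (.p1 109348847 0 5227), .inr 3,
  .inr 5, .inr 361, .inr 3, .inl (.ag (.p1 3 0 0) (.p2 27441881 0 2618)), .inr 47, .inr 9,
  .inr 17, .inr 7, .inr 3, .inl (.ag (.p1 3 0 0) (.p1 55135499 0 3712)), .inr 5, .inr 3,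
  .inl (.ag (.p1 3 0 0) (.ag (.p1 3 0 0) (.p1 27630791 0 2627))), .inr 13, .inr 9, .inr 25,
  .inl (.ag (.p1 3 0 0) (.ag (.p1 3 0 0) (.ag (.p1 3 0 0) (.ag (.p1 11 0 1) (.p2 1154789 0 536))))),
  .inr 3, .inr 41, .inr 83, .inr 3, .inr 7, .inr 61, .inr 27, .inr 59, .inr 5, .inr 3, .inr 97,
  .inr 7, .inr 3, .inr 5, .inl (.p1 112126919 0 5293), .inr 9,
  .inl (.ag (.p1 3 2 0) (.p1 8021171 0 1415)),
  .inl (.ag (.p1 3 0 0) (.ag (.p1 19 0 1) (.p2 2809529 0 837))), .inr 3,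
  .inl (.ag (.p1 3 0 0) (.ag (.p1 3 0 0) (.p1 28137719 0 2651))),
  .inl (.ag (.p1 3 0 0) (.p1 56317883 0 3751)), .inr 3, .inr 13, .inr 625, .inr 9, .inr 343,
  .inr 11, .inr 3, .inr 5, .inr 23, .inr 3,
  .inl (.ag (.p1 3 0 0) (.ag (.p1 3 0 0) (.ag (.p1 3 0 0) (.ag (.p1 3 0 0) (.p1 7098227 0 1331))))),
  .inr 7, .inr 27, .inr 47, .inr 13, .inr 3, .inr 11, .inr 5, .inr 3, .inr 289, .inr 19, .inr 9,
  .inr 5, .inl (.ag (.p1 3 0 0) (.p2 28670669 0 2676)), .inr 3, .inr 7, .inr 71, .inr 3,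
  .inl (.p1 115111439 0 5363), .inl (.ag (.mi 1789 0 20 (.p1 1787 0 20)) (.p2 16097 0 62)),
  .inr 9, .inr 23, .inr 5, .inr 3,
  .inl (.ag (.p1 3 0 0) (.ag (.p1 3 0 0) (.ag (.p1 3 0 0) (.ag (.p1 3 0 0) (.ag (.p1 3 0 0) (.ag (.p1 3 0 0) (.ag (.p1 3 0 0) (.ag (.p1 3 0 0) (.p1 451667 0 335))))))))),
  .inr 31, .inr 3, .inr 5, .inr 121, .inr 81, .inr 13,
  .inl (.ag (.p1 3 0 0) (.p2 29057489 0 2694)), .inr 3,
  .inl (.ag (.p1 11 0 1) (.p1 19400419 0 2201)), .inr 43, .inr 3]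

theorem tbl2_ok : table1 2600 tbl2 = true := by decide +kernel

theorem tbl2_len : tbl2.length = 100 := by decide +kernel

/-- part 3 of the table -/
def tbl3 : List (Cert ⊕ ℕ) := [
  .inr 7, .inr 5, .inr 9, .inr 11, .inr 29, .inr 3, .inr 25, .inr 49, .inr 3,
  .inl (.ag (.p1 3 0 0) (.p1 58720283 0 3830)), .inr 37, .inr 9, .inr 19,
  .inl (.ag (.p1 3 0 0) (.p1 58893803 0 3836)), .inr 3,
  .inl (.ag (.p1 10859 0 51) (.p2 10861 0 51)), .inr 5, .inr 3, .inr 83, .inr 73, .inr 27, .inr 5,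
  .inl (.ag (.p1 3 0 0) (.ag (.p1 19 0 1) (.p2 2964257 0 860))), .inr 3, .inr 17, .inr 11, .inr 3,
  .inl (.ag (.p1 3 0 0) (.p2 29751569 0 2726)), .inr 7, .inr 9, .inr 67, .inr 25, .inr 3, .inr 13,
  .inl (.ag (.p1 11 0 1) (.p1 19936327 0 2232)), .inr 3, .inr 5,
  .inl (.ag (.p1 3 2 0) (.p1 8562899 0 1462)), .inr 9, .inl (.p1 120055847 0 5477), .inr 97,
  .inr 3, .inr 7, .inl (.ag (.p2 61 0 3) (.p2 971021 0 492)), .inr 3, .inr 79, .inr 5, .inr 27,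
  .inl (.ag (.p1 3 0 0) (.ag (.p1 3 0 0) (.ag (.p2 137 0 5) (.p1 218923 0 233)))), .inr 7, .inr 3,
  .inr 5, .inr 101, .inr 3, .inr 23, .inr 103, .inr 9, .inr 41, .inr 11, .inr 3, .inr 61, .inr 5,
  .inr 3, .inr 7, .inl (.ag (.p1 3 0 0) (.ag (.p1 3 0 0) (.ag (.p1 3 0 0) (.p2 7641077 0 1381)))),
  .inr 9, .inr 5, .inl (.ag (.p2 17 0 1) (.p2 3403409 0 921)), .inr 3, .inr 11, .inr 7, .inr 3,
  .inr 13, .inl (.ag (.p2 257 0 7) (.p2 238477 0 243)), .inr 81, .inr 17, .inr 5, .inr 3,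
  .inl (.ag (.p1 3 0 0) (.ag (.p1 3 0 0) (.p1 30874691 0 2777))),
  .inl (.ag (.p1 3 2 0) (.p1 8827691 0 1485)), .inr 3, .inr 125, .inr 31, .inr 9, .inr 7, .inr 13,
  .inr 3, .inl (.p1 124300199 0 5573), .inr 19, .inr 3,
  .inl (.ag (.p1 3 0 0) (.p1 62283959 0 3945)), .inr 5, .inr 9,
  .inl (.ag (.p1 3 0 0) (.p2 31208981 0 2792)),
  .inl (.ag (.p1 3 0 0) (.ag (.p1 131 0 5) (.p2 473201 0 343))), .inr 3, .inr 5, .inr 67, .inr 3,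
  .inl (.ag (.p1 11 0 1) (.p1 20895467 0 2285))]

theorem tbl3_ok : table1 2700 tbl3 = true := by decide +kernel

theorem tbl3_len : tbl3.length = 100 := by decide +kernel

/-- part 4 of the table -/
def tbl4 : List (Cert ⊕ ℕ) := [
  .inr 23, .inr 27, .inr 11, .inl (.ag (.p1 3 0 0) (.p1 62865683 0 3963)), .inr 3, .inr 49,
  .inr 25, .inr 3, .inr 47, .inr 17, .inr 9, .inr 5, .inr 7, .inr 3,
  .inl (.ag (.p1 3 0 0) (.ag (.p1 3 2 0) (.p2 2262857 0 751))),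
  .inl (.ag (.p1 7507 0 42) (.p2 16889 0 64)), .inr 3, .inr 59,
  .inl (.ag (.p1 3 0 0) (.p1 63540263 0 3985)), .inr 9, .inr 29, .inr 5, .inr 3, .inr 23, .inr 11,
  .inr 3, .inr 5, .inr 43, .inr 27, .inl (.p1 128074487 0 5657),
  .inl (.ag (.p1 3 0 0) (.ag (.p2 17 0 1) (.p2 1780069 0 666))), .inr 3,
  .inl (.ag (.p1 3 0 0) (.p1 64173119 0 4004)), .inr 7, .inr 3, .inr 11, .inr 5, .inr 9,
  .inl (.ag (.p1 3 0 0) (.ag (.p1 11 0 1) (.p1 10740883 0 1638))), .inr 41, .inr 3, .inr 5,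
  .inl (.ag (.p1 3 0 0) (.ag (.p1 3 0 0) (.p1 32313539 0 2841))), .inr 3, .inr 31, .inr 19,
  .inr 9, .inr 7, .inl (.ag (.p1 3 0 0) (.p1 64900223 0 4027)), .inr 3, .inr 13, .inr 5, .inr 3,
  .inr 101, .inr 49, .inr 243, .inr 25, .inr 11, .inr 3, .inl (.p1 130804967 0 5717), .inr 17,
  .inr 3, .inl (.ag (.p1 3 0 0) (.ag (.p1 19 0 1) (.p1 6553979 0 1279))), .inr 13, .inr 9,
  .inr 73, .inr 5, .inr 3, .inr 7, .inr 23, .inr 3, .inr 5,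
  .inl (.ag (.p1 3 0 0) (.ag (.p1 3 0 0) (.p1 32999279 0 2871))), .inr 9,
  .inl (.ag (.p1 3 0 0) (.p1 66090503 0 4064)), .inr 7, .inr 3, .inr 17, .inr 29, .inr 3, .inr 41,
  .inr 25, .inr 27, .inr 19, .inr 83, .inr 3, .inr 5,
  .inl (.ag (.p1 19 0 1) (.p1 13337939 0 1825)), .inr 3, .inr 7, .inr 11, .inr 9, .inr 23,
  .inr 71, .inr 3, .inr 37, .inr 5, .inr 3, .inl (.p1 134397647 0 5795),
  .inl (.ag (.mi 1933 0 21 (.p1 1931 0 21)) (.p2 17393 0 65))]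

theorem tbl4_ok : table1 2800 tbl4 = true := by decide +kernel

theorem tbl4_len : tbl4.length = 100 := by decide +kernel

/-- part 5 of the table -/
def tbl5 : List (Cert ⊕ ℕ) := [
  .inr 9, .inr 5, .inr 13, .inr 3,
  .inl (.ag (.p1 3 0 0) (.ag (.p1 3 0 0) (.ag (.p1 3 0 0) (.ag (.p1 43 0 2) (.p2 383393 0 309))))),
  .inl (.ag (.p1 3 0 0) (.p2 33761909 0 2904)), .inr 3, .inr 29,
  .inl (.ag (.p1 3 0 0) (.ag (.p1 3 0 0) (.ag (.p1 83 0 4) (.p2 402757 0 316)))), .inr 27, .inr 7,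
  .inr 5, .inr 3, .inr 43, .inl (.p1 135885647 0 5827), .inr 3, .inr 5, .inr 7, .inr 9,
  .inl (.ag (.p1 3 2 0) (.p1 9739451 0 1559)), .inl (.p1 136445759 0 5839), .inr 3,
  .inl (.ag (.p1 3 0 0) (.ag (.p1 3 2 0) (.p1 4879739 0 1104))), .inr 11, .inr 3,
  .inl (.ag (.p2 7 1 0) (.p2 1369133 0 584)), .inr 5, .inr 9, .inr 13,
  .inl (.ag (.p1 3 0 0) (.p2 34322021 0 2928)), .inr 3, .inr 25, .inr 37, .inr 3, .inr 121,
  .inr 59, .inr 81, .inr 31, .inr 7, .inr 3, .inr 19, .inr 5, .inr 3, .inr 61,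
  .inl (.ag (.p1 3 0 0) (.p1 69348863 0 4163)), .inr 9, .inr 5,
  .inl (.ag (.p1 11 0 1) (.p1 23163419 0 2405)), .inr 3, .inr 47,
  .inl (.ag (.p1 3 0 0) (.ag (.p1 3 0 0) (.p1 34815899 0 2949))), .inr 3, .inr 49,
  .inl (.ag (.p1 43 0 2) (.p2 3171521 0 889)), .inr 9,
  .inl (.ag (.p1 19 0 1) (.p2 6986801 0 1321)), .inr 25, .inr 3,
  .inl (.ag (.p1 3 0 0) (.ag (.p1 3 4 0) (.p1 573851 0 378))), .inr 7, .inr 3, .inr 5, .inr 289,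
  .inr 27, .inr 71, .inr 29, .inr 3, .inr 11, .inr 31, .inr 3,
  .inl (.ag (.p1 3 0 0) (.p1 70579079 0 4200)), .inr 5, .inr 9, .inr 7, .inr 0, .inr 3, .inr 5,
  .inl (.ag (.p1 11 0 1) (.p1 23637379 0 2430)), .inr 3, .inr 17, .inr 7, .inr 9, .inr 79,
  .inl (.p1 142396487 0 5965), .inr 3, .inl (.ag (.p1 19 0 1) (.p2 7129373 0 1334)), .inr 5,
  .inr 3, .inl (.ag (.p1 3 0 0) (.ag (.p1 3 0 0) (.ag (.p2 17 0 1) (.p1 1984363 0 703)))),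
  .inr 11, .inr 27, .inr 5,
  .inl (.ag (.p1 3 0 0) (.ag (.p1 3 0 0) (.ag (.p1 3 0 0) (.ag (.p1 3 0 0) (.ag (.p1 3 0 0) (.p1 4476779 0 1057)))))),
  .inr 3, .inr 7, .inl (.ag (.p1 19 0 1) (.p2 7177217 0 1339)), .inr 3, .inr 19, .inr 67, .inr 9]

theorem tbl5_ok : table1 2900 tbl5 = true := by decide +kernel

theorem tbl5_len : tbl5.length = 100 := by decide +kernel

theorem had_sq {v : ℕ} (hv : IsPrimePow v) (hv4 : v % 4 = 1) (hx : v ∉ exc1)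
    (hlo : 9600 ≤ v) (hhi : v < 12000) : Pool.Agent.H108R3.Had.HasHad (v ^ 2 - 1) := by
  by_cases h0 : v < 10000
  · exact table1_spec tbl0 2400 tbl0_ok v hv4 (by omega) (by rw [tbl0_len]; omega) hv hx
  by_cases h1 : v < 10400
  · exact table1_spec tbl1 2500 tbl1_ok v hv4 (by omega) (by rw [tbl1_len]; omega) hv hx
  by_cases h2 : v < 10800
  · exact table1_spec tbl2 2600 tbl2_ok v hv4 (by omega) (by rw [tbl2_len]; omega) hv hx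
  by_cases h3 : v < 11200
  · exact table1_spec tbl3 2700 tbl3_ok v hv4 (by omega) (by rw [tbl3_len]; omega) hv hx
  by_cases h4 : v < 11600
  · exact table1_spec tbl4 2800 tbl4_ok v hv4 (by omega) (by rw [tbl4_len]; omega) hv hx
  by_cases h5 : v < 12000
  · exact table1_spec tbl5 2900 tbl5_ok v hv4 (by omega) (by rw [tbl5_len]; omega) hv hx
  omega

end Pool.Agent.K9h69.Menon.S2
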