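import Pool.Agent.K9h69.Menon.Cert1

/-!
# Derivations of Hadamard matrices of order `v ^ 2 - 1` for prime powers `v ≡ 1 (mod 4)`,
`12000 ≤ v < 14000`
-/

set_option autoImplicit false

namespace Pool.Agent.K9h69.Menon.S3

/-- part 0 of the table -/
def tbl0 : List (Cert ⊕ ℕ) := [
  .inr 11, .inr 5, .inr 3, .inr 41, .inr 61, .inr 3, .inr 25, .inr 23, .inr 9,
  .inl (.ag (.p1 3 0 0) (.p1 72444683 0 4255)),
  .inl (.ag (.p1 3 0 0) (.ag (.p1 11 0 1) (.p1 12082139 0 1737))), .inr 3,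
  .inl (.ag (.p1 3 0 0) (.ag (.p1 3 0 0) (.ag (.p1 19 0 1) (.p1 3629459 0 952)))), .inr 17,
  .inr 3, .inr 7, .inr 5, .inr 81, .inl (.p1 145757327 0 6035), .inr 13, .inr 3, .inr 5, .inr 7,
  .inr 3, .inl (.ag (.p1 3 0 0) (.ag (.p1 3 0 0) (.p1 36584351 0 3023))),
  .inl (.ag (.p1 3 0 0) (.p1 73217099 0 4277)), .inr 9, .inl (.p1 146627879 0 6053),
  .inl (.ag (.p1 3 0 0) (.ag (.p1 3 0 0) (.ag (.p1 3 0 0) (.p2 9170297 0 1513)))), .inr 3,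
  .inr 17, .inr 125, .inr 3, .inr 11, .inr 53, .inr 9, .inr 5,
  .inl (.ag (.p1 59 0 3) (.p1 4919939 0 1108)), .inr 3,
  .inl (.ag (.p1 3 0 0) (.p1 73896323 0 4297)),
  .inl (.ag (.p1 3 0 0) (.ag (.p1 3 0 0) (.p1 36972479 0 3039))), .inr 3, .inr 43, .inr 7,
  .inr 27, .inr 13, .inr 5, .inr 3, .inr 89, .inl (.ag (.p1 3 0 0) (.p2 37191701 0 3048)), .inr 3,
  .inr 5, .inr 29, .inr 9, .inr 19, .inr 121, .inr 3, .inr 7, .inr 13, .inr 3,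
  .inl (.ag (.p1 3 0 0) (.ag (.p1 3 0 0) (.ag (.p1 19 0 1) (.p1 3746051 0 967)))), .inr 5, .inr 9,
  .inl (.ag (.p1 43 0 2) (.p2 3412181 0 923)), .inr 7, .inr 3, .inr 5,
  .inl (.ag (.mi 409 0 9 (.ag (.p1 3 0 0) (.p2 101 0 4))) (.p2 92009 0 151)), .inr 3,
  .inl (.ag (.p1 3 0 0) (.p1 75362363 0 4340)),
  .inl (.ag (.p1 3 0 0) (.ag (.p1 19 0 1) (.p1 7541147 0 1372))), .inr 27,
  .inl (.ag (.p1 3 0 0) (.ag (.p1 3 0 0) (.ag (.p1 3 0 0) (.ag (.p1 3 0 0) (.p1 9438719 0 1535))))),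
  .inr 19, .inr 3, .inl (.ag (.p1 3 0 0) (.p1 75657299 0 4348)), .inr 5, .inr 3, .inr 7, .inr 109,
  .inr 9, .inr 25, .inl (.ag (.p1 3 0 0) (.ag (.p1 3 0 0) (.p1 38001059 0 3081))), .inr 3,
  .inr 169, .inr 7, .inr 3, .inr 53, .inr 11, .inr 9, .inr 47, .inr 5, .inr 3,
  .inl (.ag (.p1 3 0 0) (.p2 38272781 0 3092)),
  .inl (.ag (.p1 3 0 0) (.ag (.p1 3 0 0) (.p1 38297531 0 3093))), .inr 3, .inr 5, .inr 13,
  .inr 729, .inr 49]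

theorem tbl0_ok : table1 3000 tbl0 = true := by decide +kernel

theorem tbl0_len : tbl0.length = 100 := by decide +kernel

/-- part 1 of the table -/
def tbl1 : List (Cert ⊕ ℕ) := [
  .inl (.ag (.p1 3 0 0) (.ag (.p1 3 0 0) (.ag (.p1 19 0 1) (.p1 3844619 0 979)))), .inr 3,
  .inl (.p1 153983279 0 6203), .inl (.ag (.p1 3 0 0) (.p2 38520641 0 3102)), .inr 3,
  .inl (.ag (.p1 3 0 0) (.p1 77140619 0 4390)), .inr 25, .inr 9,
  .inl (.ag (.p1 3 0 0) (.p1 77289743 0 4395)), .inl (.ag (.p1 8291 0 45) (.p1 37307 0 96)),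
  .inr 3, .inr 5, .inr 59, .inr 3, .inl (.ag (.p1 3 0 0) (.ag (.p1 691 0 12) (.p2 112121 0 166))),
  .inr 17, .inr 9, .inr 37, .inl (.ag (.p1 3 0 0) (.ag (.p1 11 0 1) (.p1 12964643 0 1799))),
  .inr 3, .inr 7, .inr 5, .inr 3, .inr 13,
  .inl (.ag (.p1 3 0 0) (.ag (.p1 3 0 0) (.p1 39043751 0 3123))), .inr 27, .inr 5, .inr 7, .inr 3,
  .inl (.ag (.p1 3 0 0) (.p1 78337643 0 4424)), .inr 19, .inr 3, .inr 11, .inr 83, .inr 9,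
  .inl (.ag (.p1 19 0 1) (.p1 15727667 0 1982)), .inr 5, .inr 3,
  .inl (.ag (.p1 3 0 0) (.p1 78788903 0 4437)), .inr 29, .inr 3, .inr 5, .inr 0, .inr 9,
  .inl (.p1 158180927 0 6287), .inr 23, .inr 3, .inl (.ag (.p1 3 0 0) (.p2 39620729 0 3146)),
  .inr 49, .inr 3, .inl (.ag (.p1 3 0 0) (.ag (.p1 11 0 1) (.p1 13232099 0 1818))), .inr 5,
  .inr 27, .inl (.ag (.p2 101 0 4) (.p1 1559683 0 623)), .inr 11, .inr 3, .inr 125, .inr 73,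
  .inr 3, .inl (.ag (.p1 11 0 1) (.p2 13307813 0 1823)),
  .inl (.ag (.p1 3 0 0) (.p1 79897439 0 4468)), .inr 9, .inr 7,
  .inl (.ag (.p1 227 0 7) (.p1 1404371 0 592)), .inr 3, .inr 11, .inr 5, .inr 3, .inr 19, .inr 7,
  .inr 9, .inr 5, .inl (.p1 161010719 0 6343), .inr 3,
  .inl (.ag (.p1 3 0 0) (.ag (.p1 1931 0 21) (.p1 83443 0 143))), .inr 13, .inr 3, .inr 71,
  .inl (.ag (.p1 3 0 0) (.ag (.p1 3 2 0) (.p2 2886077 0 848))), .inr 81,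
  .inl (.ag (.p1 3 0 0) (.ag (.p1 3 0 0) (.ag (.p1 3 0 0) (.p2 10113989 0 1589)))), .inr 25,
  .inr 3, .inr 7, .inr 47, .inr 3, .inr 5, .inr 11, .inr 9,
  .inl (.ag (.p1 11 0 1) (.p2 13561753 0 1840)), .inr 7, .inr 3,
  .inl (.ag (.p1 3 0 0) (.ag (.p1 3 0 0) (.ag (.p1 3 0 0) (.ag (.p1 3 0 0) (.p2 5095229 0 1128))))),
  .inr 53, .inr 3, .inl (.p1 163353959 0 6389), .inr 5, .inr 9, .inr 11, .inr 67]

theorem tbl1_ok : table1 3100 tbl1 = true := by decide +kernel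

theorem tbl1_len : tbl1.length = 100 := by decide +kernel

/-- part 2 of the table -/
def tbl2 : List (Cert ⊕ ℕ) := [
  .inr 3, .inr 5, .inl (.ag (.p1 3 0 0) (.ag (.p1 19 0 1) (.p2 4101761 0 1012))), .inr 3, .inr 7,
  .inl (.ag (.p1 3 0 0) (.p2 41094509 0 3204)), .inr 27,
  .inl (.ag (.p1 19 0 1) (.p2 8229161 0 1433)), .inr 41, .inr 3,
  .inl (.ag (.p1 3 0 0) (.ag (.p1 19 0 1) (.p1 8244563 0 1435))), .inr 5, .inr 3,
  .inl (.ag (.p1 67 0 3) (.p1 4858811 0 1101)), .inr 13, .inr 9, .inr 5, .inr 17, .inr 3, .inr 79,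
  .inr 11, .inr 3, .inl (.ag (.p1 3 0 0) (.ag (.p2 17 0 1) (.p1 4614619 0 1073))),
  .inl (.p1 166229447 0 6445), .inr 9, .inr 7, .inr 5, .inr 3, .inr 37,
  .inl (.ag (.p1 3 0 0) (.p2 41712221 0 3228)), .inr 3, .inr 25, .inr 7, .inr 27, .inr 17,
  .inl (.ag (.p1 3 0 0) (.p2 41867369 0 3234)), .inr 3, .inr 23,
  .inl (.ag (.p1 3 0 0) (.ag (.p1 3 0 0) (.p1 41945051 0 3237))), .inr 3, .inr 13, .inr 5, .inr 9,
  .inl (.ag (.p1 563 0 11) (.p1 596803 0 385)), .inr 19, .inr 3, .inr 5, .inr 31, .inr 3, .inr 41,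
  .inl (.p1 169025999 0 6499), .inr 9,
  .inl (.ag (.p1 3 0 0) (.ag (.p1 3 0 0) (.ag (.p1 19 0 1) (.p1 4230851 0 1027)))), .inr 7,
  .inr 3, .inr 29, .inr 25, .inr 3, .inl (.ag (.p1 3 0 0) (.ag (.p1 227 0 7) (.p2 372497 0 304))),
  .inl (.ag (.p1 11 0 1) (.p2 14163613 0 1881)), .inr 81, .inr 5, .inl (.p1 170276399 0 6523),
  .inr 3, .inr 11, .inr 37, .inr 3, .inr 7, .inr 17, .inr 9, .inr 103, .inr 5, .inr 3,
  .inl (.ag (.p1 3 0 0) (.p2 42856661 0 3272)), .inr 7, .inr 3, .inr 5,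
  .inl (.ag (.p1 11 0 1) (.p2 14320489 0 1891)), .inr 9, .inr 13,
  .inl (.ag (.p1 3 0 0) (.ag (.p1 3 0 0) (.ag (.p1 3 0 0) (.ag (.p1 3 0 0) (.ag (.p1 11 0 1) (.p2 896669 0 472)))))),
  .inr 3, .inr 19, .inr 23, .inr 3, .inr 17, .inr 5, .inr 27, .inr 7, .inr 59, .inr 3, .inr 5,
  .inr 13, .inr 3, .inl (.ag (.p1 3 0 0) (.ag (.p1 43 0 2) (.p1 3946211 0 992))), .inr 49, .inr 9,
  .inr 121, .inr 79, .inr 3]

theorem tbl2_ok : table1 3200 tbl2 = true := by decide +kernel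

theorem tbl2_len : tbl2.length = 100 := by decide +kernel

/-- part 3 of the table -/
def tbl3 : List (Cert ⊕ ℕ) := [
  .inr 43, .inr 5, .inr 3, .inr 73,
  .inl (.ag (.p1 3 0 0) (.ag (.p1 3 0 0) (.ag (.p1 3 0 0) (.ag (.p1 83 0 4) (.p1 519907 0 360))))),
  .inr 9, .inr 25, .inl (.ag (.p1 11 0 1) (.p1 29167739 0 2699)), .inr 3, .inr 7,
  .inl (.ag (.p1 3 0 0) (.ag (.p1 3 0 0) (.p1 43831019 0 3309))), .inr 3,
  .inl (.ag (.p1 3 0 0) (.ag (.p1 3 0 0) (.p1 43883999 0 3311))), .inr 29, .inr 27, .inr 89,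
  .inr 5, .inr 3, .inr 13, .inr 11, .inr 3, .inr 5, .inr 97, .inr 9,
  .inl (.ag (.p1 3 0 0) (.ag (.p1 3 0 0) (.ag (.p1 3 4 0) (.p2 181157 0 212)))), .inr 47, .inr 3,
  .inl (.p1 177129479 0 6653), .inl (.ag (.p1 3 0 0) (.ag (.p1 3 0 0) (.p1 44308991 0 3327))),
  .inr 3, .inr 7, .inr 25, .inr 9, .inr 67,
  .inl (.ag (.p1 3 0 0) (.ag (.p1 3 0 0) (.p1 44468891 0 3333))), .inr 3, .inr 5, .inr 7, .inr 3,
  .inr 361, .inr 31, .inr 243, .inr 29, .inr 43, .inr 3,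
  .inl (.ag (.p1 3 0 0) (.p2 44762789 0 3344)), .inr 5, .inr 3, .inr 59,
  .inl (.p1 179479607 0 6697), .inr 9, .inr 5, .inr 11, .inr 3, .inl (.p1 180015887 0 6707),
  .inl (.ag (.p1 43 0 2) (.p1 8187419 0 1430)), .inr 3, .inr 13, .inr 7, .inr 9,
  .inl (.ag (.p1 3 0 0) (.ag (.p1 3 0 0) (.p1 45165119 0 3359))), .inr 5, .inr 3, .inr 11,
  .inl (.ag (.p1 3 0 0) (.ag (.p1 3 0 0) (.ag (.mi 29 0 2 (.p1 3 2 0)) (.p2 390281 0 311)))),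
  .inr 3, .inr 5, .inl (.ag (.p1 3 0 0) (.p2 45353489 0 3366)), .inr 27,
  .inl (.ag (.p2 6737 0 40) (.p2 13477 0 57)), .inr 13, .inr 3, .inr 7, .inr 103, .inr 3, .inr 23,
  .inr 5, .inr 9, .inl (.ag (.p1 3 0 0) (.ag (.p1 3 0 0) (.p1 45650291 0 3377))), .inr 7, .inr 3,
  .inr 25, .inr 83, .inr 3,
  .inl (.ag (.p1 3 0 0) (.ag (.p1 3 0 0) (.ag (.p1 3 0 0) (.ag (.p1 11 0 1) (.p2 1908857 0 690))))),
  .inr 11, .inr 9, .inr 17, .inl (.ag (.p1 3 0 0) (.p1 91841903 0 4791)), .inr 3, .inr 71, .inr 5,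
  .inr 3, .inr 49, .inl (.ag (.p1 3 0 0) (.ag (.p2 61 0 3) (.p1 1486571 0 609))), .inr 27, .inr 5,
  .inr 107, .inr 3, .inl (.ag (.p1 3 0 0) (.p2 46219601 0 3398))]

theorem tbl3_ok : table1 3300 tbl3 = true := by decide +kernel

theorem tbl3_len : tbl3.length = 100 := by decide +kernel

/-- part 4 of the table -/
def tbl4 : List (Cert ⊕ ℕ) := [
  .inr 7, .inr 3, .inr 31, .inl (.p1 185313767 0 6805), .inr 9, .inr 53, .inr 125, .inr 3,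
  .inl (.ag (.p1 3 0 0) (.ag (.p1 3 0 0) (.ag (.p1 3 0 0) (.ag (.p1 3 0 0) (.p1 11616167 0 1703))))),
  .inr 13, .inr 3, .inr 5, .inl (.p1 186295199 0 6823), .inr 9, .inr 7, .inr 19, .inr 3,
  .inl (.ag (.p1 19 0 1) (.p2 9342077 0 1527)), .inr 121, .inr 3,
  .inl (.ag (.p1 3 0 0) (.ag (.p1 3 0 0) (.ag (.p1 59 0 3) (.p2 779873 0 441)))), .inr 5, .inr 81,
  .inl (.p1 187498247 0 6845), .inl (.ag (.p1 3 0 0) (.ag (.p1 3 0 0) (.p1 46901951 0 3423))),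
  .inr 3, .inr 5, .inl (.ag (.p1 11 0 1) (.p1 31322779 0 2797)), .inr 3, .inr 11,
  .inl (.ag (.p1 3 0 0) (.p1 94132919 0 4850)), .inr 9,
  .inl (.ag (.p1 3 0 0) (.ag (.p1 3 0 0) (.ag (.p1 3 0 0) (.ag (.p1 3 0 0) (.p1 11780339 0 1715))))),
  .inr 31, .inr 3, .inr 7, .inr 5, .inr 3, .inr 17, .inl (.ag (.p1 3 0 0) (.p1 94627523 0 4863)),
  .inr 9, .inr 5, .inr 49, .inr 3, .inr 23, .inl (.ag (.p1 3 0 0) (.p1 94957979 0 4871)), .inr 3,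
  .inl (.ag (.p1 11 0 1) (.p2 15844709 0 1989)), .inr 13, .inr 27, .inr 37, .inr 5, .inr 3,
  .inr 19, .inr 41, .inr 3, .inr 25, .inl (.ag (.p1 3 0 0) (.p1 95620619 0 4888)), .inr 9,
  .inr 101, .inl (.ag (.p1 3 0 0) (.ag (.p1 3 0 0) (.ag (.p1 3 0 0) (.p2 11973329 0 1729)))),
  .inr 3, .inr 11, .inr 7, .inr 3, .inr 83, .inr 5, .inr 9, .inl (.p1 192460127 0 6935),
  .inl (.ag (.p1 107 0 4) (.p1 3566131 0 943)), .inr 3, .inr 5, .inr 17, .inr 3, .inr 13,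
  .inl (.ag (.p1 3 0 0) (.p2 48309449 0 3474)), .inr 27, .inr 7,
  .inl (.ag (.p1 3 0 0) (.ag (.p1 11 2 1) (.p2 72661 0 134))), .inr 3,
  .inl (.p1 193794239 0 6959), .inr 25, .inr 3, .inl (.ag (.p1 3 0 0) (.p1 97064243 0 4925)),
  .inr 7, .inr 9, .inr 5, .inr 13, .inr 3, .inr 17, .inr 23, .inr 3, .inr 61, .inr 89, .inr 9,
  .inr 11, .inr 5, .inr 3, .inr 7, .inl (.ag (.p2 6997 0 41) (.p2 13997 0 58))]

theorem tbl4_ok : table1 3400 tbl4 = true := by decide +kernel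

theorem tbl4_len : tbl4.length = 100 := by decide +kernel

theorem had_sq {v : ℕ} (hv : IsPrimePow v) (hv4 : v % 4 = 1) (hx : v ∉ exc1)
    (hlo : 12000 ≤ v) (hhi : v < 14000) : Pool.Agent.H108R3.Had.HasHad (v ^ 2 - 1) := by
  by_cases h0 : v < 12400
  · exact table1_spec tbl0 3000 tbl0_ok v hv4 (by omega) (by rw [tbl0_len]; omega) hv hx
  by_cases h1 : v < 12800
  · exact table1_spec tbl1 3100 tbl1_ok v hv4 (by omega) (by rw [tbl1_len]; omega) hv hx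
  by_cases h2 : v < 13200
  · exact table1_spec tbl2 3200 tbl2_ok v hv4 (by omega) (by rw [tbl2_len]; omega) hv hx
  by_cases h3 : v < 13600
  · exact table1_spec tbl3 3300 tbl3_ok v hv4 (by omega) (by rw [tbl3_len]; omega) hv hx
  by_cases h4 : v < 14000
  · exact table1_spec tbl4 3400 tbl4_ok v hv4 (by omega) (by rw [tbl4_len]; omega) hv hx
  omega

end Pool.Agent.K9h69.Menon.S3
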