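import Pool.Agent.K9h69.Menon.Cert1

/-!
# Derivations of Hadamard matrices of order `v ^ 2 - 1` for prime powers `v ≡ 1 (mod 4)`,
`14000 ≤ v < 16000`
-/

set_option autoImplicit false

namespace Pool.Agent.K9h69.Menon.S4

/-- part 0 of the table -/
def tbl0 : List (Cert ⊕ ℕ) := [
  .inr 3, .inr 5, .inl (.ag (.p1 3 0 0) (.ag (.p1 11 0 1) (.p1 16354339 0 2021))), .inr 81,
  .inr 107, .inr 7, .inr 3, .inl (.ag (.p1 3 0 0) (.p1 98406419 0 4959)),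
  .inl (.p1 196925087 0 7015), .inr 3, .inr 19, .inr 5, .inr 9, .inr 13,
  .inl (.ag (.p1 3 0 0) (.ag (.p1 3 0 0) (.p1 49399811 0 3513))), .inr 3, .inr 5, .inr 11, .inr 3,
  .inr 7, .inl (.ag (.p1 3 0 0) (.p1 99137279 0 4977)), .inr 9, .inr 73, .inr 17, .inr 3, .inr 59,
  .inr 5, .inr 3, .inr 11, .inr 19, .inr 27, .inr 125, .inr 71, .inr 3, .inr 67, .inr 79, .inr 3,
  .inl (.ag (.p1 19 0 1) (.p2 10009709 0 1581)), .inl (.p1 200307407 0 7075), .inr 9, .inr 49,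
  .inr 5, .inr 3, .inr 0, .inl (.p1 200987327 0 7087), .inr 3, .inr 5, .inr 7, .inr 9,
  .inl (.ag (.p1 3 2 0) (.p1 14396771 0 1896)), .inr 11, .inr 3, .inr 13, .inr 61, .inr 3,
  .inl (.ag (.p1 11 0 1) (.p1 33706139 0 2902)), .inr 25, .inr 27, .inr 43, .inr 23, .inr 3,
  .inr 5, .inl (.ag (.p1 3 0 0) (.ag (.p1 59 0 3) (.p1 3383899 0 919))), .inr 3, .inr 53, .inr 13,
  .inr 9, .inr 19, .inr 7, .inr 3,
  .inl (.ag (.p1 3 0 0) (.ag (.p1 19 0 1) (.p1 10197347 0 1596))), .inr 5, .inr 3,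
  .inl (.p1 204289847 0 7145), .inr 17, .inr 9, .inr 5, .inr 41, .inr 3, .inr 103,
  .inl (.ag (.p1 3 0 0) (.ag (.p1 3 0 0) (.p1 51272759 0 3579))), .inr 3, .inr 7, .inr 11,
  .inr 243, .inl (.ag (.p1 3 0 0) (.p2 51416069 0 3584)), .inr 5, .inr 3, .inr 31, .inr 49,
  .inr 3, .inr 5, .inl (.ag (.p1 3 0 0) (.ag (.p1 3 0 0) (.p1 51617039 0 3591))), .inr 9, .inr 11,
  .inr 73, .inr 3, .inl (.ag (.p1 3 0 0) (.p1 103521659 0 5086)), .inr 37, .inr 3]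

theorem tbl0_ok : table1 3500 tbl0 = true := by decide +kernel

theorem tbl0_len : tbl0.length = 100 := by decide +kernel

/-- part 1 of the table -/
def tbl1 : List (Cert ⊕ ℕ) := [
  .inl (.ag (.p1 3 0 0) (.ag (.p1 3 0 0) (.p1 51847199 0 3599))), .inr 5, .inr 9, .inr 7, .inr 13,
  .inr 3, .inr 25, .inr 47, .inr 3, .inr 0, .inr 7, .inr 27,
  .inl (.ag (.p1 3 0 0) (.ag (.p1 3 0 0) (.ag (.p1 19 0 1) (.p1 5219339 0 1141)))), .inr 97,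
  .inr 3, .inl (.ag (.p1 3 2 0) (.p1 14937179 0 1931)), .inr 5, .inr 3, .inr 41, .inr 31, .inr 9,
  .inr 5, .inl (.ag (.p1 3 0 0) (.ag (.p1 11 0 1) (.p1 17494259 0 2090))), .inr 3, .inr 7,
  .inr 17, .inr 3, .inr 11, .inr 23, .inr 9, .inr 13, .inr 25, .inr 3,
  .inl (.p1 211208087 0 7265), .inl (.p1 211324367 0 7267), .inr 3, .inr 5,
  .inl (.ag (.p1 19 0 1) (.p2 10583669 0 1626)), .inr 27,
  .inl (.ag (.mi 29 0 2 (.p1 3 2 0)) (.p2 1826777 0 675)),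
  .inl (.ag (.p1 3 0 0) (.p1 106011359 0 5147)), .inr 3, .inr 17, .inr 13, .inr 3, .inr 7, .inr 5,
  .inr 9,
  .inl (.ag (.p1 3 0 0) (.ag (.p1 3 0 0) (.ag (.p1 3 0 0) (.ag (.p1 3 0 0) (.ag (.p1 3 0 0) (.ag (.p1 3 0 0) (.ag (.p2 37 0 2) (.p2 43781 0 104)))))))),
  .inr 11, .inr 3, .inr 5, .inr 7, .inr 3, .inr 47, .inl (.ag (.p1 19 0 1) (.p2 10688681 0 1634)),
  .inr 9, .inl (.ag (.p1 3 0 0) (.p2 53501909 0 3656)),
  .inl (.ag (.p1 3 0 0) (.ag (.p1 3 0 0) (.p1 53531171 0 3657))), .inr 3,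
  .inl (.ag (.p1 3 0 0) (.ag (.p1 3 0 0) (.p1 53589719 0 3659))), .inr 5, .inr 3,
  .inl (.p1 214710407 0 7325),
  .inl (.ag (.p1 3 0 0) (.ag (.p1 3 0 0) (.ag (.p1 3 0 0) (.ag (.p1 3 0 0) (.ag (.p1 3 0 0) (.p1 6713363 0 1295)))))),
  .inr 81, .inr 5, .inl (.ag (.p1 11 0 1) (.p2 17931629 0 2116)), .inr 3, .inr 13, .inr 53,
  .inr 3, .inr 37, .inr 7, .inr 9, .inr 61, .inr 5, .inr 3,
  .inl (.ag (.p1 3 0 0) (.ag (.p1 3 2 0) (.p2 3865577 0 982))),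
  .inl (.ag (.p1 3 0 0) (.p2 54147521 0 3678)), .inr 3, .inr 25, .inr 11, .inr 9,
  .inl (.p1 217179167 0 7367), .inl (.ag (.p1 3 0 0) (.p2 54324269 0 3684)), .inr 3, .inr 343,
  .inl (.ag (.p1 3 0 0) (.ag (.p1 3 0 0) (.ag (.p1 3 0 0) (.ag (.p1 11 0 1) (.p2 2267197 0 752))))),
  .inr 3, .inr 29, .inr 5, .inr 27, .inr 11, .inr 7, .inr 3, .inr 5, .inr 23, .inr 3,
  .inl (.p1 218951207 0 7397)]

theorem tbl1_ok : table1 3600 tbl1 = true := by decide +kernel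

theorem tbl1_len : tbl1.length = 100 := by decide +kernel

/-- part 2 of the table -/
def tbl2 : List (Cert ⊕ ℕ) := [
  .inr 361, .inr 9, .inr 59, .inl (.ag (.p1 3 0 0) (.p1 109712483 0 5236)), .inr 3,
  .inl (.ag (.p1 3 0 0) (.p1 109831019 0 5239)), .inr 25, .inr 3, .inr 7, .inr 37, .inr 9, .inr 5,
  .inr 31, .inr 3, .inr 83, .inr 7, .inr 3, .inl (.ag (.p1 11 0 1) (.p2 18423929 0 2145)),
  .inr 107, .inr 27, .inr 23, .inr 5, .inr 3, .inr 53,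
  .inl (.ag (.p1 3 0 0) (.ag (.p1 3 0 0) (.ag (.p1 3 2 0) (.p1 3962867 0 994)))), .inr 3, .inr 5,
  .inr 17, .inr 9, .inr 7, .inr 43, .inr 3, .inl (.p1 222875039 0 7463), .inr 109, .inr 3,
  .inr 67, .inr 5, .inr 9, .inr 19, .inl (.p1 223711847 0 7477), .inr 3, .inr 5,
  .inl (.ag (.p1 3 0 0) (.ag (.p1 3 0 0) (.p1 56017739 0 3741))), .inr 3, .inr 17, .inr 71,
  .inr 81, .inr 13, .inr 11, .inr 3, .inr 7, .inr 5, .inr 3, .inl (.p1 225390167 0 7505),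
  .inl (.ag (.p1 3 0 0) (.ag (.p1 7507 0 42) (.p2 15017 0 60))), .inr 9, .inr 25, .inr 7, .inr 3,
  .inr 11, .inr 169, .inr 3, .inr 101, .inl (.ag (.p2 5 1 0) (.p1 8715107 0 1475)), .inr 9,
  .inl (.ag (.p1 3 0 0) (.p2 56708429 0 3764)), .inr 5, .inr 3,
  .inl (.ag (.p1 3 0 0) (.ag (.p1 3 0 0) (.p1 56798831 0 3767))), .inl (.p1 227315927 0 7537),
  .inr 3, .inr 5, .inr 79, .inr 27, .inr 31, .inl (.ag (.p2 17 0 1) (.p1 12668899 0 1779)),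
  .inr 3, .inr 29, .inr 7, .inr 3, .inl (.p1 228644639 0 7559), .inr 125, .inr 9, .inr 37,
  .inl (.ag (.p1 3 0 0) (.ag (.p1 3 0 0) (.p1 57282191 0 3783))), .inr 3, .inr 5,
  .inl (.ag (.p1 19 0 1) (.p1 22949219 0 2394)), .inr 3, .inr 23,
  .inl (.ag (.p1 3 0 0) (.ag (.p1 3 0 0) (.p1 57463979 0 3789))), .inr 9, .inr 7,
  .inl (.ag (.p1 107 0 4) (.p1 4263331 0 1031)), .inr 3, .inr 17, .inr 5, .inr 3,
  .inl (.ag (.p1 3 0 0) (.ag (.p1 11 0 1) (.p1 19235603 0 2192))), .inr 7]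

theorem tbl2_ok : table1 3700 tbl2 = true := by decide +kernel

theorem tbl2_len : tbl2.length = 100 := by decide +kernel

/-- part 3 of the table -/
def tbl3 : List (Cert ⊕ ℕ) := [
  .inr 27, .inr 5, .inr 67, .inr 3,
  .inl (.ag (.p1 3 0 0) (.ag (.p1 3 0 0) (.ag (.p1 3803 0 30) (.p2 15217 0 61)))), .inr 31,
  .inr 3, .inr 97,
  .inl (.ag (.p1 3 0 0) (.ag (.p1 3 0 0) (.ag (.p1 3 0 0) (.ag (.p1 3 0 0) (.ag (.p1 3 0 0) (.ag (.p1 3 2 0) (.p2 258977 0 253))))))),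
  .inr 9, .inl (.p1 232288079 0 7619), .inr 5, .inr 3, .inr 7, .inr 11, .inr 3, .inr 5,
  .inl (.ag (.p1 3 0 0) (.p2 58285589 0 3816)), .inr 9,
  .inl (.ag (.p1 11 0 1) (.p2 19448893 0 2204)), .inr 7, .inr 3,
  .inl (.ag (.p1 3 0 0) (.ag (.p1 19 0 1) (.p2 5843837 0 1208))), .inr 41, .inr 3, .inr 11,
  .inr 5, .inr 2187, .inl (.ag (.p1 3 0 0) (.p1 117243983 0 5413)), .inr 289, .inr 3, .inr 25,
  .inl (.ag (.p1 3 0 0) (.ag (.p1 3 0 0) (.ag (.p1 3 0 0) (.ag (.p1 139 0 5) (.p1 419603 0 323))))),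
  .inr 3, .inr 49, .inr 529, .inr 9, .inl (.ag (.p1 59 0 3) (.p1 7853059 0 1400)), .inr 13,
  .inr 3,
  .inl (.ag (.p1 3 0 0) (.ag (.p1 3 0 0) (.ag (.p1 3 0 0) (.ag (.p1 3 0 0) (.ag (.p1 3 0 0) (.ag (.p1 3 0 0) (.ag (.p1 3 0 0) (.ag (.p1 3 0 0) (.ag (.p1 59 0 3) (.p2 15361 0 61)))))))))),
  .inr 5, .inr 3, .inl (.ag (.p1 3 0 0) (.p2 59082281 0 3842)),
  .inl (.ag (.p1 3 0 0) (.ag (.p1 3 0 0) (.ag (.p1 43 0 2) (.p2 1343477 0 579)))), .inr 9, .inr 5,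
  .inr 11, .inr 3, .inr 89, .inl (.p1 237190799 0 7699), .inr 3, .inr 19,
  .inl (.ag (.p1 11 0 1) (.p2 19796713 0 2224)), .inr 27, .inr 7, .inr 25, .inr 3, .inr 11,
  .inr 43, .inr 3, .inr 5, .inr 7, .inr 9, .inr 13, .inl (.ag (.p2 17 0 1) (.p2 6640069 0 1287)),
  .inr 3, .inr 31, .inl (.ag (.p1 3 0 0) (.p1 119706863 0 5470)), .inr 3, .inr 113, .inr 5,
  .inr 9, .inr 0, .inl (.ag (.p1 3 0 0) (.ag (.p1 11 0 1) (.p1 20013083 0 2236))), .inr 3, .inr 5,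
  .inr 13, .inr 3, .inr 59, .inr 11, .inr 27, .inr 53, .inr 49, .inr 3,
  .inl (.p1 241522679 0 7769), .inr 5, .inr 3, .inr 103, .inr 47, .inr 9, .inr 5,
  .inl (.p1 242393759 0 7783), .inr 3, .inr 37, .inl (.ag (.p1 11 0 1) (.p1 40461259 0 3179)),
  .inr 3, .inr 7, .inr 31, .inr 9]

theorem tbl3_ok : table1 3800 tbl3 = true := by decide +kernel

theorem tbl3_len : tbl3.length = 100 := by decide +kernel

/-- part 4 of the table -/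
def tbl4 : List (Cert ⊕ ℕ) := [
  .inl (.ag (.p1 3 0 0) (.ag (.p1 3 0 0) (.p1 60847799 0 3899))), .inr 5, .inr 3, .inr 13, .inr 7,
  .inr 3, .inl (.ag (.p1 3 0 0) (.ag (.p1 11 0 1) (.p1 20345051 0 2254))),
  .inl (.ag (.p1 3 0 0) (.p2 61066409 0 3906)), .inr 81, .inr 19,
  .inl (.ag (.p1 3 0 0) (.ag (.p1 3 0 0) (.p1 61160219 0 3909))), .inr 3,
  .inl (.ag (.p1 3 0 0) (.p1 122445599 0 5532)), .inr 11, .inr 3, .inl (.p1 245266919 0 7829),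
  .inr 5, .inr 9, .inr 7, .inr 61, .inr 3, .inr 5, .inr 29, .inr 3, .inr 11, .inr 7, .inr 9,
  .inr 23, .inr 19, .inr 3, .inr 79, .inr 25, .inr 3,
  .inl (.ag (.p1 3 0 0) (.p2 61881821 0 3932)),
  .inl (.ag (.p1 3 0 0) (.ag (.p2 853 0 14) (.p2 72497 0 134))), .inr 27, .inr 5,
  .inl (.ag (.p1 3 0 0) (.p1 124015499 0 5567)), .inr 3, .inr 7,
  .inl (.ag (.p1 3 0 0) (.p1 124204559 0 5571)), .inr 3, .inr 13,
  .inl (.ag (.p1 11 0 1) (.p2 20732293 0 2276)), .inr 9, .inr 43, .inr 5, .inr 3, .inr 17,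
  .inl (.ag (.p1 10531 0 50) (.p1 47387 0 108)), .inr 3, .inr 5,
  .inl (.ag (.p1 3 0 0) (.ag (.p1 3 0 0) (.p1 62481119 0 3951))), .inr 9,
  .inl (.ag (.p1 3 0 0) (.ag (.p1 131 0 5) (.p2 947641 0 486))), .inr 13, .inr 3, .inr 11,
  .inr 71, .inr 3, .inr 7, .inr 5, .inr 27, .inr 83, .inr 101, .inr 3, .inr 5, .inr 7, .inr 3,
  .inl (.p1 252079127 0 7937), .inl (.p1 252206159 0 7939), .inr 9,
  .inl (.ag (.p1 3 0 0) (.ag (.p1 3 0 0) (.ag (.p1 3 0 0) (.p2 15778769 0 1985)))), .inr 23,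
  .inr 3, .inl (.ag (.p2 317 0 8) (.p2 397549 0 314)), .inr 5, .inr 3,
  .inl (.p1 253223567 0 7955), .inr 11, .inr 9, .inr 25, .inr 17, .inr 3,
  .inl (.p1 253987967 0 7967), .inr 19, .inr 3, .inr 41, .inr 7, .inr 81, .inr 11, .inr 5, .inr 3,
  .inl (.ag (.p1 1451 0 18) (.p1 351427 0 295)), .inr 13, .inr 3, .inr 5, .inr 59, .inr 9, .inr 17]

theorem tbl4_ok : table1 3900 tbl4 = true := by decide +kernel

theorem tbl4_len : tbl4.length = 100 := by decide +kernel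

theorem had_sq {v : ℕ} (hv : IsPrimePow v) (hv4 : v % 4 = 1) (hx : v ∉ exc1)
    (hlo : 14000 ≤ v) (hhi : v < 16000) : Pool.Agent.H108R3.Had.HasHad (v ^ 2 - 1) := by
  by_cases h0 : v < 14400
  · exact table1_spec tbl0 3500 tbl0_ok v hv4 (by omega) (by rw [tbl0_len]; omega) hv hx
  by_cases h1 : v < 14800
  · exact table1_spec tbl1 3600 tbl1_ok v hv4 (by omega) (by rw [tbl1_len]; omega) hv hx
  by_cases h2 : v < 15200
  · exact table1_spec tbl2 3700 tbl2_ok v hv4 (by omega) (by rw [tbl2_len]; omega) hv hx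
  by_cases h3 : v < 15600
  · exact table1_spec tbl3 3800 tbl3_ok v hv4 (by omega) (by rw [tbl3_len]; omega) hv hx
  by_cases h4 : v < 16000
  · exact table1_spec tbl4 3900 tbl4_ok v hv4 (by omega) (by rw [tbl4_len]; omega) hv hx
  omega

end Pool.Agent.K9h69.Menon.S4
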