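import Pool.Agent.K9h69.Menon.Cert1

/-!
# Derivations of Hadamard matrices of order `v ^ 2 - 1` for prime powers `v ≡ 1 (mod 4)`,
`16000 ≤ v < 17600`
-/

set_option autoImplicit false

namespace Pool.Agent.K9h69.Menon.S5

/-- part 0 of the table -/
def tbl0 : List (Cert ⊕ ℕ) := [
  .inl (.p1 256031999 0 7999), .inr 3, .inr 7, .inr 67, .inr 3, .inr 37, .inr 25, .inr 9,
  .inl (.ag (.p1 3 0 0) (.ag (.p1 3 0 0) (.ag (.p1 3 0 0) (.ag (.p1 3 0 0) (.p1 16066067 0 2003))))),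
  .inr 7, .inr 3, .inr 5, .inr 11, .inr 3, .inl (.p1 257827247 0 8027),
  .inl (.ag (.p1 11 0 1) (.p2 21496309 0 2317)), .inr 27,
  .inl (.ag (.p1 3 0 0) (.p1 129106379 0 5680)),
  .inl (.ag (.p1 3 0 0) (.ag (.p1 3 0 0) (.p1 64585331 0 4017))), .inr 3, .inr 13, .inr 5, .inr 3,
  .inr 7,
  .inl (.ag (.p1 3 0 0) (.ag (.p1 3 0 0) (.ag (.p1 3 0 0) (.ag (.p1 2011 0 21) (.p2 16097 0 62))))),
  .inr 9, .inr 5, .inr 89, .inr 3, .inr 71, .inr 343, .inr 3,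
  .inl (.ag (.p1 3 0 0) (.ag (.p1 3 0 0) (.p1 65036159 0 4031))), .inr 13, .inr 9,
  .inl (.ag (.p1 3 0 0) (.p1 130265939 0 5706)), .inr 5, .inr 3, .inr 29, .inr 107, .inr 3,
  .inr 5, .inr 19, .inr 27, .inr 7, .inr 11, .inr 3, .inl (.ag (.p1 379 0 9) (.p1 1379387 0 586)),
  .inl (.p1 262213247 0 8095), .inr 3, .inr 17, .inr 5, .inr 9, .inr 31,
  .inl (.ag (.p1 3 0 0) (.p1 131495543 0 5733)), .inr 3, .inr 25,
  .inl (.ag (.p1 19 0 1) (.p2 13169021 0 1813)), .inr 3, .inr 13, .inr 109, .inr 9,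
  .inl (.ag (.p1 3 0 0) (.ag (.p1 19 0 1) (.p1 13201499 0 1816))),
  .inl (.ag (.p2 17 0 1) (.p2 7337777 0 1353)), .inr 3, .inr 7, .inr 5, .inr 3,
  .inl (.p1 264810527 0 8135), .inr 41, .inr 243, .inr 5, .inr 7, .inr 3, .inr 43,
  .inl (.ag (.p1 43 0 2) (.p1 12078299 0 1737)), .inr 3, .inr 47, .inr 11, .inr 9, .inr 19,
  .inr 25, .inr 3, .inr 0, .inr 17, .inr 3, .inr 5, .inl (.ag (.p1 3 0 0) (.p1 133644899 0 5779)),
  .inr 9, .inr 11, .inl (.p1 267682319 0 8179), .inr 3,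
  .inl (.ag (.p1 3 0 0) (.ag (.p1 3 0 0) (.ag (.p2 61 0 3) (.p1 1080419 0 519)))), .inr 7, .inr 3,
  .inl (.ag (.p1 3 0 0) (.p1 134168579 0 5791)), .inr 5, .inr 27, .inr 169, .inr 19]

theorem tbl0_ok : table1 4000 tbl0 = true := by decide +kernel

theorem tbl0_len : tbl0.length = 100 := by decide +kernel

/-- part 1 of the table -/
def tbl1 : List (Cert ⊕ ℕ) := [
  .inr 3, .inr 5, .inr 61, .inr 3,
  .inl (.ag (.p1 3 0 0) (.ag (.p1 3 0 0) (.ag (.p1 3 0 0) (.ag (.p1 11 0 1) (.p2 2807477 0 837))))),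
  .inl (.p1 269649239 0 8209), .inr 9, .inr 7, .inl (.ag (.p1 3 0 0) (.p1 135021743 0 5809)),
  .inr 3, .inr 41, .inr 5, .inr 3, .inl (.ag (.p1 227 0 7) (.p1 2374571 0 769)), .inr 7, .inr 9,
  .inr 5, .inr 43, .inr 3, .inl (.ag (.p1 83 0 4) (.p1 6464083 0 1270)),
  .inl (.ag (.p1 3 0 0) (.p1 135811679 0 5826)), .inr 3, .inr 11, .inl (.p1 272019047 0 8245),
  .inr 27, .inr 29, .inr 5, .inr 3, .inr 49, .inr 83, .inr 3, .inr 25,
  .inl (.ag (.p1 3 0 0) (.p1 136603919 0 5843)), .inr 9, .inr 23, .inr 7, .inr 3, .inr 13,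
  .inl (.p1 274001807 0 8275), .inr 3, .inl (.p1 274266719 0 8279), .inr 5, .inr 9, .inr 0,
  .inr 121, .inr 3, .inr 5, .inr 53, .inr 3, .inr 7, .inr 13, .inr 81, .inr 17, .inr 37, .inr 3,
  .inr 11, .inr 125, .inr 3, .inl (.p1 276656687 0 8315), .inr 127, .inr 9, .inr 5,
  .inl (.ag (.p1 3 0 0) (.ag (.p1 19 0 1) (.p2 6929729 0 1315))), .inr 3,
  .inl (.ag (.p1 3 0 0) (.ag (.p1 3 0 0) (.ag (.p2 2081 0 22) (.p2 16657 0 64)))),
  .inl (.ag (.p1 19 0 1) (.p1 27758891 0 2633)), .inr 3, .inr 79,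
  .inl (.ag (.p1 3 0 0) (.ag (.p1 3 0 0) (.ag (.p1 3 0 0) (.ag (.p1 83 0 4) (.p1 827347 0 454))))),
  .inr 9, .inr 7, .inr 5, .inr 3, .inl (.ag (.p1 16691 0 64) (.p2 16693 0 64)), .inr 59, .inr 3,
  .inr 5, .inr 49, .inr 27, .inr 73, .inr 23, .inr 3, .inl (.p1 279859439 0 8363), .inr 29,
  .inr 3, .inl (.ag (.p1 11 0 1) (.p1 46710179 0 3416)), .inr 5, .inr 9, .inr 11, .inr 13, .inr 3,
  .inr 5, .inr 41, .inr 3, .inr 19, .inr 97, .inr 9, .inr 103, .inr 7, .inr 3]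

theorem tbl1_ok : table1 4100 tbl1 = true := by decide +kernel

theorem tbl1_len : tbl1.length = 100 := by decide +kernel

/-- part 2 of the table -/
def tbl2 : List (Cert ⊕ ℕ) := [
  .inr 53, .inr 5, .inr 3, .inr 17, .inr 67, .inr 27, .inr 25,
  .inl (.ag (.p1 3 0 0) (.p2 70803809 0 4206)), .inr 3, .inr 113, .inr 11, .inr 3, .inr 7,
  .inr 19, .inr 9, .inr 13, .inr 5, .inr 3, .inr 47, .inr 7, .inr 3, .inr 5,
  .inl (.p1 285238319 0 8443), .inr 9, .inr 61, .inl (.ag (.p1 11 0 1) (.p2 23803649 0 2438)),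
  .inr 3, .inr 37, .inr 13, .inr 3,
  .inl (.ag (.p1 3 0 0) (.ag (.p1 3 0 0) (.p1 71580059 0 4229))), .inr 25, .inr 81, .inr 7,
  .inl (.ag (.p1 3 0 0) (.ag (.p1 3 0 0) (.p1 71715491 0 4233))), .inr 3, .inr 5, .inr 17, .inr 3,
  .inr 31, .inr 7, .inr 9, .inr 71, .inr 11, .inr 3, .inl (.ag (.p1 3 0 0) (.p2 72088589 0 4244)),
  .inr 5, .inr 3, .inl (.ag (.p1 3 0 0) (.p1 144381023 0 6007)), .inr 23, .inr 9, .inr 5, .inr 73,
  .inr 3, .inr 7, .inl (.ag (.p1 11 0 1) (.p1 48285739 0 3473)), .inr 3,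
  .inl (.p1 289986839 0 8513),
  .inl (.ag (.p1 3 0 0) (.ag (.mi 2129 0 22 (.ag (.p1 3 0 0) (.p1 1063 0 15))) (.p2 17033 0 64))),
  .inr 27, .inl (.ag (.p1 3 0 0) (.ag (.p1 3 0 0) (.ag (.p2 709 0 12) (.p1 102251 0 159)))),
  .inr 5, .inr 3, .inl (.ag (.p1 11 0 1) (.p1 48467467 0 3480)), .inr 37, .inr 3, .inr 5,
  .inr 169, .inr 9, .inl (.ag (.p1 3 0 0) (.p2 72905981 0 4268)), .inr 19, .inr 3, .inr 23,
  .inl (.ag (.p1 3 0 0) (.p1 146085323 0 6042)), .inr 3, .inr 49, .inr 5, .inr 9, .inr 109,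
  .inl (.ag (.p1 3 0 0) (.p2 73247921 0 4278)), .inr 3, .inr 125, .inr 7, .inr 3,
  .inl (.p1 293676767 0 8567), .inr 61, .inr 27, .inr 11, .inr 17, .inr 3,
  .inl (.ag (.p1 3 0 0) (.ag (.p1 19 0 1) (.p2 7362497 0 1356))), .inr 5, .inr 3, .inr 13,
  .inr 89, .inr 9, .inr 5, .inl (.ag (.p1 3 0 0) (.p1 147730859 0 6076)), .inr 3, .inr 29]

theorem tbl2_ok : table1 4200 tbl2 = true := by decide +kernel

theorem tbl2_len : tbl2.length = 100 := by decide +kernel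

/-- part 3 of the table -/
def tbl3 : List (Cert ⊕ ℕ) := [
  .inr 103, .inr 3, .inl (.ag (.p1 3 0 0) (.ag (.p1 3 0 0) (.p1 74037419 0 4301))), .inr 7,
  .inr 9, .inr 17, .inr 25, .inr 3, .inr 19, .inr 11, .inr 3, .inr 5, .inr 47, .inr 243,
  .inl (.p1 297804047 0 8627), .inr 41, .inr 3, .inr 7, .inr 23, .inr 3, .inr 11, .inr 5, .inr 9,
  .inl (.ag (.p1 3 0 0) (.p1 149523923 0 6113)), .inr 49, .inr 3, .inr 5, .inr 19, .inr 3,
  .inl (.ag (.p1 3 0 0) (.p1 149939243 0 6121)),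
  .inl (.ag (.p1 3 0 0) (.ag (.mi 433 0 9 (.p1 431 0 9)) (.p1 173219 0 207))), .inr 9, .inr 13,
  .inl (.ag (.p1 11 0 1) (.p1 50072147 0 3537)), .inr 3,
  .inl (.ag (.p1 11 0 1) (.p1 50118379 0 3539)), .inr 5, .inr 3, .inr 7, .inr 17, .inr 27, .inr 5,
  .inr 11, .inr 3,
  .inl (.ag (.p1 3 0 0) (.ag (.p1 3 0 0) (.ag (.p1 3 0 0) (.ag (.p1 3 0 0) (.p2 9436253 0 1535))))),
  .inr 7, .inr 3, .inl (.ag (.p1 11 0 1) (.p2 25198109 0 2509)),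
  .inl (.ag (.p1 3 0 0) (.ag (.p1 3 0 0) (.ag (.p1 3 0 0) (.p2 18907277 0 2173)))), .inr 9,
  .inl (.ag (.p1 3 0 0) (.ag (.p1 3 0 0) (.p1 75698699 0 4349))), .inr 5, .inr 3, .inr 11,
  .inl (.p1 303351887 0 8707), .inr 3, .inr 25, .inr 29, .inr 9, .inr 7, .inr 107, .inr 3,
  .inl (.ag (.p1 3 0 0) (.ag (.mi 349 0 8 (.p1 347 0 8)) (.p2 109049 0 164))), .inr 31, .inr 3,
  .inr 19, .inr 5, .inr 27, .inr 101, .inl (.ag (.p1 11 0 1) (.p1 50907587 0 3566)), .inr 3,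
  .inr 5, .inl (.ag (.p1 3 0 0) (.ag (.p1 3 0 0) (.ag (.p1 43 0 2) (.p1 3475739 0 931)))), .inr 3,
  .inl (.ag (.p1 3 0 0) (.ag (.p1 107 0 4) (.p2 1417337 0 594))), .inr 11, .inr 9,
  .inl (.p1 306565079 0 8753), .inr 83, .inr 3, .inr 7, .inr 25, .inr 3, .inr 89, .inr 13, .inr 9,
  .inr 5, .inr 7, .inr 3, .inr 97, .inr 17, .inr 3,
  .inl (.ag (.p1 3 0 0) (.ag (.p1 3 0 0) (.p1 77167439 0 4391))),
  .inl (.ag (.p1 3 0 0) (.p2 77202581 0 4392)), .inr 81,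
  .inl (.ag (.p1 3 0 0) (.p2 77272889 0 4394)), .inr 5, .inr 3, .inr 73,
  .inl (.ag (.p1 211 0 6) (.p2 1460633 0 603))]

theorem tbl3_ok : table1 4300 tbl3 = true := by decide +kernel

theorem tbl3_len : tbl3.length = 100 := by decide +kernel

theorem had_sq {v : ℕ} (hv : IsPrimePow v) (hv4 : v % 4 = 1) (hx : v ∉ exc1)
    (hlo : 16000 ≤ v) (hhi : v < 17600) : Pool.Agent.H108R3.Had.HasHad (v ^ 2 - 1) := by
  by_cases h0 : v < 16400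
  · exact table1_spec tbl0 4000 tbl0_ok v hv4 (by omega) (by rw [tbl0_len]; omega) hv hx
  by_cases h1 : v < 16800
  · exact table1_spec tbl1 4100 tbl1_ok v hv4 (by omega) (by rw [tbl1_len]; omega) hv hx
  by_cases h2 : v < 17200
  · exact table1_spec tbl2 4200 tbl2_ok v hv4 (by omega) (by rw [tbl2_len]; omega) hv hx
  by_cases h3 : v < 17600
  · exact table1_spec tbl3 4300 tbl3_ok v hv4 (by omega) (by rw [tbl3_len]; omega) hv hx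
  omega

end Pool.Agent.K9h69.Menon.S5
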