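import Pool.Agent.K9h69.Menon.Cert1

/-!
# Derivations of Hadamard matrices of order `v ^ 2 - 1` for prime powers `v ≡ 1 (mod 4)`,
`17600 ≤ v < 18800`
-/

set_option autoImplicit false

namespace Pool.Agent.K9h69.Menon.S6

/-- part 0 of the table -/
def tbl0 : List (Cert ⊕ ℕ) := [
  .inr 3, .inr 5, .inl (.ag (.p1 3 0 0) (.ag (.p1 19 0 1) (.p2 7751921 0 1391))), .inr 9, .inr 79,
  .inr 67, .inr 3, .inr 289, .inr 7, .inr 3, .inr 13, .inr 5, .inr 9, .inr 127,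
  .inl (.ag (.p1 3 0 0) (.ag (.p1 11 0 1) (.p1 25980803 0 2548))), .inr 3, .inr 5,
  .inl (.ag (.p1 3 2 0) (.p1 22299539 0 2360)), .inr 3, .inr 11, .inl (.p1 312617759 0 8839),
  .inr 27, .inr 49, .inr 13, .inr 3, .inr 31, .inr 5, .inr 3,
  .inl (.ag (.p1 3 0 0) (.p1 156875183 0 6261)), .inr 7, .inr 9, .inr 25,
  .inl (.ag (.p1 3 0 0) (.p1 157158719 0 6267)), .inr 3,
  .inl (.ag (.p1 3 0 0) (.ag (.p1 3 2 0) (.p2 5617877 0 1184))), .inr 113, .inr 3,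
  .inl (.ag (.p1 19 0 1) (.p1 31502699 0 2805)), .inr 41, .inr 9,
  .inl (.ag (.p1 3 0 0) (.ag (.p1 3 0 0) (.ag (.p1 3 0 0) (.ag (.p1 3 0 0) (.p1 19715819 0 2219))))),
  .inr 5, .inr 3, .inr 7, .inr 29, .inr 3, .inr 5, .inl (.p1 316448519 0 8893), .inr 27, .inr 13,
  .inr 7, .inr 3, .inr 11, .inr 47, .inr 3, .inr 71, .inr 25, .inr 9, .inr 17,
  .inl (.p1 318158567 0 8917), .inr 3, .inr 5, .inr 13, .inr 3, .inr 7, .inr 53, .inr 9, .inr 107,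
  .inr 61, .inr 3, .inl (.ag (.p1 3 0 0) (.ag (.p1 1787 0 20) (.p1 178819 0 210))), .inr 5,
  .inr 3, .inr 29, .inr 11, .inr 81, .inr 5, .inl (.ag (.p1 59 0 3) (.p2 5345537 0 1155)), .inr 3,
  .inr 19, .inl (.ag (.p1 3 0 0) (.p1 160581119 0 6335)), .inr 3,
  .inl (.ag (.p1 3 0 0) (.p1 160724519 0 6338)), .inr 79, .inr 9, .inr 7, .inr 5, .inr 3, .inr 13,
  .inl (.ag (.mi 73 0 3 (.p1 71 0 3)) (.p2 1104293 0 524)), .inr 3, .inr 5, .inr 7, .inr 9,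
  .inl (.p1 323172527 0 8987), .inl (.ag (.p1 3 0 0) (.p1 161658179 0 6356)), .inr 3,
  .inl (.p1 323604119 0 8993), .inr 19, .inr 3]

theorem tbl0_ok : table1 4400 tbl0 = true := by decide +kernel

theorem tbl0_len : tbl0.length = 100 := by decide +kernel

/-- part 1 of the table -/
def tbl1 : List (Cert ⊕ ℕ) := [
  .inr 47, .inr 5, .inr 27, .inl (.ag (.p1 3 0 0) (.p2 81117041 0 4502)), .inr 43, .inr 3,
  .inr 25, .inr 121, .inr 3, .inr 17,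
  .inl (.ag (.p1 3 0 0) (.ag (.p1 19 0 1) (.p1 16273883 0 2016))), .inr 9,
  .inl (.ag (.p1 3 0 0) (.ag (.p1 3 0 0) (.ag (.p1 3 0 0) (.ag (.p1 3 0 0) (.p1 20360399 0 2255))))),
  .inr 7, .inr 3, .inl (.ag (.p1 3 0 0) (.p2 81549929 0 4514)), .inr 5, .inr 3, .inr 11,
  .inl (.ag (.p1 523 0 10) (.p1 1247243 0 557)), .inr 9, .inr 5,
  .inl (.ag (.p1 3 0 0) (.ag (.p1 3 0 0) (.p1 81802979 0 4521))), .inr 3,
  .inl (.ag (.p1 3 0 0) (.p1 163750703 0 6397)), .inr 23, .inr 3, .inr 7, .inr 59, .inr 27,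
  .inl (.ag (.p1 3 0 0) (.ag (.p1 19 0 1) (.p1 16418531 0 2025))), .inr 625, .inr 3,
  .inl (.ag (.p1 11 0 1) (.p1 54800947 0 3700)), .inr 7, .inr 3, .inr 5,
  .inl (.ag (.p1 19 0 1) (.p2 16469309 0 2028)), .inr 9, .inr 67, .inr 11, .inr 3,
  .inl (.ag (.p1 3 0 0) (.ag (.p1 3 0 0) (.p1 82528139 0 4541))), .inr 17, .inr 3,
  .inl (.ag (.p1 3 0 0) (.p1 165274379 0 6427)), .inr 5, .inr 9, .inr 7, .inr 31, .inr 3, .inr 5,
  .inr 131, .inr 3, .inl (.ag (.p1 3 0 0) (.ag (.p1 131 0 5) (.p2 1257041 0 560))), .inr 7,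
  .inr 729, .inl (.ag (.p1 11 0 1) (.p2 27691369 0 2630)),
  .inl (.ag (.p1 3 0 0) (.ag (.p1 211 0 6) (.p1 1568123 0 625))), .inr 3, .inr 17, .inr 5, .inr 3,
  .inl (.ag (.p2 701 0 12) (.p2 237301 0 243)), .inl (.ag (.p1 3 0 0) (.p1 166659023 0 6454)),
  .inr 9, .inr 5, .inl (.ag (.p1 83 0 4) (.p2 3973289 0 996)), .inr 3, .inr 49, .inr 101, .inr 3,
  .inl (.p1 334487519 0 9143), .inr 11, .inr 9, .inr 0, .inr 5, .inr 3,
  .inl (.ag (.p1 3 0 0) (.ag (.p1 3 0 0) (.p1 83841491 0 4577))), .inr 13, .inr 3, .inr 25,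
  .inl (.ag (.p1 3 0 0) (.p1 167976119 0 6479)), .inr 27, .inr 11, .inl (.p1 336392279 0 9169),
  .inr 3, .inr 59, .inl (.p1 336832607 0 9175), .inr 3, .inr 7, .inr 5, .inr 9, .inr 19, .inr 17,
  .inr 3, .inr 5, .inr 7, .inr 3, .inl (.ag (.p2 17 0 1) (.p2 9401377 0 1532))]

theorem tbl1_ok : table1 4500 tbl1 = true := by decide +kernel

theorem tbl1_len : tbl1.length = 100 := by decide +kernel

/-- part 2 of the table -/
def tbl2 : List (Cert ⊕ ℕ) := [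
  .inl (.ag (.p1 3 0 0) (.p1 169298399 0 6505)), .inr 9, .inr 41,
  .inl (.ag (.p2 61 0 3) (.p1 5468363 0 1168)), .inr 3, .inr 169, .inr 25, .inr 3,
  .inl (.ag (.p1 3 0 0) (.ag (.p1 3 0 0) (.ag (.p1 3 0 0) (.ag (.p1 3 0 0) (.ag (.p1 3 0 0) (.ag (.p1 3 0 0) (.p1 5308991 0 1151))))))),
  .inr 103, .inr 27, .inr 5, .inr 19, .inr 3, .inl (.ag (.p1 3 0 0) (.p1 170330423 0 6525)),
  .inl (.p1 340808519 0 9229), .inr 3, .inr 11, .inr 49, .inr 9,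
  .inl (.ag (.p1 3 0 0) (.ag (.p1 3 0 0) (.ag (.p1 19 0 1) (.p1 8538683 0 1460)))), .inr 5,
  .inr 3, .inl (.p1 341991047 0 9245), .inr 53, .inr 3, .inr 5, .inr 83, .inr 9,
  .inl (.ag (.p2 1181 0 16) (.p1 290083 0 268)),
  .inl (.ag (.p1 3 0 0) (.ag (.p1 3 2 0) (.p2 6125489 0 1236))), .inr 3, .inr 7, .inr 43, .inr 3,
  .inl (.ag (.p1 11 0 1) (.p1 57294779 0 3784)), .inr 5, .inr 81,
  .inl (.ag (.p1 3 0 0) (.ag (.mi 773 0 13 (.mi 193 0 6 (.p1 191 0 6))) (.p1 111323 0 166))),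
  .inr 7, .inr 3, .inr 5, .inr 31, .inr 3, .inr 13, .inr 17, .inr 9, .inr 29,
  .inl (.p1 345699647 0 9295), .inr 3, .inr 11, .inr 5, .inr 3, .inr 7,
  .inl (.ag (.p1 3 0 0) (.ag (.p1 347 0 8) (.p2 497977 0 352))), .inr 9, .inr 125, .inr 13,
  .inr 3, .inl (.ag (.p1 11 0 1) (.p1 57889627 0 3803)), .inr 7, .inr 3, .inr 17, .inr 23,
  .inr 27, .inl (.ag (.p1 3 0 0) (.p2 87058229 0 4664)), .inr 5, .inr 3, .inr 71, .inr 19, .inr 3,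
  .inr 5, .inr 11, .inr 9, .inr 7, .inl (.ag (.p1 11 0 1) (.p2 29143949 0 2698)), .inr 3, .inr 53,
  .inl (.ag (.p1 3 0 0) (.p1 175088183 0 6615)), .inr 3, .inr 97, .inr 25, .inr 9, .inr 11,
  .inr 41, .inr 3, .inr 5, .inl (.ag (.p1 11 0 1) (.p1 58587499 0 3826)), .inr 3,
  .inl (.ag (.p1 3 0 0) (.p2 87956261 0 4688)), .inr 73, .inr 27,
  .inl (.ag (.p1 3 0 0) (.p1 176137679 0 6635)), .inl (.ag (.p1 11 0 1) (.p1 58737587 0 3831)),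
  .inr 3, .inr 7, .inr 5, .inr 3, .inl (.ag (.p1 3 0 0) (.ag (.p1 3 0 0) (.p1 88294211 0 4697))),
  .inl (.p1 353327207 0 9397)]

theorem tbl2_ok : table1 4600 tbl2 = true := by decide +kernel

theorem tbl2_len : tbl2.length = 100 := by decide +kernel

theorem had_sq {v : ℕ} (hv : IsPrimePow v) (hv4 : v % 4 = 1) (hx : v ∉ exc1)
    (hlo : 17600 ≤ v) (hhi : v < 18800) : Pool.Agent.H108R3.Had.HasHad (v ^ 2 - 1) := by
  by_cases h0 : v < 18000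
  · exact table1_spec tbl0 4400 tbl0_ok v hv4 (by omega) (by rw [tbl0_len]; omega) hv hx
  by_cases h1 : v < 18400
  · exact table1_spec tbl1 4500 tbl1_ok v hv4 (by omega) (by rw [tbl1_len]; omega) hv hx
  by_cases h2 : v < 18800
  · exact table1_spec tbl2 4600 tbl2_ok v hv4 (by omega) (by rw [tbl2_len]; omega) hv hx
  omega

end Pool.Agent.K9h69.Menon.S6
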