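import Pool.Agent.K9h69.Menon.Cert1

/-!
# Derivations of Hadamard matrices of order `v ^ 2 - 1` for prime powers `v ≡ 1 (mod 4)`,
`18800 ≤ v < 20000`
-/

set_option autoImplicit false

namespace Pool.Agent.K9h69.Menon.S7

/-- part 0 of the table -/
def tbl0 : List (Cert ⊕ ℕ) := [
  .inr 9, .inr 5, .inr 7, .inr 3, .inr 31, .inr 11, .inr 3, .inr 19, .inr 37, .inr 9, .inr 83,
  .inr 5, .inr 3, .inr 17, .inr 109, .inr 3, .inr 5, .inl (.ag (.p2 13 1 1) (.p2 1047173 0 511)),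
  .inr 81, .inr 43, .inr 79, .inr 3, .inr 13, .inr 7, .inr 3, .inr 41, .inr 5, .inr 9,
  .inl (.p1 357701567 0 9455), .inl (.ag (.p1 3 0 0) (.p2 89463221 0 4728)), .inr 3, .inr 25,
  .inr 23, .inr 3, .inr 29, .inr 13, .inr 9, .inr 7, .inr 11, .inr 3, .inr 67, .inr 5, .inr 3,
  .inl (.ag (.p1 3 0 0) (.p1 179987363 0 6707)), .inr 7, .inr 27, .inr 5, .inr 17, .inr 3,
  .inr 121, .inl (.ag (.p1 3 0 0) (.ag (.p2 37 0 2) (.p2 2375249 0 770))), .inr 3,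
  .inl (.ag (.p1 3 0 0) (.ag (.p1 3 0 0) (.ag (.p1 3 0 0) (.ag (.p1 3 0 0) (.ag (.p1 3 0 0) (.p1 11291939 0 1679)))))),
  .inl (.ag (.p1 83 0 4) (.p2 4303501 0 1036)), .inr 9, .inr 23, .inr 25, .inr 3, .inr 7, .inr 0,
  .inr 3, .inr 5, .inr 43, .inr 9, .inr 17, .inr 49, .inr 3,
  .inl (.ag (.p1 3 0 0) (.p2 90906689 0 4766)),
  .inl (.ag (.p1 3 0 0) (.ag (.p1 3 0 0) (.ag (.p1 3 0 0) (.ag (.p1 3 0 0) (.ag (.p1 3 0 0) (.ag (.p1 11 0 1) (.p2 947341 0 486))))))),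
  .inr 3, .inl (.p1 364084559 0 9539), .inr 5, .inr 27, .inr 61, .inr 169, .inr 3, .inr 5,
  .inr 97, .inr 3, .inr 7,
  .inl (.ag (.p1 3 0 0) (.ag (.p1 3 0 0) (.ag (.p2 2389 0 23) (.p2 19121 0 68)))), .inr 9,
  .inr 11, .inr 361, .inr 3, .inl (.ag (.p1 19 0 1) (.p2 18318893 0 2139)), .inr 5, .inr 3,
  .inr 107, .inl (.ag (.mi 4789 0 34 (.p1 4787 0 34)) (.p2 19157 0 68)), .inr 9, .inr 5, .inr 29,
  .inr 3, .inr 127, .inl (.ag (.p1 19 0 1) (.p2 18395537 0 2144)), .inr 3, .inr 31, .inr 17,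
  .inr 243]

theorem tbl0_ok : table1 4700 tbl0 = true := by decide +kernel

theorem tbl0_len : tbl0.length = 100 := by decide +kernel

/-- part 1 of the table -/
def tbl1 : List (Cert ⊕ ℕ) := [
  .inr 7, .inr 5, .inr 3, .inl (.ag (.p1 11 0 1) (.p1 61523227 0 3921)), .inr 11, .inr 3, .inr 25,
  .inr 7, .inr 9, .inl (.ag (.p1 83 0 4) (.p2 4405501 0 1048)), .inr 71, .inr 3,
  .inl (.ag (.p1 3 0 0) (.ag (.p1 3 0 0) (.p1 92630999 0 4811))), .inr 13, .inr 3, .inr 11,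
  .inr 5, .inr 9, .inl (.p1 371448527 0 9635), .inr 37, .inr 3, .inr 5,
  .inl (.ag (.p1 3 0 0) (.ag (.p1 9643 0 48) (.p2 19289 0 68))), .inr 3, .inr 23,
  .inl (.ag (.p1 11 0 1) (.p2 31044049 0 2785)), .inr 27,
  .inl (.ag (.p1 11 0 1) (.p2 31069789 0 2786)), .inr 7, .inr 3,
  .inl (.ag (.p1 3 0 0) (.ag (.p1 3 0 0) (.p1 93325259 0 4829))), .inr 25, .inr 3,
  .inl (.p1 373764887 0 9665), .inr 61, .inr 9, .inr 5, .inr 11, .inr 3, .inr 13, .inr 19, .inr 3,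
  .inr 7, .inr 0, .inr 9, .inl (.p1 375623159 0 9689), .inr 5, .inr 3, .inr 11, .inr 7, .inr 3,
  .inr 5, .inr 13, .inr 27, .inl (.ag (.p1 3 0 0) (.p1 188509943 0 6864)),
  .inl (.ag (.p1 11 0 1) (.p1 62862539 0 3963)), .inr 3,
  .inl (.ag (.p1 3 0 0) (.p1 188743019 0 6868)),
  .inl (.ag (.p1 3 0 0) (.ag (.p2 157 0 5) (.p1 1195067 0 546))), .inr 3,
  .inl (.ag (.p1 3 0 0) (.p1 188976239 0 6872)), .inr 5, .inr 9, .inr 49,
  .inl (.ag (.p1 3 0 0) (.ag (.p1 3 0 0) (.p1 94643711 0 4863))), .inr 3, .inr 5,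
  .inl (.p1 379041959 0 9733), .inr 3, .inl (.ag (.p1 11 0 1) (.p1 63225587 0 3975)), .inr 7,
  .inr 9, .inl (.p1 379821119 0 9743), .inr 101, .inr 3, .inl (.p1 380288999 0 9749), .inr 5,
  .inr 3, .inr 13, .inr 29, .inr 81, .inr 25, .inr 59, .inr 3, .inr 7,
  .inl (.ag (.p1 19 0 1) (.p2 19092533 0 2184)), .inr 3, .inr 113,
  .inl (.ag (.p1 3 0 0) (.ag (.p1 3 0 0) (.p1 95579951 0 4887))), .inr 9, .inr 31, .inr 5, .inr 3,
  .inr 529, .inl (.p1 383258927 0 9787), .inr 3, .inr 5, .inr 19, .inr 9,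
  .inl (.ag (.p2 1433 0 18) (.p1 267811 0 258))]

theorem tbl1_ok : table1 4800 tbl1 = true := by decide +kernel

theorem tbl1_len : tbl1.length = 100 := by decide +kernel

/-- part 2 of the table -/
def tbl2 : List (Cert ⊕ ℕ) := [
  .inr 17, .inr 3, .inl (.ag (.p1 3 0 0) (.p1 192256439 0 6932)), .inr 11, .inr 3, .inr 7,
  .inr 125, .inr 27, .inr 29, .inr 73, .inr 3, .inr 5, .inr 49, .inr 3, .inr 11,
  .inl (.p1 386554919 0 9829), .inr 9, .inr 13, .inr 103, .inr 3,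
  .inl (.ag (.p1 3 0 0) (.ag (.p1 3 0 0) (.ag (.p1 3 0 0) (.ag (.p1 3 0 0) (.p2 12104429 0 1739))))),
  .inr 5, .inr 3, .inr 47,
  .inl (.ag (.p1 3 0 0) (.ag (.p1 3 0 0) (.ag (.p1 587 0 11) (.p2 164953 0 202)))), .inr 9,
  .inr 5, .inl (.ag (.p1 59 0 3) (.p2 6474077 0 1271)), .inr 3, .inl (.p1 388760087 0 9857),
  .inr 13, .inr 3, .inr 109, .inr 7, .inr 27, .inr 19, .inr 5, .inr 3,
  .inl (.ag (.p1 3 0 0) (.ag (.p1 3 2 0) (.p2 6967517 0 1319))), .inr 23, .inr 3, .inr 5, .inr 53,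
  .inr 9,
  .inl (.ag (.p1 3 0 0) (.ag (.p1 3 0 0) (.ag (.p1 3 0 0) (.ag (.p1 3 0 0) (.p1 24445607 0 2471))))),
  .inr 131, .inr 3, .inr 7,
  .inl (.ag (.p1 3 0 0) (.ag (.p1 3 0 0) (.ag (.p2 2473 0 24) (.p2 19793 0 69)))), .inr 3,
  .inl (.ag (.p1 3 0 0) (.ag (.p1 3 0 0) (.p1 98019899 0 4949))), .inr 5, .inr 9,
  .inl (.ag (.p2 5 1 0) (.p1 15098267 0 1942)), .inr 7, .inr 3, .inr 25, .inr 79, .inr 3, .inr 83,
  .inl (.ag (.p1 3 0 0) (.p1 196832639 0 7014)), .inr 81, .inr 23,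
  .inl (.ag (.p1 3 0 0) (.p1 197070803 0 7018)), .inr 3,
  .inl (.ag (.p1 3 0 0) (.p2 98614829 0 4964)), .inr 5, .inr 3, .inr 7, .inr 11, .inr 9, .inr 5,
  .inl (.p1 395572319 0 9943), .inr 3, .inr 101, .inr 7, .inr 3, .inr 43,
  .inl (.ag (.p1 3 0 0) (.ag (.p2 37 0 2) (.p2 2608733 0 807))), .inr 9, .inr 11, .inr 25, .inr 3,
  .inr 31,
  .inl (.ag (.p1 3 0 0) (.ag (.p1 3 0 0) (.ag (.p1 3 0 0) (.ag (.p1 11 0 1) (.p2 4140457 0 1016))))),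
  .inr 3, .inr 5, .inl (.p1 397962599 0 9973), .inr 27, .inr 7,
  .inl (.ag (.p1 3 0 0) (.p1 199220759 0 7056)), .inr 3, .inr 19, .inl (.p1 398920727 0 9985),
  .inr 3, .inr 13, .inr 5, .inr 9, .inl (.p1 399720047 0 9995),
  .inl (.ag (.p1 11 0 1) (.p1 66646667 0 4081))]

theorem tbl2_ok : table1 4900 tbl2 = true := by decide +kernel

theorem tbl2_len : tbl2.length = 100 := by decide +kernel

theorem had_sq {v : ℕ} (hv : IsPrimePow v) (hv4 : v % 4 = 1) (hx : v ∉ exc1)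
    (hlo : 18800 ≤ v) (hhi : v < 20000) : Pool.Agent.H108R3.Had.HasHad (v ^ 2 - 1) := by
  by_cases h0 : v < 19200
  · exact table1_spec tbl0 4700 tbl0_ok v hv4 (by omega) (by rw [tbl0_len]; omega) hv hx
  by_cases h1 : v < 19600
  · exact table1_spec tbl1 4800 tbl1_ok v hv4 (by omega) (by rw [tbl1_len]; omega) hv hx
  by_cases h2 : v < 20000
  · exact table1_spec tbl2 4900 tbl2_ok v hv4 (by omega) (by rw [tbl2_len]; omega) hv hx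
  omega

end Pool.Agent.K9h69.Menon.S7
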