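import Pool.Agent.K9h69.Menon.Cert1

/-!
# Derivations of Hadamard matrices of order `v ^ 2 - 1` for prime powers `v ≡ 1 (mod 4)`,
`0 ≤ v < 6400`
-/

set_option autoImplicit false

namespace Pool.Agent.K9h69.Menon.S0

/-- part 0 of the table -/
def tbl0 : List (Cert ⊕ ℕ) := [
  .inr 0, .inl (.p1 23 0 1), .inl (.p1 79 0 3), .inl (.p1 167 0 5),
  .inl (.ag (.p1 3 0 0) (.ag (.p1 3 0 0) (.p1 71 0 3))), .inr 3,
  .inl (.ag (.p1 3 0 0) (.p1 311 0 8)), .inl (.p1 839 0 13), .inr 3, .inl (.p1 1367 0 17),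
  .inl (.ag (.p1 3 0 0) (.p1 839 0 13)), .inr 9, .inl (.p1 2399 0 23),
  .inl (.ag (.p1 3 0 0) (.p2 701 0 12)), .inr 3, .inl (.p1 3719 0 29), .inr 5, .inr 3,
  .inl (.ag (.p1 3 0 0) (.p1 2663 0 25)), .inr 7,
  .inl (.ag (.p1 3 0 0) (.ag (.p1 3 0 0) (.ag (.p1 3 0 0) (.p2 409 0 9)))), .inr 5,
  .inl (.p1 7919 0 43), .inr 3, .inl (.ag (.p1 3 0 0) (.p1 4703 0 33)),
  .inl (.ag (.p1 3 0 0) (.p1 5099 0 35)), .inr 3, .inl (.ag (.p1 3 0 0) (.p1 5939 0 38)),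
  .inl (.ag (.p1 3 0 0) (.ag (.p1 3 0 0) (.p1 3191 0 27))), .inr 9, .inl (.p1 14639 0 59),
  .inl (.ag (.p1 11 0 1) (.p2 1301 0 17)), .inr 3, .inr 7,
  .inl (.ag (.p1 3 0 0) (.ag (.p1 3 0 0) (.p1 4691 0 33))), .inr 3, .inr 5,
  .inl (.ag (.p1 11 0 1) (.p2 43 1 2)), .inr 9, .inl (.ag (.p1 3 0 0) (.p1 12323 0 55)), .inr 7,
  .inr 3, .inl (.p1 28559 0 83), .inl (.p1 29927 0 85), .inr 3,
  .inl (.ag (.p1 11 0 1) (.p2 2729 0 25)), .inr 5, .inr 27,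
  .inl (.ag (.p1 3 0 0) (.ag (.p1 3 0 0) (.p1 9311 0 47))),
  .inl (.ag (.p1 3 0 0) (.p1 19403 0 69)), .inr 3, .inr 5, .inr 11, .inr 3, .inr 7, .inr 13,
  .inr 9, .inl (.ag (.p1 3 0 0) (.p2 13109 0 56)), .inl (.p1 54287 0 115), .inr 3,
  .inl (.ag (.p1 3 0 0) (.ag (.p1 3 0 0) (.p1 14519 0 59))), .inr 5, .inr 3, .inr 11,
  .inl (.p1 66047 0 127), .inr 9, .inr 5, .inl (.ag (.p1 3 0 0) (.p2 18089 0 66)), .inr 3,
  .inl (.ag (.p1 3 0 0) (.p2 19181 0 68)),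
  .inl (.ag (.p1 3 0 0) (.ag (.p1 3 0 0) (.p1 19739 0 69))), .inr 3,
  .inl (.ag (.p1 3 0 0) (.p1 41759 0 101)), .inl (.p1 85847 0 145), .inr 27, .inr 7, .inr 5,
  .inr 3, .inl (.p1 97967 0 155), .inl (.ag (.p1 3 0 0) (.p2 25121 0 78)), .inr 3, .inr 25,
  .inr 7, .inr 9, .inl (.p1 113567 0 167), .inr 11, .inr 3,
  .inl (.ag (.p1 3 0 0) (.p1 60899 0 122)), .inl (.ag (.p1 3 0 0) (.p1 62303 0 124)), .inr 3,
  .inl (.ag (.p1 3 0 0) (.ag (.p1 3 0 0) (.p1 32579 0 89))), .inr 5, .inr 9,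
  .inl (.ag (.p1 3 0 0) (.p2 34781 0 92)), .inr 13, .inr 3, .inr 5,
  .inl (.ag (.p1 3 0 0) (.p1 75659 0 137)), .inr 3, .inl (.ag (.p1 3 0 0) (.p1 78803 0 139))]

theorem tbl0_ok : table1 0 tbl0 = true := by decide +kernel

theorem tbl0_len : tbl0.length = 100 := by decide +kernel

/-- part 1 of the table -/
def tbl1 : List (Cert ⊕ ℕ) := [
  .inl (.ag (.p1 3 0 0) (.ag (.p1 3 0 0) (.ag (.p1 19 0 1) (.p1 4019 0 31)))), .inr 81,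
  .inl (.ag (.p1 3 0 0) (.p1 83639 0 144)), .inr 7, .inr 3, .inl (.p1 177239 0 209), .inr 25,
  .inr 3, .inl (.ag (.p1 3 0 0) (.ag (.p1 3 0 0) (.ag (.p1 3 0 0) (.p2 11717 0 53)))), .inr 19,
  .inr 9, .inr 5, .inl (.p1 201599 0 223), .inr 3,
  .inl (.ag (.p1 3 0 0) (.ag (.p2 37 0 2) (.p2 1373 0 18))),
  .inl (.ag (.p1 3 0 0) (.p2 53129 0 114)), .inr 3, .inr 7, .inr 11, .inr 9, .inr 13, .inr 5,
  .inr 3, .inr 17, .inr 7, .inr 3, .inr 5, .inl (.ag (.p1 3 0 0) (.p1 129539 0 179)), .inr 27,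
  .inr 11, .inl (.ag (.p1 3 0 0) (.p1 135719 0 183)), .inr 3,
  .inl (.ag (.p1 3 0 0) (.ag (.p1 3 0 0) (.p1 69959 0 131))), .inr 13, .inr 3,
  .inl (.p1 292679 0 269), .inr 5, .inr 9, .inr 7, .inl (.ag (.p2 61 0 3) (.p1 5003 0 34)),
  .inr 3, .inr 5, .inl (.p1 323759 0 283), .inr 3,
  .inl (.ag (.p1 3 0 0) (.ag (.p1 3 0 0) (.p1 83231 0 143))), .inr 7, .inr 9, .inr 19,
  .inl (.ag (.p1 3 0 0) (.ag (.p1 3 0 0) (.p1 87911 0 147))), .inr 3,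
  .inl (.ag (.p1 3 0 0) (.ag (.p1 19 0 1) (.p1 18059 0 66))), .inr 5, .inr 3,
  .inl (.ag (.p1 3 0 0) (.p1 187883 0 216)),
  .inl (.ag (.p1 3 0 0) (.ag (.p1 11 0 1) (.p1 31723 0 88))), .inr 27,
  .inl (.ag (.p1 3 0 0) (.p1 195311 0 220)), .inr 17, .inr 3, .inr 49,
  .inl (.ag (.p1 3 0 0) (.ag (.p1 3 0 0) (.ag (.p1 3 0 0) (.ag (.p1 3 0 0) (.p1 25679 0 79))))),
  .inr 3, .inr 11, .inl (.p1 426407 0 325), .inr 9, .inl (.ag (.p1 3 0 0) (.p1 218459 0 233)),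
  .inr 5, .inr 3, .inl (.ag (.p1 3 0 0) (.p1 226463 0 237)), .inl (.p1 458327 0 337), .inr 3,
  .inr 5, .inr 13, .inr 9, .inr 17, .inl (.ag (.p1 3 0 0) (.p2 122849 0 174)), .inr 3,
  .inl (.ag (.p1 3 0 0) (.p2 125669 0 176)), .inr 23, .inr 3, .inr 7, .inr 25,
  .inl (.ag (.p1 3 0 0) (.ag (.p1 3 0 0) (.p1 132859 0 181))), .inl (.p1 537287 0 365), .inr 11,
  .inr 3, .inr 5, .inr 7, .inr 3, .inl (.p1 573047 0 377), .inl (.p1 579119 0 379), .inr 9,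
  .inl (.ag (.p1 3 0 0) (.ag (.p1 3 0 0) (.ag (.p1 3 0 0) (.ag (.p1 3 0 0) (.ag (.p1 3 0 0) (.ag (.p1 3 0 0) (.p1 9239 0 47))))))),
  .inl (.ag (.p1 3 0 0) (.p2 149381 0 192)), .inr 3, .inr 11, .inr 5, .inr 3, .inr 13,
  .inl (.p1 635207 0 397)]

theorem tbl1_ok : table1 100 tbl1 = true := by decide +kernel

theorem tbl1_len : tbl1.length = 100 := by decide +kernel

/-- part 2 of the table -/
def tbl2 : List (Cert ⊕ ℕ) := [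
  .inr 9, .inr 5, .inl (.ag (.p1 3 0 0) (.ag (.p1 11 0 1) (.p1 54539 0 116))), .inr 3, .inr 19,
  .inl (.ag (.p1 11 0 1) (.p1 112339 0 167)), .inr 3, .inl (.ag (.p1 11 0 1) (.p2 57269 0 119)),
  .inr 49, .inr 27, .inl (.p1 707279 0 419), .inr 5, .inr 3,
  .inl (.ag (.p1 11 0 1) (.p1 121267 0 173)),
  .inl (.ag (.p1 3 0 0) (.ag (.p1 3 0 0) (.p1 183611 0 213))), .inr 3, .inr 5, .inr 11, .inr 9,
  .inl (.ag (.mi 73 0 3 (.p1 71 0 3)) (.p2 2633 0 25)), .inl (.p1 776159 0 439), .inr 3, .inr 7,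
  .inr 19, .inr 3, .inr 17, .inr 5, .inr 9, .inr 11, .inr 7, .inr 3, .inr 25,
  .inl (.ag (.p1 3 0 0) (.ag (.p1 3 0 0) (.ag (.p1 3 0 0) (.ag (.p1 3 0 0) (.p1 53939 0 115))))),
  .inr 3, .inl (.ag (.p1 3 0 0) (.p1 438983 0 330)), .inl (.ag (.p1 19 0 1) (.p1 88547 0 148)),
  .inr 27, .inr 13, .inl (.ag (.p1 3 0 0) (.ag (.p1 11 0 1) (.p1 75683 0 137))), .inr 3,
  .inl (.ag (.p1 3 0 0) (.ag (.p1 3 0 0) (.ag (.p1 3 0 0) (.ag (.p1 3 0 0) (.p1 57719 0 119))))),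
  .inr 5, .inr 3, .inr 7,
  .inl (.ag (.p1 3 0 0) (.ag (.p1 3 0 0) (.ag (.p1 3 4 0) (.p2 977 0 15)))), .inr 9, .inr 5,
  .inr 23, .inr 3, .inl (.ag (.p1 11 0 1) (.p1 165667 0 203)), .inr 7, .inr 3,
  .inl (.ag (.p1 3 0 0) (.ag (.p1 3 0 0) (.p1 254519 0 251))), .inl (.p1 1026167 0 505), .inr 9,
  .inl (.p1 1042439 0 509), .inr 25, .inr 3, .inl (.ag (.p1 3 0 0) (.p1 533543 0 364)), .inr 17,
  .inr 3, .inr 5, .inl (.ag (.p1 3 0 0) (.ag (.p1 19 0 1) (.p2 27509 0 82))), .inr 81, .inr 7,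
  .inl (.ag (.p1 3 0 0) (.p2 281429 0 264)), .inr 3, .inl (.p1 1142759 0 533), .inr 29, .inr 3,
  .inr 23, .inr 5, .inr 9, .inl (.ag (.p1 3 2 0) (.p1 85331 0 145)),
  .inl (.ag (.p1 3 0 0) (.ag (.p1 3 0 0) (.p1 300851 0 273))), .inr 3, .inr 5,
  .inl (.ag (.p1 11 0 1) (.p1 204979 0 225)), .inr 3, .inl (.ag (.p1 11 0 1) (.p1 207947 0 227)),
  .inr 19, .inr 9, .inl (.ag (.p1 3 0 0) (.p1 637319 0 398)), .inr 11, .inr 3, .inr 7, .inr 5,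
  .inr 3, .inl (.p1 1329407 0 575), .inr 13, .inr 27, .inr 5, .inr 7, .inr 3, .inr 11,
  .inl (.ag (.p1 3 0 0) (.p1 697379 0 417)), .inr 3, .inr 29,
  .inl (.ag (.p1 3 0 0) (.ag (.p1 3 0 0) (.p1 355811 0 297))), .inr 9]

theorem tbl2_ok : table1 200 tbl2 = true := by decide +kernel

theorem tbl2_len : tbl2.length = 100 := by decide +kernel

/-- part 3 of the table -/
def tbl3 : List (Cert ⊕ ℕ) := [
  .inl (.ag (.p1 3 0 0) (.p1 721199 0 424)), .inr 5, .inr 3,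
  .inl (.ag (.p1 3 0 0) (.p2 367841 0 302)),
  .inl (.ag (.p1 3 0 0) (.ag (.p1 3 0 0) (.ag (.p1 3 0 0) (.ag (.p1 3 0 0) (.p1 92567 0 151))))),
  .inr 3, .inr 25, .inl (.ag (.p1 19 0 1) (.p2 75521 0 136)), .inr 9,
  .inl (.ag (.p1 3 0 0) (.p2 382541 0 308)), .inr 17, .inr 3,
  .inl (.ag (.p1 3 0 0) (.ag (.p1 3 0 0) (.p1 389999 0 311))), .inr 7, .inr 3, .inr 13, .inr 5,
  .inr 27, .inr 19, .inl (.ag (.p1 11 0 1) (.p1 271787 0 260)), .inr 3, .inr 5,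
  .inl (.p1 1661519 0 643), .inr 3, .inl (.p1 1682207 0 647),
  .inl (.ag (.p1 19 0 1) (.p1 169259 0 205)), .inr 9, .inr 7, .inr 13, .inr 3,
  .inl (.p1 1745039 0 659), .inr 25, .inr 3, .inr 31, .inr 7, .inr 9, .inr 5, .inr 19, .inr 3,
  .inr 23, .inl (.ag (.p1 3 0 0) (.ag (.p1 3 0 0) (.ag (.p1 3 0 0) (.p2 115769 0 169)))), .inr 3,
  .inl (.ag (.p1 3 0 0) (.ag (.p1 19 0 1) (.p2 46853 0 107))),
  .inl (.ag (.p1 3 0 0) (.p2 471281 0 342)), .inr 81, .inl (.ag (.p2 229 0 7) (.p1 8291 0 45)),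
  .inr 5, .inr 3, .inr 7, .inr 11, .inr 3, .inr 5, .inl (.p1 1985279 0 703), .inr 9, .inr 13,
  .inr 49, .inr 3, .inl (.p1 2042039 0 713),
  .inl (.ag (.p1 3 0 0) (.ag (.p1 3 0 0) (.p1 513371 0 357))), .inr 3, .inr 11, .inr 5, .inr 9,
  .inl (.ag (.p1 3 0 0) (.p1 1055603 0 513)), .inr 31, .inr 3, .inr 5, .inr 13, .inr 3, .inr 7,
  .inl (.ag (.p1 3 0 0) (.ag (.p1 11 0 1) (.p1 182779 0 213))), .inr 27,
  .inl (.ag (.p1 3 0 0) (.p1 1108559 0 525)), .inl (.ag (.p1 3 0 0) (.p1 1114523 0 527)), .inr 3,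
  .inr 19, .inr 5, .inr 3, .inr 17, .inr 37, .inr 9, .inr 25, .inr 11, .inr 3, .inr 29, .inr 23,
  .inr 3, .inl (.p1 2399399 0 773), .inl (.ag (.p1 3 0 0) (.p1 1205903 0 548)), .inr 9, .inr 7,
  .inr 5, .inr 3, .inr 121, .inr 19, .inr 3, .inr 5, .inr 7, .inr 27, .inl (.p1 2550407 0 797)]

theorem tbl3_ok : table1 300 tbl3 = true := by decide +kernel

theorem tbl3_len : tbl3.length = 100 := by decide +kernel

/-- part 4 of the table -/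
def tbl4 : List (Cert ⊕ ℕ) := [
  .inl (.p1 2563199 0 799), .inr 3, .inl (.ag (.p1 3 0 0) (.ag (.p1 3 0 0) (.p1 647219 0 401))),
  .inl (.ag (.p1 11 0 1) (.p1 433627 0 328)), .inr 3, .inl (.ag (.p1 11 0 1) (.p2 218969 0 233)),
  .inr 125, .inr 9, .inr 23, .inl (.ag (.p1 11 0 1) (.p2 223313 0 235)), .inr 3, .inr 5, .inr 17,
  .inr 3, .inl (.ag (.p1 3 0 0) (.ag (.p2 137 0 5) (.p2 4973 0 34))), .inr 11, .inr 9,
  .inl (.ag (.p1 3 0 0) (.p1 1392779 0 589)), .inr 7, .inr 3, .inl (.p1 2825759 0 839), .inr 5,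
  .inr 3, .inl (.p1 2866247 0 845), .inl (.ag (.p1 3 0 0) (.p1 1439903 0 599)), .inr 243, .inr 5,
  .inl (.ag (.p1 19 0 1) (.p2 146033 0 190)), .inr 3, .inr 17, .inl (.p1 2961839 0 859), .inr 3,
  .inr 7, .inl (.ag (.p2 101 0 4) (.p1 29443 0 85)), .inr 9, .inl (.p1 3031079 0 869), .inr 5,
  .inr 3, .inl (.ag (.p1 3 0 0) (.ag (.mi 73 0 3 (.p1 71 0 3)) (.p2 5261 0 35))), .inr 7, .inr 3,
  .inr 5, .inr 29, .inr 9,
  .inl (.ag (.p1 3 0 0) (.ag (.p1 3 0 0) (.ag (.p1 83 0 4) (.p2 9397 0 47)))), .inr 13, .inr 3,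
  .inl (.ag (.p1 3 0 0) (.p1 1600259 0 632)), .inr 11, .inr 3,
  .inl (.ag (.p1 3 0 0) (.ag (.p1 11 0 1) (.p1 270299 0 259))), .inr 5, .inr 27, .inr 49, .inr 23,
  .inr 3, .inr 25, .inr 31, .inr 3, .inr 11, .inr 7, .inr 9, .inl (.p1 3418799 0 923), .inr 17,
  .inr 3, .inl (.p1 3463319 0 929), .inr 5, .inr 3, .inl (.ag (.p1 3 0 0) (.p1 1754063 0 661)),
  .inl (.ag (.p1 83 0 4) (.p2 41941 0 101)), .inr 9, .inr 5,
  .inl (.ag (.p1 3 0 0) (.ag (.p1 3 0 0) (.p1 892079 0 471))), .inr 3, .inr 7,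
  .inl (.ag (.p1 3 0 0) (.p1 1806899 0 671)), .inr 3, .inr 23, .inl (.p1 3659567 0 955), .inr 27,
  .inr 17, .inr 25, .inr 3, .inl (.ag (.p1 3 0 0) (.p2 934121 0 482)), .inr 13, .inr 3, .inr 5,
  .inl (.ag (.p1 3 0 0) (.p2 949649 0 486)), .inr 9, .inr 19, .inr 37, .inr 3, .inr 11,
  .inl (.ag (.p1 3 2 0) (.p1 278051 0 263)), .inr 3, .inr 7, .inr 5, .inr 9,
  .inl (.ag (.p1 3 0 0) (.ag (.p1 3 0 0) (.p1 993011 0 497))), .inl (.p1 3988007 0 997)]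

theorem tbl4_ok : table1 400 tbl4 = true := by decide +kernel

theorem tbl4_len : tbl4.length = 100 := by decide +kernel

/-- part 5 of the table -/
def tbl5 : List (Cert ⊕ ℕ) := [
  .inr 3, .inr 5, .inr 49, .inr 3,
  .inl (.ag (.p1 3 0 0) (.ag (.p1 3 0 0) (.ag (.p1 3 0 0) (.ag (.p1 3 0 0) (.p2 127133 0 177))))),
  .inr 43, .inr 81, .inl (.ag (.p1 3 0 0) (.p2 1029209 0 506)), .inr 19, .inr 3, .inr 13, .inr 5,
  .inr 3, .inl (.p1 4214807 0 1025), .inr 121, .inr 9, .inr 5,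
  .inl (.ag (.p1 3 0 0) (.p2 1070189 0 516)), .inr 3, .inr 31, .inl (.p1 4330559 0 1039), .inr 3,
  .inl (.ag (.p1 3 0 0) (.ag (.p1 3 0 0) (.p1 1090979 0 521))), .inr 7, .inr 9, .inr 11, .inr 5,
  .inr 3, .inl (.p1 4464767 0 1055), .inr 29, .inr 3, .inr 125, .inl (.p1 4532639 0 1063),
  .inr 27, .inl (.p1 4566767 0 1067), .inl (.ag (.p1 11 0 1) (.p2 381989 0 308)), .inr 3, .inr 7,
  .inl (.ag (.p1 11 0 1) (.p1 772567 0 438)), .inr 3,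
  .inl (.ag (.p1 3 0 0) (.ag (.p1 3 0 0) (.ag (.p1 3 0 0) (.p2 291869 0 269)))), .inr 5, .inr 9,
  .inr 41, .inr 7, .inr 3, .inr 5, .inr 11, .inr 3, .inl (.ag (.p1 3 0 0) (.p2 1206701 0 548)),
  .inr 31, .inr 9, .inl (.ag (.p1 3 0 0) (.p1 2439839 0 780)),
  .inl (.ag (.p1 11 0 1) (.p1 816227 0 451)), .inr 3, .inl (.ag (.p1 3 0 0) (.p2 1233209 0 554)),
  .inr 25, .inr 3, .inr 7, .inl (.ag (.p1 3 0 0) (.p1 2502083 0 790)), .inr 27, .inr 5, .inr 13,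
  .inr 3, .inr 37, .inr 7, .inr 3, .inl (.p1 5148359 0 1133), .inl (.p1 5166527 0 1135), .inr 9,
  .inl (.ag (.p1 3 0 0) (.p1 2601479 0 805)), .inr 5, .inr 3,
  .inl (.ag (.p1 11 0 1) (.p1 876307 0 467)), .inl (.p1 5276207 0 1147), .inr 3, .inr 5,
  .inl (.p1 5331479 0 1153), .inr 9, .inr 7, .inr 11, .inr 3, .inr 17,
  .inl (.ag (.p1 3 0 0) (.p1 2721443 0 824)), .inr 3, .inl (.ag (.p1 3 0 0) (.p1 2740139 0 827)),
  .inr 5, .inr 81, .inr 13, .inl (.ag (.p1 11 0 1) (.p2 462953 0 339)), .inr 3, .inr 5, .inr 23,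
  .inr 3, .inl (.ag (.p1 3 0 0) (.p1 2825063 0 839)), .inl (.p1 5669159 0 1189), .inr 9,
  .inl (.p1 5707319 0 1193), .inl (.p1 5726447 0 1195), .inr 3]

theorem tbl5_ok : table1 500 tbl5 = true := by decide +kernel

theorem tbl5_len : tbl5.length = 100 := by decide +kernel

/-- part 6 of the table -/
def tbl6 : List (Cert ⊕ ℕ) := [
  .inl (.p1 5764799 0 1199), .inr 5, .inr 3, .inr 19, .inl (.ag (.p1 3 0 0) (.p1 2920943 0 854)),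
  .inr 9, .inr 25, .inr 7, .inr 3, .inl (.ag (.p1 3 0 0) (.p2 1484741 0 608)),
  .inl (.ag (.p1 3 0 0) (.p1 2979239 0 862)), .inr 3, .inr 31, .inr 11, .inr 27, .inr 23, .inr 5,
  .inr 3, .inl (.ag (.p1 3 0 0) (.ag (.p2 617 0 11) (.p2 2473 0 24))),
  .inl (.ag (.p1 3 0 0) (.p2 1533881 0 618)), .inr 3, .inr 5, .inr 19, .inr 9, .inr 11, .inr 41,
  .inr 3, .inr 13, .inr 7, .inr 3, .inl (.ag (.p1 3 0 0) (.ag (.p1 3 0 0) (.p1 1588859 0 629))),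
  .inr 25, .inr 9, .inr 17, .inr 43, .inr 3, .inr 5, .inl (.p1 6497399 0 1273), .inr 3,
  .inl (.ag (.p1 283 0 7) (.p2 23021 0 75)), .inr 13, .inr 27, .inr 7, .inr 31, .inr 3, .inr 29,
  .inr 5, .inr 3, .inl (.ag (.p1 3 0 0) (.p1 3361823 0 916)), .inr 49, .inr 9, .inr 5,
  .inl (.ag (.p1 3 0 0) (.ag (.p1 3 0 0) (.p1 1701719 0 651))), .inr 3,
  .inl (.ag (.p1 3 0 0) (.ag (.p1 3 0 0) (.p1 1712171 0 653))),
  .inl (.ag (.p1 3 0 0) (.p1 3434819 0 926)), .inr 3, .inr 11,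
  .inl (.ag (.p1 3 0 0) (.p1 3466343 0 930)), .inr 9, .inr 19, .inr 5, .inr 3, .inr 7,
  .inl (.ag (.p1 3 0 0) (.ag (.p1 3 0 0) (.ag (.p1 3 0 0) (.ag (.p1 3 0 0) (.p2 220613 0 234))))),
  .inr 3, .inr 5, .inr 17, .inr 243, .inr 0, .inr 7, .inr 3,
  .inl (.ag (.p1 3 0 0) (.ag (.p1 3 0 0) (.ag (.p1 3 0 0) (.ag (.p1 3 0 0) (.ag (.p1 3 0 0) (.ag (.p1 3 0 0) (.p1 112979 0 167))))))),
  .inl (.ag (.p1 11 0 1) (.p1 1208707 0 549)), .inr 3, .inr 37, .inr 5, .inr 9,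
  .inl (.ag (.p1 3 0 0) (.ag (.p1 11 0 1) (.p1 613363 0 391))), .inr 11, .inr 3, .inr 25,
  .inl (.p1 7447439 0 1363), .inr 3, .inr 7, .inl (.ag (.p1 19 0 1) (.p1 751307 0 432)), .inr 9,
  .inl (.p1 7556999 0 1373),
  .inl (.ag (.p1 3 0 0) (.ag (.p1 3 0 0) (.ag (.p1 3 0 0) (.ag (.p1 3 0 0) (.ag (.p1 67 0 3) (.p1 13931 0 58)))))),
  .inr 3, .inr 11, .inr 5, .inr 3, .inr 47, .inr 0, .inr 27, .inr 5,
  .inl (.ag (.p1 11 0 1) (.p1 1296419 0 568)), .inr 3, .inl (.ag (.p1 3 0 0) (.p2 1955801 0 698))]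

theorem tbl6_ok : table1 600 tbl6 = true := by decide +kernel

theorem tbl6_len : tbl6.length = 100 := by decide +kernel

/-- part 7 of the table -/
def tbl7 : List (Cert ⊕ ℕ) := [
  .inl (.ag (.p1 3 0 0) (.ag (.p1 3 0 0) (.ag (.p1 19 0 1) (.p1 196139 0 220)))), .inr 3,
  .inl (.p1 7890479 0 1403), .inr 29, .inr 9, .inr 7, .inr 25, .inr 3,
  .inl (.ag (.p1 3 0 0) (.ag (.p1 3 0 0) (.ag (.p1 3 0 0) (.p2 501617 0 353)))),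
  .inl (.p1 8048567 0 1417), .inr 3, .inr 5, .inr 7, .inr 9,
  .inl (.ag (.p1 3 0 0) (.ag (.p1 11 0 1) (.p1 680203 0 411))),
  .inl (.ag (.p1 3 0 0) (.p1 4092659 0 1011)), .inr 3, .inr 19, .inr 169, .inr 3, .inr 43, .inr 5,
  .inr 27, .inr 11, .inl (.p1 8392607 0 1447), .inr 3, .inr 5,
  .inl (.ag (.p2 1453 0 18) (.p2 2909 0 26)), .inr 3, .inl (.ag (.p1 11 0 1) (.p1 1418147 0 594)),
  .inr 23, .inr 9, .inr 29, .inr 7, .inr 3, .inr 17, .inr 5, .inr 3,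
  .inl (.ag (.p1 3 0 0) (.ag (.p1 3 0 0) (.p1 2180051 0 737))),
  .inl (.ag (.p1 67 0 3) (.p1 257171 0 253)), .inr 9, .inr 5,
  .inl (.ag (.p1 3 0 0) (.p1 4407479 0 1049)), .inr 3, .inr 13, .inr 11, .inr 3, .inr 49, .inr 41,
  .inr 81, .inl (.ag (.p1 3 0 0) (.ag (.p1 19 0 1) (.p1 450299 0 335))), .inr 5, .inr 3, .inr 23,
  .inr 7, .inr 3, .inr 25, .inr 13, .inr 9, .inl (.ag (.p1 3 0 0) (.p1 4611683 0 1073)),
  .inl (.ag (.p1 3 0 0) (.ag (.p1 3 0 0) (.ag (.p1 3 0 0) (.ag (.p1 3 0 0) (.p1 577979 0 379))))),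
  .inr 3, .inl (.ag (.p1 3 0 0) (.ag (.p1 19 0 1) (.p1 464819 0 340))), .inr 43, .inr 3,
  .inl (.ag (.p1 3 0 0) (.p1 4684859 0 1081)), .inr 5, .inr 9, .inr 7, .inr 17, .inr 3, .inr 5,
  .inl (.p1 9541919 0 1543), .inr 3, .inr 19, .inr 7, .inr 27,
  .inl (.ag (.p1 3 0 0) (.p1 4832939 0 1098)), .inr 11, .inr 3, .inl (.p1 9740639 0 1559),
  .inl (.ag (.p1 3 0 0) (.p1 4882811 0 1104)), .inr 3, .inr 13,
  .inl (.ag (.p1 3 0 0) (.ag (.p1 3 0 0) (.ag (.p1 3 0 0) (.ag (.p1 3 0 0) (.p1 615047 0 391))))),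
  .inr 9, .inr 5, .inr 47, .inr 3, .inr 7, .inr 29, .inr 3,
  .inl (.ag (.p1 3 0 0) (.p1 5021279 0 1119)), .inr 19, .inr 9,
  .inl (.ag (.p1 3 0 0) (.p2 2529689 0 794)), .inr 5, .inr 3, .inr 31, .inr 23]

theorem tbl7_ok : table1 700 tbl7 = true := by decide +kernel

theorem tbl7_len : tbl7.length = 100 := by decide +kernel

/-- part 8 of the table -/
def tbl8 : List (Cert ⊕ ℕ) := [
  .inr 3, .inr 5,
  .inl (.ag (.p1 3 0 0) (.ag (.mi 401 0 9 (.ag (.p1 3 0 0) (.p1 199 0 6))) (.p2 3209 0 27))),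
  .inr 27, .inl (.ag (.p1 3 0 0) (.ag (.p1 3 0 0) (.p1 2587271 0 803))),
  .inl (.p1 10374839 0 1609), .inr 3, .inl (.ag (.p1 11 0 1) (.p1 1737739 0 658)), .inr 53,
  .inr 3, .inr 7, .inr 5, .inr 9, .inl (.ag (.p1 3 0 0) (.p1 5291003 0 1149)),
  .inl (.ag (.p1 3 0 0) (.ag (.p1 3 0 0) (.p1 2652011 0 813))), .inr 3, .inr 5, .inr 7, .inr 3,
  .inr 29, .inr 17, .inr 9, .inr 11, .inr 37, .inr 3, .inl (.ag (.p1 11 0 1) (.p1 1816099 0 673)),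
  .inr 5, .inr 3, .inl (.p1 10975967 0 1655), .inr 31, .inr 81, .inr 25,
  .inl (.ag (.p1 3 0 0) (.ag (.p1 3 0 0) (.ag (.p1 3 0 0) (.ag (.p1 3 0 0) (.ag (.p1 3 0 0) (.ag (.p1 3 0 0) (.ag (.p1 3 0 0) (.p1 86579 0 146)))))))),
  .inr 3, .inr 47, .inr 13, .inr 3, .inr 17, .inr 7, .inr 9,
  .inl (.ag (.p1 3 0 0) (.ag (.p1 3 0 0) (.p1 2824079 0 839))), .inr 5, .inr 3,
  .inl (.p1 11377127 0 1685), .inr 11, .inr 3, .inr 5, .inl (.ag (.p1 11 0 1) (.p2 957109 0 488)),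
  .inr 9, .inr 43, .inr 19, .inr 3, .inr 7, .inl (.ag (.p1 3 0 0) (.p2 2912141 0 852)), .inr 3,
  .inr 11, .inr 25, .inr 27, .inl (.ag (.p1 3 0 0) (.ag (.p2 5 1 0) (.p1 226643 0 237))), .inr 7,
  .inr 3, .inr 5, .inl (.ag (.p1 3 0 0) (.ag (.p1 59 0 3) (.p1 198259 0 222))), .inr 3,
  .inl (.ag (.p1 3 0 0) (.ag (.p1 3 0 0) (.ag (.p1 3 0 0) (.ag (.p1 3 0 0) (.ag (.p1 3 0 0) (.p1 373463 0 305)))))),
  .inl (.ag (.p1 3 0 0) (.p1 5989259 0 1223)), .inr 9, .inl (.ag (.p1 19 0 1) (.p2 601697 0 387)),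
  .inr 23, .inr 3, .inl (.p1 12117359 0 1739), .inr 5, .inr 3, .inr 7, .inr 13, .inr 9, .inr 5,
  .inr 121, .inr 3, .inl (.ag (.p1 3 0 0) (.p1 6184643 0 1242)), .inr 7, .inr 3,
  .inl (.ag (.p1 3 0 0) (.ag (.p1 3 0 0) (.p1 3113459 0 881))),
  .inl (.ag (.p1 3 0 0) (.p1 6241043 0 1248)), .inr 27, .inl (.p1 12538679 0 1769), .inr 5,
  .inr 3, .inr 11, .inl (.ag (.p1 3 0 0) (.p1 6326123 0 1257)), .inr 3, .inr 5, .inr 43, .inr 9,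
  .inr 49, .inl (.ag (.p1 11 0 1) (.p1 2137259 0 730)), .inr 3, .inr 37,
  .inl (.ag (.p1 3 0 0) (.ag (.mi 449 0 10 (.ag (.p1 3 0 0) (.p1 223 0 6))) (.p1 7187 0 41))),
  .inr 3]

theorem tbl8_ok : table1 800 tbl8 = true := by decide +kernel

theorem tbl8_len : tbl8.length = 100 := by decide +kernel

/-- part 9 of the table -/
def tbl9 : List (Cert ⊕ ℕ) := [
  .inr 13, .inr 5, .inr 9, .inl (.ag (.p1 3 0 0) (.p2 3263441 0 902)), .inl (.p1 13082687 0 1807),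
  .inr 3, .inr 125, .inr 19, .inr 3, .inl (.ag (.p1 3 0 0) (.p1 6613883 0 1285)), .inr 11,
  .inr 729, .inr 41, .inr 13, .inr 3, .inr 7, .inr 5, .inr 3,
  .inl (.ag (.p1 3 0 0) (.ag (.p1 3 0 0) (.p1 3372731 0 917))),
  .inl (.ag (.p1 3 0 0) (.p1 6760163 0 1299)), .inr 9, .inr 5, .inr 7, .inr 3,
  .inl (.ag (.p1 3 0 0) (.ag (.p1 3 0 0) (.p1 3416951 0 923))), .inl (.p1 13697399 0 1849),
  .inr 3, .inl (.p1 13756679 0 1853), .inr 47, .inr 9,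
  .inl (.ag (.p1 3 0 0) (.ag (.p1 3 0 0) (.p1 3461459 0 929))), .inr 25, .inr 3, .inr 0, .inr 37,
  .inr 3, .inr 5, .inr 23, .inr 27, .inr 13,
  .inl (.ag (.p1 3 0 0) (.ag (.p1 3 0 0) (.ag (.p1 3 0 0) (.p2 884069 0 469)))), .inr 3,
  .inl (.ag (.p1 3 0 0) (.p1 7102679 0 1332)), .inr 343, .inr 3, .inr 19, .inr 5, .inr 9,
  .inl (.ag (.p1 3 0 0) (.ag (.p1 3 0 0) (.ag (.p1 3 0 0) (.p2 899177 0 473)))),
  .inl (.ag (.p1 3 0 0) (.p1 7208603 0 1341)), .inr 3, .inr 5, .inr 13, .inr 3, .inr 11,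
  .inl (.ag (.p1 19 0 1) (.p1 1460003 0 603)), .inr 9, .inr 7,
  .inl (.ag (.p1 3 0 0) (.ag (.p1 3 0 0) (.p1 3672971 0 957))), .inr 3, .inr 23, .inr 5, .inr 3,
  .inl (.ag (.p1 3 0 0) (.p2 3711401 0 962)), .inr 7, .inr 27, .inr 5, .inr 53, .inr 3,
  .inl (.ag (.p1 3 0 0) (.p2 3757781 0 968)), .inl (.ag (.p1 3 0 0) (.p1 7531079 0 1371)), .inr 3,
  .inl (.ag (.p1 3 0 0) (.ag (.p1 3 0 0) (.p1 3781079 0 971))), .inr 17, .inr 9, .inr 47, .inr 5,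
  .inr 3, .inr 7, .inr 0, .inr 3, .inr 25, .inl (.ag (.p1 3 0 0) (.p1 7718519 0 1388)), .inr 9,
  .inr 31, .inr 7, .inr 3, .inr 11, .inr 59, .inr 3, .inr 17, .inr 5, .inr 81, .inr 29, .inr 41,
  .inr 3, .inr 5, .inl (.ag (.p1 19 0 1) (.p1 1591211 0 630)), .inr 3, .inr 7]

theorem tbl9_ok : table1 900 tbl9 = true := by decide +kernel

theorem tbl9_len : tbl9.length = 100 := by decide +kernel

/-- part 10 of the table -/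
def tbl10 : List (Cert ⊕ ℕ) := [
  .inl (.ag (.p1 3 0 0) (.ag (.p1 3 0 0) (.p1 4001999 0 999))), .inr 9, .inr 19,
  .inl (.p1 16104167 0 2005), .inr 3, .inl (.ag (.p1 11 0 1) (.p1 2694739 0 820)), .inr 25,
  .inr 3, .inr 37, .inr 11, .inr 9, .inr 5, .inl (.ag (.p1 3 0 0) (.p1 8197199 0 1431)), .inr 3,
  .inl (.ag (.p1 3 0 0) (.p1 8229623 0 1433)), .inr 31, .inr 3, .inr 13,
  .inl (.ag (.p1 3 0 0) (.ag (.p1 3 0 0) (.p1 4147331 0 1017))), .inr 27, .inr 7, .inr 5, .inr 3,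
  .inl (.p1 16752647 0 2045), .inr 17, .inr 3, .inr 5, .inr 7, .inr 9, .inr 23, .inr 13, .inr 3,
  .inl (.ag (.p1 3 0 0) (.ag (.p1 3 0 0) (.ag (.p1 3 0 0) (.ag (.p1 11 0 1) (.p2 177589 0 210))))),
  .inl (.ag (.mi 1033 0 15 (.p1 1031 0 15)) (.p2 4133 0 31)), .inr 3, .inr 41, .inr 5, .inr 9,
  .inl (.p1 17247407 0 2075), .inl (.ag (.p2 17 0 1) (.p2 480017 0 345)), .inr 3, .inr 5, .inr 11,
  .inr 3, .inl (.ag (.p1 3 0 0) (.ag (.p1 3 0 0) (.ag (.p1 3 0 0) (.p2 1090457 0 521)))), .inr 37,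
  .inr 27, .inr 59, .inr 7, .inr 3, .inl (.ag (.p1 3 0 0) (.ag (.p1 3 0 0) (.p1 4412099 0 1049))),
  .inr 5, .inr 3, .inr 11, .inl (.ag (.p1 3 0 0) (.ag (.p2 37 0 2) (.p2 116993 0 170))), .inr 9,
  .inr 25, .inl (.p1 17884439 0 2113), .inr 3, .inr 19, .inl (.p1 17986079 0 2119), .inr 3,
  .inr 7, .inl (.ag (.p1 3 0 0) (.p1 9044003 0 1503)), .inr 9,
  .inl (.ag (.p1 3 0 0) (.p1 9078059 0 1505)), .inr 5, .inr 3,
  .inl (.ag (.p1 3 0 0) (.ag (.p1 3 0 0) (.p1 4564631 0 1067))), .inr 7, .inr 3, .inr 5,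
  .inl (.ag (.p1 3 0 0) (.ag (.p1 3 0 0) (.ag (.p1 3 0 0) (.ag (.p1 3 0 0) (.ag (.p1 3 0 0) (.p1 574859 0 378)))))),
  .inr 81, .inl (.ag (.p1 3 0 0) (.p1 9232103 0 1518)), .inr 11, .inr 3, .inr 31, .inr 19, .inr 3,
  .inr 29, .inr 25, .inr 9, .inr 7, .inl (.ag (.p1 3 0 0) (.p1 9404783 0 1532)), .inr 3, .inr 5,
  .inl (.p1 18913799 0 2173), .inr 3, .inl (.ag (.p1 3 0 0) (.p1 9491723 0 1539)), .inr 49,
  .inr 9, .inr 17, .inl (.p1 19123127 0 2185), .inr 3, .inr 13, .inr 5, .inr 3, .inr 23,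
  .inl (.ag (.p1 3 2 0) (.p1 1380971 0 587))]

theorem tbl10_ok : table1 1000 tbl10 = true := by decide +kernel

theorem tbl10_len : tbl10.length = 100 := by decide +kernel

/-- part 11 of the table -/
def tbl11 : List (Cert ⊕ ℕ) := [
  .inr 27, .inr 5, .inl (.ag (.p1 3 0 0) (.ag (.p1 3 0 0) (.p1 4859819 0 1101))), .inr 3, .inr 7,
  .inl (.ag (.p1 19 0 1) (.p1 1954523 0 698)), .inr 3, .inr 43, .inr 11, .inr 9,
  .inl (.ag (.p1 3 0 0) (.p1 9861239 0 1569)), .inr 5, .inr 3, .inr 61,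
  .inl (.ag (.p1 3 0 0) (.p1 9932423 0 1575)), .inr 3, .inr 5, .inr 41, .inr 9, .inr 121,
  .inl (.ag (.p1 3 0 0) (.ag (.p1 3 0 0) (.ag (.p1 3 0 0) (.ag (.p1 3 0 0) (.p1 1254959 0 559))))),
  .inr 3, .inl (.ag (.p1 3 0 0) (.ag (.p1 19 0 1) (.p2 503777 0 354))),
  .inl (.ag (.p1 11 0 1) (.p1 3364507 0 916)), .inr 3, .inr 7, .inr 5, .inr 27,
  .inl (.ag (.p1 3 0 0) (.p1 10183583 0 1595)), .inl (.ag (.p1 3 0 0) (.p1 10201643 0 1596)),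
  .inr 3, .inr 25, .inr 7, .inr 3, .inr 13, .inr 19, .inr 9,
  .inl (.ag (.p1 11 0 1) (.p2 1724449 0 656)), .inr 29, .inr 3,
  .inl (.ag (.p1 3 0 0) (.ag (.p1 3 0 0) (.ag (.p1 19 0 1) (.p1 520067 0 360)))), .inr 5, .inr 3,
  .inr 17, .inr 23, .inr 9, .inr 5, .inr 13, .inr 3, .inl (.ag (.p1 3 0 0) (.p2 5283101 0 1148)),
  .inr 43, .inr 3, .inr 11, .inr 7, .inr 243, .inl (.p1 21353639 0 2309), .inr 125, .inr 3,
  .inr 41, .inl (.ag (.p1 3 0 0) (.p2 5375441 0 1158)), .inr 3, .inr 5,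
  .inl (.p1 21613199 0 2323), .inr 9, .inl (.ag (.p1 3 0 0) (.p1 10843823 0 1645)), .inr 59,
  .inr 3, .inr 7,
  .inl (.ag (.p1 3 0 0) (.ag (.p1 3 0 0) (.ag (.p1 3 0 0) (.ag (.p1 3 0 0) (.ag (.p1 11 0 1) (.p1 227467 0 237)))))),
  .inr 3, .inr 31, .inr 5, .inr 9, .inr 13, .inr 7, .inr 3, .inr 5, .inr 17, .inr 3, .inr 53,
  .inl (.ag (.p1 3 0 0) (.ag (.p1 3 0 0) (.ag (.p2 353 0 8) (.p1 15739 0 62)))), .inr 27,
  .inl (.ag (.p1 3 0 0) (.ag (.p1 43 0 2) (.p1 508259 0 355))),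
  .inl (.ag (.p1 3 0 0) (.p1 11200643 0 1672)), .inr 3, .inr 11, .inr 5, .inr 3, .inr 49, .inr 67,
  .inr 9, .inr 5, .inr 19, .inr 3, .inr 17, .inr 7, .inr 3,
  .inl (.ag (.p1 11 0 1) (.p1 3822419 0 977)), .inl (.p1 22972847 0 2395), .inr 9]

theorem tbl11_ok : table1 1100 tbl11 = true := by decide +kernel

theorem tbl11_len : tbl11.length = 100 := by decide +kernel

/-- part 12 of the table -/
def tbl12 : List (Cert ⊕ ℕ) := [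
  .inl (.ag (.p1 3 0 0) (.ag (.p1 3 0 0) (.ag (.p1 3 0 0) (.ag (.p1 3 0 0) (.ag (.p1 3 0 0) (.p1 720299 0 423)))))),
  .inr 5, .inr 3, .inl (.ag (.p1 3 0 0) (.p2 5791241 0 1202)),
  .inl (.ag (.p1 3 0 0) (.ag (.p1 3 0 0) (.ag (.p1 3 2 0) (.p1 414347 0 321)))), .inr 3, .inr 25,
  .inr 11, .inr 27, .inr 7, .inr 47, .inr 3, .inr 13, .inr 23, .inr 3,
  .inl (.ag (.p1 3 0 0) (.p1 11814659 0 1718)), .inr 5, .inr 9, .inr 11,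
  .inl (.ag (.p1 3 0 0) (.p1 11892563 0 1723)), .inr 3, .inr 5,
  .inl (.ag (.p1 3 0 0) (.ag (.p1 563 0 11) (.p1 42379 0 102))), .inr 3, .inr 59, .inr 169,
  .inr 9, .inl (.ag (.p1 3 0 0) (.p2 6024569 0 1226)), .inl (.p1 24137567 0 2455), .inr 3, .inr 7,
  .inr 25, .inr 3, .inl (.ag (.p1 11 0 1) (.p1 4055747 0 1006)),
  .inl (.ag (.p1 3 0 0) (.ag (.p1 3 0 0) (.p1 6093491 0 1233))), .inr 81, .inr 5, .inr 49, .inr 3,
  .inl (.p1 24571847 0 2477), .inr 121, .inr 3, .inl (.ag (.p1 3 0 0) (.p1 12345479 0 1756)),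
  .inl (.ag (.mi 113 0 4 (.ag (.p1 3 0 0) (.ag (.p1 3 0 0) (.p1 3 2 0)))) (.p2 54713 0 116)),
  .inr 9, .inr 17, .inr 5, .inr 3, .inl (.p1 24930047 0 2495), .inr 19, .inr 3, .inr 5,
  .inl (.ag (.p1 3 0 0) (.ag (.p1 3 0 0) (.ag (.p1 3 0 0) (.p2 1568129 0 625)))), .inr 9, .inr 29,
  .inl (.ag (.p1 3 0 0) (.p2 6302609 0 1254)), .inr 3, .inr 47, .inr 7, .inr 3,
  .inl (.ag (.p1 3 0 0) (.ag (.p1 3 0 0) (.ag (.p1 19 0 1) (.p1 635291 0 398)))), .inr 5, .inr 27,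
  .inr 31, .inr 13, .inr 3, .inr 5, .inr 37, .inr 3, .inl (.ag (.p1 3 0 0) (.p2 6443981 0 1268)),
  .inl (.ag (.p1 3 0 0) (.p1 12908279 0 1795)), .inr 9, .inr 7, .inr 11, .inr 3,
  .inl (.ag (.p1 11 0 1) (.p1 4336699 0 1040)), .inr 5, .inr 3,
  .inl (.ag (.p1 3 0 0) (.ag (.p1 3 0 0) (.p1 6535691 0 1277))), .inr 7, .inr 9, .inr 125,
  .inr 23, .inr 3, .inr 11, .inr 53, .inr 3, .inr 19, .inl (.p1 26553407 0 2575), .inr 27,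
  .inr 13, .inr 5, .inr 3, .inr 7, .inr 31, .inr 3, .inr 5,
  .inl (.ag (.p1 11 0 1) (.p2 2243809 0 748)), .inr 9,
  .inl (.ag (.mi 113 0 4 (.ag (.p1 3 0 0) (.ag (.p1 3 0 0) (.p1 3 2 0)))) (.p2 59753 0 121))]

theorem tbl12_ok : table1 1200 tbl12 = true := by decide +kernel

theorem tbl12_len : tbl12.length = 100 := by decide +kernel

/-- part 13 of the table -/
def tbl13 : List (Cert ⊕ ℕ) := [
  .inr 7, .inr 3, .inl (.p1 27133679 0 2603), .inr 13, .inr 3, .inr 23, .inr 25, .inr 9,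
  .inl (.ag (.p1 3 0 0) (.ag (.p1 3 0 0) (.ag (.p1 3 0 0) (.p2 1711517 0 653)))),
  .inl (.ag (.p1 11 0 1) (.p2 2285513 0 755)), .inr 3, .inr 5, .inr 29, .inr 3, .inr 7,
  .inl (.ag (.p1 1051 0 15) (.p2 26309 0 80)), .inr 81, .inr 11,
  .inl (.ag (.p1 3 0 0) (.p1 13902263 0 1863)), .inr 3,
  .inl (.ag (.p1 3 0 0) (.ag (.p1 3 0 0) (.ag (.p1 3 0 0) (.ag (.p1 3 0 0) (.p1 1743059 0 659))))),
  .inr 5, .inr 3, .inr 67,
  .inl (.ag (.p1 3 0 0) (.ag (.p1 3 0 0) (.ag (.p1 3 0 0) (.p2 1753637 0 661)))), .inr 9, .inr 5,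
  .inl (.ag (.p1 19 0 1) (.p1 2818547 0 838)), .inr 3, .inr 13, .inr 17, .inr 3,
  .inl (.p1 28398239 0 2663), .inl (.p1 28440887 0 2665), .inr 9, .inr 49, .inr 5, .inr 3,
  .inr 53, .inr 11, .inr 3, .inr 5, .inr 7, .inr 27, .inr 19,
  .inl (.ag (.p1 59 0 3) (.p1 965171 0 490)), .inr 3, .inr 17,
  .inl (.ag (.p1 3 0 0) (.ag (.p1 3 0 0) (.p1 7271111 0 1347))), .inr 3, .inr 11, .inr 5, .inr 9,
  .inl (.ag (.p1 3 0 0) (.p1 14650283 0 1913)),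
  .inl (.ag (.p1 3 0 0) (.ag (.p1 3 0 0) (.p1 7335971 0 1353))), .inr 3, .inr 25, .inr 61, .inr 3,
  .inl (.ag (.p1 11 0 1) (.p2 2463413 0 784)),
  .inl (.ag (.p1 3 0 0) (.ag (.p1 3 0 0) (.ag (.p1 3 0 0) (.ag (.p1 3 0 0) (.p1 1850279 0 679))))),
  .inr 9, .inl (.ag (.p1 3 0 0) (.ag (.p1 19 0 1) (.p1 1484579 0 608))), .inr 7, .inr 3, .inr 43,
  .inr 5, .inr 3, .inr 13, .inl (.ag (.p1 3 0 0) (.p2 7499381 0 1368)), .inr 27, .inr 5, .inr 11,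
  .inr 3, .inr 23, .inl (.p1 30260999 0 2749), .inr 3, .inr 7, .inr 37, .inr 9,
  .inl (.ag (.p1 3 0 0) (.ag (.p1 3 0 0) (.ag (.p1 43 0 2) (.p2 173189 0 207)))), .inr 25, .inr 3,
  .inr 11, .inr 49, .inr 3, .inr 5, .inr 31, .inr 9, .inl (.ag (.p1 11 0 1) (.p2 2573353 0 801)),
  .inr 67, .inr 3, .inl (.ag (.p1 3 0 0) (.ag (.p1 3 0 0) (.p1 7753439 0 1391))),
  .inl (.p1 31058327 0 2785), .inr 3, .inl (.p1 31147559 0 2789), .inr 5, .inr 243, .inr 7,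
  .inr 29]

theorem tbl13_ok : table1 1300 tbl13 = true := by decide +kernel

theorem tbl13_len : tbl13.length = 100 := by decide +kernel

/-- part 14 of the table -/
def tbl14 : List (Cert ⊕ ℕ) := [
  .inr 3, .inr 5, .inr 71, .inr 3, .inr 41, .inr 7, .inr 9, .inr 13, .inr 43, .inr 3,
  .inl (.ag (.p1 3 0 0) (.p1 15910439 0 1993)), .inr 5, .inr 3,
  .inl (.ag (.p1 131 0 5) (.p2 242093 0 245)),
  .inl (.ag (.p1 3 0 0) (.ag (.p1 3 0 0) (.p1 8000411 0 1413))), .inr 9, .inr 5,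
  .inl (.ag (.p1 3 0 0) (.p1 16068779 0 2003)), .inr 3, .inr 7, .inr 13, .inr 3,
  .inl (.ag (.p1 3 0 0) (.ag (.p1 11 0 1) (.p1 2697059 0 820))), .inl (.p1 32410247 0 2845),
  .inr 27, .inr 0, .inr 5, .inr 3, .inr 29,
  .inl (.ag (.mi 953 0 14 (.ag (.p1 3 2 0) (.p1 67 0 3))) (.p2 8573 0 45)), .inr 3, .inr 25,
  .inr 17, .inr 9, .inl (.ag (.p1 3 0 0) (.ag (.p2 1433 0 18) (.p2 5737 0 37))),
  .inl (.ag (.p1 3 0 0) (.p1 16479539 0 2029)), .inr 3, .inl (.p1 33050999 0 2873), .inr 11,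
  .inr 3, .inr 7, .inr 5, .inr 9, .inr 23, .inr 53, .inr 3, .inr 5, .inr 7, .inr 3, .inr 11,
  .inl (.ag (.p1 3 0 0) (.p1 16825799 0 2050)), .inr 27, .inr 37,
  .inl (.ag (.p1 67 0 3) (.p1 993851 0 497)), .inr 3,
  .inl (.ag (.p1 11 0 1) (.p1 5647339 0 1187)), .inr 25, .inr 3, .inr 19, .inr 13, .inr 9, .inr 5,
  .inl (.ag (.p1 3 0 0) (.ag (.p1 11 0 1) (.p1 2850899 0 843))), .inr 3,
  .inl (.p1 34304447 0 2927), .inl (.ag (.p1 59 0 3) (.p2 572521 0 377)), .inr 3,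
  .inl (.ag (.p1 11 0 1) (.p2 2870429 0 846)), .inr 7, .inr 9,
  .inl (.ag (.p1 3 0 0) (.ag (.p1 11 0 1) (.p1 2882179 0 848))), .inr 5, .inr 3, .inr 71,
  .inl (.ag (.p1 3 0 0) (.ag (.p1 43 0 2) (.p1 790331 0 444))), .inr 3, .inr 5, .inr 19, .inr 81,
  .inr 61, .inr 31, .inr 3, .inr 49, .inr 17, .inr 3, .inr 13, .inr 5, .inr 9,
  .inl (.ag (.p1 3 0 0) (.p1 17719103 0 2104)), .inr 7, .inr 3, .inr 5, .inr 47, .inr 3, .inr 43,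
  .inl (.ag (.p1 11 0 1) (.p2 2981029 0 862)), .inr 9, .inr 53, .inr 13, .inr 3]

theorem tbl14_ok : table1 1400 tbl14 = true := by decide +kernel

theorem tbl14_len : tbl14.length = 100 := by decide +kernel

/-- part 15 of the table -/
def tbl15 : List (Cert ⊕ ℕ) := [
  .inr 17, .inr 5, .inr 3, .inr 7, .inr 11, .inr 27, .inr 25,
  .inl (.ag (.p1 179 0 6) (.p2 201937 0 224)), .inr 3,
  .inl (.ag (.p1 3 0 0) (.p1 18222683 0 2133)), .inr 7, .inr 3, .inr 23, .inr 0, .inr 9, .inr 11,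
  .inr 5, .inr 3, .inl (.ag (.p1 3 0 0) (.p1 18440663 0 2146)), .inr 59, .inr 3, .inr 5,
  .inl (.ag (.p1 3 0 0) (.ag (.p1 139 0 5) (.p1 264827 0 256))), .inr 9, .inr 7,
  .inl (.ag (.p1 11 0 1) (.p1 6203699 0 1244)), .inr 3, .inr 41,
  .inl (.ag (.p1 3 0 0) (.ag (.p1 3 0 0) (.ag (.p1 3 0 0) (.ag (.p1 3 0 0) (.p1 2335547 0 763))))),
  .inr 3, .inl (.ag (.p1 3 0 0) (.ag (.p1 3 0 0) (.p1 9366659 0 1529))), .inr 125, .inr 27,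
  .inl (.ag (.mi 73 0 3 (.p1 71 0 3)) (.p1 257627 0 253)), .inr 17, .inr 3, .inr 5, .inr 11,
  .inr 3, .inr 47, .inr 61, .inr 9, .inr 31, .inl (.ag (.p1 3 0 0) (.p1 19052963 0 2181)), .inr 3,
  .inr 7, .inr 5, .inr 3, .inr 11, .inl (.ag (.mi 1033 0 15 (.p1 1031 0 15)) (.p1 18587 0 67)),
  .inr 9, .inr 5, .inr 7, .inr 3, .inl (.p1 38651087 0 3107), .inl (.p1 38700839 0 3109), .inr 3,
  .inl (.ag (.p1 11 0 1) (.p2 3233369 0 898)), .inr 23, .inr 81,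
  .inl (.ag (.p1 3 0 0) (.ag (.p1 3 0 0) (.ag (.p1 3 0 0) (.ag (.p1 19 0 1) (.p2 243437 0 246))))),
  .inr 5, .inr 3, .inr 169,
  .inl (.ag (.p1 3 0 0) (.ag (.p1 3 0 0) (.ag (.p1 3 2 0) (.p2 349553 0 295)))), .inr 3, .inr 5,
  .inl (.ag (.p2 37 0 2) (.p1 1034219 0 507)), .inr 9,
  .inl (.ag (.p1 3 0 0) (.p1 19700363 0 2218)), .inr 11, .inr 3, .inr 19, .inr 7, .inr 3,
  .inl (.ag (.p1 139 0 5) (.p1 567179 0 376)), .inr 5, .inr 9, .inr 59,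
  .inl (.ag (.p1 11 0 1) (.p2 3325373 0 911)), .inr 3, .inr 25,
  .inl (.ag (.p1 3 0 0) (.p1 20028119 0 2237)), .inr 3, .inl (.p1 40157567 0 3167), .inr 17,
  .inr 27, .inr 7, .inl (.ag (.p1 3 0 0) (.ag (.p1 3 0 0) (.p1 10090151 0 1587))), .inr 3,
  .inl (.p1 40462319 0 3179), .inr 5, .inr 3, .inl (.ag (.p1 11 0 1) (.p2 3384593 0 919)), .inr 7,
  .inr 9, .inr 5, .inl (.ag (.p1 11 0 1) (.p1 6803219 0 1303)), .inr 3,
  .inl (.ag (.p1 11 0 1) (.p1 6820267 0 1305))]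

theorem tbl15_ok : table1 1500 tbl15 = true := by decide +kernel

theorem tbl15_len : tbl15.length = 100 := by decide +kernel

theorem had_sq {v : ℕ} (hv : IsPrimePow v) (hv4 : v % 4 = 1) (hx : v ∉ exc1)
    (hlo : 0 ≤ v) (hhi : v < 6400) : Pool.Agent.H108R3.Had.HasHad (v ^ 2 - 1) := by
  by_cases h0 : v < 400
  · exact table1_spec tbl0 0 tbl0_ok v hv4 (by omega) (by rw [tbl0_len]; omega) hv hx
  by_cases h1 : v < 800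
  · exact table1_spec tbl1 100 tbl1_ok v hv4 (by omega) (by rw [tbl1_len]; omega) hv hx
  by_cases h2 : v < 1200
  · exact table1_spec tbl2 200 tbl2_ok v hv4 (by omega) (by rw [tbl2_len]; omega) hv hx
  by_cases h3 : v < 1600
  · exact table1_spec tbl3 300 tbl3_ok v hv4 (by omega) (by rw [tbl3_len]; omega) hv hx
  by_cases h4 : v < 2000
  · exact table1_spec tbl4 400 tbl4_ok v hv4 (by omega) (by rw [tbl4_len]; omega) hv hx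
  by_cases h5 : v < 2400
  · exact table1_spec tbl5 500 tbl5_ok v hv4 (by omega) (by rw [tbl5_len]; omega) hv hx
  by_cases h6 : v < 2800
  · exact table1_spec tbl6 600 tbl6_ok v hv4 (by omega) (by rw [tbl6_len]; omega) hv hx
  by_cases h7 : v < 3200
  · exact table1_spec tbl7 700 tbl7_ok v hv4 (by omega) (by rw [tbl7_len]; omega) hv hx
  by_cases h8 : v < 3600
  · exact table1_spec tbl8 800 tbl8_ok v hv4 (by omega) (by rw [tbl8_len]; omega) hv hx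
  by_cases h9 : v < 4000
  · exact table1_spec tbl9 900 tbl9_ok v hv4 (by omega) (by rw [tbl9_len]; omega) hv hx
  by_cases h10 : v < 4400
  · exact table1_spec tbl10 1000 tbl10_ok v hv4 (by omega) (by rw [tbl10_len]; omega) hv hx
  by_cases h11 : v < 4800
  · exact table1_spec tbl11 1100 tbl11_ok v hv4 (by omega) (by rw [tbl11_len]; omega) hv hx
  by_cases h12 : v < 5200
  · exact table1_spec tbl12 1200 tbl12_ok v hv4 (by omega) (by rw [tbl12_len]; omega) hv hx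
  by_cases h13 : v < 5600
  · exact table1_spec tbl13 1300 tbl13_ok v hv4 (by omega) (by rw [tbl13_len]; omega) hv hx
  by_cases h14 : v < 6000
  · exact table1_spec tbl14 1400 tbl14_ok v hv4 (by omega) (by rw [tbl14_len]; omega) hv hx
  by_cases h15 : v < 6400
  · exact table1_spec tbl15 1500 tbl15_ok v hv4 (by omega) (by rw [tbl15_len]; omega) hv hx
  omega

end Pool.Agent.K9h69.Menon.S0
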